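import Mathlib

/-!
Bang's theorem: for `n ≥ 2`, `n ≠ 6`, there is a prime `q` such that `2` has order `n` modulo `q`.
-/

namespace Pool.Agent.Lib.MP_416699_nt

open Polynomial

/-- The order of `2` modulo a prime divisor of the value of the cyclotomic polynomial at `2`. -/
lemma bang_order {n k m r : ℕ} (hr : r.Prime) (hn : n = r ^ k * m) (hm : ¬ r ∣ m)
    (hd : (r : ℤ) ∣ (cyclotomic n ℤ).eval 2) : orderOf (2 : ZMod r) = m := by
  have : Fact r.Prime := ⟨hr⟩
  have hroot : (cyclotomic n (ZMod r)).IsRoot 2 := by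
    rw [IsRoot.def, ← map_cyclotomic_int n (ZMod r)]
    have e : (2 : ZMod r) = (Int.castRingHom (ZMod r)) 2 := by simp
    rw [e, eval_map, eval₂_hom]
    simpa using (ZMod.intCast_zmod_eq_zero_iff_dvd _ r).2 hd
  rw [hn] at hroot
  have : NeZero ((m : ℕ) : ZMod r) := ⟨by
    rw [Ne, ZMod.natCast_eq_zero_iff]; exact hm⟩
  exact (isRoot_cyclotomic_prime_pow_mul_iff_of_charP.1 hroot).eq_orderOf.symm

/-- The square of the bad prime does not divide the value. -/
lemma bang_sq {n p : ℕ} (hp : p.Prime) (hodd : Odd p) (hpn : p ∣ n) (hn0 : 0 < n)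
    (hx : (p : ℤ) ∣ 2 ^ (n / p) - 1) : ¬ ((p : ℤ) ^ 2 ∣ (cyclotomic n ℤ).eval 2) := by
  intro h
  obtain ⟨d, hd⟩ := hpn
  have hp0 : 0 < p := hp.pos
  have hdiv : n / p = d := by rw [hd]; exact Nat.mul_div_cancel_left d hp0
  rw [hdiv] at hx
  have hd0 : 0 < d := by
    rcases Nat.eq_zero_or_pos d with h | h
    · subst h; omega
    · exact h
  have hprop : d ∈ n.properDivisors := by
    rw [Nat.mem_properDivisors]
    refine ⟨⟨p, by rw [hd, mul_comm]⟩, ?_⟩
    rw [hd]
    have := hp.two_le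
    nlinarith
  have h1 := X_pow_sub_one_mul_cyclotomic_dvd_X_pow_sub_one_of_dvd ℤ hprop
  have h2 : ((X ^ d - 1) * cyclotomic n ℤ : ℤ[X]).eval 2 ∣ (X ^ n - 1 : ℤ[X]).eval 2 :=
    eval_dvd h1
  simp only [eval_mul, eval_sub, eval_pow, eval_X, eval_one] at h2
  obtain ⟨b, hb⟩ := hx
  have hgeom : (2 : ℤ) ^ n - 1 = (2 ^ d - 1) * ∑ i ∈ Finset.range p, ((2 : ℤ) ^ d) ^ i := by
    rw [mul_geom_sum, ← pow_mul, hd, mul_comm p d]
  rw [hgeom] at h2
  have hne : (2 : ℤ) ^ d - 1 ≠ 0 := by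
    have : (2 : ℤ) ^ 1 ≤ 2 ^ d := pow_le_pow_right₀ (by norm_num) hd0
    intro h
    linarith
  have h3 : (cyclotomic n ℤ).eval 2 ∣ ∑ i ∈ Finset.range p, ((2 : ℤ) ^ d) ^ i :=
    (mul_dvd_mul_iff_left hne).1 h2
  have h4 := h.trans h3
  have h5 := odd_sq_dvd_geom_sum₂_sub (a := (1 : ℤ)) (b := b) hodd
  have e1 : (1 : ℤ) + p * b = 2 ^ d := by linarith
  simp only [one_pow, mul_one, e1] at h5
  have h6 : ((p : ℤ) ^ 2) ∣ p := by
    have := dvd_sub h4 h5
    simpa using this
  have h7 : (p : ℤ) ^ 2 ≤ p := Int.le_of_dvd (by exact_mod_cast hp0) h6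
  have h8 : (2 : ℤ) ≤ p := by exact_mod_cast hp.two_le
  nlinarith

/-- The lower bound that leaves only `n = 6`. -/
lemma bang_bound {k m p : ℕ} (hp : p.Prime) (hodd : Odd p) (hk : 1 ≤ k) (hm : ¬ p ∣ m)
    (hm0 : 0 < m) (hc : (cyclotomic (p ^ k * m) ℤ).eval 2 = p) : p = 3 ∧ k = 1 := by
  set y : ℕ := 2 ^ (p ^ (k - 1)) with hy
  have hy2 : 2 ≤ y := by
    have h0 : 1 ≤ p ^ (k - 1) := Nat.one_le_pow _ _ hp.pos
    calc 2 = 2 ^ 1 := rfl
      _ ≤ 2 ^ (p ^ (k - 1)) := Nat.pow_le_pow_right (by norm_num) h0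
  -- reduction to `y`
  have hred : ∀ j : ℕ, cyclotomic (p ^ (j + 1) * m) ℤ
      = expand ℤ (p ^ j) (cyclotomic (p * m) ℤ) := by
    intro j
    induction j with
    | zero => simp
    | succ j ih =>
      have h1 : p ^ (j + 1 + 1) * m = (p ^ (j + 1) * m) * p := by ring
      rw [h1, ← cyclotomic_expand_eq_cyclotomic hp (by
        rw [pow_succ]; exact ⟨p ^ j * m, by ring⟩), ih, expand_expand, ← pow_succ']
  have hred2 : (cyclotomic (p * m) ℤ).eval (y : ℤ) = p := by
    have h1 := hred (k - 1)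
    rw [Nat.sub_add_cancel hk] at h1
    rw [h1, expand_eval] at hc
    rw [hy]
    push_cast
    exact hc
  have hmul := cyclotomic_expand_eq_cyclotomic_mul hp hm ℤ
  have hval : (cyclotomic m ℤ).eval ((y : ℤ) ^ p) = p * (cyclotomic m ℤ).eval (y : ℤ) := by
    have := congrArg (fun f => f.eval (y : ℤ)) hmul
    simp only [expand_eval, eval_mul] at this
    rw [this, mul_comm m p, hred2]
  -- real version
  have hcast : ∀ t : ℤ, (((cyclotomic m ℤ).eval t : ℤ) : ℝ) = (cyclotomic m ℝ).eval (t : ℝ) := by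
    intro t
    rw [← map_cyclotomic_int m ℝ, eval_intCast_map]
    simp
  have hvalR : (cyclotomic m ℝ).eval ((y : ℝ) ^ p) = p * (cyclotomic m ℝ).eval (y : ℝ) := by
    have h1 := congrArg (fun t : ℤ => (t : ℝ)) hval
    beta_reduce at h1
    rw [hcast] at h1
    push_cast at h1
    rw [hcast] at h1
    push_cast at h1
    exact h1
  have hyR : (2 : ℝ) ≤ y := by exact_mod_cast hy2
  have hp3 : 3 ≤ p := by
    have h2 := hp.two_le
    obtain ⟨a, ha⟩ := hodd
    omega
  have hyp : (1 : ℝ) < (y : ℝ) ^ p := one_lt_pow₀ (by linarith) (by omega)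
  have hlow := sub_one_pow_totient_le_cyclotomic_eval hyp m
  have hupp := cyclotomic_eval_le_add_one_pow_totient (q := (y : ℝ)) (by linarith) m
  have hp0 : (0 : ℝ) ≤ p := Nat.cast_nonneg p
  have hkey : ((y : ℝ) ^ p - 1) ^ m.totient ≤ p * ((y : ℝ) + 1) ^ m.totient := by
    calc _ ≤ _ := hlow
      _ = p * (cyclotomic m ℝ).eval (y : ℝ) := hvalR
      _ ≤ _ := mul_le_mul_of_nonneg_left hupp hp0
  have ht : 1 ≤ m.totient := Nat.totient_pos.2 hm0
  have hy1 : (0 : ℝ) < y + 1 := by linarith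
  have hratio : (((y : ℝ) ^ p - 1) / (y + 1)) ^ m.totient ≤ p := by
    rw [div_pow, div_le_iff₀ (by positivity)]
    exact hkey
  have hbase : (1 : ℝ) ≤ ((y : ℝ) ^ p - 1) / (y + 1) := by
    rw [le_div_iff₀ hy1]
    have h1 : (y : ℝ) ^ 3 ≤ (y : ℝ) ^ p := pow_le_pow_right₀ (by linarith) hp3
    have h2 : (4 : ℝ) ≤ (y : ℝ) ^ 2 := by nlinarith
    have h3 : (y : ℝ) ^ 3 = (y : ℝ) ^ 2 * y := by ring
    have h4 : 4 * (y : ℝ) ≤ (y : ℝ) ^ 2 * y := mul_le_mul_of_nonneg_right h2 (by linarith)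
    linarith
  have hfin : ((y : ℝ) ^ p - 1) / (y + 1) ≤ p := by
    calc _ = (((y : ℝ) ^ p - 1) / (y + 1)) ^ 1 := (pow_one _).symm
      _ ≤ (((y : ℝ) ^ p - 1) / (y + 1)) ^ m.totient := pow_le_pow_right₀ hbase ht
      _ ≤ p := hratio
  rw [div_le_iff₀ hy1] at hfin
  have hfinN : y ^ p ≤ p * (y + 1) + 1 := by
    have : (y : ℝ) ^ p ≤ p * (y + 1) + 1 := by linarith
    exact_mod_cast this
  have hp5 : p = 3 := by
    by_contra hne
    have h5 : 5 ≤ p := by
      obtain ⟨a, ha⟩ := hodd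
      omega
    have h2p : ∀ q : ℕ, 5 ≤ q → 3 * q + 1 ≤ 2 ^ (q - 1) := by
      intro q hq
      induction q, hq using Nat.le_induction with
      | base => norm_num
      | succ q hq ih =>
        have e : q + 1 - 1 = (q - 1) + 1 := by omega
        rw [e, pow_succ]
        omega
    have h1 := h2p p h5
    have h2 : 2 ^ (p - 1) ≤ y ^ (p - 1) := Nat.pow_le_pow_left hy2 _
    have h3 : y ^ p = y ^ (p - 1) * y := by
      rw [← pow_succ]
      congr 1
      omega
    have h4 : (3 * p + 1) * y ≤ y ^ p := by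
      rw [h3]
      exact Nat.mul_le_mul_right y (h1.trans h2)
    nlinarith
  refine ⟨hp5, ?_⟩
  subst hp5
  have hy3 : y < 4 := by
    by_contra h
    push Not at h
    have h1 : 4 * 4 * y ≤ y * y * y :=
      Nat.mul_le_mul_right y (Nat.mul_le_mul h h)
    have h2 : y * y * y = y ^ 3 := by ring
    omega
  have hk' : k - 1 = 0 := by
    by_contra h
    have h1 : 3 ^ 1 ≤ 3 ^ (k - 1) := Nat.pow_le_pow_right (by norm_num) (by omega)
    have h2 : 2 ^ 3 ≤ y := by
      rw [hy]
      exact Nat.pow_le_pow_right (by norm_num) (by simpa using h1)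
    omega
  omega

/-- R2: Bang's theorem (Zsigmondy for base 2). -/
theorem bang_two (n : ℕ) (hn : 2 ≤ n) (h6 : n ≠ 6) :
    ∃ q : ℕ, q.Prime ∧ orderOf (2 : ZMod q) = n := by
  by_contra hcon
  push Not at hcon
  set c : ℕ := ((cyclotomic n ℤ).eval 2).natAbs with hc
  have hc1 : 1 < c := by
    have := sub_one_lt_natAbs_cyclotomic_eval (n := n) (q := 2) (by omega) (by norm_num)
    simpa using this
  have hpos : 0 < (cyclotomic n ℤ).eval 2 := by
    have := cyclotomic_pos' n (R := ℤ) (x := 2) (by norm_num)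
    exact this
  have hcZ : (c : ℤ) = (cyclotomic n ℤ).eval 2 := by
    rw [hc]
    exact Int.natAbs_of_nonneg hpos.le
  -- structure at a prime divisor
  have hst : ∀ r : ℕ, r.Prime → r ∣ c → ∃ k m : ℕ, 1 ≤ k ∧ ¬ r ∣ m ∧ n = r ^ k * m ∧
      orderOf (2 : ZMod r) = m ∧ m ∣ r - 1 ∧ 0 < m := by
    intro r hr hrc
    obtain ⟨k, m, hm, hnm⟩ := Nat.exists_eq_pow_mul_and_not_dvd (n := n) (by omega) r hr.ne_one
    have hd : (r : ℤ) ∣ (cyclotomic n ℤ).eval 2 := by
      rw [← hcZ]; exact_mod_cast hrc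
    have hord := bang_order hr hnm hm hd
    have hm0 : 0 < m := by
      rcases Nat.eq_zero_or_pos m with h | h
      · subst h; simp at hm
      · exact h
    refine ⟨k, m, ?_, hm, hnm, hord, ?_, hm0⟩
    · rcases Nat.eq_zero_or_pos k with h | h
      · subst h
        rw [pow_zero, one_mul] at hnm
        exact absurd (hnm ▸ hord) (hcon r hr)
      · exact h
    · have : Fact r.Prime := ⟨hr⟩
      rw [← hord]
      apply ZMod.orderOf_dvd_card_sub_one
      intro h2
      rw [h2, orderOf_zero] at hord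
      omega
  obtain ⟨p, hp, hpc⟩ := Nat.exists_prime_and_dvd (n := c) (by omega)
  obtain ⟨k, m, hk, hm, hnm, hord, hmp, hm0⟩ := hst p hp hpc
  have hmle : m < p := by
    have := Nat.le_of_dvd (by have := hp.two_le; omega) hmp
    have := hp.two_le
    omega
  have huniq : ∀ {r : ℕ}, r.Prime → r ∣ c → r = p := by
    intro r hr hrc
    obtain ⟨k', m', hk', hm', hnm', hord', hmp', hm0'⟩ := hst r hr hrc
    have hm'le : m' < r := by
      have := Nat.le_of_dvd (by have := hr.two_le; omega) hmp'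
      have := hr.two_le
      omega
    by_contra hne
    have h1 : r ∣ m := by
      have : r ∣ p ^ k * m := by
        rw [← hnm, hnm']
        exact Dvd.dvd.mul_right (dvd_pow_self r (by omega)) m'
      rcases (hr.dvd_mul).1 this with h | h
      · exact absurd ((Nat.prime_dvd_prime_iff_eq hr hp).1 (hr.dvd_of_dvd_pow h)) hne
      · exact h
    have h2 : p ∣ m' := by
      have : p ∣ r ^ k' * m' := by
        rw [← hnm', hnm]
        exact Dvd.dvd.mul_right (dvd_pow_self p (by omega)) m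
      rcases (hp.dvd_mul).1 this with h | h
      · exact absurd ((Nat.prime_dvd_prime_iff_eq hp hr).1 (hp.dvd_of_dvd_pow h)).symm hne
      · exact h
    have h3 := Nat.le_of_dvd hm0 h1
    have h4 := Nat.le_of_dvd hm0' h2
    omega
  -- `p` is odd
  have hodd : Odd p := by
    rcases hp.eq_two_or_odd' with h | h
    · exfalso
      subst h
      have h2 : (2 : ZMod 2) = 0 := by decide
      rw [h2, orderOf_zero] at hord
      omega
    · exact h
  have hpn : p ∣ n := by
    rw [hnm]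
    exact Dvd.dvd.mul_right (dvd_pow_self p (by omega)) m
  have hx : (p : ℤ) ∣ 2 ^ (n / p) - 1 := by
    have h1 : n / p = m * p ^ (k - 1) := by
      rw [hnm]
      obtain ⟨k', rfl⟩ : ∃ k', k = k' + 1 := ⟨k - 1, by omega⟩
      rw [pow_succ]
      have : p ^ k' * p * m = p * (m * p ^ k') := by ring
      rw [this, Nat.mul_div_cancel_left _ hp.pos]
      simp
    have h2 : ((2 : ZMod p)) ^ (n / p) = 1 := by
      rw [h1, pow_mul, ← hord, pow_orderOf_eq_one, one_pow]
    rw [← ZMod.intCast_zmod_eq_zero_iff_dvd]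
    push_cast
    rw [h2, sub_self]
  have hsq := bang_sq hp hodd hpn (by omega) hx
  have hcp : c = p := by
    have h1 := Nat.eq_prime_pow_of_unique_prime_dvd (n := c) (p := p) (by omega) huniq
    set a := c.primeFactorsList.length with ha
    have ha1 : a = 1 := by
      by_contra hne
      rcases Nat.eq_zero_or_pos a with h | h
      · rw [h, pow_zero] at h1; omega
      · apply hsq
        rw [← hcZ, h1]
        push_cast
        exact pow_dvd_pow _ (by omega)
    rw [ha1, pow_one] at h1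
    exact h1
  have hval : (cyclotomic (p ^ k * m) ℤ).eval 2 = p := by
    rw [← hnm, ← hcZ, hcp]
  obtain ⟨hp3, hk1⟩ := bang_bound hp hodd hk hm hm0 hval
  subst hp3
  subst hk1
  have hm2 : m = 2 := by
    have h1 : orderOf (2 : ZMod 3) = 2 := by
      apply orderOf_eq_prime <;> decide
    rw [h1] at hord
    exact hord.symm
  apply h6
  rw [hnm, hm2]
  norm_num

end Pool.Agent.Lib.MP_416699_nt
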