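import Pool.Agent.Lib.MP_416699_nt.Schoen

/-!
Tools for the pigeonhole argument: a basis of `ℤ[c]` which is small on the Mandelbrot set,
and degree bounds.
-/

open Polynomial

namespace Pool.Agent.Lib.MP_416699_nt

/-- A monic polynomial of degree `i`, a product of distinct `a k`. -/
noncomputable def bs : ℕ → ℤ[X]
  | 0 => 1
  | i + 1 => a (Nat.log 2 (i + 1) + 1) * bs (i + 1 - 2 ^ Nat.log 2 (i + 1))
termination_by i => i
decreasing_by
  have : 0 < 2 ^ Nat.log 2 (i + 1) := by positivity
  lia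

lemma bs_succ (i : ℕ) :
    bs (i + 1) = a (Nat.log 2 (i + 1) + 1) * bs (i + 1 - 2 ^ Nat.log 2 (i + 1)) := by
  rw [bs]

lemma bs_monic_natDegree (i : ℕ) : (bs i).Monic ∧ (bs i).natDegree = i := by
  induction i using Nat.strong_induction_on with
  | _ i ih =>
  rcases i with - | i
  · rw [bs]; simp
  · have hpos : 0 < 2 ^ Nat.log 2 (i + 1) := by positivity
    have hle : 2 ^ Nat.log 2 (i + 1) ≤ i + 1 := Nat.pow_log_le_self 2 (Nat.succ_ne_zero i)
    have h1 := ih (i + 1 - 2 ^ Nat.log 2 (i + 1)) (by lia)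
    have h2 := a_monic_natDegree (Nat.log 2 (i + 1))
    rw [bs_succ]
    refine ⟨h2.1.mul h1.1, ?_⟩
    rw [h2.1.natDegree_mul h1.1, h2.2, h1.2]
    lia

lemma norm_bs_le {c : ℂ} (hc : ∀ k, ‖aeval c (a k)‖ ≤ 2) (i : ℕ) :
    ‖aeval c (bs i)‖ ≤ i + 1 := by
  induction i using Nat.strong_induction_on with
  | _ i ih =>
  rcases i with - | i
  · rw [bs]; simp
  · have hpos : 0 < 2 ^ Nat.log 2 (i + 1) := by positivity
    have hle : 2 ^ Nat.log 2 (i + 1) ≤ i + 1 := Nat.pow_log_le_self 2 (Nat.succ_ne_zero i)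
    have hlt : i + 1 < 2 ^ (Nat.log 2 (i + 1) + 1) := Nat.lt_pow_succ_log_self (by norm_num) _
    have h1 := ih (i + 1 - 2 ^ Nat.log 2 (i + 1)) (by lia)
    rw [bs_succ, map_mul, norm_mul]
    have h2 := hc (Nat.log 2 (i + 1) + 1)
    have h3 : ‖aeval c (a (Nat.log 2 (i + 1) + 1))‖ *
        ‖aeval c (bs (i + 1 - 2 ^ Nat.log 2 (i + 1)))‖ ≤
        2 * ((i + 1 - 2 ^ Nat.log 2 (i + 1) : ℕ) + 1) := by
      apply mul_le_mul h2 h1 (norm_nonneg _) (by norm_num)
    refine h3.trans ?_
    have h4 : 2 * ((i + 1 - 2 ^ Nat.log 2 (i + 1)) + 1) ≤ (i + 1) + 1 := by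
      rw [pow_succ] at hlt
      lia
    calc 2 * (((i + 1 - 2 ^ Nat.log 2 (i + 1) : ℕ) : ℝ) + 1)
        = ((2 * ((i + 1 - 2 ^ Nat.log 2 (i + 1)) + 1) : ℕ) : ℝ) := by push_cast; ring
      _ ≤ (((i + 1) + 1 : ℕ) : ℝ) := by exact_mod_cast h4
      _ = _ := by push_cast; ring

lemma exists_bs_repr (N : ℕ) (h : ℤ[X]) (hN : h.degree < N) :
    ∃ t : ℕ → ℤ, h = ∑ i ∈ Finset.range N, C (t i) * bs i := by
  induction N generalizing h with
  | zero =>
    refine ⟨fun _ => 0, ?_⟩
    have : h = 0 := by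
      rw [← degree_eq_bot]
      by_contra hcon
      have h0 : h ≠ 0 := by rintro rfl; simp at hcon
      rw [degree_eq_natDegree h0] at hN
      exact absurd (by exact_mod_cast hN : h.natDegree < 0) (Nat.not_lt_zero _)
    simp [this]
  | succ N ih =>
    have hb := bs_monic_natDegree N
    have hdb : (bs N).degree = N := by rw [degree_eq_natDegree hb.1.ne_zero, hb.2]
    have h1 : (h - C (h.coeff N) * bs N).degree < N := by
      rw [degree_lt_iff_coeff_zero]
      intro k hk
      rw [coeff_sub, coeff_C_mul]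
      rcases eq_or_lt_of_le hk with rfl | hk'
      · have : (bs N).coeff N = 1 := by
          have := hb.1.coeff_natDegree
          rwa [hb.2] at this
        rw [this]; ring
      · have e1 : h.coeff k = 0 := by
          apply coeff_eq_zero_of_degree_lt
          refine hN.trans_le ?_
          exact_mod_cast hk'
        have e2 : (bs N).coeff k = 0 := by
          apply coeff_eq_zero_of_degree_lt
          rw [hdb]
          exact_mod_cast hk'
        rw [e1, e2]; ring
    obtain ⟨t, ht⟩ := ih _ h1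
    refine ⟨fun i => if i = N then h.coeff N else t i, ?_⟩
    rw [Finset.sum_range_succ]
    simp only [if_true]
    have : ∑ i ∈ Finset.range N, C (if i = N then h.coeff N else t i) * bs i =
        ∑ i ∈ Finset.range N, C (t i) * bs i := by
      refine Finset.sum_congr rfl fun i hi => ?_
      rw [if_neg (Finset.mem_range.1 hi).ne]
    rw [this, ← ht]
    ring

/-- All coefficients (polynomials in `c`) have degree at most `N`. -/
def CD (h : ℤ[X][X]) (N : ℕ) : Prop := ∀ j, (h.coeff j).natDegree ≤ N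

lemma CD.mono {h : ℤ[X][X]} {N M : ℕ} (hh : CD h N) (hNM : N ≤ M) : CD h M :=
  fun j => (hh j).trans hNM

lemma exists_CD (h : ℤ[X][X]) : ∃ N, CD h N := by
  refine ⟨h.support.sup fun j => (h.coeff j).natDegree, fun j => ?_⟩
  by_cases hj : j ∈ h.support
  · exact Finset.le_sup (f := fun j => (h.coeff j).natDegree) hj
  · rw [notMem_support_iff.1 hj]; simp

lemma CD.mul {h g : ℤ[X][X]} {N M : ℕ} (hh : CD h N) (hg : CD g M) : CD (h * g) (N + M) := by
  intro j
  rw [coeff_mul]
  apply natDegree_sum_le_of_forall_le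
  intro x _
  exact natDegree_mul_le.trans (add_le_add (hh _) (hg _))

lemma CD.sub {h g : ℤ[X][X]} {N : ℕ} (hh : CD h N) (hg : CD g N) : CD (h - g) N := by
  intro j
  rw [coeff_sub]
  exact (natDegree_sub_le _ _).trans (max_le (hh _) (hg _))

lemma CD.pow {h : ℤ[X][X]} {N : ℕ} (hh : CD h N) (k : ℕ) : CD (h ^ k) (k * N) := by
  induction k with
  | zero =>
    intro j
    rw [pow_zero, coeff_one]
    split_ifs <;> simp
  | succ k ih =>
    rw [pow_succ, Nat.succ_mul]
    exact ih.mul hh

lemma CD_C_mul_X_pow {p : ℤ[X]} {N : ℕ} (hp : p.natDegree ≤ N) (k : ℕ) :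
    CD (C p * X ^ k) N := by
  intro j
  rw [coeff_C_mul_X_pow]
  split_ifs
  · exact hp
  · simp

lemma CD.modByMonic {F : ℤ[X][X]} (hF : F.Monic) (hF0 : F.natDegree ≠ 0) {d : ℕ} (hd : CD F d)
    (Z : ℕ) {h : ℤ[X][X]} {N : ℕ} (hZ : h.natDegree ≤ Z) (hh : CD h N) :
    CD (h %ₘ F) (N + (Z + 1) * d) := by
  induction Z generalizing h N with
  | zero =>
    have : h %ₘ F = h := by
      rw [modByMonic_eq_self_iff hF]
      refine lt_of_le_of_lt (degree_le_natDegree.trans ?_)
        ((natDegree_pos_iff_degree_pos).1 (Nat.pos_of_ne_zero hF0))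
      exact_mod_cast hZ
    rw [this]
    exact hh.mono (by lia)
  | succ Z ih =>
    by_cases hlt : h.degree < F.degree
    · rw [(modByMonic_eq_self_iff hF).2 hlt]
      exact hh.mono (by lia)
    · rw [not_lt] at hlt
      have h0 : h ≠ 0 := by
        rintro rfl
        rw [degree_zero, le_bot_iff, degree_eq_bot] at hlt
        exact hF.ne_zero hlt
      have hdeg := div_wf_lemma ⟨hlt, h0⟩ hF
      set h' := h - F * (C (leadingCoeff h) * X ^ (natDegree h - natDegree F)) with hh'
      have hmod : h %ₘ F = h' %ₘ F := by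
        have : h = h' + F * (C (leadingCoeff h) * X ^ (natDegree h - natDegree F)) := by
          rw [hh']; ring
        conv_lhs => rw [this]
        rw [add_modByMonic, (modByMonic_eq_zero_iff_dvd hF).2 (dvd_mul_right _ _), add_zero]
      have hdeg' : h'.natDegree ≤ Z := by
        by_cases h'0 : h' = 0
        · rw [h'0]; simp
        · have := natDegree_lt_natDegree h'0 hdeg
          lia
      have hcd : CD h' (N + d) := by
        apply CD.sub (hh.mono (by lia))
        rw [mul_comm, add_comm]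
        have := (CD_C_mul_X_pow (hh h.natDegree) (natDegree h - natDegree F)).mul hd
        rw [add_comm d N]
        exact this
      rw [hmod]
      exact (ih hdeg' hcd).mono (by ring_nf; lia)

end Pool.Agent.Lib.MP_416699_nt
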