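import Pool.Agent.Lib.MP_416699_nt.CapA

/-!
The non-divisibility lemma and the pigeonhole argument.
-/

open Polynomial

namespace Pool.Agent.Lib.MP_416699_nt

/-- `z ^ 2 + z + c` over the integers. -/
noncomputable def wZ : ℤ[X][X] := X ^ 2 + X + C X

/-- `P(z ^ 2 + z + c)`. -/
noncomputable def beta (P : ℤ[X]) : ℤ[X][X] := aeval wZ P

lemma map_red_beta (P : ℤ[X]) : (beta P).map red = aeval w (red P) := by
  have h := Polynomial.hom_eval₂ P (algebraMap ℤ ℤ[X][X]) (mapRingHom red) wZ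
  rw [beta, aeval_def]
  change mapRingHom red _ = _
  rw [h, aeval_def]
  change _ = eval₂ _ _ (Polynomial.map (Int.castRingHom (ZMod 2)) P)
  rw [eval₂_map]
  congr 1
  · exact RingHom.ext_int _ _
  · simp [wZ, w]

lemma map_red_eq_zero {x : ℤ[X][X]} (h : x.map red = 0) : ∃ y, x = 2 * y := by
  have h1 : (C (2 : ℤ[X])) ∣ x := by
    rw [C_dvd_iff_dvd_coeff]
    intro i
    have h2 := congrArg (fun q => coeff q i) h
    simp only [coeff_map, coeff_zero] at h2
    obtain ⟨y, hy⟩ := red_eq_zero h2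
    exact ⟨y, hy⟩
  obtain ⟨y, hy⟩ := h1
  have e : (C (2 : ℤ[X]) : ℤ[X][X]) = 2 := map_ofNat C 2
  exact ⟨y, by rw [hy, e]⟩

lemma two_red : (2 : ℤ[X][X]).map red = 0 := by
  rw [Polynomial.map_ofNat]
  exact CharTwo.two_eq_zero

theorem nondiv {n : ℕ} (hn : n ≠ 0) {P₁ P₂ : ℤ[X]} (hP₂ : (red P₂).Monic)
    (hprod : red P₁ * red P₂ = red (Gl n)) (hcop : IsCoprime (red P₁) (red P₂)) (K e : ℕ)
    (ω X₀ Y₀ : ℤ[X][X]) (hω : ω.degree < (2 * (red P₂).natDegree : ℕ))
    (h : beta P₁ ^ K * ω = 2 ^ e * X₀ + Phi n * Y₀) : ∃ ω', ω = 2 ^ e * ω' := by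
  induction e generalizing ω X₀ Y₀ with
  | zero => exact ⟨ω, by simp⟩
  | succ e ih =>
    have hPhi : (Phi n).map red = aeval w (red P₁) * aeval w (red P₂) := by
      rw [map_red_Phi hn, ← hprod, map_mul]
    have hPhi0 : (Phi n).map red ≠ 0 := ((Phi_monic hn).map _).ne_zero
    have h1 := congrArg (Polynomial.map red) h
    simp only [Polynomial.map_mul, Polynomial.map_add, Polynomial.map_pow, two_red, map_red_beta,
      pow_succ, mul_zero, zero_mul, zero_add, hPhi] at h1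
    have hdvd : aeval w (red P₂) ∣ ω.map red := by
      have h2 : aeval w (red P₂) ∣ aeval w (red P₁) ^ K * ω.map red := by
        rw [h1, mul_assoc]
        exact Dvd.dvd.mul_left (dvd_mul_right _ _) _
      have h3 : IsCoprime (aeval w (red P₂)) (aeval w (red P₁) ^ K) := by
        have := (hcop.symm.map (aeval w : (ZMod 2)[X] →ₐ[ZMod 2] (ZMod 2)[X][X]).toRingHom)
        exact this.pow_right
      exact h3.dvd_of_dvd_mul_left h2
    have hzero : ω.map red = 0 := by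
      have hw := aeval_w_monic hP₂
      by_contra hne
      have h3 := degree_le_of_dvd hdvd hne
      rw [degree_eq_natDegree hw.1.ne_zero, hw.2] at h3
      have h4 : (ω.map red).degree ≤ ω.degree := degree_map_le
      exact absurd (h3.trans h4) (not_le.2 hω)
    obtain ⟨ω₁, rfl⟩ := map_red_eq_zero hzero
    have hY : Y₀.map red = 0 := by
      rw [hzero, mul_zero] at h1
      have h5 := h1.symm
      rw [← hPhi] at h5
      exact (mul_eq_zero.1 h5).resolve_left hPhi0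
    obtain ⟨Y₁, rfl⟩ := map_red_eq_zero hY
    have hdeg : ω₁.degree < (2 * (red P₂).natDegree : ℕ) := by
      refine lt_of_le_of_lt ?_ hω
      have : (2 : ℤ[X][X]) = C (2 : ℤ[X]) := (map_ofNat C 2).symm
      rw [this, degree_C_mul two_ne_zero]
    have h6 : beta P₁ ^ K * ω₁ = 2 ^ e * X₀ + Phi n * Y₁ := by
      have h2 : (2 : ℤ[X][X]) ≠ 0 := two_ne_zero
      apply mul_left_cancel₀ h2
      linear_combination h
    obtain ⟨ω', hω'⟩ := ih ω₁ X₀ Y₁ hdeg h6
    exact ⟨ω', by rw [hω', pow_succ]; ring⟩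

/-- Evaluation of a polynomial in `c` and `z` at a complex point. -/
noncomputable def ev (c y : ℂ) : ℤ[X][X] →+* ℂ :=
  eval₂RingHom (aeval c : ℤ[X] →ₐ[ℤ] ℂ).toRingHom y

lemma ev_eval (c : ℂ) (u : ℤ[X]) (h : ℤ[X][X]) : aeval c (h.eval u) = ev c (aeval c u) h := by
  have := Polynomial.hom_eval₂ h (RingHom.id ℤ[X]) (aeval c : ℤ[X] →ₐ[ℤ] ℂ).toRingHom u
  rw [ev, coe_eval₂RingHom]
  simpa [eval₂_id] using this

lemma ev_C (c y : ℂ) (p : ℤ[X]) : ev c y (C p) = aeval c p := by simp [ev]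
lemma ev_X (c y : ℂ) : ev c y X = y := by simp [ev]

lemma exists_param (ν κ : ℕ) : ∃ s : ℕ, ν * (κ * (s * κ * ν + 2)) ^ 2 * 2 ^ ν < 2 ^ s := by
  have h := isLittleO_pow_const_const_pow_of_one_lt (R := ℝ) 2 (one_lt_two)
  set M : ℝ := ν * (κ * (κ * ν + 2)) ^ 2 * 2 ^ ν + 1 with hM
  have hM0 : 0 < M := by positivity
  rw [Asymptotics.isLittleO_iff] at h
  have h1 := h (inv_pos.2 hM0)
  obtain ⟨s, hs1, hs2⟩ := (h1.and (Filter.eventually_ge_atTop 1)).exists
  refine ⟨s, ?_⟩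
  have hs' : (1 : ℝ) ≤ s := by exact_mod_cast hs2
  simp only [norm_pow, Real.norm_natCast, Real.norm_ofNat] at hs1
  have h2 : M * (s : ℝ) ^ 2 ≤ 2 ^ s := by
    have := mul_le_mul_of_nonneg_left hs1 hM0.le
    rwa [← mul_assoc, mul_inv_cancel₀ hM0.ne', one_mul] at this
  have h3 : (ν : ℝ) * (κ * (s * κ * ν + 2)) ^ 2 * 2 ^ ν < 2 ^ s := by
    refine lt_of_lt_of_le ?_ h2
    have h4 : (s * κ * ν + 2 : ℝ) ≤ s * (κ * ν + 2) := by nlinarith
    have h5 : (κ * (s * κ * ν + 2) : ℝ) ^ 2 ≤ (κ * (κ * ν + 2)) ^ 2 * (s : ℝ) ^ 2 := by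
      rw [← mul_pow]
      apply pow_le_pow_left₀ (by positivity)
      calc (κ * (s * κ * ν + 2) : ℝ) ≤ κ * (s * (κ * ν + 2)) := by gcongr
        _ = _ := by ring
    have h6 : (ν : ℝ) * (κ * (s * κ * ν + 2)) ^ 2 * 2 ^ ν ≤
        (ν * (κ * (κ * ν + 2)) ^ 2 * 2 ^ ν) * (s : ℝ) ^ 2 := by
      calc (ν : ℝ) * (κ * (s * κ * ν + 2)) ^ 2 * 2 ^ ν
          ≤ ν * ((κ * (κ * ν + 2)) ^ 2 * (s : ℝ) ^ 2) * 2 ^ ν := by gcongr
        _ = _ := by ring
    have h7 : 0 < (s : ℝ) ^ 2 := by positivity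
    rw [hM]
    nlinarith
  exact_mod_cast h3

/-- Coordinates: a polynomial of `z`-degree `< ν` whose coefficients have degree `< I`. -/
lemma exists_coord {ν I : ℕ} {h : ℤ[X][X]} (h1 : h.degree < ν) (h2 : ∀ j, (h.coeff j).degree < I) :
    ∃ t : ℕ → ℕ → ℤ, h = ∑ j ∈ Finset.range ν, ∑ i ∈ Finset.range I,
      C (C (t i j) * bs i) * X ^ j := by
  choose t ht using fun j => exists_bs_repr I (h.coeff j) (h2 j)
  refine ⟨fun i j => t j i, ?_⟩
  have e1 : h = ∑ j ∈ Finset.range ν, C (h.coeff j) * X ^ j := by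
    by_cases h0 : ν = 0
    · subst h0
      have : h = 0 := by
        by_contra hne
        rw [degree_eq_natDegree hne] at h1
        exact absurd (by exact_mod_cast h1 : h.natDegree < 0) (Nat.not_lt_zero _)
      simp [this]
    · have h3 : h.natDegree < ν := by
        by_cases hz : h = 0
        · rw [hz, natDegree_zero]; lia
        · exact (natDegree_lt_iff_degree_lt hz).2 h1
      exact as_sum_range_C_mul_X_pow' h h3
  conv_lhs => rw [e1]
  refine Finset.sum_congr rfl fun j _ => ?_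
  rw [← Finset.sum_mul, ← map_sum, ← ht j]

end Pool.Agent.Lib.MP_416699_nt
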