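import Pool.Agent.Lib.MP_416699_nt.CapB

/-!
The pigeonhole argument.
-/

open Polynomial

namespace Pool.Agent.Lib.MP_416699_nt

/-- The polynomial with prescribed nonnegative coefficients. -/
noncomputable def om (K B : ℕ) (u : Fin (K + 1) × Fin B → Fin (2 ^ K)) : ℤ[X][X] :=
  ∑ j : Fin B, ∑ i : Fin (K + 1), C (C ((u (i, j) : ℕ) : ℤ) * X ^ (i : ℕ)) * X ^ (j : ℕ)

lemma om_coeff {K B : ℕ} (u : Fin (K + 1) × Fin B → Fin (2 ^ K)) (i : Fin (K + 1)) (j : Fin B) :
    ((om K B u).coeff j).coeff i = ((u (i, j) : ℕ) : ℤ) := by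
  simp only [om, finsetSum_coeff, coeff_C_mul_X_pow, apply_ite (fun p : ℤ[X] => p.coeff i),
    coeff_zero]
  rw [Finset.sum_eq_single j, Finset.sum_eq_single i]
  · simp
  · intro i' _ hi'
    rw [if_pos rfl]
    have : (i : ℕ) ≠ (i' : ℕ) := fun h => hi' (Fin.ext h.symm)
    rw [if_neg this]
  · simp
  · intro j' _ hj'
    have : (j : ℕ) ≠ (j' : ℕ) := fun h => hj' (Fin.ext h.symm)
    simp [this]
  · simp

lemma om_deg {K B : ℕ} (u : Fin (K + 1) × Fin B → Fin (2 ^ K)) :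
    (om K B u).degree < (B : ℕ) := by
  rw [← mem_degreeLT]
  apply Submodule.sum_mem
  intro j _
  apply Submodule.sum_mem
  intro i _
  rw [mem_degreeLT]
  refine lt_of_le_of_lt (degree_C_mul_X_pow_le _ _) ?_
  exact_mod_cast j.2

lemma om_CD {K B : ℕ} (u : Fin (K + 1) × Fin B → Fin (2 ^ K)) : CD (om K B u) K := by
  intro k
  simp only [om, finsetSum_coeff]
  apply natDegree_sum_le_of_forall_le
  intro j _
  apply natDegree_sum_le_of_forall_le
  intro i _
  apply CD_C_mul_X_pow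
  refine (natDegree_C_mul_X_pow_le _ _).trans ?_
  have := i.2; lia

lemma om_ne {K B : ℕ} {u u' : Fin (K + 1) × Fin B → Fin (2 ^ K)} {ω' : ℤ[X][X]}
    (h : om K B u - om K B u' = 2 ^ K * ω') : u = u' := by
  funext p
  obtain ⟨i, j⟩ := p
  have h2 := congrArg (fun h : ℤ[X][X] => (h.coeff j).coeff i) h
  have e : (2 ^ K : ℤ[X][X]) = C (C (2 ^ K)) := by simp only [map_pow, map_ofNat]
  simp only [coeff_sub, om_coeff] at h2
  rw [e, coeff_C_mul, coeff_C_mul] at h2
  have h3 : ((u (i, j) : ℕ) : ℤ) < 2 ^ K := by exact_mod_cast (u (i, j)).2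
  have h4 : ((u' (i, j) : ℕ) : ℤ) < 2 ^ K := by exact_mod_cast (u' (i, j)).2
  have h5 : (0 : ℤ) ≤ ((u (i, j) : ℕ) : ℤ) := Int.natCast_nonneg _
  have h6 : (0 : ℤ) ≤ ((u' (i, j) : ℕ) : ℤ) := Int.natCast_nonneg _
  have h7 : ((u (i, j) : ℕ) : ℤ) - ((u' (i, j) : ℕ) : ℤ) = 0 := by
    apply Int.eq_zero_of_abs_lt_dvd (m := 2 ^ K) ⟨_, h2⟩
    rw [abs_lt]
    constructor <;> linarith
  exact Fin.ext (by exact_mod_cast (sub_eq_zero.1 h7))

lemma box_diff {x x' p : ℕ} (hp : 0 < p) (h : x / p = x' / p) :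
    |(x : ℤ) - (x' : ℤ)| ≤ p := by
  have h4 := Nat.div_add_mod x p
  have h5 := Nat.div_add_mod x' p
  have h6 := Nat.mod_lt x hp
  have h7 := Nat.mod_lt x' hp
  rw [h] at h4
  generalize p * (x' / p) = e at h4 h5
  generalize x % p = r at h4 h6
  generalize x' % p = r' at h5 h7
  rw [abs_le]
  constructor <;> lia

/-- The small combination: `F = beta^K ω` modulo `(2^K, Phi n)`, not divisible by `Phi n`, and
smaller than `2^K` on the filled Julia sets over the Mandelbrot set. -/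
theorem exists_small {n : ℕ} (hn : n ≠ 0) {P₁ P₂ : ℤ[X]} (hP₂ : (red P₂).Monic)
    (hdeg : (red P₂).natDegree ≠ 0)
    (hprod : red P₁ * red P₂ = red (Gl n)) (hcop : IsCoprime (red P₁) (red P₂)) :
    ∃ (K : ℕ) (F ω X₀ Y₀ : ℤ[X][X]), F = beta P₁ ^ K * ω - 2 ^ K * X₀ - Phi n * Y₀ ∧
      ¬ Phi n ∣ F ∧
      ∀ c y : ℂ, (∀ k, ‖aeval c (a k)‖ ≤ 2) → ‖y‖ ≤ 2 → ‖ev c y F‖ < 2 ^ K := by
  classical
  obtain ⟨dβ, hdβ⟩ := exists_CD (beta P₁)
  obtain ⟨dΦ, hdΦ⟩ := exists_CD (Phi n)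
  set β := beta P₁ with hβ
  set B := 2 * (red P₂).natDegree with hB
  set zβ := β.natDegree with hzβ
  set ν := (Phi n).natDegree with hν
  have hB2 : 2 ≤ B := by lia
  have hνB : B ≤ ν := by
    have h1 : ((Phi n).map red).natDegree = ν := (Phi_monic hn).natDegree_map red
    have hGlm : (red (Gl n)).Monic := (Gl_monic hn).map _
    rw [map_red_Phi hn, (aeval_w_monic hGlm).2] at h1
    have h2 : (red P₂).natDegree ≤ (red (Gl n)).natDegree :=
      natDegree_le_of_dvd (hprod ▸ dvd_mul_left _ _) hGlm.ne_zero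
    lia
  have hν0 : ν ≠ 0 := by lia
  set κ := dβ + 2 + (zβ + B + 1) * dΦ with hκ
  obtain ⟨s, hs⟩ := exists_param ν κ
  set K := s * κ * ν + 1 with hK
  set I := κ * (K + 1) with hI
  have hsK : s ≤ K := by
    have h1 : 1 ≤ κ * ν := Nat.mul_pos (by lia) (by lia)
    calc s = s * 1 := (mul_one s).symm
      _ ≤ s * (κ * ν) := Nat.mul_le_mul_left s h1
      _ ≤ K := by rw [hK, mul_assoc]; lia
  -- coordinates
  have hcoord : ∀ u, ∃ t : ℕ → ℕ → ℤ, (β ^ K * om K B u) %ₘ Phi n =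
      ∑ j ∈ Finset.range ν, ∑ i ∈ Finset.range I, C (C (t i j) * bs i) * X ^ j := by
    intro u
    apply exists_coord
    · rw [← degree_eq_natDegree (Phi_monic hn).ne_zero]
      exact degree_modByMonic_lt _ (Phi_monic hn)
    · intro j
      have h1 : CD (β ^ K * om K B u) (K * dβ + K) := (hdβ.pow K).mul (om_CD u)
      have h2 : (β ^ K * om K B u).natDegree ≤ K * zβ + B := by
        refine natDegree_mul_le.trans (add_le_add natDegree_pow_le ?_)
        exact natDegree_le_of_degree_le (om_deg u).le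
      have h3 := CD.modByMonic (Phi_monic hn) hν0 hdΦ _ h2 h1 j
      refine lt_of_le_of_lt degree_le_natDegree ?_
      have h4 : K * dβ + K + (K * zβ + B + 1) * dΦ < I := by
        rw [hI, hκ]
        have : K * dβ + K + (K * zβ + B + 1) * dΦ + 1 ≤
          (dβ + 2 + (zβ + B + 1) * dΦ) * (K + 1) := by
          have h5 : (K * zβ + B + 1) * dΦ ≤ ((zβ + B + 1) * (K + 1)) * dΦ := by
            apply Nat.mul_le_mul_right
            nlinarith
          nlinarith
        exact this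
      exact_mod_cast lt_of_le_of_lt h3 h4
  choose τ hτ using hcoord
  -- the boxes
  set M : ℤ := 2 ^ K with hM
  have hM0 : 0 < M := by positivity
  have hmod : ∀ x : ℤ, 0 ≤ x % M ∧ x % M < M := fun x =>
    ⟨Int.emod_nonneg x hM0.ne', Int.emod_lt_of_pos x hM0⟩
  let box : (Fin (K + 1) × Fin B → Fin (2 ^ K)) → (Fin I × Fin ν → Fin (2 ^ s)) :=
    fun u p => ⟨(τ u p.1 p.2 % M).toNat / 2 ^ (K - s), by
      have h1 := hmod (τ u p.1 p.2)
      rw [Nat.div_lt_iff_lt_mul (by positivity), ← pow_add, Nat.add_sub_cancel' hsK]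
      have h2 : ((τ u p.1 p.2 % M).toNat : ℤ) < 2 ^ K := by
        rw [Int.toNat_of_nonneg h1.1]; exact h1.2
      exact_mod_cast h2⟩
  have hcard : Fintype.card (Fin I × Fin ν → Fin (2 ^ s)) <
      Fintype.card (Fin (K + 1) × Fin B → Fin (2 ^ K)) := by
    simp only [Fintype.card_fun, Fintype.card_prod, Fintype.card_fin, ← pow_mul]
    apply Nat.pow_lt_pow_right (by norm_num)
    have h1 : s * (I * ν) = (K - 1) * (K + 1) := by
      rw [hI, show K - 1 = s * κ * ν by rw [hK]; rfl]; ring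
    rw [h1]
    calc (K - 1) * (K + 1) < K * (K + 1) := by
          apply Nat.mul_lt_mul_of_pos_right _ (by lia)
          lia
      _ ≤ K * ((K + 1) * B) := by
          apply Nat.mul_le_mul_left
          exact Nat.le_mul_of_pos_right _ (by lia)
  obtain ⟨u, u', huu, hbox⟩ := Fintype.exists_ne_map_eq_of_card_lt box hcard
  -- the differences
  let t : ℕ → ℕ → ℤ := fun i j => τ u i j % M - τ u' i j % M
  let q : ℕ → ℕ → ℤ := fun i j => τ u i j / M - τ u' i j / M
  have htq : ∀ i j, τ u i j - τ u' i j = t i j + M * q i j := by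
    intro i j
    have h1 := Int.emod_add_mul_ediv (τ u i j) M
    have h2 := Int.emod_add_mul_ediv (τ u' i j) M
    simp only [t, q]
    linear_combination h2 - h1
  have htle : ∀ i < I, ∀ j < ν, |t i j| ≤ 2 ^ (K - s) := by
    intro i hi j hj
    have h1 := congrFun hbox (⟨i, hi⟩, ⟨j, hj⟩)
    simp only [box, Fin.mk.injEq] at h1
    have h2 := hmod (τ u i j)
    have h3 := hmod (τ u' i j)
    have e1 : ((τ u i j % M).toNat : ℤ) = τ u i j % M := Int.toNat_of_nonneg h2.1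
    have e2 : ((τ u' i j % M).toNat : ℤ) = τ u' i j % M := Int.toNat_of_nonneg h3.1
    have hp : 0 < 2 ^ (K - s) := by positivity
    simp only [t]
    rw [← e1, ← e2]
    exact_mod_cast box_diff hp h1
  set F : ℤ[X][X] := ∑ j ∈ Finset.range ν, ∑ i ∈ Finset.range I,
    C (C (t i j) * bs i) * X ^ j with hF
  set X₀ : ℤ[X][X] := ∑ j ∈ Finset.range ν, ∑ i ∈ Finset.range I,
    C (C (q i j) * bs i) * X ^ j with hX₀
  set Y₀ : ℤ[X][X] := (β ^ K * om K B u) /ₘ Phi n - (β ^ K * om K B u') /ₘ Phi n with hY₀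
  have hrel : F = β ^ K * (om K B u - om K B u') - 2 ^ K * X₀ - Phi n * Y₀ := by
    have h1 := modByMonic_add_div (β ^ K * om K B u) (Phi n)
    have h2 := modByMonic_add_div (β ^ K * om K B u') (Phi n)
    have h3 : (β ^ K * om K B u) %ₘ Phi n - (β ^ K * om K B u') %ₘ Phi n = F + 2 ^ K * X₀ := by
      rw [hτ, hτ, hF, hX₀, ← Finset.sum_sub_distrib, Finset.mul_sum, ← Finset.sum_add_distrib]
      refine Finset.sum_congr rfl fun j _ => ?_
      rw [← Finset.sum_sub_distrib, Finset.mul_sum, ← Finset.sum_add_distrib]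
      refine Finset.sum_congr rfl fun i _ => ?_
      have e : (2 ^ K : ℤ[X][X]) = C (C M) := by rw [hM]; simp only [map_pow, map_ofNat]
      rw [e, ← sub_mul, ← C_sub, ← sub_mul, ← C_sub, htq]
      simp only [C_add, C_mul, add_mul]
      ring
    rw [hY₀]
    linear_combination -h3 + h1 - h2
  refine ⟨K, F, om K B u - om K B u', X₀, Y₀, hrel, ?_, ?_⟩
  · rintro ⟨Z, hZ⟩
    have h1 : β ^ K * (om K B u - om K B u') = 2 ^ K * X₀ + Phi n * (Y₀ + Z) := by
      linear_combination hZ - hrel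
    have hdeg' : (om K B u - om K B u').degree < (2 * (red P₂).natDegree : ℕ) :=
      lt_of_le_of_lt (degree_sub_le _ _) (max_lt (om_deg u) (om_deg u'))
    obtain ⟨ω', hω'⟩ := nondiv hn hP₂ hprod hcop K K _ X₀ (Y₀ + Z) hdeg' h1
    exact huu (om_ne hω')
  · intro c y hc hy
    have h1 : ev c y F = ∑ j ∈ Finset.range ν, ∑ i ∈ Finset.range I,
        ((t i j : ℤ) : ℂ) * aeval c (bs i) * y ^ j := by
      rw [hF, map_sum]
      refine Finset.sum_congr rfl fun j _ => ?_
      rw [map_sum]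
      refine Finset.sum_congr rfl fun i _ => ?_
      rw [map_mul, map_pow, ev_C, ev_X, map_mul]
      simp
    have h2 : ‖ev c y F‖ ≤ ∑ j ∈ Finset.range ν, ∑ i ∈ Finset.range I,
        (2 : ℝ) ^ (K - s) * I * 2 ^ ν := by
      rw [h1]
      refine (norm_sum_le _ _).trans (Finset.sum_le_sum fun j hj => ?_)
      refine (norm_sum_le _ _).trans (Finset.sum_le_sum fun i hi => ?_)
      rw [Finset.mem_range] at hi hj
      rw [norm_mul, norm_mul, norm_pow]
      have e1 : ‖((t i j : ℤ) : ℂ)‖ ≤ 2 ^ (K - s) := by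
        rw [Complex.norm_intCast]
        exact_mod_cast htle i hi j hj
      have e2 : ‖aeval c (bs i)‖ ≤ I := by
        refine (norm_bs_le hc i).trans ?_
        exact_mod_cast hi
      have e3 : ‖y‖ ^ j ≤ 2 ^ ν := by
        calc ‖y‖ ^ j ≤ 2 ^ j := pow_le_pow_left₀ (norm_nonneg _) hy _
          _ ≤ 2 ^ ν := pow_le_pow_right₀ (by norm_num) hj.le
      gcongr
    refine lt_of_le_of_lt h2 ?_
    simp only [Finset.sum_const, Finset.card_range, nsmul_eq_mul]
    have hs' : (ν : ℝ) * (I : ℝ) ^ 2 * 2 ^ ν < 2 ^ s := by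
      have : ν * I ^ 2 * 2 ^ ν < 2 ^ s := by
        rw [hI, hK]
        exact hs
      exact_mod_cast this
    have hpos : (0 : ℝ) < 2 ^ (K - s) := by positivity
    calc (ν : ℝ) * (I * (2 ^ (K - s) * I * 2 ^ ν)) = 2 ^ (K - s) * (ν * (I : ℝ) ^ 2 * 2 ^ ν) := by
          ring
      _ < 2 ^ (K - s) * 2 ^ s := by gcongr
      _ = 2 ^ K := by rw [← pow_add, Nat.sub_add_cancel hsK]

end Pool.Agent.Lib.MP_416699_nt
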