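import Pool.Agent.Lib.MP_416699_nt.CapC

/-!
The capacity theorem: factors of `Q m n` which avoid a part of the Gleason polynomial modulo 2
divide a fixed nonzero polynomial.
-/

open Polynomial

namespace Pool.Agent.Lib.MP_416699_nt

lemma aeval_a_succ (c : ℂ) (k : ℕ) : aeval c (a (k + 1)) = aeval c (a k) ^ 2 + c := by
  rw [a_succ]; simp

/-- The critical orbit is bounded by 2 if it is preperiodic. -/
lemma bounded_of_eq {c : ℂ} {m n : ℕ} (hn : n ≠ 0)
    (h : aeval c (a (m + n)) = aeval c (a m)) (k : ℕ) : ‖aeval c (a k)‖ ≤ 2 := by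
  set A : ℕ → ℂ := fun k => aeval c (a k) with hA
  have hsucc : ∀ k, A (k + 1) = A k ^ 2 + c := fun k => aeval_a_succ c k
  have hper : ∀ j, A (m + j + n) = A (m + j) := by
    intro j
    induction j with
    | zero => exact h
    | succ j ih =>
      rw [show m + (j + 1) + n = m + j + n + 1 by ring, show m + (j + 1) = m + j + 1 by ring,
        hsucc, hsucc, ih]
  have key : ∀ k, ¬ (2 < ‖A k‖ ∧ ‖c‖ ≤ ‖A k‖) := by
    rintro k ⟨h1, h2⟩
    have hstep : ∀ j, 2 < ‖A j‖ ∧ ‖c‖ ≤ ‖A j‖ → ‖A j‖ < ‖A (j + 1)‖ := by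
      rintro j ⟨h3, h4⟩
      rw [hsucc]
      have h5 : ‖A j ^ 2‖ - ‖c‖ ≤ ‖A j ^ 2 + c‖ := by
        have := norm_sub_le (A j ^ 2 + c) c
        rw [add_sub_cancel_right] at this
        linarith
      rw [norm_pow] at h5
      nlinarith
    have hall : ∀ j, (2 < ‖A (k + j)‖ ∧ ‖c‖ ≤ ‖A (k + j)‖) := by
      intro j
      induction j with
      | zero => exact ⟨h1, h2⟩
      | succ j ih =>
        have := hstep _ ih
        rw [← add_assoc]
        exact ⟨ih.1.trans this, ih.2.trans this.le⟩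
    have hmono : ∀ i j, k ≤ i → 0 < j → ‖A i‖ < ‖A (i + j)‖ := by
      intro i j hi hj
      obtain ⟨i', rfl⟩ := Nat.exists_eq_add_of_le hi
      induction j with
      | zero => exact absurd hj (lt_irrefl _)
      | succ j ih =>
        have h5 := hstep (k + i' + j) (by rw [add_assoc]; exact hall (i' + j))
        rw [← add_assoc (k + i')]
        rcases Nat.eq_zero_or_pos j with rfl | hj'
        · simpa using h5
        · exact (ih hj').trans h5
    have h6 := hmono (m + k) n (by lia) (Nat.pos_of_ne_zero hn)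
    rw [hper k] at h6
    exact lt_irrefl _ h6
  have hc : ‖c‖ ≤ 2 := by
    by_contra hcon
    rw [not_le] at hcon
    apply key 1
    have : A 1 = c := by simp [hA]
    rw [this]
    exact ⟨hcon, le_rfl⟩
  by_contra hcon
  rw [not_le] at hcon
  exact key k ⟨hcon, hc.trans hcon.le⟩

lemma bounded_of_D {c : ℂ} {m n : ℕ} (hm : m ≠ 0) (hn : n ≠ 0) (h : aeval c (D m n) = 0) (k : ℕ) :
    ‖aeval c (a k)‖ ≤ 2 := by
  apply bounded_of_eq (m := m) hn _ k
  obtain ⟨m, rfl⟩ := Nat.exists_eq_succ_of_ne_zero hm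
  rw [D, map_add] at h
  have e1 : m + 1 + n - 1 = m + n := by lia
  rw [Nat.succ_eq_add_one, e1, Nat.add_sub_cancel] at h
  rw [show m.succ + n = m + n + 1 by lia, aeval_a_succ, Nat.succ_eq_add_one, aeval_a_succ,
    eq_neg_of_add_eq_zero_left h]
  ring

lemma Q_dvd_D {m n : ℕ} (hm : m ≠ 0) (hn : n ≠ 0) : Q m n ∣ D m n := by
  rw [← prod_Q hm hn]
  exact Finset.dvd_prod_of_mem _ (Nat.mem_divisors_self n hn)

/-- A monic irreducible integer polynomial divides every polynomial with a common root. -/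
lemma dvd_of_root {g h : ℤ[X]} (hg : g.Monic) (hirr : Irreducible g) {c : ℂ}
    (h1 : aeval c g = 0) (h2 : aeval c h = 0) : g ∣ h := by
  have hint : IsIntegral ℤ c := ⟨g, hg, by rwa [← aeval_def]⟩
  have h3 : minpoly ℤ c ∣ g := minpoly.isIntegrallyClosed_dvd hint h1
  have h4 : minpoly ℤ c ∣ h := minpoly.isIntegrallyClosed_dvd hint h2
  have h5 : Associated (minpoly ℤ c) g := by
    obtain ⟨q, hq⟩ := h3
    rcases hirr.isUnit_or_isUnit hq with h | h
    · exact absurd h (minpoly.not_isUnit ℤ c)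
    · rw [hq]
      exact associated_mul_unit_right _ _ h
  exact h5.symm.dvd.trans h4

lemma multiset_prod_le_one (s : Multiset ℝ) (h : ∀ x ∈ s, 0 ≤ x ∧ x ≤ 1) : s.prod ≤ 1 := by
  induction s using Multiset.induction_on with
  | empty => simp
  | cons x s ih =>
    rw [Multiset.prod_cons]
    have h1 := h x (Multiset.mem_cons_self x s)
    have h2 := ih fun y hy => h y (Multiset.mem_cons_of_mem hy)
    have h3 : 0 ≤ s.prod := Multiset.prod_nonneg fun y hy => (h y (Multiset.mem_cons_of_mem hy)).1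
    nlinarith

lemma norm_prod_map (s : Multiset ℂ) (f : ℂ → ℂ) :
    ‖(s.map f).prod‖ = (s.map fun x => ‖f x‖).prod := by
  induction s using Multiset.induction_on with
  | empty => simp
  | cons x s ih => rw [Multiset.map_cons, Multiset.prod_cons, norm_mul, ih, Multiset.map_cons,
      Multiset.prod_cons]

/-- If `H` is smaller than 1 at all complex roots of the monic irreducible `g`, then `g ∣ H`. -/
lemma dvd_of_small {g H : ℤ[X]} (hg : g.Monic) (hirr : Irreducible g)
    (hsmall : ∀ c : ℂ, aeval c g = 0 → ‖aeval c H‖ < 1) : g ∣ H := by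
  have hdeg : g.natDegree ≠ 0 := by
    intro h0
    exact hirr.not_isUnit (by rw [hg.natDegree_eq_zero.1 h0]; exact isUnit_one)
  set φ : ℤ →+* ℂ := Int.castRingHom ℂ with hφ
  have hspl : (g.map φ).Splits := IsAlgClosed.splits _
  have hgm : (g.map φ).Monic := hg.map φ
  have hgd : (g.map φ).natDegree = g.natDegree := hg.natDegree_map φ
  have h1 := resultant_eq_prod_eval (g.map φ) (H.map φ) H.natDegree natDegree_map_le hspl
  rw [hgm.leadingCoeff, one_pow, one_mul, hgd, resultant_map_map] at h1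
  have hae : ∀ (p : ℤ[X]) (c : ℂ), eval c (p.map φ) = aeval c p := by
    intro p c
    rw [aeval_def, eval_map]
    rfl
  obtain ⟨c₀, hc₀⟩ : ∃ c₀, c₀ ∈ (g.map φ).roots := by
    apply Multiset.exists_mem_of_ne_zero
    intro h
    have h2 := hspl.natDegree_eq_card_roots
    rw [h, hgd, Multiset.card_zero] at h2
    exact hdeg h2
  have hroot : ∀ c ∈ (g.map φ).roots, aeval c g = 0 := by
    intro c hc
    have := (mem_roots'.1 hc).2
    rw [IsRoot.def, hae] at this
    exact this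
  have hnorm : ‖φ (resultant g H g.natDegree H.natDegree)‖ < 1 := by
    rw [h1]
    rw [norm_prod_map, ← Multiset.cons_erase hc₀, Multiset.map_cons, Multiset.prod_cons]
    have h3 : (Multiset.map (fun x => ‖eval x (H.map φ)‖) ((g.map φ).roots.erase c₀)).prod ≤ 1 := by
      apply multiset_prod_le_one
      intro x hx
      obtain ⟨c, hc, rfl⟩ := Multiset.mem_map.1 hx
      refine ⟨norm_nonneg _, ?_⟩
      rw [hae]
      exact (hsmall c (hroot c (Multiset.mem_of_mem_erase hc))).le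
    have h4 : ‖eval c₀ (H.map φ)‖ < 1 := by
      rw [hae]; exact hsmall c₀ (hroot c₀ hc₀)
    calc ‖eval c₀ (H.map φ)‖ * _ ≤ ‖eval c₀ (H.map φ)‖ * 1 :=
          mul_le_mul_of_nonneg_left h3 (norm_nonneg _)
      _ < 1 := by linarith
  have hzero : resultant g H g.natDegree H.natDegree = 0 := by
    have h2 : ‖((resultant g H g.natDegree H.natDegree : ℤ) : ℂ)‖ < 1 := hnorm
    rw [Complex.norm_intCast] at h2
    have h3 : |resultant g H g.natDegree H.natDegree| < 1 := by exact_mod_cast h2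
    exact Int.abs_lt_one_iff.1 h3
  rw [hzero, map_zero] at h1
  have h2 := Multiset.prod_eq_zero_iff.1 h1.symm
  obtain ⟨c, hc, hc0⟩ := Multiset.mem_map.1 h2
  rw [hae] at hc0
  exact dvd_of_root hg hirr (hroot c hc) hc0

lemma beta_eval (P : ℤ[X]) (u : ℤ[X]) : (beta P).eval u = P.comp (u ^ 2 + u + X) := by
  have h := Polynomial.hom_eval₂ P (algebraMap ℤ ℤ[X][X]) (evalRingHom u) wZ
  rw [beta, aeval_def]
  change evalRingHom u _ = _
  rw [h, comp]
  congr 1
  · exact RingHom.ext_int _ _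
  · simp [wZ]

lemma red_comp_eq (m : ℕ) (P : ℤ[X]) :
    red ((beta P).eval (-a (m - 1))) = red P ^ (2 ^ (m - 1)) := by
  rw [beta_eval]
  change Polynomial.map _ _ = _
  rw [Polynomial.map_comp]
  have h : Polynomial.map (Int.castRingHom (ZMod 2)) ((-a (m - 1)) ^ 2 + -a (m - 1) + X) =
      X ^ (2 ^ (m - 1)) := by
    rw [← T_add_T (m - 1), T_succ]
    have h2 : Polynomial.map (Int.castRingHom (ZMod 2)) (a (m - 1)) = T (m - 1) := red_a (m - 1)
    simp only [Polynomial.map_add, Polynomial.map_pow, Polynomial.map_neg, map_X, h2]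
    rw [CharTwo.neg_eq]
    ring
  rw [h, expand_two_pow]
  rfl

theorem capacity {n : ℕ} (hn : n ≠ 0) (hirr : Irreducible (Phi n)) {P₁ P₂ : ℤ[X]}
    (hP₂ : (red P₂).Monic) (hdeg : (red P₂).natDegree ≠ 0)
    (hprod : red P₁ * red P₂ = red (Gl n)) (hcop : IsCoprime (red P₁) (red P₂)) :
    ∃ r : ℤ[X], r ≠ 0 ∧ ∀ m : ℕ, m ≠ 0 → ∀ g : ℤ[X], g.Monic → Irreducible g → g ∣ Q m n →
      IsCoprime (red g) (red P₂) → g ∣ r := by
  obtain ⟨k₀, F, ω, X₀, Y₀, hF, hndvd, hsmall⟩ := exists_small hn hP₂ hdeg hprod hcop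
  -- the resultant
  have hm : (Phi n).natDegree ≠ 0 := by
    intro h0
    exact hirr.not_isUnit (by rw [(Phi_monic hn).natDegree_eq_zero.1 h0]; exact isUnit_one)
  obtain ⟨u, v, -, -, hbez⟩ := exists_mul_add_mul_eq_C_resultant (m := (Phi n).natDegree)
    (n := F.natDegree) (Phi n) F le_rfl le_rfl (Or.inl hm)
  set r := resultant (Phi n) F (Phi n).natDegree F.natDegree with hr
  have hr0 : r ≠ 0 := by
    intro h0
    have h1 := resultant_map_map (Phi n) F (Phi n).natDegree F.natDegree (algebraMap ℤ[X] K)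
    rw [← hr, h0, map_zero] at h1
    have hinj : Function.Injective (algebraMap ℤ[X] K) := FaithfulSMul.algebraMap_injective ℤ[X] K
    rw [← natDegree_map_eq_of_injective hinj (Phi n), ← natDegree_map_eq_of_injective hinj F,
      resultant_eq_zero_iff] at h1
    apply h1.2
    have h2 : Irreducible ((Phi n).map (algebraMap ℤ[X] K)) :=
      ((Phi_monic hn).irreducible_iff_irreducible_map_fraction_map (K := K)).1 hirr
    rw [h2.coprime_iff_not_dvd]
    exact fun h3 => hndvd (dvd_of_toK_dvd (Phi_monic hn) h3)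
  refine ⟨r, hr0, ?_⟩
  intro m hm0 g hgm hgirr hgQ hgcop
  set y : ℤ[X] := -a (m - 1) with hy
  -- integrality of `beta / 2`
  have hE : ∃ E, Phi n = beta P₁ * beta P₂ + 2 * E := by
    have h1 : (Phi n - beta P₁ * beta P₂).map red = 0 := by
      rw [Polynomial.map_sub, Polynomial.map_mul, map_red_Phi hn, map_red_beta, map_red_beta,
        ← hprod, map_mul, sub_self]
    obtain ⟨E, hE⟩ := map_red_eq_zero h1
    exact ⟨E, by linear_combination hE⟩
  obtain ⟨E, hE⟩ := hE
  obtain ⟨q, hq⟩ := hgQ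
  set b₁ := (beta P₁).eval y with hb₁
  set b₂ := (beta P₂).eval y with hb₂
  have hQ : g * q = b₁ * b₂ + 2 * E.eval y := by
    rw [← hq, Q, ← hy, hE]
    simp [hb₁, hb₂]
  have hint : ∃ s₀ t₀, b₁ = 2 * s₀ + g * t₀ := by
    have h1 : IsCoprime (red g) (red b₂) := by
      rw [hb₂, hy, red_comp_eq m]
      exact hgcop.pow_right
    obtain ⟨u', v', huv⟩ := h1
    obtain ⟨u', rfl⟩ := red_surj u'
    obtain ⟨v', rfl⟩ := red_surj v'
    have h2 : red (u' * g + v' * b₂ - 1) = 0 := by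
      rw [map_sub, map_add, map_mul, map_mul, huv, map_one, sub_self]
    obtain ⟨r', hr'⟩ := red_eq_zero h2
    exact ⟨-(v' * E.eval y) - r' * b₁, u' * b₁ + v' * q, by
      linear_combination -b₁ * hr' - v' * hQ⟩
  obtain ⟨s₀, t₀, hst⟩ := hint
  have hFy : ∃ H₀ t₁, F.eval y = 2 ^ k₀ * H₀ + g * t₁ := by
    obtain ⟨e, he⟩ := sub_dvd_pow_sub_pow b₁ (2 * s₀) k₀
    have h1 : F.eval y = b₁ ^ k₀ * ω.eval y - 2 ^ k₀ * X₀.eval y - g * q * Y₀.eval y := by
      rw [hF, ← hq, Q, ← hy]
      simp [hb₁]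
    refine ⟨s₀ ^ k₀ * ω.eval y - X₀.eval y, t₀ * e * ω.eval y - q * Y₀.eval y, ?_⟩
    rw [h1]
    have h2 : b₁ ^ k₀ = 2 ^ k₀ * s₀ ^ k₀ + g * t₀ * e := by
      have h3 : b₁ - 2 * s₀ = g * t₀ := by rw [hst]; ring
      rw [h3] at he
      rw [← mul_pow]
      linear_combination he
    rw [h2]
    ring
  obtain ⟨H₀, t₁, hH⟩ := hFy
  have hdvdH : g ∣ H₀ := by
    apply dvd_of_small hgm hgirr
    intro c hc
    have hcQ : aeval c (Q m n) = 0 := by rw [hq, map_mul, hc, zero_mul]
    have hcD : aeval c (D m n) = 0 := by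
      obtain ⟨q', hq'⟩ := Q_dvd_D hm0 hn
      rw [hq', map_mul, hcQ, zero_mul]
    have hb := bounded_of_D hm0 hn hcD
    have h1 := hsmall c (aeval c y) hb (by rw [hy, map_neg, norm_neg]; exact hb _)
    rw [← ev_eval, hH, map_add, map_mul, map_mul, hc, zero_mul, add_zero, norm_mul, map_pow] at h1
    have h2 : ‖(aeval c (2 : ℤ[X]) : ℂ) ^ k₀‖ = 2 ^ k₀ := by
      rw [map_ofNat, norm_pow]; simp
    rw [h2] at h1
    have h3 : (0 : ℝ) < 2 ^ k₀ := by positivity
    nlinarith
  have hdvdF : g ∣ F.eval y := by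
    rw [hH]
    exact dvd_add (hdvdH.mul_left _) (dvd_mul_right _ _)
  have h1 := congrArg (Polynomial.eval y) hbez
  rw [eval_add, eval_mul, eval_mul, eval_C] at h1
  rw [← h1]
  apply dvd_add
  · apply Dvd.dvd.mul_right
    change g ∣ (Phi n).eval y
    rw [hy]
    change g ∣ Q m n
    rw [hq]
    exact dvd_mul_right _ _
  · exact hdvdF.mul_right _

end Pool.Agent.Lib.MP_416699_nt
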