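import Mathlib

/-!
Definitions for MP_416699_nt (values of Misiurewicz polynomials).
`a i` is the polynomial `f_c^i(0)` in `c`, `D m k = a_{m+k-1} + a_{m-1}` and
`G m n` is the quotient of `num m n` by `den m n`, which is exact.
-/

open Polynomial

namespace Pool.Agent.Lib.MP_416699_nt

/-- `a i` is the polynomial `f_c^i(0)` in the variable `c`, where `f_c(z) = z ^ 2 + c`. -/
noncomputable def a : ℕ → ℤ[X]
  | 0 => 0
  | i + 1 => a i ^ 2 + X

/-- `D m k = a_{m+k-1} + a_{m-1}`. -/
noncomputable def D (m k : ℕ) : ℤ[X] := a (m + k - 1) + a (m - 1)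

/-- The divisors `k` of `n` with `μ (n / k) = e`. -/
def dv (n : ℕ) (e : ℤ) : Finset ℕ :=
  n.divisors.filter fun k => ArithmeticFunction.moebius (n / k) = e

/-- The product of the factors with exponent `+1` in the definition of `G m n`. -/
noncomputable def num (m n : ℕ) : ℤ[X] :=
  (∏ k ∈ dv n 1, D m k) * if n ∣ m - 1 then ∏ k ∈ dv n (-1), a k else 1

/-- The product of the factors with exponent `-1` in the definition of `G m n`. -/
noncomputable def den (m n : ℕ) : ℤ[X] :=
  (∏ k ∈ dv n (-1), D m k) * if n ∣ m - 1 then ∏ k ∈ dv n 1, a k else 1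

/-- The Misiurewicz polynomial `G_{m,n} = num m n / den m n` (an exact quotient). -/
noncomputable def G (m n : ℕ) : ℤ[X] := num m n /ₘ den m n

end Pool.Agent.Lib.MP_416699_nt
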