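import Pool.Agent.Lib.MP_416699_nt.Defs

/-!
Dynatomic polynomials of `z ^ 2 + c` over `ℤ[c]`: existence, monicity.
-/

open Polynomial

namespace Pool.Agent.Lib.MP_416699_nt

/-- The iterate `f_c^k(z)`, a polynomial in `z` (outer variable) over `ℤ[c]`. -/
noncomputable def itr : ℕ → ℤ[X][X]
  | 0 => X
  | k + 1 => itr k ^ 2 + C X

/-- `f_c^k(z) - z` -/
noncomputable def Pd (k : ℕ) : ℤ[X][X] := itr k - X

@[simp] lemma itr_zero : itr 0 = X := rfl
lemma itr_succ (k : ℕ) : itr (k + 1) = itr k ^ 2 + C X := rfl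
@[simp] lemma Pd_zero : Pd 0 = 0 := by simp [Pd]
@[simp] lemma a_zero : a 0 = 0 := rfl
lemma a_succ (k : ℕ) : a (k + 1) = a k ^ 2 + X := rfl
@[simp] lemma a_one : a 1 = X := by simp [a_succ]

lemma itr_add (i j : ℕ) : itr (i + j) = (itr j).comp (itr i) := by
  induction j with
  | zero => simp
  | succ j ih => rw [← add_assoc, itr_succ, ih, itr_succ]; simp

lemma itr_comm (i j : ℕ) : (itr j).comp (itr i) = (itr i).comp (itr j) := by
  rw [← itr_add, add_comm, itr_add]

lemma itr_eval_a (k j : ℕ) : (itr k).eval (a j) = a (j + k) := by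
  induction k with
  | zero => simp
  | succ k ih => rw [itr_succ, ← add_assoc, a_succ, ← ih]; simp

lemma itr_eval_neg {k : ℕ} (hk : k ≠ 0) (u : ℤ[X]) : (itr k).eval (-u) = (itr k).eval u := by
  obtain ⟨k, rfl⟩ := Nat.exists_eq_succ_of_ne_zero hk
  induction k with
  | zero => simp [itr_succ]
  | succ k ih => rw [itr_succ]; simp [ih]

lemma itr_monic_natDegree (k : ℕ) : (itr k).Monic ∧ (itr k).natDegree = 2 ^ k := by
  induction k with
  | zero => simp [monic_X]
  | succ k ih =>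
    have h1 : (itr k ^ 2).Monic := ih.1.pow 2
    have h2 : (itr k ^ 2).natDegree = 2 ^ (k + 1) := by
      rw [ih.1.natDegree_pow, ih.2]; ring
    have h3 : (C (X : ℤ[X])).degree < (itr k ^ 2).degree := by
      rw [degree_eq_natDegree h1.ne_zero, h2]
      refine lt_of_le_of_lt degree_C_le ?_
      exact_mod_cast Nat.pos_of_ne_zero (by positivity)
    refine ⟨h1.add_of_left h3, ?_⟩
    rw [itr_succ, natDegree_add_eq_left_of_degree_lt h3, h2]

lemma itr_monic (k : ℕ) : (itr k).Monic := (itr_monic_natDegree k).1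
lemma itr_natDegree (k : ℕ) : (itr k).natDegree = 2 ^ k := (itr_monic_natDegree k).2

lemma Pd_degree_lt {k : ℕ} (hk : k ≠ 0) : (X : ℤ[X][X]).degree < (itr k).degree := by
  rw [degree_eq_natDegree (itr_monic k).ne_zero, itr_natDegree, degree_X]
  exact_mod_cast Nat.one_lt_two_pow hk

lemma Pd_monic {k : ℕ} (hk : k ≠ 0) : (Pd k).Monic :=
  (itr_monic k).sub_of_left (Pd_degree_lt hk)

lemma Pd_natDegree {k : ℕ} (hk : k ≠ 0) : (Pd k).natDegree = 2 ^ k := by
  rw [Pd, natDegree_sub_eq_left_of_natDegree_lt, itr_natDegree]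
  rw [itr_natDegree, natDegree_X]
  exact Nat.one_lt_two_pow hk

lemma comp_sub_dvd {R : Type*} [CommRing R] (h u v : R[X]) : u - v ∣ h.comp u - h.comp v := by
  induction h using Polynomial.induction_on' with
  | add p q hp hq =>
    have := dvd_add hp hq
    simpa [add_comp, add_sub_add_comm] using this
  | monomial n r =>
    simp only [← C_mul_X_pow_eq_monomial, mul_comp, C_comp, X_pow_comp, ← mul_sub]
    exact Dvd.dvd.mul_left (sub_dvd_pow_sub_pow u v n) _

/-- `f^i(z) - z` divides `f^{i+j}(z) - f^j(z)`. -/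
lemma Pd_dvd_sub (i j : ℕ) : Pd i ∣ Pd (i + j) - Pd j := by
  have h := comp_sub_dvd (itr j) (itr i) X
  rw [comp_X, ← itr_add] at h
  have : Pd (i + j) - Pd j = itr (i + j) - itr j := by simp [Pd]
  rw [this]
  exact h

lemma Pd_dvd_sub_mul (i j t : ℕ) : Pd i ∣ Pd (i * t + j) - Pd j := by
  induction t with
  | zero => simp
  | succ t ih =>
    have h := Pd_dvd_sub i (i * t + j)
    have h2 := dvd_add h ih
    have e : Pd (i + (i * t + j)) - Pd (i * t + j) + (Pd (i * t + j) - Pd j) =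
      Pd (i * (t + 1) + j) - Pd j := by
      rw [show i + (i * t + j) = i * (t + 1) + j by ring]; ring
    rwa [e] at h2

lemma Pd_dvd_of_dvd {k n : ℕ} (h : k ∣ n) : Pd k ∣ Pd n := by
  obtain ⟨t, rfl⟩ := h
  simpa using Pd_dvd_sub_mul k 0 t

/-- If an element divides the images of `Pd i` and `Pd j`, it divides the image of
`Pd (gcd i j)`. -/
lemma dvd_map_Pd_gcd {S : Type*} [CommRing S] (φ : ℤ[X][X] →+* S) (π : S) (i j : ℕ)
    (hi : π ∣ φ (Pd i)) (hj : π ∣ φ (Pd j)) : π ∣ φ (Pd (Nat.gcd i j)) := by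
  induction i, j using Nat.gcd.induction with
  | H0 n => simpa using hj
  | H1 m n hm ih =>
    rw [Nat.gcd_rec]
    refine ih ?_ hi
    have h1 := map_dvd φ (Pd_dvd_sub_mul m (n % m) (n / m))
    rw [Nat.div_add_mod, map_sub] at h1
    have h2 := hi.trans h1
    have h3 := dvd_sub hj h2
    simpa using h3

/-! ### Reduction modulo 2 -/

/-- Reduction modulo 2 of the coefficients of a polynomial in `c`. -/
noncomputable abbrev red : ℤ[X] →+* (ZMod 2)[X] := mapRingHom (Int.castRingHom (ZMod 2))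

lemma derivative_Pd_red (n : ℕ) (hn : n ≠ 0) :
    derivative ((Pd n).map red) = 1 := by
  obtain ⟨n, rfl⟩ := Nat.exists_eq_succ_of_ne_zero hn
  have h2 : (2 : (ZMod 2)[X]) = 0 := CharTwo.two_eq_zero
  rw [Pd, itr_succ]
  simp only [Polynomial.map_sub, Polynomial.map_add, Polynomial.map_pow, map_C, map_X,
    derivative_sub, derivative_add, derivative_C, derivative_X, add_zero]
  rw [derivative_sq, h2, C_0, zero_mul, zero_mul, zero_sub, CharTwo.neg_eq]

/-- `Pd n` and its derivative generate a nonzero constant. -/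
lemma exists_bezout_Pd (n : ℕ) (hn : n ≠ 0) :
    ∃ (u v : ℤ[X][X]) (r : ℤ[X]), r ≠ 0 ∧ Pd n * u + derivative (Pd n) * v = C r := by
  have hm : (Pd n).natDegree ≠ 0 := by rw [Pd_natDegree hn]; positivity
  obtain ⟨u, v, -, -, h⟩ := exists_mul_add_mul_eq_C_resultant (m := (Pd n).natDegree)
    (n := (derivative (Pd n)).natDegree) (Pd n) (derivative (Pd n)) le_rfl le_rfl (Or.inl hm)
  refine ⟨u, v, _, ?_, h⟩
  intro h0
  have h1 := resultant_map_map (Pd n) (derivative (Pd n)) (Pd n).natDegree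
    (derivative (Pd n)).natDegree red
  rw [h0, map_zero, ← derivative_map, derivative_Pd_red n hn, resultant_one_right] at h1
  have h3 : ((Pd n).map red).coeff (Pd n).natDegree = 1 := by
    rw [coeff_map, (Pd_monic hn).coeff_natDegree, map_one]
  rw [h3, one_pow] at h1
  exact one_ne_zero h1

/-- The fraction field of `ℤ[c]`. -/
abbrev K : Type := FractionRing ℤ[X]

lemma separable_Pd (n : ℕ) (hn : n ≠ 0) : ((Pd n).map (algebraMap ℤ[X] K)).Separable := by
  obtain ⟨u, v, r, hr, h⟩ := exists_bezout_Pd n hn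
  have h1 := congrArg (Polynomial.map (algebraMap ℤ[X] K)) h
  rw [Polynomial.map_add, Polynomial.map_mul, Polynomial.map_mul, ← derivative_map, map_C] at h1
  have hr' : algebraMap ℤ[X] K r ≠ 0 := by
    simpa using hr
  refine ⟨C (algebraMap ℤ[X] K r)⁻¹ * u.map (algebraMap ℤ[X] K),
    C (algebraMap ℤ[X] K r)⁻¹ * v.map (algebraMap ℤ[X] K), ?_⟩
  have h2 : C (algebraMap ℤ[X] K r)⁻¹ * C (algebraMap ℤ[X] K r) = 1 := by
    rw [← C_mul, inv_mul_cancel₀ hr', C_1]
  rw [← h2, ← h1]
  ring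

end Pool.Agent.Lib.MP_416699_nt
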