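import Pool.Agent.Lib.MP_77ccbb_an.Fatou

/-!
Fatou's theorem for parabolic cycles of quadratic polynomials: the critical orbit of `z ^ 2 + c`
converges to the cycle.
-/

open Filter Topology Metric Set

namespace Pool.Agent.Lib.MP_416699_nt

open Pool.Agent.Lib.MP_77ccbb_an (f hasDerivAt_f differentiable_iter escape_bound escape
  exists_sqrt)

/-- Inverse branches along an orbit. -/
theorem exists_inverse_branch {c : ℂ} {A : Set ℂ} (hback : ∀ z, f c z ∈ A → z ∈ A)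
    (hcA : c ∉ A) (n : ℕ) : ∀ (p : ℂ) (s : ℝ), 0 < s → ball ((f c)^[n] p) s ⊆ A →
    ∃ g : ℂ → ℂ, DifferentiableOn ℂ g (ball ((f c)^[n] p) s) ∧
      (∀ z ∈ ball ((f c)^[n] p) s, g z ∈ A) ∧
      (∀ z ∈ ball ((f c)^[n] p) s, (f c)^[n] (g z) = z) ∧ g ((f c)^[n] p) = p := by
  induction n with
  | zero =>
    intro p s hs hsub
    exact ⟨id, differentiableOn_id, fun z hz => hsub hz, fun z _ => rfl, rfl⟩
  | succ n ih =>
    intro p s hs hsub
    rw [Function.iterate_succ_apply] at hsub ⊢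
    obtain ⟨g, hg1, hg2, hg3, hg4⟩ := ih (f c p) s hs hsub
    obtain ⟨h, hh1, hh2, hh3⟩ := exists_sqrt hs (hg1.sub_const c) (fun z hz hz0 => by
      have : g z = c := sub_eq_zero.1 hz0
      exact hcA (this ▸ hg2 z hz)) p (by rw [hg4]; simp [f])
    have hfh : ∀ z ∈ ball ((f c)^[n] (f c p)) s, f c (h z) = g z := by
      intro z hz
      change h z ^ 2 + c = g z
      rw [hh2 z hz]
      ring
    refine ⟨h, hh1, fun z hz => hback _ ?_, fun z hz => ?_, hh3⟩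
    · rw [hfh z hz]
      exact hg2 z hz
    · rw [Function.iterate_succ_apply, hfh z hz]
      exact hg3 z hz

/-- In the coordinate `w = -1 / (r A x ^ r)` the map is close to the translation by one. -/
theorem tendsto_w {F H : ℂ → ℂ} {q : ℂ} {r : ℕ} (hr : 1 ≤ r) (hH : ContinuousAt H q)
    (hA : H q ≠ 0) (hF : ∀ᶠ z in 𝓝 q, F z - q = (z - q) * (1 + (z - q) ^ r * H z)) :
    Tendsto (fun z => (-(r * H q) * (F z - q) ^ r)⁻¹ - (-(r * H q) * (z - q) ^ r)⁻¹)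
      (𝓝[≠] q) (𝓝 1) := by
  have hr0 : (r : ℂ) ≠ 0 := by
    have : r ≠ 0 := by omega
    exact_mod_cast this
  have hv : ContinuousAt (fun z : ℂ => 1 + (z - q) ^ r * H z) q := by fun_prop
  have hvq : 1 + (q - q) ^ r * H q = 1 := by
    rw [sub_self, zero_pow (by omega)]
    ring
  have h1 : ContinuousAt (fun z : ℂ => (r * H q)⁻¹ * ((H z * ∑ i ∈ Finset.range r,
      (1 + (z - q) ^ r * H z) ^ i) / (1 + (z - q) ^ r * H z) ^ r)) q := by
    apply ContinuousAt.mul continuousAt_const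
    apply ContinuousAt.div
    · apply ContinuousAt.mul hH
      apply tendsto_finsetSum
      intro i _
      exact hv.pow i
    · exact hv.pow r
    · rw [hvq]
      simp
  have h2 : Tendsto (fun z : ℂ => (r * H q)⁻¹ * ((H z * ∑ i ∈ Finset.range r,
      (1 + (z - q) ^ r * H z) ^ i) / (1 + (z - q) ^ r * H z) ^ r)) (𝓝[≠] q) (𝓝 1) := by
    have h3 := h1.tendsto.mono_left (nhdsWithin_le_nhds (s := {q}ᶜ))
    simp only [hvq, one_pow, Finset.sum_const, Finset.card_range, nsmul_eq_mul, mul_one,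
      div_one] at h3
    have h4 : (r * H q)⁻¹ * (H q * r) = 1 := by
      field_simp
    rwa [h4] at h3
  refine h2.congr' ?_
  have hne : ∀ᶠ z in 𝓝 q, 1 + (z - q) ^ r * H z ≠ 0 := by
    apply hv.eventually_ne
    rw [hvq]
    exact one_ne_zero
  filter_upwards [nhdsWithin_le_nhds hF, nhdsWithin_le_nhds hne, self_mem_nhdsWithin]
    with z hz1 hz2 hz3
  have hz4 : z - q ≠ 0 := sub_ne_zero.2 hz3
  have hz5 : (z - q) ^ r ≠ 0 := pow_ne_zero _ hz4
  rw [hz1]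
  set x := z - q with hx
  have h5 := geom_sum_mul (1 + x ^ r * H z) r
  have h6 : (1 + x ^ r * H z) - 1 = x ^ r * H z := by ring
  rw [h6] at h5
  rw [mul_pow]
  set S := ∑ i ∈ Finset.range r, (1 + x ^ r * H z) ^ i with hS
  have hz6 : (1 + x ^ r * H z) ^ r ≠ 0 := pow_ne_zero _ hz2
  set V := (1 + x ^ r * H z) ^ r with hV
  field_simp
  linear_combination h5

/-- The sector estimate. -/
theorem sector_estimate {E : ℂ → ℂ} {q A : ℂ} {r : ℕ} {s δ : ℝ} (hs : 0 < s) (hδ : 0 < δ)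
    (hA : A ≠ 0) (hE : ContinuousAt E q) (hEq : E q = -(s * A)) :
    ∀ᶠ z in 𝓝 q, δ * ‖A * (z - q) ^ r‖ ≤ (-(A * (z - q) ^ r)).re →
      1 ≤ ‖1 + (z - q) ^ r * E z‖ := by
  have h1 : ∀ᶠ z in 𝓝 q, ‖E z + s * A‖ < s * δ * ‖A‖ := by
    have h2 : ContinuousAt (fun z => ‖E z + s * A‖) q := (hE.add continuousAt_const).norm
    have h3 : ‖E q + s * A‖ < s * δ * ‖A‖ := by
      rw [hEq]
      simp only [neg_add_cancel, norm_zero]
      have := norm_pos_iff.2 hA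
      positivity
    exact h2.eventually_lt continuousAt_const h3
  filter_upwards [h1] with z hz hsec
  set y := (z - q) ^ r with hy
  have h4 : (1 + y * E z).re = 1 + s * (-(A * y)).re + (y * (E z + s * A)).re := by
    have : 1 + y * E z = 1 + (s : ℂ) * (-(A * y)) + y * (E z + s * A) := by ring
    rw [this]
    simp only [Complex.add_re, Complex.re_ofReal_mul, Complex.one_re]
  have h5 : -‖y * (E z + s * A)‖ ≤ (y * (E z + s * A)).re :=
    neg_le_of_abs_le (Complex.abs_re_le_norm _)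
  have h6 : ‖y * (E z + s * A)‖ ≤ ‖y‖ * (s * δ * ‖A‖) := by
    rw [norm_mul]
    gcongr
  have h7 : s * (δ * ‖A * y‖) ≤ s * (-(A * y)).re := by gcongr
  rw [norm_mul] at h7
  have h8 : 1 ≤ (1 + y * E z).re := by
    rw [h4]
    nlinarith
  exact h8.trans (Complex.re_le_norm _)

/-- The derivative estimate in an attracting sector. -/
theorem deriv_estimate {F H : ℂ → ℂ} {q : ℂ} {r : ℕ} {δ : ℝ} (hr : 1 ≤ r) (hδ : 0 < δ)
    (hH : AnalyticAt ℂ H q) (hA : H q ≠ 0)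
    (hF : ∀ᶠ z in 𝓝 q, F z - q = (z - q) * (1 + (z - q) ^ r * H z)) :
    ∀ᶠ z in 𝓝 q, δ * ‖H q * (z - q) ^ r‖ ≤ (-(H q * (z - q) ^ r)).re →
      ‖deriv F z‖ ^ 2 * ‖z - q‖ ^ 3 ≤ ‖F z - q‖ ^ 3 := by
  set K : ℂ → ℂ := fun z => (r + 1) * H z + (z - q) * deriv H z with hK
  have hHc : ContinuousAt H q := hH.continuousAt
  have hH'c : ContinuousAt (deriv H) q := hH.deriv.continuousAt
  have hKc : ContinuousAt K q := by fun_prop
  have hKq : K q = (r + 1) * H q := by simp [hK]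
  -- the derivative
  have hFd : ∀ᶠ z in 𝓝 q, deriv F z = 1 + (z - q) ^ r * K z := by
    filter_upwards [hF.eventually_nhds, hH.eventually_analyticAt] with z hz1 hz2
    have h1 : F =ᶠ[𝓝 z] fun z => q + (z - q) * (1 + (z - q) ^ r * H z) := by
      filter_upwards [hz1] with x hx
      rw [← hx]
      ring
    rw [h1.deriv_eq]
    have h2 : HasDerivAt (fun z : ℂ => z - q) 1 z := (hasDerivAt_id z).sub_const q
    have h3 : HasDerivAt (fun z : ℂ => (z - q) ^ r) (r * (z - q) ^ (r - 1) * 1) z := h2.pow r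
    have h4 : HasDerivAt H (deriv H z) z := hz2.differentiableAt.hasDerivAt
    have h5 := (h2.mul ((h3.mul h4).const_add 1)).const_add q
    have h6 := h5.deriv
    have h7 : (z - q) ^ (r - 1) * (z - q) = (z - q) ^ r := by
      rw [← pow_succ, Nat.sub_add_cancel hr]
    have h8 : deriv (fun z => q + (z - q) * (1 + (z - q) ^ r * H z)) z =
        1 * (1 + (z - q) ^ r * H z) + (z - q) *
          (r * (z - q) ^ (r - 1) * 1 * H z + (z - q) ^ r * deriv H z) := h6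
    rw [h8]
    linear_combination (r : ℂ) * H z * h7
  set E : ℂ → ℂ := fun z => (3 * H z + 3 * (z - q) ^ r * H z ^ 2 +
    ((z - q) ^ r) ^ 2 * H z ^ 3 - 2 * K z - (z - q) ^ r * K z ^ 2) /
      (1 + (z - q) ^ r * K z) ^ 2 with hE
  have h0r : (q - q) ^ r = 0 := by
    rw [sub_self, zero_pow (by omega)]
  have hvc : ContinuousAt (fun z : ℂ => 1 + (z - q) ^ r * K z) q := by fun_prop
  have hvq : 1 + (q - q) ^ r * K q = 1 := by
    rw [h0r]
    ring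
  have hEc : ContinuousAt E q := by
    apply ContinuousAt.div
    · fun_prop
    · exact hvc.pow 2
    · rw [hvq]
      simp
  have hEq : E q = -(((2 * r - 1 : ℝ) : ℂ) * H q) := by
    simp only [hE, h0r, hKq]
    push_cast
    ring
  have hs : (0 : ℝ) < 2 * r - 1 := by
    have : (1 : ℝ) ≤ r := by exact_mod_cast hr
    linarith
  have hne : ∀ᶠ z in 𝓝 q, 1 + (z - q) ^ r * K z ≠ 0 := by
    apply hvc.eventually_ne
    rw [hvq]
    exact one_ne_zero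
  filter_upwards [hF, hFd, hne, sector_estimate hs hδ hA hEc hEq] with z h1 h2 h3 h4 hsec
  have h5 := h4 hsec
  rw [h1, h2, norm_mul, mul_pow]
  have h6 : (1 + (z - q) ^ r * H z) ^ 3 = (1 + (z - q) ^ r * K z) ^ 2 *
      (1 + (z - q) ^ r * E z) := by
    simp only [hE]
    field_simp
    ring
  have h7 : ‖1 + (z - q) ^ r * H z‖ ^ 3 = ‖1 + (z - q) ^ r * K z‖ ^ 2 *
      ‖1 + (z - q) ^ r * E z‖ := by
    rw [← norm_pow, h6, norm_mul, norm_pow]
  rw [h7]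
  have h8 : 0 ≤ ‖1 + (z - q) ^ r * K z‖ ^ 2 := by positivity
  have h9 : 0 ≤ ‖z - q‖ ^ 3 := by positivity
  calc ‖1 + (z - q) ^ r * K z‖ ^ 2 * ‖z - q‖ ^ 3
      = ‖z - q‖ ^ 3 * (‖1 + (z - q) ^ r * K z‖ ^ 2 * 1) := by ring
    _ ≤ _ := by gcongr

/-- Taylor expansion at a parabolic fixed point of an iterate. -/
theorem exists_taylor {c q : ℂ} {N : ℕ} (hN : 1 ≤ N) (hfix : (f c)^[N] q = q)
    (hder : deriv ((f c)^[N]) q = 1) :
    ∃ (r : ℕ) (H : ℂ → ℂ), 1 ≤ r ∧ AnalyticAt ℂ H q ∧ H q ≠ 0 ∧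
      ∀ᶠ z in 𝓝 q, (f c)^[N] z - q = (z - q) * (1 + (z - q) ^ r * H z) := by
  have hFdiff : Differentiable ℂ (f c)^[N] := differentiable_iter c N
  have han : ∀ z, AnalyticAt ℂ (fun z => (f c)^[N] z - z) z := fun z =>
    (hFdiff.analyticAt z).sub analyticAt_id
  have hnz : ¬ ∀ᶠ z in 𝓝 q, (f c)^[N] z - z = 0 := by
    intro h
    have h1 : AnalyticOnNhd ℂ (fun z => (f c)^[N] z - z) Set.univ := fun z _ => han z
    have h2 := h1.eqOn_zero_of_preconnected_of_eventuallyEq_zero isPreconnected_univ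
      (mem_univ q) h
    have h3 := h2 (mem_univ ((2 + ‖c‖ : ℝ) : ℂ))
    have hc := norm_nonneg c
    have h4 : ‖((2 + ‖c‖ : ℝ) : ℂ)‖ = 2 + ‖c‖ := by
      rw [Complex.norm_real, Real.norm_of_nonneg (by positivity)]
    have h5 := escape_bound c ((2 + ‖c‖ : ℝ) : ℂ) (by rw [h4]; linarith) N
    have h6 : (f c)^[N] ((2 + ‖c‖ : ℝ) : ℂ) = ((2 + ‖c‖ : ℝ) : ℂ) := sub_eq_zero.1 h3
    rw [h6, h4] at h5
    have h7 : (2 : ℝ) ^ 1 ≤ 2 ^ N := pow_le_pow_right₀ (by norm_num) hN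
    have h8 : 2 + ‖c‖ - ‖c‖ = 2 := by ring
    rw [h8] at h5
    nlinarith
  obtain ⟨m, H, hH1, hH2, hH3⟩ := (han q).exists_eventuallyEq_pow_smul_nonzero_iff.2 hnz
  have hm0 : m ≠ 0 := by
    rintro rfl
    have h1 := hH3.self_of_nhds
    simp only [hfix, sub_self, pow_zero, one_smul] at h1
    exact hH2 h1.symm
  have hm1 : m ≠ 1 := by
    rintro rfl
    have h1 : HasDerivAt (fun z => (f c)^[N] z - z) (1 - 1) q := by
      have h2 := (hFdiff q).hasDerivAt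
      rw [hder] at h2
      exact h2.sub (hasDerivAt_id q)
    have h2 : HasDerivAt (fun z => (z - q) * H z) (1 * H q + (q - q) * deriv H q) q :=
      ((hasDerivAt_id q).sub_const q).mul hH1.differentiableAt.hasDerivAt
    have h3 : (fun z => (f c)^[N] z - z) =ᶠ[𝓝 q] fun z => (z - q) * H z := by
      filter_upwards [hH3] with z hz
      rw [hz]
      simp
    have h4 := h1.unique (h2.congr_of_eventuallyEq h3)
    apply hH2
    rw [sub_self, sub_self] at h4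
    rw [h4]
    ring
  refine ⟨m - 1, H, by omega, hH1, hH2, ?_⟩
  filter_upwards [hH3] with z hz
  have h1 : (z - q) ^ m = (z - q) * (z - q) ^ (m - 1) := by
    rw [← pow_succ', Nat.sub_add_cancel (by omega)]
  rw [smul_eq_mul, h1] at hz
  linear_combination hz

/-- Inversion preserves the cones around the positive axis. -/
theorem cone_inv {ζ : ℂ} {δ : ℝ} (h : δ * ‖ζ⁻¹‖ ≤ (ζ⁻¹).re) : δ * ‖ζ‖ ≤ ζ.re := by
  by_cases h0 : ζ = 0
  · simp [h0]
  have h1 : 0 < ‖ζ‖ := norm_pos_iff.2 h0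
  rw [Complex.inv_re, norm_inv, Complex.normSq_eq_norm_sq] at h
  have h2 : δ * ‖ζ‖⁻¹ * ‖ζ‖ ^ 2 ≤ ζ.re / ‖ζ‖ ^ 2 * ‖ζ‖ ^ 2 := by gcongr
  have h3 : δ * ‖ζ‖⁻¹ * ‖ζ‖ ^ 2 = δ * ‖ζ‖ := by
    field_simp
  have h4 : ζ.re / ‖ζ‖ ^ 2 * ‖ζ‖ ^ 2 = ζ.re := by
    field_simp
  rwa [h3, h4] at h2

theorem cone_w {A y : ℂ} {r : ℕ} {δ : ℝ} (hr : 1 ≤ r)
    (h : δ * ‖(-(r * A) * y)⁻¹‖ ≤ ((-(r * A) * y)⁻¹).re) : δ * ‖A * y‖ ≤ (-(A * y)).re := by
  have h1 := cone_inv h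
  have h2 : -(r * A) * y = ((r : ℝ) : ℂ) * (-(A * y)) := by
    push_cast
    ring
  have hr0 : (0 : ℝ) < r := by exact_mod_cast hr
  rw [h2, Complex.re_ofReal_mul, norm_mul, Complex.norm_real, Real.norm_of_nonneg hr0.le,
    norm_neg] at h1
  have h3 : (r : ℝ) * (δ * ‖A * y‖) ≤ r * (-(A * y)).re := by linarith
  exact le_of_mul_le_mul_left h3 hr0

/-- Large `w` means small `z - q`. -/
theorem exists_large {A q : ℂ} {r : ℕ} (hr : 1 ≤ r) (hA : A ≠ 0) {ρ : ℝ} (hρ : 0 < ρ) :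
    ∃ T : ℝ, 0 < T ∧ ∀ z : ℂ, T < ((-(r * A) * (z - q) ^ r)⁻¹).re → z ≠ q ∧ ‖z - q‖ < ρ := by
  have hr0 : (0 : ℝ) < r := by exact_mod_cast hr
  have hA0 : 0 < ‖A‖ := norm_pos_iff.2 hA
  refine ⟨(r * ‖A‖ * ρ ^ r)⁻¹, by positivity, fun z hz => ?_⟩
  have h0 : 0 < (r * ‖A‖ * ρ ^ r)⁻¹ := by positivity
  refine ⟨?_, ?_⟩
  · rintro rfl
    rw [sub_self, zero_pow (by omega), mul_zero, inv_zero, Complex.zero_re] at hz
    exact absurd hz (not_lt.2 h0.le)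
  · by_contra hcon
    push Not at hcon
    have h1 := hz.trans_le (Complex.re_le_norm _)
    rw [norm_inv, norm_mul, norm_neg, norm_mul, norm_pow, Complex.norm_natCast] at h1
    have h2 : r * ‖A‖ * ρ ^ r ≤ r * ‖A‖ * ‖z - q‖ ^ r := by gcongr
    have h3 : (r * ‖A‖ * ‖z - q‖ ^ r)⁻¹ ≤ (r * ‖A‖ * ρ ^ r)⁻¹ := by
      gcongr
    exact absurd h1 (not_lt.2 h3)

/-- R1: Fatou's theorem for parabolic cycles of quadratic polynomials. -/
theorem fatou_parabolic (c z₀ : ℂ) (N : ℕ) (hN : 1 ≤ N)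
    (hfix : (fun z : ℂ => z ^ 2 + c)^[N] z₀ = z₀)
    (hder : deriv ((fun z : ℂ => z ^ 2 + c)^[N]) z₀ = 1) :
    ∃ j : ℕ, Tendsto (fun k : ℕ => (fun z : ℂ => z ^ 2 + c)^[j + N * k] 0) atTop (𝓝 z₀) := by
  change (f c)^[N] z₀ = z₀ at hfix
  change deriv ((f c)^[N]) z₀ = 1 at hder
  change ∃ j : ℕ, Tendsto (fun k : ℕ => (f c)^[j + N * k] 0) atTop (𝓝 z₀)
  obtain ⟨r, H, hr, hH, hA, hF⟩ := exists_taylor hN hfix hder
  set F : ℂ → ℂ := (f c)^[N] with hFdef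
  have hFdiff : Differentiable ℂ F := differentiable_iter c N
  have hiter : ∀ k : ℕ, (f c)^[N * k] = F^[k] := fun k => Function.iterate_mul (f c) N k
  set w : ℂ → ℂ := fun z => (-(r * H z₀) * (z - z₀) ^ r)⁻¹ with hw
  -- one step
  obtain ⟨T, hT0, hT⟩ : ∃ T : ℝ, 0 < T ∧ ∀ z, T < (w z).re → z ≠ z₀ ∧
      ‖w (F z) - w z - 1‖ ≤ 1 / 4 ∧ (1 / 4 * ‖w z‖ ≤ (w z).re →
        ‖deriv F z‖ ^ 2 * ‖z - z₀‖ ^ 3 ≤ ‖F z - z₀‖ ^ 3) := by
    have h1 := tendsto_w hr hH.continuousAt hA hF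
    have h2 : ∀ᶠ z in 𝓝[≠] z₀, ‖w (F z) - w z - 1‖ < 1 / 4 := by
      have h3 := h1.eventually (Metric.ball_mem_nhds (1 : ℂ) (by norm_num : (0 : ℝ) < 1 / 4))
      filter_upwards [h3] with z hz
      rwa [dist_eq_norm] at hz
    have h3 := deriv_estimate (δ := 1 / 4) hr (by norm_num) hH hA hF
    have h4 := h2.and (nhdsWithin_le_nhds h3)
    rw [Filter.Eventually, Metric.mem_nhdsWithin_iff] at h4
    obtain ⟨ρ, hρ, h5⟩ := h4
    obtain ⟨T, hT0, hT⟩ := exists_large (q := z₀) hr hA hρ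
    refine ⟨T, hT0, fun z hz => ?_⟩
    obtain ⟨h6, h7⟩ := hT z hz
    have h8 := h5 ⟨by rwa [mem_ball, dist_eq_norm], h6⟩
    exact ⟨h6, h8.1.le, fun h9 => h8.2 (cone_w hr h9)⟩
  -- the attracting regions
  set W : ℝ → ℝ → Set ℂ := fun δ S => {z | S < (w z).re ∧ δ * ‖w z‖ ≤ (w z).re} with hW
  have hstep : ∀ δ S : ℝ, 0 ≤ δ → δ ≤ 1 / 2 → T ≤ S → ∀ z ∈ W δ S,
      F z ∈ W δ S ∧ (w z).re + 1 / 2 ≤ (w (F z)).re := by
    rintro δ S hδ0 hδ hS z ⟨hz1, hz2⟩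
    obtain ⟨h1, h2, -⟩ := hT z (hS.trans_lt hz1)
    set e := w (F z) - w z - 1 with he
    have h3 : w (F z) = w z + (1 + e) := by rw [he]; ring
    have h4 : |e.re| ≤ 1 / 4 := (Complex.abs_re_le_norm e).trans h2
    rw [abs_le] at h4
    have h5 : (w (F z)).re = (w z).re + (1 + e.re) := by rw [h3]; simp
    have h6 : ‖w (F z)‖ ≤ ‖w z‖ + (1 + 1 / 4) := by
      rw [h3]
      refine (norm_add_le _ _).trans ?_
      have : ‖1 + e‖ ≤ 1 + 1 / 4 := (norm_add_le _ _).trans (by simpa using h2)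
      linarith
    refine ⟨⟨?_, ?_⟩, ?_⟩
    · rw [h5]
      linarith
    · rw [h5]
      nlinarith [norm_nonneg (w (F z))]
    · rw [h5]
      linarith
  have horb : ∀ δ S : ℝ, 0 ≤ δ → δ ≤ 1 / 2 → T ≤ S → ∀ z ∈ W δ S, ∀ k : ℕ,
      F^[k] z ∈ W δ S ∧ (w z).re + k / 2 ≤ (w (F^[k] z)).re := by
    intro δ S hδ0 hδ hS z hz k
    induction k with
    | zero => exact ⟨hz, by simp⟩
    | succ k ih =>
      rw [Function.iterate_succ_apply']
      obtain ⟨h1, h2⟩ := hstep δ S hδ0 hδ hS _ ih.1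
      refine ⟨h1, ?_⟩
      push_cast
      linarith [ih.2]
  have hconv : ∀ δ S : ℝ, 0 ≤ δ → δ ≤ 1 / 2 → T ≤ S → ∀ z ∈ W δ S,
      Tendsto (fun k : ℕ => F^[k] z) atTop (𝓝 z₀) := by
    intro δ S hδ0 hδ hS z hz
    rw [Metric.tendsto_atTop]
    intro ρ hρ
    obtain ⟨T', hT'0, hT'⟩ := exists_large (q := z₀) hr hA hρ
    obtain ⟨M, hM⟩ := exists_nat_gt (2 * T')
    refine ⟨M, fun k hk => ?_⟩
    rw [dist_eq_norm]
    refine (hT' _ ?_).2
    have h1 := (horb δ S hδ0 hδ hS z hz k).2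
    have h2 : (M : ℝ) ≤ k := by exact_mod_cast hk
    have h3 : 0 < (w z).re := hT0.trans (hS.trans_lt hz.1)
    change T' < (w (F^[k] z)).re
    linarith
  -- the basin
  set B : Set ℂ := {z | ∃ n, (f c)^[n] z ∈ W (1 / 4) T} with hB
  have hback : ∀ z, f c z ∈ B → z ∈ B := by
    rintro z ⟨n, hn⟩
    exact ⟨n + 1, by rwa [Function.iterate_succ_apply]⟩
  have hBconv : ∀ z, ∀ n, (f c)^[n] z ∈ W (1 / 4) T →
      Tendsto (fun k : ℕ => (f c)^[n + N * k] z) atTop (𝓝 z₀) := by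
    intro z n hn
    have h1 := hconv (1 / 4) T (by norm_num) (by norm_num) le_rfl _ hn
    refine h1.congr fun k => ?_
    rw [add_comm, Function.iterate_add_apply, hiter]
  have hBbdd : ∀ z ∈ B, ‖z‖ ≤ 1 + ‖c‖ := by
    rintro z ⟨n, hn⟩
    by_contra hcon
    push Not at hcon
    have h1 := (escape c z hcon).comp
      (tendsto_atTop_mono (fun m : ℕ => (by nlinarith : m ≤ n + N * m)) tendsto_id)
    exact not_tendsto_nhds_of_tendsto_atTop h1 _ (hBconv z n hn).norm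
  by_contra hno
  have h0B : (0 : ℂ) ∉ B := by
    rintro ⟨n, hn⟩
    exact hno ⟨n, hBconv 0 n hn⟩
  have hcB : c ∉ B := by
    intro hc
    apply h0B
    apply hback
    have : f c 0 = c := by simp [f]
    rwa [this]
  -- a starting point
  have hr0 : (r : ℂ) ≠ 0 := by
    have : r ≠ 0 := by omega
    exact_mod_cast this
  set t : ℝ := 2 * T + 1 with ht
  have ht0 : 0 < t := by positivity
  have htc : (t : ℂ) ≠ 0 := by exact_mod_cast ht0.ne'
  obtain ⟨x₀, hx₀⟩ := IsAlgClosed.exists_pow_nat_eq (-(r * H z₀ * t)⁻¹ : ℂ) (by omega : 0 < r)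
  set p : ℂ := z₀ + x₀ with hp
  have hwp : w p = t := by
    simp only [hw, hp, add_sub_cancel_left, hx₀]
    field_simp
  have hpW : p ∈ W (1 / 2) (2 * T) := by
    refine ⟨?_, ?_⟩
    · rw [hwp, Complex.ofReal_re, ht]
      linarith
    · rw [hwp, Complex.ofReal_re, Complex.norm_real, Real.norm_of_nonneg ht0.le]
      linarith
  have horbp := horb (1 / 2) (2 * T) (by norm_num) le_rfl (by linarith) p hpW
  have hconvp := hconv (1 / 2) (2 * T) (by norm_num) le_rfl (by linarith) p hpW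
  have hpne : ∀ k, F^[k] p ≠ z₀ := fun k => (hT _ (by linarith [(horbp k).1.1])).1
  have hderk : ∀ k, ‖deriv F^[k] p‖ ^ 2 * ‖p - z₀‖ ^ 3 ≤ ‖F^[k] p - z₀‖ ^ 3 := by
    intro k
    induction k with
    | zero => simp
    | succ k ih =>
      have h1 : deriv F^[k + 1] p = deriv F (F^[k] p) * deriv F^[k] p := by
        rw [Function.iterate_succ']
        exact deriv_comp p (hFdiff _) (hFdiff.iterate k p)
      obtain ⟨h2, h3⟩ := (horbp k).1
      have h4 := (hT _ (by linarith)).2.2 (by linarith [norm_nonneg (w (F^[k] p))])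
      rw [h1, norm_mul, mul_pow, Function.iterate_succ_apply']
      calc ‖deriv F (F^[k] p)‖ ^ 2 * ‖deriv F^[k] p‖ ^ 2 * ‖p - z₀‖ ^ 3
          = ‖deriv F (F^[k] p)‖ ^ 2 * (‖deriv F^[k] p‖ ^ 2 * ‖p - z₀‖ ^ 3) := by ring
        _ ≤ ‖deriv F (F^[k] p)‖ ^ 2 * ‖F^[k] p - z₀‖ ^ 3 := by gcongr
        _ ≤ _ := h4
  -- discs
  obtain ⟨κ, hκ0, hκ⟩ : ∃ κ : ℝ, 0 < κ ∧ ∀ η : ℂ, ‖η‖ < κ → ‖((1 + η) ^ r)⁻¹ - 1‖ < 1 / 8 := by
    have h1 : ContinuousAt (fun η : ℂ => ‖((1 + η) ^ r)⁻¹ - 1‖) 0 := by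
      apply ContinuousAt.norm
      apply ContinuousAt.sub _ continuousAt_const
      apply ContinuousAt.inv₀
      · fun_prop
      · simp
    have h2 : ‖((1 + (0 : ℂ)) ^ r)⁻¹ - 1‖ < 1 / 8 := by simp
    have h3 := h1.eventually_lt continuousAt_const h2
    rw [Metric.eventually_nhds_iff_ball] at h3
    obtain ⟨κ, hκ, h4⟩ := h3
    exact ⟨κ, hκ, fun η hη => h4 η (by simpa using hη)⟩
  have hdisc : ∀ k, ball (F^[k] p) (κ * ‖F^[k] p - z₀‖) ⊆ W (1 / 4) T := by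
    intro k z hz
    set y := F^[k] p with hy
    have hy0 : y - z₀ ≠ 0 := sub_ne_zero.2 (hpne k)
    have hyn : 0 < ‖y - z₀‖ := norm_pos_iff.2 hy0
    obtain ⟨h2, h3⟩ := (horbp k).1
    rw [mem_ball, dist_eq_norm] at hz
    set η := (z - y) / (y - z₀) with hη
    have h4 : ‖η‖ < κ := by
      rw [hη, norm_div, div_lt_iff₀ hyn]
      exact hz
    have h5 : z - z₀ = (y - z₀) * (1 + η) := by
      rw [hη]
      field_simp
      ring
    have h6 : w z = w y * ((1 + η) ^ r)⁻¹ := by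
      simp only [hw]
      rw [h5, mul_pow, ← mul_inv]
      ring_nf
    set e := ((1 + η) ^ r)⁻¹ - 1 with he
    have h7 : ‖e‖ < 1 / 8 := hκ η h4
    have h8 : w z = w y + w y * e := by
      rw [h6, he]
      ring
    have h9 : ‖w y * e‖ ≤ ‖w y‖ * (1 / 8) := by
      rw [norm_mul]
      gcongr
    have h10 := (Complex.abs_re_le_norm (w y * e)).trans h9
    rw [abs_le] at h10
    have h11 : (w z).re = (w y).re + (w y * e).re := by rw [h8]; simp
    have h12 : ‖w z‖ ≤ ‖w y‖ + ‖w y‖ * (1 / 8) := by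
      rw [h8]
      exact (norm_add_le _ _).trans (by linarith)
    refine ⟨?_, ?_⟩
    · rw [h11]
      linarith
    · rw [h11]
      linarith
  -- Cauchy
  have hx0 : 0 < ‖p - z₀‖ := norm_pos_iff.2 (sub_ne_zero.2 (hpne 0))
  have hcn := norm_nonneg c
  have hbound : ∀ k, κ ^ 2 * ‖p - z₀‖ ^ 3 ≤ (2 * (1 + ‖c‖)) ^ 2 * ‖F^[k] p - z₀‖ := by
    intro k
    have hyn : 0 < ‖F^[k] p - z₀‖ := norm_pos_iff.2 (sub_ne_zero.2 (hpne k))
    have hs : 0 < κ * ‖F^[k] p - z₀‖ := by positivity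
    have hball : ball ((f c)^[N * k] p) (κ * ‖F^[k] p - z₀‖) ⊆ B := by
      rw [hiter]
      exact fun z hz => ⟨0, hdisc k hz⟩
    obtain ⟨g, hg1, hg2, hg3, hg4⟩ := exists_inverse_branch hback hcB (N * k) p _ hs hball
    rw [hiter] at hg1 hg2 hg3 hg4
    set y := F^[k] p with hy
    have hmem := mem_ball_self (x := y) hs
    have hgd : HasDerivAt g (deriv g y) y :=
      (hg1.differentiableAt (isOpen_ball.mem_nhds hmem)).hasDerivAt
    have h1 : HasDerivAt (fun z => F^[k] (g z)) (deriv F^[k] p * deriv g y) y := by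
      have h2 : HasDerivAt F^[k] (deriv F^[k] p) (g y) := by
        rw [hg4]
        exact (hFdiff.iterate k p).hasDerivAt
      exact h2.comp y hgd
    have h2 : HasDerivAt (fun z => F^[k] (g z)) 1 y := by
      refine (hasDerivAt_id y).congr_of_eventuallyEq ?_
      filter_upwards [isOpen_ball.mem_nhds hmem] with z hz
      exact hg3 z hz
    have h3 : deriv F^[k] p * deriv g y = 1 := h1.unique h2
    have h4 : ‖deriv g y‖ ≤ 2 * (1 + ‖c‖) / (κ * ‖y - z₀‖) := by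
      refine Complex.norm_deriv_le_div_of_mapsTo_ball hg1 (fun z hz => ?_) hs
      rw [mem_closedBall, dist_eq_norm]
      have h5 := hBbdd _ (hg2 z hz)
      have h6 := hBbdd _ (hg2 y hmem)
      have h7 := norm_sub_le (g z) (g y)
      linarith
    have h5 : κ * ‖y - z₀‖ ≤ ‖deriv F^[k] p‖ * (2 * (1 + ‖c‖)) := by
      have h6 : (1 : ℝ) ≤ ‖deriv F^[k] p‖ * (2 * (1 + ‖c‖) / (κ * ‖y - z₀‖)) := by
        calc (1 : ℝ) = ‖deriv F^[k] p * deriv g y‖ := by rw [h3, norm_one]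
          _ = ‖deriv F^[k] p‖ * ‖deriv g y‖ := norm_mul _ _
          _ ≤ _ := by gcongr
      rw [← mul_div_assoc, le_div_iff₀ hs, one_mul] at h6
      exact h6
    have h6 := hderk k
    have h7 : (κ * ‖y - z₀‖) ^ 2 ≤ (‖deriv F^[k] p‖ * (2 * (1 + ‖c‖))) ^ 2 := by gcongr
    have h8 : ‖y - z₀‖ ^ 2 * (κ ^ 2 * ‖p - z₀‖ ^ 3) ≤
        ‖y - z₀‖ ^ 2 * ((2 * (1 + ‖c‖)) ^ 2 * ‖y - z₀‖) := by
      calc ‖y - z₀‖ ^ 2 * (κ ^ 2 * ‖p - z₀‖ ^ 3)
          = (κ * ‖y - z₀‖) ^ 2 * ‖p - z₀‖ ^ 3 := by ring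
        _ ≤ (‖deriv F^[k] p‖ * (2 * (1 + ‖c‖))) ^ 2 * ‖p - z₀‖ ^ 3 := by gcongr
        _ = (2 * (1 + ‖c‖)) ^ 2 * (‖deriv F^[k] p‖ ^ 2 * ‖p - z₀‖ ^ 3) := by ring
        _ ≤ (2 * (1 + ‖c‖)) ^ 2 * ‖y - z₀‖ ^ 3 := by gcongr
        _ = _ := by ring
    exact le_of_mul_le_mul_left h8 (by positivity)
  have hlim : Tendsto (fun k : ℕ => (2 * (1 + ‖c‖)) ^ 2 * ‖F^[k] p - z₀‖) atTop (𝓝 0) := by
    have h1 := ((hconvp.sub_const z₀).norm).const_mul ((2 * (1 + ‖c‖)) ^ 2)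
    simpa using h1
  have h1 := ge_of_tendsto' hlim hbound
  have h2 : 0 < κ ^ 2 * ‖p - z₀‖ ^ 3 := by positivity
  linarith

end Pool.Agent.Lib.MP_416699_nt
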