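import Pool.Agent.Lib.MP_416699_nt.IrrC
import Pool.Agent.Lib.MP_416699_nt.Bang

/-!
Irreducibility of `Phi n` for all `n ≥ 2`; the case `n = 6` needs an extra argument modulo 2.
-/

open Polynomial

namespace Pool.Agent.Lib.MP_416699_nt

/-- The substitution `c ↦ z ^ 2 + z + c` modulo 2, an involution. -/
noncomputable def sg : (ZMod 2)[X][X] →+* (ZMod 2)[X][X] :=
  eval₂RingHom ((aeval w : (ZMod 2)[X] →ₐ[ZMod 2] (ZMod 2)[X][X]) : (ZMod 2)[X] →+* _) X

lemma sg_C (p : (ZMod 2)[X]) : sg (C p) = aeval w p := by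
  simp [sg]

lemma sg_X : sg X = X := by simp [sg]

lemma sg_w : sg w = C X := by
  have h2 : (2 : (ZMod 2)[X][X]) = 0 := CharTwo.two_eq_zero
  rw [w, map_add, map_add, map_pow, sg_X, sg_C, aeval_X, w]
  linear_combination (X ^ 2 + X) * h2

lemma sg_sg (p : (ZMod 2)[X][X]) : sg (sg p) = p := by
  have h : sg.comp sg = RingHom.id _ := by
    apply Polynomial.ringHom_ext'
    · apply Polynomial.ringHom_ext'
      · exact RingHom.ext_zmod _ _
      · simp only [RingHom.comp_apply, sg_C, aeval_X, sg_w, RingHom.id_apply]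
    · simp [sg_X]
  exact congrArg (fun g => g p) h

/-- Modulo 2 every factor of `Phi n` is a polynomial in `z ^ 2 + z + c`. -/
lemma red_factor {n : ℕ} (hn : n ≠ 0) {A B : ℤ[X][X]} (hAB : A * B = Phi n) :
    ∃ a' : (ZMod 2)[X], A.map red = aeval w a' := by
  have h1 := congrArg (fun p => sg (Polynomial.map red p)) hAB
  simp only [Polynomial.map_mul, map_mul] at h1
  rw [map_red_Phi hn, ← sg_C, sg_sg] at h1
  have h0 : C (red (Gl n)) ≠ 0 := by
    rw [Ne, C_eq_zero]
    exact ((Gl_monic hn).map _).ne_zero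
  have hA0 : sg (A.map red) ≠ 0 := by
    intro h; rw [h, zero_mul] at h1; exact h0 h1.symm
  have hB0 : sg (B.map red) ≠ 0 := by
    intro h; rw [h, mul_zero] at h1; exact h0 h1.symm
  have h2 := congrArg natDegree h1
  rw [natDegree_mul hA0 hB0, natDegree_C] at h2
  have h3 : (sg (A.map red)).natDegree = 0 := by lia
  refine ⟨(sg (A.map red)).coeff 0, ?_⟩
  rw [← sg_C, ← eq_C_of_natDegree_eq_zero h3, sg_sg]

lemma red_ev0_factor {n : ℕ} (hn : n ≠ 0) {A B : ℤ[X][X]} (hAB : A * B = Phi n) :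
    ∃ a' : (ZMod 2)[X], red (ev0 A) = a'.comp (X ^ 2 + X) := by
  obtain ⟨a', ha⟩ := red_factor hn hAB
  refine ⟨a', ?_⟩
  have h1 : red (ev0 A) = mapRingHom (evalRingHom (0 : ZMod 2)) (A.map red) := by
    have : red.comp ev0 = (mapRingHom (evalRingHom (0 : ZMod 2))).comp (mapRingHom red) := by
      apply Polynomial.ringHom_ext'
      · apply Polynomial.ringHom_ext'
        · exact RingHom.ext_int _ _
        · simp
      · simp
    exact congrArg (fun g => g A) this
  rw [h1, ha]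
  have h2 : (mapRingHom (evalRingHom (0 : ZMod 2))).comp
      ((aeval w : (ZMod 2)[X] →ₐ[ZMod 2] (ZMod 2)[X][X]) : (ZMod 2)[X] →+* _) =
      compRingHom (X ^ 2 + X) := by
    apply Polynomial.ringHom_ext'
    · exact RingHom.ext_zmod _ _
    · simp [w]
  exact congrArg (fun g => g a') h2

lemma coeff_cyc21 : (cyclotomic 21 (ZMod 2)).coeff 11 = 1 := by
  have h1 : expand (ZMod 2) 7 (cyclotomic 3 (ZMod 2)) =
      cyclotomic (3 * 7) (ZMod 2) * cyclotomic 3 (ZMod 2) :=
    cyclotomic_expand_eq_cyclotomic_mul (by norm_num) (by norm_num) _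
  have h2 := congrArg nextCoeff h1
  rw [Monic.nextCoeff_mul (cyclotomic.monic _ _) (cyclotomic.monic _ _)] at h2
  have h3 : nextCoeff (cyclotomic 3 (ZMod 2)) = 1 := by
    rw [nextCoeff_of_natDegree_pos, natDegree_cyclotomic, cyclotomic_three]
    · simp [show Nat.totient 3 = 2 from rfl, coeff_X, coeff_one]
    · rw [natDegree_cyclotomic]; decide
  have h4 : nextCoeff (expand (ZMod 2) 7 (cyclotomic 3 (ZMod 2))) = 0 := by
    rw [nextCoeff_of_natDegree_pos, natDegree_expand, natDegree_cyclotomic,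
      show Nat.totient 3 = 2 from rfl, coeff_expand (by norm_num), if_neg (by norm_num)]
    rw [natDegree_expand, natDegree_cyclotomic, show Nat.totient 3 = 2 from rfl]; norm_num
  rw [h3, h4, nextCoeff_of_natDegree_pos, natDegree_cyclotomic] at h2
  · have h5 : Nat.totient (3 * 7) = 12 := by decide
    rw [h5] at h2
    have h6 : (cyclotomic 21 (ZMod 2)).coeff 11 = -1 := by
      linear_combination -h2
    rw [h6]; rfl
  · rw [natDegree_cyclotomic]; exact Nat.totient_pos.2 (by norm_num)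

lemma not_comp_21 (a' : (ZMod 2)[X]) : cyclotomic 21 (ZMod 2) ≠ a'.comp (X ^ 2 + X) := by
  intro h
  have hd2 : (X ^ 2 + X : (ZMod 2)[X]).natDegree = 2 := by compute_degree!
  have hdeg : a'.natDegree = 6 := by
    have h1 := congrArg natDegree h
    rw [natDegree_cyclotomic, natDegree_comp, hd2, show Nat.totient 21 = 12 by decide] at h1
    lia
  have h1 := coeff_cyc21
  rw [h, ← eraseLead_add_C_mul_X_pow a', add_comp, mul_comp, C_comp, X_pow_comp, coeff_add,
    coeff_C_mul, hdeg] at h1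
  have h2 : (a'.eraseLead.comp (X ^ 2 + X)).coeff 11 = 0 := by
    apply coeff_eq_zero_of_natDegree_lt
    rw [natDegree_comp, hd2]
    have := eraseLead_natDegree_le a'
    lia
  have h3 : ((X ^ 2 + X : (ZMod 2)[X]) ^ 6).coeff 11 = 0 := by
    rw [show (X ^ 2 + X : (ZMod 2)[X]) ^ 6 = (X + 1) ^ 6 * X ^ 6 by ring,
      show 11 = 5 + 6 from rfl, coeff_mul_X_pow, coeff_X_add_one_pow]
    decide
  rw [h2, h3] at h1
  simp at h1

lemma orderOf_nine : orderOf (2 : ZMod 9) = 6 := by
  rw [orderOf_eq_iff (by norm_num)]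
  decide

lemma orderOf_twentyone : orderOf (2 : ZMod 21) = 6 := by
  rw [orderOf_eq_iff (by norm_num)]
  decide

lemma orderOf_sixtythree : orderOf (2 : ZMod 63) = 6 := by
  rw [orderOf_eq_iff (by norm_num)]
  decide

lemma Dn_six {d : ℕ} (hd : d ∈ Dn 6) : d = 9 ∨ d = 21 ∨ d = 63 := by
  have h1 := dvd_of_mem_Dn hd
  have h2 : d ∈ Nat.divisors 63 := Nat.mem_divisors.2 ⟨h1, by norm_num⟩
  have h3 : Nat.divisors 63 = {1, 3, 7, 9, 21, 63} := by decide
  have h4 := (mem_Dn (n := 6) (by norm_num)).1 hd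
  rw [h3] at h2
  simp only [Finset.mem_insert, Finset.mem_singleton] at h2
  rcases h2 with rfl | rfl | rfl | rfl | rfl | rfl
  · exfalso
    have : orderOf (2 : ZMod 1) ∣ 1 := orderOf_dvd_iff_pow_eq_one.2 (by decide)
    rw [h4] at this
    revert this; decide
  · exfalso
    have : orderOf (2 : ZMod 3) ∣ 2 := orderOf_dvd_iff_pow_eq_one.2 (by decide)
    rw [h4] at this
    revert this; decide
  · exfalso
    have : orderOf (2 : ZMod 7) ∣ 3 := orderOf_dvd_iff_pow_eq_one.2 (by decide)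
    rw [h4] at this
    revert this; decide
  · simp
  · simp
  · simp

lemma edge_nine {A B : ℤ[X][X]} (hAB : A * B = Phi 6) (hA : cyclotomic 9 ℤ ∣ ev0 A)
    (hB : cyclotomic 63 ℤ ∣ ev0 B) : False := by
  have : Fact (Nat.Prime 7) := ⟨by norm_num⟩
  obtain ⟨y, hy⟩ := exists_root (p := 7) (D := 9) (by norm_num)
  have hA' : cyclotomic (7 ^ 0 * 9) ℤ ∣ ev0 A := by rwa [pow_zero, one_mul]
  have hB' : cyclotomic (7 ^ 1 * 9) ℤ ∣ ev0 B := by rwa [pow_one]
  have h := edge_core (n := 6) (p := 7) (D := 9) (by norm_num) (by norm_num) (by norm_num)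
    (by norm_num) (hAB ▸ Phi_dvd_Pd (by norm_num)) hA' hB' hy
  have h7 : (7 : AlgebraicClosure (ZMod 7)) = 0 := by
    have := (CharP.cast_eq_zero_iff (AlgebraicClosure (ZMod 7)) 7 7).2 dvd_rfl
    exact_mod_cast this
  have hy9 : y ^ 9 = 1 := hy.pow_eq_one
  have hy3 : y ^ 3 ≠ 1 := hy.pow_ne_one_of_pos_of_lt (by norm_num) (by norm_num)
  have hy0 : y ≠ 0 := hy.ne_zero (by norm_num)
  have h4 : (2 : AlgebraicClosure (ZMod 7))⁻¹ = 4 := by
    apply inv_eq_of_mul_eq_one_right
    linear_combination h7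
  have h5 : y ^ 6 + y ^ 3 + 1 = 0 := by
    have : (y ^ 3 - 1) * (y ^ 6 + y ^ 3 + 1) = 0 := by linear_combination hy9
    rcases mul_eq_zero.1 this with h | h
    · exact absurd (sub_eq_zero.1 h) hy3
    · exact h
  have h6 : (y ^ 3 - 2) * (y ^ 3 - 4) = 0 := by linear_combination h5 + (1 - y ^ 3) * h7
  rw [h4] at h
  simp only [Finset.sum_range_succ, Finset.sum_range_zero, zero_add, pow_zero, one_mul, pow_one]
    at h
  norm_num at h
  rcases mul_eq_zero.1 h6 with h8 | h8
  · have h9 : y ^ 3 = 2 := sub_eq_zero.1 h8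
    have e1 : y ^ 4 = 2 * y := by linear_combination y * h9
    have e2 : y ^ 8 = 4 * y ^ 2 := by linear_combination y ^ 2 * (y ^ 3 + 2) * h9
    have e3 : y ^ 16 = 32 * y := by
      linear_combination y * (y ^ 12 + 2 * y ^ 9 + 4 * y ^ 6 + 8 * y ^ 3 + 16) * h9
    have e4 : y ^ 32 = 1024 * y ^ 2 := by
      have : y ^ 32 = (y ^ 16) ^ 2 := by ring
      rw [this, e3]; ring
    rw [e1, e2, e3, e4] at h
    have h10 : y ^ 2 = 0 := by
      linear_combination 3 * h - (3525 * y + 449501 * y ^ 2) * h7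
    exact hy0 (pow_eq_zero_iff two_ne_zero |>.1 h10)
  · have h9 : y ^ 3 = 4 := sub_eq_zero.1 h8
    have e1 : y ^ 4 = 4 * y := by linear_combination y * h9
    have e2 : y ^ 8 = 16 * y ^ 2 := by linear_combination y ^ 2 * (y ^ 3 + 4) * h9
    have e3 : y ^ 16 = 1024 * y := by
      linear_combination y * (y ^ 12 + 4 * y ^ 9 + 16 * y ^ 6 + 64 * y ^ 3 + 256) * h9
    have e4 : y ^ 32 = 1024 ^ 2 * y ^ 2 := by
      have : y ^ 32 = (y ^ 16) ^ 2 := by ring
      rw [this, e3]; ring
    rw [e1, e2, e3, e4] at h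
    have h10 : y = 0 := by
      linear_combination 5 * h - (187292 * y + 766959180 * y ^ 2) * h7
    exact hy0 h10

/-- A factor whose value at `c = 0` contains only `cyclotomic 21`: impossible. -/
lemma not_21 {A B : ℤ[X][X]} (hA : A.Monic) (hA0 : A.natDegree ≠ 0) (hAB : A * B = Phi 6)
    (h9 : ¬ cyclotomic 9 ℤ ∣ ev0 A) (h63 : ¬ cyclotomic 63 ℤ ∣ ev0 A) : False := by
  have h1 : ev0 A ∣ cyclotomic 9 ℤ * (cyclotomic 63 ℤ * cyclotomic 21 ℤ) := by
    have h2 : ev0 A ∣ ∏ d ∈ Dn 6, cyclotomic d ℤ := by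
      rw [← ev0_Phi (by norm_num), ← hAB, map_mul]
      exact dvd_mul_right _ _
    refine h2.trans ?_
    have h3 : Dn 6 ⊆ {9, 63, 21} := by
      intro d hd
      have := Dn_six hd
      simp only [Finset.mem_insert, Finset.mem_singleton]
      lia
    refine (Finset.prod_dvd_prod_of_subset _ _ _ h3).trans ?_
    rw [Finset.prod_insert (by simp), Finset.prod_pair (by norm_num)]
  have hcop : ∀ (d : ℕ), 0 < d → ¬ cyclotomic d ℤ ∣ ev0 A → IsRelPrime (ev0 A) (cyclotomic d ℤ) := by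
    intro d hd h
    exact ((cyclotomic.irreducible hd).isRelPrime_iff_not_dvd.2 h).symm
  have h4 := (hcop 9 (by norm_num) h9).dvd_of_dvd_mul_left h1
  have h5 := (hcop 63 (by norm_num) h63).dvd_of_dvd_mul_left h4
  have hAm : (ev0 A).Monic := hA.map _
  have h6 : ¬ IsUnit (ev0 A) := by
    intro h
    have h2 : (ev0 A).natDegree = A.natDegree := hA.natDegree_map _
    rw [hAm.isUnit_iff.1 h, natDegree_one] at h2
    exact hA0 h2.symm
  have h7 : Associated (ev0 A) (cyclotomic 21 ℤ) := by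
    rcases (cyclotomic.irreducible (n := 21) (by norm_num)).dvd_iff.1 h5 with h | h
    · exact absurd h h6
    · exact h.symm
  have h8 : ev0 A = cyclotomic 21 ℤ := eq_of_monic_of_associated hAm (cyclotomic.monic _ _) h7
  obtain ⟨a', ha⟩ := red_ev0_factor (by norm_num) hAB
  rw [h8] at ha
  apply not_comp_21 a'
  rw [← ha]
  simp

theorem Phi_irreducible {n : ℕ} (hn : 2 ≤ n) : Irreducible (Phi n) := by
  by_cases h6 : n = 6
  · subst h6
    rw [(Phi_monic (by norm_num)).irreducible_iff_natDegree]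
    refine ⟨Phi_ne_one hn, ?_⟩
    intro A B hA hB hAB
    by_contra hcon
    push Not at hcon
    have hBA : B * A = Phi 6 := (mul_comm _ _).trans hAB
    have m9 : 9 ∈ Dn 6 := (mem_Dn (by norm_num)).2 orderOf_nine
    have m63 : 63 ∈ Dn 6 := (mem_Dn (by norm_num)).2 orderOf_sixtythree
    rcases either hn m9 hAB with h9 | h9
    · apply not_21 hB hcon.2 hBA
      · exact fun h => not_both (by norm_num) (by norm_num) hAB h9 h
      · exact fun h => edge_nine hAB h9 h
    · apply not_21 hA hcon.1 hAB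
      · exact fun h => not_both (by norm_num) (by norm_num) hAB h h9
      · exact fun h => edge_nine hBA h9 h
  · obtain ⟨q, hq, hqn⟩ := bang_two n hn h6
    exact Phi_irreducible_of_prime hn hq hqn

end Pool.Agent.Lib.MP_416699_nt
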