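import Pool.Agent.Lib.MP_416699_nt.CapD

/-!
`G m n` is irreducible for all large `m`, provided the dynatomic polynomial `Phi n` is irreducible.
-/

open Polynomial

namespace Pool.Agent.Lib.MP_416699_nt

lemma monic_of_ne_zero_two {p : (ZMod 2)[X]} (hp : p ≠ 0) : p.Monic := by
  have h : p.leadingCoeff ≠ 0 := leadingCoeff_ne_zero.2 hp
  rw [Monic]
  revert h
  generalize p.leadingCoeff = x
  revert x
  decide

lemma eq_of_associated_two {p q : (ZMod 2)[X]} (hp : p ≠ 0) (h : Associated p q) : p = q := by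
  have hq : q ≠ 0 := fun h0 => hp ((associated_zero_iff_eq_zero p).1 (h0 ▸ h))
  exact eq_of_monic_of_associated (monic_of_ne_zero_two hp) (monic_of_ne_zero_two hq) h

lemma Gl_natDegree_pos {n : ℕ} (hn : n ≠ 0) : (Gl n).natDegree ≠ 0 := by
  intro h0
  have h1 := congrArg natDegree (prod_Gl hn)
  rw [prod_divisors_eq hn, Monic.natDegree_mul _ (Gl_monic hn), h0, add_zero,
    natDegree_prod_of_monic, a_natDegree hn] at h1
  · have h2 : ∑ k ∈ n.properDivisors, (Gl k).natDegree ≤ ∑ k ∈ Finset.range (n - 1), 2 ^ k := by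
      have h3 : ∀ k ∈ n.properDivisors, (Gl k).natDegree ≤ 2 ^ (k - 1) := by
        intro k hk
        obtain ⟨hk0, -, -⟩ := properDivisors_facts hn hk
        rw [← a_natDegree hk0]
        exact natDegree_le_of_dvd (Gl_dvd_a hk0) (a_monic hk0).ne_zero
      refine (Finset.sum_le_sum h3).trans ?_
      have h4 : ∑ k ∈ n.properDivisors, 2 ^ (k - 1) =
          ∑ k ∈ n.properDivisors.image (fun k => k - 1), 2 ^ k := by
        rw [Finset.sum_image]
        intro x hx y hy hxy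
        have h5 := (properDivisors_facts hn (Finset.mem_coe.1 hx)).1
        have h6 := (properDivisors_facts hn (Finset.mem_coe.1 hy)).1
        simp only at hxy
        lia
      rw [h4]
      apply Finset.sum_le_sum_of_subset
      intro k hk
      obtain ⟨j, hj, rfl⟩ := Finset.mem_image.1 hk
      obtain ⟨hj0, hj1, -⟩ := properDivisors_facts hn hj
      rw [Finset.mem_range]
      lia
    have h5 : ∑ k ∈ Finset.range (n - 1), 2 ^ k < 2 ^ (n - 1) := Nat.geomSum_lt (by norm_num)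
      (fun k hk => Finset.mem_range.1 hk)
    lia
  · intro k hk
    exact Gl_monic (properDivisors_facts hn hk).1
  · apply monic_prod_of_monic
    intro k hk
    exact Gl_monic (properDivisors_facts hn hk).1

theorem G_irreducible_large {n : ℕ} (hn2 : 2 ≤ n) (hirr : Irreducible (Phi n)) :
    ∃ M : ℕ, ∀ m ≥ M, Irreducible (G m n) := by
  classical
  have hn : n ≠ 0 := by lia
  set d := (red (Gl n)).natDegree with hd
  -- the choice of the polynomials `r`
  let pol : (Fin (d + 1) → ZMod 2) → (ZMod 2)[X] := fun v => ∑ i : Fin (d + 1), C (v i) * X ^ (i : ℕ)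
  have hex : ∀ v : Fin (d + 1) → ZMod 2, ∃ r : ℤ[X], r ≠ 0 ∧
      ((∃ P₁ P₂ : ℤ[X], red P₂ = pol v ∧ (red P₂).natDegree ≠ 0 ∧
        red P₁ * red P₂ = red (Gl n) ∧ IsCoprime (red P₁) (red P₂)) →
      ∀ m : ℕ, m ≠ 0 → ∀ g : ℤ[X], g.Monic → Irreducible g → g ∣ Q m n →
      IsCoprime (red g) (pol v) → g ∣ r) := by
    intro v
    by_cases h : ∃ P₁ P₂ : ℤ[X], red P₂ = pol v ∧ (red P₂).natDegree ≠ 0 ∧
        red P₁ * red P₂ = red (Gl n) ∧ IsCoprime (red P₁) (red P₂)
    · obtain ⟨P₁, P₂, h1, h2, h3, h4⟩ := h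
      have h5 : red P₂ ≠ 0 := by rintro h; rw [h] at h2; simp at h2
      obtain ⟨r, hr0, hr⟩ := capacity hn hirr (monic_of_ne_zero_two h5) h2 h3 h4
      refine ⟨r, hr0, fun _ m hm g hg hgi hgQ hgc => hr m hm g hg hgi hgQ (h1 ▸ hgc)⟩
    · exact ⟨1, one_ne_zero, fun h' => absurd h' h⟩
  choose r hr0 hr using hex
  set R : ℤ[X] := ∏ v, r v with hR
  have hR0 : R ≠ 0 := Finset.prod_ne_zero_iff.2 fun v _ => hr0 v
  refine ⟨R.natDegree + 3, fun m hm => ?_⟩
  have hm2 : 2 ≤ m := by lia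
  have hm0 : m ≠ 0 := by lia
  set e := 2 ^ (m - 1) - if n ∣ m - 1 then 1 else 0 with he
  have hebig : R.natDegree < e := by
    have h1 : m - 1 < 2 ^ (m - 1) := Nat.lt_two_pow_self
    rw [he]
    split_ifs <;> lia
  have he0 : e ≠ 0 := by lia
  have hGm := G_monic hm0 hn
  have hredG : red (G m n) = red (Gl n) ^ e := red_G hm0 hn
  have hGlm : (red (Gl n)).Monic := (Gl_monic hn).map _
  have hGlpos : d ≠ 0 := by
    rw [hd]
    change (Polynomial.map _ _).natDegree ≠ 0
    rw [(Gl_monic hn).natDegree_map]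
    exact Gl_natDegree_pos hn
  have hGnu : ¬ IsUnit (G m n) := by
    intro hu
    have h1 := hGm.eq_one_of_isUnit hu
    have h2 : red (Gl n) ^ e = 1 := by rw [← hredG, h1, map_one]
    have h3 := congrArg natDegree h2
    rw [hGlm.natDegree_pow, natDegree_one] at h3
    rcases Nat.mul_eq_zero.1 h3 with h4 | h4
    · exact he0 h4
    · exact hGlpos h4
  -- a monic irreducible factor
  obtain ⟨g', hg'irr, hg'dvd⟩ := WfDvdMonoid.exists_irreducible_factor hGnu hGm.ne_zero
  obtain ⟨g, hgm, hgirr, hgdvd⟩ : ∃ g : ℤ[X], g.Monic ∧ Irreducible g ∧ g ∣ G m n := by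
    have hu : IsUnit g'.leadingCoeff := by
      obtain ⟨q, hq⟩ := hg'dvd
      have h1 := congrArg leadingCoeff hq
      rw [hGm.leadingCoeff, leadingCoeff_mul] at h1
      exact IsUnit.of_mul_eq_one _ h1.symm
    rcases Int.isUnit_iff.1 hu with h1 | h1
    · exact ⟨g', h1, hg'irr, hg'dvd⟩
    · refine ⟨-g', ?_, ?_, ?_⟩
      · rw [Monic, leadingCoeff_neg, h1]; norm_num
      · exact (Associated.neg_left (Associated.refl g')).symm.irreducible hg'irr
      · exact (neg_dvd).2 hg'dvd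
  obtain ⟨h, hgh⟩ := hgdvd
  have hhm : h.Monic := by
    rw [hgh] at hGm
    exact hgm.of_mul_monic_left hGm
  by_cases hh1 : h.natDegree = 0
  · rw [hhm.natDegree_eq_zero.1 hh1, mul_one] at hgh
    rw [hgh]; exact hgirr
  exfalso
  have hcop := coprime_of_mul_eq_G hm2 hn2 hgh.symm
  have hprod : red g * red h = red (Gl n) ^ e := by rw [← map_mul, ← hgh, hredG]
  have hg0 : red g ≠ 0 := (hgm.map _).ne_zero
  have hh0 : red h ≠ 0 := (hhm.map _).ne_zero
  obtain ⟨d₁, hd₁⟩ := exists_associated_pow_of_mul_eq_pow' hcop hprod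
  obtain ⟨d₂, hd₂⟩ := exists_associated_pow_of_mul_eq_pow' hcop.symm
    ((mul_comm _ _).trans hprod)
  have e1 : red g = d₁ ^ e := eq_of_associated_two hg0 hd₁.symm
  have e2 : red h = d₂ ^ e := eq_of_associated_two hh0 hd₂.symm
  have hd₁0 : d₁ ≠ 0 := by rintro rfl; rw [zero_pow he0] at e1; exact hg0 e1
  have hd₂0 : d₂ ≠ 0 := by rintro rfl; rw [zero_pow he0] at e2; exact hh0 e2
  have e3 : d₁ * d₂ = red (Gl n) := by
    have h1 : (d₁ * d₂) ^ e = red (Gl n) ^ e := by rw [mul_pow, ← e1, ← e2, hprod]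
    apply eq_of_associated_two (mul_ne_zero hd₁0 hd₂0)
    apply associated_of_dvd_dvd
    · exact (IsIntegrallyClosed.pow_dvd_pow_iff he0).1 h1.dvd
    · exact (IsIntegrallyClosed.pow_dvd_pow_iff he0).1 h1.symm.dvd
  have hcop' : IsCoprime d₁ d₂ := by
    rw [e1, e2] at hcop
    exact (IsCoprime.pow_iff (Nat.pos_of_ne_zero he0) (Nat.pos_of_ne_zero he0)).1 hcop
  obtain ⟨P₁, hP₁⟩ := red_surj d₁
  obtain ⟨P₂, hP₂⟩ := red_surj d₂
  have hdeg2 : d₂.natDegree ≠ 0 := by
    intro h0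
    have h1 : (red h).natDegree = h.natDegree := hhm.natDegree_map _
    rw [e2, (monic_of_ne_zero_two hd₂0).natDegree_pow, h0, mul_zero] at h1
    exact hh1 h1.symm
  have hgdeg : g.natDegree ≠ 0 := by
    intro h0
    exact hgirr.not_isUnit (by rw [hgm.natDegree_eq_zero.1 h0]; exact isUnit_one)
  have hdegg : g.natDegree = e * d₁.natDegree := by
    have h1 : (red g).natDegree = g.natDegree := hgm.natDegree_map _
    rw [← h1, e1, (monic_of_ne_zero_two hd₁0).natDegree_pow]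
  have hdeg1 : d₁.natDegree ≠ 0 := by
    intro h0
    rw [h0, mul_zero] at hdegg
    exact hgdeg hdegg
  -- the vector of `d₂`
  have hd₂le : d₂.natDegree < d + 1 := by
    have h1 : d₂.natDegree ≤ (red (Gl n)).natDegree :=
      natDegree_le_of_dvd (e3 ▸ dvd_mul_left _ _) hGlm.ne_zero
    lia
  have hpol : pol (fun i => d₂.coeff i) = d₂ := by
    simp only [pol]
    rw [Fin.sum_univ_eq_sum_range (fun i => C (d₂.coeff i) * X ^ i) (d + 1)]
    exact (as_sum_range_C_mul_X_pow' d₂ hd₂le).symm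
  have h1 := hr (fun i => d₂.coeff i) ⟨P₁, P₂, by rw [hpol, hP₂], by rw [hP₂]; exact hdeg2,
    by rw [hP₁, hP₂, e3], by rw [hP₁, hP₂]; exact hcop'⟩ m hm0 g hgm hgirr
    ((Dvd.intro h hgh.symm).trans (Dvd.intro _ (G_mul hm0 hn)))
    (by rw [hpol, e1]; exact hcop'.pow_left)
  have h2 : g ∣ R := h1.trans (Finset.dvd_prod_of_mem r (Finset.mem_univ _))
  have h3 := natDegree_le_of_dvd h2 hR0
  have h4 : e ≤ g.natDegree := by
    rw [hdegg]
    exact Nat.le_mul_of_pos_right e (Nat.pos_of_ne_zero hdeg1)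
  lia

end Pool.Agent.Lib.MP_416699_nt
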