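import Pool.Agent.Lib.MP_416699_nt.NuH
import Pool.Agent.Lib.MP_416699_nt.IrrLarge
import Pool.Agent.Lib.MP_416699_nt.IrrD

/-!
Assembly: for every `n ≥ 2` and all large `m`, `G m n` is irreducible and the values of `G m ℓ`
at its roots are not algebraic units.
-/

open Polynomial

namespace Pool.Agent.Lib.MP_416699_nt

theorem irreducible_large {n : ℕ} (hn : 2 ≤ n) : ∃ M : ℕ, ∀ m ≥ M, Irreducible (G m n) :=
  G_irreducible_large hn (Phi_irreducible hn)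

lemma mem_of_inv_mem {S : Subalgebra ℤ ℂ} {y : ℂ} (hy : IsIntegral ℤ y) (hy0 : y ≠ 0)
    (hx : y⁻¹ ∈ S) : y ∈ S := by
  obtain ⟨p, hp, hp0⟩ := hy
  have h1 : aeval y p = 0 := hp0
  rw [aeval_eq_sum_range, Finset.sum_range_succ, hp.coeff_natDegree, one_smul] at h1
  have hk : p.natDegree ≠ 0 := by
    intro h
    rw [h] at h1
    simp at h1
  have h2 : y = - ∑ i ∈ Finset.range p.natDegree, p.coeff i • (y⁻¹) ^ (p.natDegree - 1 - i) := by
    have h3 : y ^ p.natDegree * (y⁻¹) ^ (p.natDegree - 1) = y := by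
      obtain ⟨k, hk'⟩ := Nat.exists_eq_succ_of_ne_zero hk
      rw [hk', Nat.succ_eq_add_one, Nat.add_sub_cancel, pow_succ', mul_assoc, ← mul_pow,
        mul_inv_cancel₀ hy0, one_pow, mul_one]
    have h4 : (∑ i ∈ Finset.range p.natDegree, p.coeff i • y ^ i) * (y⁻¹) ^ (p.natDegree - 1) =
        ∑ i ∈ Finset.range p.natDegree, p.coeff i • (y⁻¹) ^ (p.natDegree - 1 - i) := by
      rw [Finset.sum_mul]
      refine Finset.sum_congr rfl fun i hi => ?_
      have hi' : i ≤ p.natDegree - 1 := by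
        have := Finset.mem_range.1 hi
        lia
      rw [smul_mul_assoc]
      congr 1
      have h5 : (y⁻¹) ^ (p.natDegree - 1) = (y⁻¹) ^ i * (y⁻¹) ^ (p.natDegree - 1 - i) := by
        rw [← pow_add, Nat.add_sub_cancel' hi']
      rw [h5, ← mul_assoc, ← mul_pow, mul_inv_cancel₀ hy0, one_pow, one_mul]
    rw [← h4]
    linear_combination (y⁻¹) ^ (p.natDegree - 1) * h1 - h3
  rw [h2]
  apply neg_mem
  apply sum_mem
  intro i _
  exact Subalgebra.smul_mem _ (pow_mem hx _) _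

/-- A unit value at a root of an irreducible monic polynomial gives a Bezout relation. -/
lemma bezout_of_unit {g h : ℤ[X]} (hg : g.Monic) (hirr : Irreducible g) {c : ℂ}
    (hc : aeval c g = 0) {y : ℂ} (hy : IsIntegral ℤ y) (hhy : aeval c h * y = 1) :
    ∃ u v : ℤ[X], u * g + v * h = 1 := by
  have h1 : y ∈ Algebra.adjoin ℤ {c} := by
    have h2 : y⁻¹ = aeval c h := by
      rw [inv_eq_iff_eq_inv]
      exact eq_inv_of_mul_eq_one_right hhy
    have hy0 : y ≠ 0 := by rintro rfl; rw [mul_zero] at hhy; exact zero_ne_one hhy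
    apply mem_of_inv_mem hy hy0
    rw [h2]; exact aeval_mem_adjoin_singleton ℤ c
  rw [Algebra.adjoin_singleton_eq_range_aeval] at h1
  obtain ⟨v, hv⟩ := h1
  have hv' : aeval c v = y := hv
  have h2 : aeval c (1 - v * h) = 0 := by
    rw [map_sub, map_mul, hv', map_one, mul_comm, hhy, sub_self]
  obtain ⟨u, hu⟩ := dvd_of_root hg hirr hc h2
  exact ⟨u, v, by linear_combination -hu⟩

theorem nonunit_large {n : ℕ} (hn : 2 ≤ n) : ∃ M : ℕ, ∀ m ≥ M, ∀ ℓ : ℕ, ℓ ∣ n → ℓ < n →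
    ∀ c : ℂ, aeval c (G m n) = 0 → ¬ ∃ y : ℂ, IsIntegral ℤ y ∧ aeval c (G m ℓ) * y = 1 := by
  obtain ⟨M₀, hM₀⟩ := irreducible_large hn
  have hn0 : n ≠ 0 := by lia
  have h1 : ∀ ℓ : ℕ, ∃ M : ℕ, ℓ ∣ n → ℓ < n → ∀ m, M ≤ m → ∀ u v : ℤ[X],
      u * G m n + v * G m ℓ ≠ 1 := by
    intro ℓ
    by_cases h : ℓ ∣ n ∧ ℓ < n
    · obtain ⟨⟨q, rfl⟩, hlt⟩ := h
      have hℓ : ℓ ≠ 0 := by rintro rfl; simp at hn0
      have hq : 2 ≤ q := by
        by_contra hcon
        have h2 : q ≤ 1 := by lia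
        have h3 : ℓ * q ≤ ℓ * 1 := Nat.mul_le_mul_left ℓ h2
        lia
      obtain ⟨M, hM⟩ := no_bezout hℓ hq
      exact ⟨M, fun _ _ => hM⟩
    · exact ⟨0, fun h2 h3 => absurd ⟨h2, h3⟩ h⟩
  choose M₁ hM₁ using h1
  refine ⟨max (max M₀ 1) ((Finset.range n).sup M₁), fun m hm ℓ hℓn hlt c hc => ?_⟩
  rintro ⟨y, hy, hhy⟩
  have hm0 : M₀ ≤ m := (le_max_left _ _).trans ((le_max_left _ _).trans hm)
  have hm1 : m ≠ 0 := by
    have : 1 ≤ m := (le_max_right _ _).trans ((le_max_left _ _).trans hm)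
    lia
  have hm2 : M₁ ℓ ≤ m :=
    (Finset.le_sup (f := M₁) (Finset.mem_range.2 hlt)).trans ((le_max_right _ _).trans hm)
  obtain ⟨u, v, huv⟩ := bezout_of_unit (G_monic hm1 hn0) (hM₀ m hm0) hc hy hhy
  exact hM₁ ℓ hℓn hlt m hm2 u v huv

end Pool.Agent.Lib.MP_416699_nt
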