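import Pool.Agent.Lib.MP_416699_nt.Mod2

/-!
Möbius identities and the polynomials `G m n`.
-/

open Polynomial

namespace Pool.Agent.Lib.MP_416699_nt

open ArithmeticFunction in
lemma prod_moebius_field {F : Type*} [Field F] {f g : ℕ → F}
    (hf : ∀ n : ℕ, 0 < n → f n ≠ 0) (hg : ∀ n : ℕ, 0 < n → g n ≠ 0)
    (h : ∀ n > 0, ∏ i ∈ n.divisors, f i = g n) {n : ℕ} (hn : n ≠ 0) :
    f n * ∏ k ∈ dv n (-1), g k = ∏ k ∈ dv n 1, g k := by
  have h1 := (prod_eq_iff_prod_pow_moebius_eq_of_nonzero hf hg).1 h n (Nat.pos_of_ne_zero hn)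
  rw [Nat.prod_divisorsAntidiagonal' (f := fun x y => g y ^ moebius x)] at h1
  have hpos : ∀ k ∈ n.divisors, g k ≠ 0 := fun k hk => hg k (Nat.pos_of_mem_divisors hk)
  have e1 : ∏ k ∈ dv n 1, g k = ∏ k ∈ n.divisors, if moebius (n / k) = 1 then g k else 1 := by
    rw [dv, Finset.prod_filter]
  have e2 : ∏ k ∈ dv n (-1), g k = ∏ k ∈ n.divisors, if moebius (n / k) = -1 then g k else 1 := by
    rw [dv, Finset.prod_filter]
  rw [← h1, e1, e2, ← Finset.prod_mul_distrib]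
  refine Finset.prod_congr rfl fun k hk => ?_
  have hk0 := hpos k hk
  rcases moebius_eq_or (n / k) with h | h | h
  · simp [h]
  · simp [h]
  · simp [h, hk0]

/-- The Möbius identity in a domain. -/
lemma prod_moebius {S : Type*} [CommRing S] [IsDomain S] {f g : ℕ → S}
    (hg : ∀ n : ℕ, n ≠ 0 → g n ≠ 0)
    (h : ∀ n ≠ 0, ∏ i ∈ n.divisors, f i = g n) {n : ℕ} (hn : n ≠ 0) :
    f n * ∏ k ∈ dv n (-1), g k = ∏ k ∈ dv n 1, g k := by
  have hf : ∀ n : ℕ, n ≠ 0 → f n ≠ 0 := by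
    intro k hk h0
    apply hg k hk
    rw [← h k hk]
    exact Finset.prod_eq_zero (Nat.mem_divisors_self k hk) h0
  have hinj : Function.Injective (algebraMap S (FractionRing S)) :=
    FaithfulSMul.algebraMap_injective S _
  apply hinj
  have := prod_moebius_field (F := FractionRing S) (f := fun k => algebraMap S _ (f k))
    (g := fun k => algebraMap S _ (g k))
    (fun k hk => by simpa using hf k hk.ne') (fun k hk => by simpa using hg k hk.ne')
    (fun k hk => by rw [← map_prod, h k hk.ne']) hn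
  simpa only [map_mul, map_prod] using this

lemma Phi_moebius {n : ℕ} (hn : n ≠ 0) :
    Phi n * ∏ k ∈ dv n (-1), Pd k = ∏ k ∈ dv n 1, Pd k :=
  prod_moebius (fun _ hk => (Pd_monic hk).ne_zero) (fun _ hk => prod_Phi hk) hn

/-- `Q m n = Φ*_n(c, -a_{m-1}(c))`. -/
noncomputable def Q (m n : ℕ) : ℤ[X] := (Phi n).eval (-a (m - 1))

lemma Pd_eval_neg {m k : ℕ} (hm : m ≠ 0) (hk : k ≠ 0) : (Pd k).eval (-a (m - 1)) = D m k := by
  rw [Pd, eval_sub, itr_eval_neg hk, itr_eval_a, eval_X, D]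
  rw [show m - 1 + k = m + k - 1 by lia]
  ring

lemma mem_dv {n k : ℕ} {e : ℤ} (hk : k ∈ dv n e) : k ≠ 0 ∧ k ∣ n := by
  have h := (Finset.mem_filter.1 hk).1
  exact ⟨(Nat.pos_of_mem_divisors h).ne', Nat.dvd_of_mem_divisors h⟩

lemma Q_mul {m n : ℕ} (hm : m ≠ 0) (hn : n ≠ 0) :
    Q m n * ∏ k ∈ dv n (-1), D m k = ∏ k ∈ dv n 1, D m k := by
  have h := congrArg (Polynomial.eval (-a (m - 1))) (Phi_moebius hn)
  rw [eval_mul, eval_prod, eval_prod] at h
  rw [Finset.prod_congr rfl fun k hk => Pd_eval_neg hm (mem_dv hk).1,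
    Finset.prod_congr rfl fun k hk => Pd_eval_neg hm (mem_dv hk).1] at h
  exact h

lemma prod_Q {m n : ℕ} (hm : m ≠ 0) (hn : n ≠ 0) : ∏ k ∈ n.divisors, Q m k = D m n := by
  rw [← Pd_eval_neg hm hn, ← prod_Phi hn, eval_prod]
  rfl

lemma Gl_mul {n : ℕ} (hn : n ≠ 0) :
    Gl n * ∏ k ∈ dv n (-1), a k = ∏ k ∈ dv n 1, a k :=
  prod_moebius (fun _ hk => (a_monic hk).ne_zero) (fun _ hk => prod_Gl hk) hn

lemma D_monic {m k : ℕ} (hm : m ≠ 0) (hk : k ≠ 0) : (D m k).Monic := by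
  rw [D]
  have h0 : m + k - 1 ≠ 0 := by lia
  apply (a_monic h0).add_of_left
  by_cases h1 : m - 1 = 0
  · rw [h1, a_zero, degree_zero, degree_eq_natDegree (a_monic h0).ne_zero]
    exact WithBot.bot_lt_coe _
  · rw [degree_eq_natDegree (a_monic h0).ne_zero, degree_eq_natDegree (a_monic h1).ne_zero,
      a_natDegree h0, a_natDegree h1]
    exact_mod_cast Nat.pow_lt_pow_right (by norm_num) (by lia)

lemma Q_monic {m n : ℕ} (hm : m ≠ 0) (hn : n ≠ 0) : (Q m n).Monic := by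
  have h := Q_mul hm hn
  have h1 : (∏ k ∈ dv n (-1), D m k).Monic :=
    monic_prod_of_monic _ _ fun k hk => D_monic hm (mem_dv hk).1
  have h2 : (∏ k ∈ dv n 1, D m k).Monic :=
    monic_prod_of_monic _ _ fun k hk => D_monic hm (mem_dv hk).1
  rw [← h] at h2
  exact h1.of_mul_monic_right h2

lemma a_dvd_a {k n : ℕ} (h : k ∣ n) : a k ∣ a n := by
  have h1 := map_dvd (evalRingHom (0 : ℤ[X])) (Pd_dvd_of_dvd h)
  rw [coe_evalRingHom, Pd_eval_zero, Pd_eval_zero] at h1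
  exact h1

lemma Gl_dvd_a {n : ℕ} (hn : n ≠ 0) : Gl n ∣ a n := by
  rw [← prod_Gl hn]
  exact Finset.dvd_prod_of_mem _ (Nat.mem_divisors_self n hn)

lemma Gl_dvd_Q {m n : ℕ} (hn : n ≠ 0) (h : n ∣ m - 1) : Gl n ∣ Q m n := by
  have h1 : -a (m - 1) - 0 ∣ (Phi n).eval (-a (m - 1)) - (Phi n).eval 0 :=
    Polynomial.sub_dvd_eval_sub _ _ _
  have h2 : Gl n ∣ -a (m - 1) - 0 := by
    rw [sub_zero, dvd_neg]
    exact (Gl_dvd_a hn).trans (a_dvd_a h)
  have h3 := dvd_add (h2.trans h1) (dvd_refl (Gl n))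
  have e : (Phi n).eval (-a (m - 1)) - (Phi n).eval 0 + Gl n = Q m n := by
    rw [Q, Gl]; ring
  rwa [e] at h3

/-- The basic relation defining `G m n`. -/
lemma G_mul {m n : ℕ} (hm : m ≠ 0) (hn : n ≠ 0) :
    G m n * (if n ∣ m - 1 then Gl n else 1) = Q m n := by
  have h := Q_mul hm hn
  have hg := Gl_mul hn
  have h1 : (∏ k ∈ dv n (-1), D m k).Monic :=
    monic_prod_of_monic _ _ fun k hk => D_monic hm (mem_dv hk).1
  have h2 : (∏ k ∈ dv n (-1), a k).Monic :=
    monic_prod_of_monic _ _ fun k hk => a_monic (mem_dv hk).1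
  by_cases hd : n ∣ m - 1
  · obtain ⟨g, hgq⟩ := Gl_dvd_Q hn hd
    have h3 : num m n = den m n * g := by
      rw [num, den, if_pos hd, if_pos hd, ← h, ← hg, hgq]
      ring
    have h4 : (den m n).Monic := by
      rw [den, if_pos hd, ← hg]
      exact h1.mul ((Gl_monic hn).mul h2)
    rw [if_pos hd, G, h3, mul_divByMonic_cancel_left _ h4, hgq, mul_comm]
  · have h3 : num m n = den m n * Q m n := by
      rw [num, den, if_neg hd, if_neg hd, ← h]
      ring
    have h4 : (den m n).Monic := by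
      rw [den, if_neg hd, mul_one]
      exact h1
    rw [if_neg hd, G, h3, mul_divByMonic_cancel_left _ h4, mul_one]

/-- The quotient defining `G m n` is exact. -/
lemma G_mul_den {m n : ℕ} (hm : m ≠ 0) (hn : n ≠ 0) : G m n * den m n = num m n := by
  have h := G_mul hm hn
  have h1 := Q_mul hm hn
  have hg := Gl_mul hn
  by_cases hd : n ∣ m - 1
  · rw [if_pos hd] at h
    rw [num, den, if_pos hd, if_pos hd, ← h1, ← hg, ← h]
    ring
  · rw [if_neg hd, mul_one] at h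
    rw [num, den, if_neg hd, if_neg hd, ← h1, ← h]
    ring

lemma G_monic {m n : ℕ} (hm : m ≠ 0) (hn : n ≠ 0) : (G m n).Monic := by
  have h := G_mul hm hn
  have hq := Q_monic hm hn
  rw [← h] at hq
  apply Monic.of_mul_monic_right _ hq
  split_ifs
  · exact Gl_monic hn
  · exact monic_one

lemma T_add_T (m : ℕ) : T (m + 1) + T m = X ^ (2 ^ m) := by
  have h := Finset.sum_range_succ (fun i => (X : (ZMod 2)[X]) ^ (2 ^ i)) m
  have h2 : T (m + 1) = T m + X ^ (2 ^ m) := h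
  rw [h2]
  linear_combination CharTwo.add_self_eq_zero (T m)

lemma expand_two_pow (f : (ZMod 2)[X]) (k : ℕ) : f.comp (X ^ (2 ^ k)) = f ^ (2 ^ k) := by
  rw [← expand_eq_comp_X_pow]
  induction k with
  | zero => simp
  | succ k ih => rw [pow_succ, expand_mul, ZMod.expand_card, map_pow, ih, pow_mul]

lemma red_Q {m n : ℕ} (hn : n ≠ 0) : red (Q m n) = red (Gl n) ^ (2 ^ (m - 1)) := by
  have h1 : red (Q m n) = ((Phi n).map red).eval (-T (m - 1)) := by
    rw [Q, ← red_a, ← map_neg]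
    exact (Polynomial.eval_map_apply red _).symm
  rw [h1, map_red_Phi hn]
  have h2 : eval (-T (m - 1)) (aeval w (red (Gl n))) =
      (red (Gl n)).comp (eval (-T (m - 1)) w) := by
    have := Polynomial.hom_eval₂ (red (Gl n)) (algebraMap (ZMod 2) (ZMod 2)[X][X])
      (evalRingHom (-T (m - 1))) w
    rw [aeval_def]
    change evalRingHom (-T (m - 1)) _ = _
    rw [this, comp]
    congr 1
    ext
    simp
  have h3 : eval (-T (m - 1)) w = X ^ (2 ^ (m - 1)) := by
    rw [← T_add_T (m - 1), T_succ]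
    simp only [w, eval_add, eval_pow, eval_X, eval_C]
    rw [CharTwo.neg_eq]
    ring
  rw [h2, h3, expand_two_pow]

lemma red_G {m n : ℕ} (hm : m ≠ 0) (hn : n ≠ 0) :
    red (G m n) = red (Gl n) ^ (2 ^ (m - 1) - if n ∣ m - 1 then 1 else 0) := by
  have h := congrArg red (G_mul hm hn)
  rw [map_mul, red_Q hn] at h
  have h0 : red (Gl n) ≠ 0 := ((Gl_monic hn).map _).ne_zero
  split_ifs at h ⊢ with hd
  · have h1 : 1 ≤ 2 ^ (m - 1) := Nat.one_le_two_pow
    apply mul_right_cancel₀ h0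
    rw [h, ← pow_succ, Nat.sub_add_cancel h1]
  · rw [map_one, mul_one] at h
    rw [h, Nat.sub_zero]

end Pool.Agent.Lib.MP_416699_nt
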