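import Pool.Agent.Lib.MP_416699_nt.GPoly

/-!
The dynatomic polynomials at `c = 0`, and tangent computations in positive characteristic.
-/

open Polynomial

namespace Pool.Agent.Lib.MP_416699_nt

/-- Specialisation `c = 0`. -/
noncomputable abbrev ev0 : ℤ[X][X] →+* ℤ[X] := mapRingHom (evalRingHom (0 : ℤ))

lemma ev0_itr (k : ℕ) : ev0 (itr k) = X ^ (2 ^ k) := by
  induction k with
  | zero => simp
  | succ k ih =>
    rw [itr_succ, map_add, map_pow, ih, ← pow_mul, ← pow_succ]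
    simp

lemma ev0_Pd (k : ℕ) : ev0 (Pd k) = X ^ (2 ^ k) - X := by
  rw [Pd, map_sub, ev0_itr]; simp

/-- The odd numbers `d` with `ord_d(2) = n`. -/
noncomputable def Dn (n : ℕ) : Finset ℕ := (2 ^ n - 1).divisors.filter fun d => orderOf (2 : ZMod d) = n

lemma two_pow_eq_one_iff {d n : ℕ} : (2 : ZMod d) ^ n = 1 ↔ d ∣ 2 ^ n - 1 := by
  have h1 : 1 ≤ 2 ^ n := Nat.one_le_two_pow
  rw [← Nat.cast_ofNat (n := 2), ← Nat.cast_pow, ← Nat.cast_one (R := ZMod d), eq_comm,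
    ZMod.natCast_eq_natCast_iff, Nat.modEq_iff_dvd' h1]

lemma mem_Dn {n d : ℕ} (hn : n ≠ 0) : d ∈ Dn n ↔ orderOf (2 : ZMod d) = n := by
  rw [Dn, Finset.mem_filter, Nat.mem_divisors]
  constructor
  · exact fun h => h.2
  · intro h
    refine ⟨⟨?_, ?_⟩, h⟩
    · rw [← two_pow_eq_one_iff, ← h]
      exact pow_orderOf_eq_one _
    · have := Nat.one_lt_two_pow hn
      lia

lemma divisors_two_pow {n : ℕ} (hn : n ≠ 0) (f : ℕ → ℤ[X]) :
    ∏ d ∈ (2 ^ n - 1).divisors, f d = ∏ k ∈ n.divisors, ∏ d ∈ Dn k, f d := by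
  have h0 : 2 ^ n - 1 ≠ 0 := by
    have := Nat.one_lt_two_pow hn
    lia
  have hmaps : ∀ d ∈ (2 ^ n - 1).divisors, orderOf (2 : ZMod d) ∈ n.divisors := by
    intro d hd
    rw [Nat.mem_divisors]
    refine ⟨?_, hn⟩
    rw [orderOf_dvd_iff_pow_eq_one, two_pow_eq_one_iff]
    exact Nat.dvd_of_mem_divisors hd
  rw [← Finset.prod_fiberwise_of_maps_to hmaps f]
  · refine Finset.prod_congr rfl fun k hk => ?_
    have hk0 : k ≠ 0 := (Nat.pos_of_mem_divisors hk).ne'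
    have hkn := Nat.dvd_of_mem_divisors hk
    refine Finset.prod_congr ?_ fun _ _ => rfl
    ext d
    rw [mem_Dn hk0, Finset.mem_filter, Nat.mem_divisors]
    constructor
    · exact fun h => h.2
    · intro h
      refine ⟨⟨?_, h0⟩, h⟩
      rw [← two_pow_eq_one_iff, ← orderOf_dvd_iff_pow_eq_one, h]
      exact hkn

lemma ev0_Phi {n : ℕ} (hn : 2 ≤ n) : ev0 (Phi n) = ∏ d ∈ Dn n, cyclotomic d ℤ := by
  have hpow : ∀ k : ℕ, k ≠ 0 → (X : ℤ[X]) ^ (2 ^ k) - X = X * (X ^ (2 ^ k - 1) - 1) := by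
    intro k hk
    have := Nat.one_lt_two_pow hk
    rw [mul_sub, ← pow_succ', Nat.sub_add_cancel this.le, mul_one]
  have key : ∀ k : ℕ, k ≠ 0 →
      ev0 (Phi k) = (if k = 1 then X else 1) * ∏ d ∈ Dn k, cyclotomic d ℤ := by
    intro k
    induction k using Nat.strong_induction_on with
    | _ k ih =>
    intro hk
    have h0 : 0 < 2 ^ k - 1 := by
      have := Nat.one_lt_two_pow hk
      lia
    have h1 := congrArg ev0 (prod_Phi hk)
    rw [ev0_Pd, hpow k hk, ← prod_cyclotomic_eq_X_pow_sub_one h0, divisors_two_pow hk,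
      map_prod, prod_divisors_eq hk] at h1
    have h2 : (X : ℤ[X]) = ∏ i ∈ k.divisors, if i = 1 then X else 1 := by
      rw [Finset.prod_ite_eq' , if_pos (Nat.one_mem_divisors.2 hk)]
    have h3 : (X : ℤ[X]) * ∏ i ∈ k.divisors, ∏ d ∈ Dn i, cyclotomic d ℤ =
        ∏ i ∈ k.divisors, ((if i = 1 then X else 1) * ∏ d ∈ Dn i, cyclotomic d ℤ) := by
      rw [Finset.prod_mul_distrib, ← h2]
    rw [h3, prod_divisors_eq hk] at h1
    have h4 : ∏ i ∈ k.properDivisors, ev0 (Phi i) =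
        ∏ i ∈ k.properDivisors, ((if i = 1 then X else 1) * ∏ d ∈ Dn i, cyclotomic d ℤ) := by
      refine Finset.prod_congr rfl fun i hi => ?_
      obtain ⟨hi0, hik, -⟩ := properDivisors_facts hk hi
      exact ih i hik hi0
    rw [← h4] at h1
    apply mul_left_cancel₀ _ h1
    apply Monic.ne_zero
    apply monic_prod_of_monic
    intro i hi
    obtain ⟨hi0, hik, -⟩ := properDivisors_facts hk hi
    exact (Phi_monic hi0).map _
  rw [key n (by lia), if_neg (by lia), one_mul]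

/-- The substitution `c = x`, `z = ζ`. -/
noncomputable def sub1 {K : Type*} [Field K] (ζ : K) : ℤ[X][X] →+* K[X] :=
  eval₂RingHom (mapRingHom (Int.castRingHom K)) (C ζ)

lemma sub1_coeff_zero {K : Type*} [Field K] (ζ : K) (p : ℤ[X][X]) :
    (sub1 ζ p).coeff 0 = aeval ζ (ev0 p) := by
  have h : ((constantCoeff : K[X] →+* K).comp (sub1 ζ)) =
      ((aeval ζ : ℤ[X] →ₐ[ℤ] K) : ℤ[X] →+* K).comp ev0 := by
    apply Polynomial.ringHom_ext'
    · apply Polynomial.ringHom_ext'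
      · exact RingHom.ext_int _ _
      · simp [sub1]
    · simp [sub1]
  have := congrArg (fun g => g p) h
  simpa using this

lemma sub1_itr_coeff {K : Type*} [Field K] {ζ : K} (h0 : ζ ≠ 0) (h2 : (2 : K) ≠ 0) (k : ℕ) :
    (sub1 ζ (itr k)).coeff 0 = ζ ^ (2 ^ k) ∧
    (sub1 ζ (itr k)).coeff 1 * (ζ⁻¹) ^ (2 ^ k) * (2⁻¹ : K) ^ k =
      ∑ t ∈ Finset.range k, (2⁻¹ : K) ^ (t + 1) * (ζ⁻¹) ^ (2 ^ (t + 1)) := by
  induction k with
  | zero => simp [sub1, itr]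
  | succ k ih =>
    obtain ⟨ih1, ih2⟩ := ih
    have e1 : sub1 ζ (itr (k + 1)) = (sub1 ζ (itr k)) ^ 2 + X := by
      rw [itr_succ, map_add, map_pow]
      simp [sub1]
    rw [e1]
    constructor
    · rw [coeff_add, coeff_X_zero, add_zero, pow_two, mul_coeff_zero, ih1, pow_succ 2 k, pow_mul,
        pow_two]
    · have e2 : ((sub1 ζ (itr k)) ^ 2 + X).coeff 1 =
          2 * ζ ^ (2 ^ k) * (sub1 ζ (itr k)).coeff 1 + 1 := by
        rw [coeff_add, coeff_X_one, pow_two, mul_coeff_one, ih1]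
        ring
      rw [e2, Finset.sum_range_succ, ← ih2]
      have e3 : (ζ⁻¹) ^ (2 ^ (k + 1)) = (ζ⁻¹) ^ (2 ^ k) * (ζ⁻¹) ^ (2 ^ k) := by
        rw [pow_succ 2 k, pow_mul, pow_two]
      have e4 : ζ ^ (2 ^ k) * (ζ⁻¹) ^ (2 ^ k) = 1 := by
        rw [← mul_pow, mul_inv_cancel₀ h0, one_pow]
      have e5 : (2 : K) * 2⁻¹ = 1 := mul_inv_cancel₀ h2
      rw [e3, pow_succ (2⁻¹ : K) k]
      linear_combination (sub1 ζ (itr k)).coeff 1 * (ζ⁻¹) ^ (2 ^ k) * (2⁻¹ : K) ^ k *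
        (e5 + 2 * 2⁻¹ * e4)

/-- Tangent computation: two factors vanishing at the same point `(0, ζ)`. -/
lemma tangent {K : Type*} [Field K] {ζ : K} {n : ℕ} (h0 : ζ ≠ 0) (h2 : (2 : K) ≠ 0)
    (h2n : (2 : K) ^ n = 1) (hζ : ζ ^ (2 ^ n) = ζ) {A B : ℤ[X][X]} (h : A * B ∣ Pd n)
    (hA : aeval ζ (ev0 A) = 0) (hB : aeval ζ (ev0 B) = 0) :
    ∑ t ∈ Finset.range n, (2⁻¹ : K) ^ t * (ζ⁻¹) ^ (2 ^ t) = 0 := by
  obtain ⟨C', hC⟩ := h
  have e1 : (sub1 ζ (Pd n)).coeff 1 = 0 := by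
    rw [hC, map_mul, map_mul, mul_coeff_one, mul_coeff_zero, mul_coeff_one, sub1_coeff_zero ζ A,
      sub1_coeff_zero ζ B, hA, hB]
    ring
  have e2 : (sub1 ζ (itr n)).coeff 1 = 0 := by
    rw [← e1, Pd, map_sub, coeff_sub]
    simp [sub1]
  have h3 := (sub1_itr_coeff h0 h2 n).2
  rw [e2, zero_mul, zero_mul] at h3
  have h4 := Finset.sum_range_succ (fun t => (2⁻¹ : K) ^ t * (ζ⁻¹) ^ (2 ^ t)) n
  rw [Finset.sum_range_succ', ← h3] at h4
  have h5 : (2⁻¹ : K) ^ n = 1 := by rw [inv_pow, h2n, inv_one]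
  have h6 : (ζ⁻¹) ^ (2 ^ n) = ζ⁻¹ := by rw [inv_pow, hζ]
  rw [h5, h6] at h4
  simp only [pow_zero, pow_one, one_mul, zero_add] at h4
  have := add_right_cancel (b := ζ⁻¹) (h4.symm.trans (zero_add _).symm)
  exact this

end Pool.Agent.Lib.MP_416699_nt
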