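import Mathlib

/-!
Two lemmas on sums of powers of roots of unity in characteristic `p`.
-/

namespace Pool.Agent.Lib.MP_416699_nt

open Finset

/-- Separation lemma: if the weighted sum of `y ^ (2 ^ t)` over `T` vanishes at all primitive
`D`-th roots of unity, so does the sum over those `t` with `2 ^ t = 1` modulo `r ^ f`. -/
lemma sep_prime {K : Type*} [Field K] {D r f : ℕ} (hD : 0 < D) (hr : r.Prime) (hr2 : r ≠ 2)
    (hf : 1 ≤ f) (hM : r ^ f ∣ D) (hcase : f = 1 ∨ r * r ^ f ∣ D) (hrK : (r : K) ≠ 0)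
    (T : Finset ℕ) (c : ℕ → K)
    (H : ∀ y : K, IsPrimitiveRoot y D → ∑ t ∈ T, c t * y ^ (2 ^ t) = 0)
    (y : K) (hy : IsPrimitiveRoot y D) :
    ∑ t ∈ T.filter (fun t => ((r ^ f : ℕ) : ℤ) ∣ 2 ^ t - 1), c t * y ^ (2 ^ t) = 0 := by
  obtain ⟨N, hN⟩ := hM
  set M := r ^ f with hMdef
  have hM0 : 0 < M := pow_pos hr.pos f
  have hM1 : 1 < M := Nat.one_lt_pow (by omega) hr.one_lt
  set ω := y ^ N with hω
  have hωp : IsPrimitiveRoot ω M := hy.pow hD (by rw [hN, mul_comm])
  have hω0 : ω ≠ 0 := hωp.ne_zero hM0.ne'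
  let g : ℕ → K := fun i => ∑ t ∈ T, c t * y ^ (2 ^ t) * (ω ^ (2 ^ t)) ^ i
  have hg : ∀ i, (1 + i * N).Coprime D → g i = 0 := by
    intro i hi
    rw [← H (y ^ (1 + i * N)) (hy.pow_of_coprime _ hi)]
    apply sum_congr rfl
    intro t _
    rw [hω, mul_assoc]
    congr 1
    rw [← pow_mul, ← pow_mul, ← pow_mul, ← pow_add]
    congr 1
    ring
  have hcop : ∀ i, ¬ r ∣ 1 + i * N → (1 + i * N).Coprime D := by
    intro i hi
    apply Nat.coprime_of_dvd
    intro q hq h1 h2
    rw [hN] at h2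
    rcases (hq.dvd_mul).1 h2 with h | h
    · have : q = r := (Nat.prime_dvd_prime_iff_eq hq hr).1 (hq.dvd_of_dvd_pow h)
      subst this
      exact hi h1
    · have : q ∣ 1 := (Nat.dvd_add_left (h.mul_left i)).1 h1
      exact hq.one_lt.ne' (Nat.dvd_one.1 this)
  have hgall : ∀ i < M, g i = 0 := by
    intro i hi
    by_cases h : r ∣ 1 + i * N
    · have hrN : ¬ r ∣ N := by
        intro h'
        have : r ∣ 1 := (Nat.dvd_add_left (h'.mul_left i)).1 h
        exact hr.one_lt.ne' (Nat.dvd_one.1 this)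
      rcases hcase with hf1 | h2
      · -- the modulus is the prime itself
        have hMr : M = r := by rw [hMdef, hf1, pow_one]
        have hsum : ∑ j ∈ range M, g j = 0 := by
          show ∑ j ∈ range M, ∑ t ∈ T, c t * y ^ (2 ^ t) * (ω ^ (2 ^ t)) ^ j = 0
          rw [sum_comm]
          apply sum_eq_zero
          intro t _
          rw [← mul_sum]
          have hc2 : (2 ^ t).Coprime M := by
            rw [hMr]
            apply Nat.Coprime.pow_left
            exact (Nat.coprime_primes Nat.prime_two hr).2 (Ne.symm hr2)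
          rw [(hωp.pow_of_coprime _ hc2).geom_sum_eq_zero hM1, mul_zero]
        have hothers : ∀ j ∈ range M, j ≠ i → g j = 0 := by
          intro j hj hji
          apply hg
          apply hcop
          intro h'
          have hjM := mem_range.1 hj
          have h3 : (r : ℤ) ∣ ((i : ℤ) - j) * N := by
            have h4 : (r : ℤ) ∣ ((1 + i * N : ℕ) : ℤ) := by exact_mod_cast h
            have h5 : (r : ℤ) ∣ ((1 + j * N : ℕ) : ℤ) := by exact_mod_cast h'
            have h6 := dvd_sub h4 h5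
            push_cast at h6
            have e : (1 : ℤ) + i * N - (1 + j * N) = (i - j) * N := by ring
            rwa [e] at h6
          have hrp : Prime (r : ℤ) := Nat.prime_iff_prime_int.1 hr
          rcases hrp.dvd_or_dvd h3 with h4 | h4
          · have h5 : (i : ℤ) ≡ j [ZMOD r] := by
              exact (Int.modEq_iff_dvd.2 (by
                have := (dvd_neg (a := (r : ℤ))).2 h4
                rwa [neg_sub] at this))
            have h6 : i ≡ j [MOD r] := (Int.natCast_modEq_iff).1 h5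
            have h7 : i = j := Nat.ModEq.eq_of_lt_of_lt h6 (by rw [← hMr]; exact hi)
              (by rw [← hMr]; exact hjM)
            exact hji h7.symm
          · exact hrN (by exact_mod_cast h4)
        rw [sum_eq_single i hothers (fun h => absurd (mem_range.2 hi) h)] at hsum
        exact hsum
      · exfalso
        rw [hN, mul_comm r M] at h2
        exact hrN ((Nat.mul_dvd_mul_iff_left hM0).1 h2)
    · exact hg i (hcop i h)
  -- invert
  have hinv : ∑ i ∈ range M, g i * (ω⁻¹) ^ i = 0 := by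
    apply sum_eq_zero
    intro i hi
    rw [hgall i (mem_range.1 hi), zero_mul]
  have hz : ∀ t : ℕ, ∑ i ∈ range M, (ω ^ (2 ^ t)) ^ i * (ω⁻¹) ^ i
      = if ((M : ℕ) : ℤ) ∣ 2 ^ t - 1 then (M : K) else 0 := by
    intro t
    have e1 : ∀ i, (ω ^ (2 ^ t)) ^ i * (ω⁻¹) ^ i = (ω ^ ((2 : ℤ) ^ t - 1)) ^ i := by
      intro i
      rw [← mul_pow]
      congr 1
      rw [zpow_sub_one₀ hω0]
      congr 1
      have : ((2 : ℤ) ^ t) = ((2 ^ t : ℕ) : ℤ) := by push_cast; rfl
      rw [this, zpow_natCast]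
    simp only [e1]
    split_ifs with h
    · rw [(hωp.zpow_eq_one_iff_dvd _).2 h]
      simp
    · have hne : ω ^ ((2 : ℤ) ^ t - 1) ≠ 1 := fun h' => h ((hωp.zpow_eq_one_iff_dvd _).1 h')
      have hpow : (ω ^ ((2 : ℤ) ^ t - 1)) ^ M = 1 := by
        rw [← zpow_natCast, ← zpow_mul, mul_comm, zpow_mul, zpow_natCast, hωp.pow_eq_one,
          one_zpow]
      have := mul_neg_geom_sum (ω ^ ((2 : ℤ) ^ t - 1)) M
      rw [hpow, sub_self] at this
      rcases mul_eq_zero.1 this with h' | h'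
      · exact absurd (sub_eq_zero.1 h').symm hne
      · exact h'
  have hfin : (M : K) * ∑ t ∈ T.filter (fun t => ((M : ℕ) : ℤ) ∣ 2 ^ t - 1),
      c t * y ^ (2 ^ t) = 0 := by
    rw [← hinv]
    show _ = ∑ i ∈ range M, (∑ t ∈ T, c t * y ^ (2 ^ t) * (ω ^ (2 ^ t)) ^ i) * (ω⁻¹) ^ i
    simp only [sum_mul]
    rw [sum_comm, mul_sum, sum_filter]
    apply sum_congr rfl
    intro t _
    have e2 : ∑ i ∈ range M, c t * y ^ (2 ^ t) * (ω ^ (2 ^ t)) ^ i * (ω⁻¹) ^ i
        = c t * y ^ (2 ^ t) * ∑ i ∈ range M, (ω ^ (2 ^ t)) ^ i * (ω⁻¹) ^ i := by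
      rw [mul_sum]
      apply sum_congr rfl
      intro i _
      ring
    rw [e2, hz t]
    split_ifs with h
    · ring
    · ring
  rcases mul_eq_zero.1 hfin with h | h
  · exfalso
    rw [hMdef] at h
    push_cast at h
    exact hrK (pow_eq_zero_iff (by omega) |>.1 h)
  · exact h

/-- The condition `2 ^ t = 1` modulo `N` in terms of the order. -/
lemma dvd_two_pow_sub_one_iff (N t : ℕ) :
    (N : ℤ) ∣ 2 ^ t - 1 ↔ orderOf (2 : ZMod N) ∣ t := by
  rw [orderOf_dvd_iff_pow_eq_one, ← ZMod.intCast_zmod_eq_zero_iff_dvd]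
  push_cast
  rw [sub_eq_zero]

lemma prime_ne_two_of_order {q n : ℕ} (hn : 1 ≤ n) (hqn : orderOf (2 : ZMod q) = n) : q ≠ 2 := by
  rintro rfl
  have h2 : (2 : ZMod 2) = 0 := by decide
  rw [h2, orderOf_zero] at hqn
  omega

/-- R3 (a1) -/
theorem sum_ne_zero_of_dvd {K : Type*} [Field K] (p n D q : ℕ) [Fact p.Prime] [CharP K p]
    (hn : 1 ≤ n) (hq : q.Prime) (hqD : q ∣ D) (hqn : orderOf (2 : ZMod q) = n) (hD : D ∣ 2 ^ n - 1)
    (hpD : ¬ p ∣ D) (y : K) (hy : IsPrimitiveRoot y D) :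
    ∃ y' : K, IsPrimitiveRoot y' D ∧
      ∑ t ∈ Finset.range n, ((2 : K)⁻¹) ^ t * y' ^ (2 ^ t) ≠ 0 := by
  by_contra hcon
  push Not at hcon
  have hD0 : 0 < D := by
    rcases Nat.eq_zero_or_pos D with h | h
    · subst h; simp at hpD
    · exact h
  have hq2 : q ≠ 2 := prime_ne_two_of_order hn hqn
  have hqK : (q : K) ≠ 0 := by
    intro h
    rw [CharP.cast_eq_zero_iff K p] at h
    exact hpD (h.trans hqD)
  have h1 := sep_prime (K := K) (D := D) (r := q) (f := 1) hD0 hq hq2 le_rfl (by rwa [pow_one])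
    (Or.inl rfl) hqK (range n) (fun t => ((2 : K)⁻¹) ^ t) hcon y hy
  have h2 : (range n).filter (fun t => ((q ^ 1 : ℕ) : ℤ) ∣ 2 ^ t - 1) = {0} := by
    ext t
    rw [mem_filter, mem_range, mem_singleton, pow_one, dvd_two_pow_sub_one_iff, hqn]
    constructor
    · rintro ⟨h3, h4⟩
      exact Nat.eq_zero_of_dvd_of_lt h4 h3
    · rintro rfl
      exact ⟨by omega, dvd_zero _⟩
  rw [h2, sum_singleton] at h1
  simp only [pow_zero, pow_one, one_mul] at h1
  exact hy.ne_zero hD0.ne' h1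

/-- The exponent used at the prime `r`. -/
def ex (D r : ℕ) : ℕ := max 1 (D.factorization r - 1)

/-- The product of the moduli. -/
noncomputable def WW (D : ℕ) : ℕ := ∏ r ∈ D.primeFactors, r ^ ex D r

lemma ex_pos (D r : ℕ) : 1 ≤ ex D r := le_max_left _ _

lemma ex_le {D r : ℕ} (h : r ∈ D.primeFactors) : ex D r ≤ D.factorization r := by
  have h1 : 1 ≤ D.factorization r := by
    have h2 := Nat.mem_primeFactors.1 h
    exact (h2.1.dvd_iff_one_le_factorization h2.2.2).1 h2.2.1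
  exact max_le h1 (Nat.sub_le _ _)

lemma WW_dvd {D : ℕ} (hD : D ≠ 0) : WW D ∣ D := by
  conv_rhs => rw [← Nat.prod_factorization_pow_eq_self hD]
  rw [Finsupp.prod, Nat.support_factorization, WW]
  apply prod_dvd_prod_of_dvd
  intro r hr
  exact pow_dvd_pow r (ex_le hr)

lemma dvd_WW_sq {D : ℕ} (hD : D ≠ 0) : D ∣ WW D ^ 2 := by
  conv_lhs => rw [← Nat.prod_factorization_pow_eq_self hD]
  rw [Finsupp.prod, Nat.support_factorization, WW, ← prod_pow]
  apply prod_dvd_prod_of_dvd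
  intro r _
  rw [← pow_mul]
  apply pow_dvd_pow
  unfold ex
  omega

lemma WW_dvd_iff {D : ℕ} (z : ℤ) :
    ((WW D : ℕ) : ℤ) ∣ z ↔ ∀ r ∈ D.primeFactors, ((r ^ ex D r : ℕ) : ℤ) ∣ z := by
  constructor
  · intro h r hr
    refine dvd_trans ?_ h
    have : r ^ ex D r ∣ WW D := dvd_prod_of_mem _ hr
    exact_mod_cast this
  · intro h
    have e : ((WW D : ℕ) : ℤ) = ∏ r ∈ D.primeFactors, ((r ^ ex D r : ℕ) : ℤ) := by
      rw [WW]; push_cast; rfl
    rw [e]
    apply Finset.prod_dvd_of_coprime _ h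
    intro a ha b hb hab
    show IsCoprime ((a ^ ex D a : ℕ) : ℤ) ((b ^ ex D b : ℕ) : ℤ)
    rw [Nat.isCoprime_iff_coprime]
    apply Nat.Coprime.pow
    exact (Nat.coprime_primes (Nat.prime_of_mem_primeFactors ha)
      (Nat.prime_of_mem_primeFactors hb)).2 hab

/-- R3 (a2) -/
theorem sum_ne_zero_of_char {K : Type*} [Field K] (q n D : ℕ) [Fact q.Prime] [CharP K q]
    (hn : 1 ≤ n) (hqn : orderOf (2 : ZMod q) = n) (hqD : ¬ q ∣ D)
    (hD : orderOf (2 : ZMod D) = n) (y : K) (hy : IsPrimitiveRoot y D) :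
    ∃ y' : K, IsPrimitiveRoot y' D ∧
      ∑ t ∈ Finset.range n, ((2 : K)⁻¹) ^ t * y' ^ (2 ^ t) ≠ 0 := by
  have hq : q.Prime := Fact.out
  by_contra hcon
  push Not at hcon
  have hD0 : D ≠ 0 := by
    rintro rfl; simp at hqD
  have hDpos : 0 < D := Nat.pos_of_ne_zero hD0
  have hDn : (D : ℤ) ∣ 2 ^ n - 1 := (dvd_two_pow_sub_one_iff D n).2 (by rw [hD])
  -- odd prime factors
  have hodd : ∀ r ∈ D.primeFactors, r ≠ 2 := by
    rintro r hr rfl
    have h1 : (2 : ℤ) ∣ 2 ^ n - 1 := by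
      refine dvd_trans ?_ hDn
      exact_mod_cast Nat.dvd_of_mem_primeFactors hr
    have h2 : (2 : ℤ) ∣ 2 ^ n := dvd_pow_self 2 (by omega)
    have h3 := dvd_sub h2 h1
    rw [sub_sub_cancel] at h3
    norm_num at h3
  have hrK : ∀ r ∈ D.primeFactors, (r : K) ≠ 0 := by
    intro r hr h
    rw [CharP.cast_eq_zero_iff K q] at h
    exact hqD (h.trans (Nat.dvd_of_mem_primeFactors hr))
  -- separation at all primes
  have hsep : ∀ P : Finset ℕ, P ⊆ D.primeFactors → ∀ z : K, IsPrimitiveRoot z D →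
      ∑ t ∈ (range n).filter (fun t => ∀ r ∈ P, ((r ^ ex D r : ℕ) : ℤ) ∣ 2 ^ t - 1),
        ((2 : K)⁻¹) ^ t * z ^ (2 ^ t) = 0 := by
    intro P
    induction P using Finset.induction_on with
    | empty =>
      intro _ z hz
      simpa using hcon z hz
    | insert r P _ ih =>
      intro hP z hz
      have hr : r ∈ D.primeFactors := hP (mem_insert_self r P)
      have hrp := Nat.prime_of_mem_primeFactors hr
      have hih := ih ((subset_insert r P).trans hP)
      have hdvd : r ^ ex D r ∣ D :=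
        (pow_dvd_pow r (ex_le hr)).trans (Nat.ordProj_dvd D r)
      have hcase : ex D r = 1 ∨ r * r ^ ex D r ∣ D := by
        by_cases h : ex D r = 1
        · exact Or.inl h
        · right
          rw [← pow_succ']
          refine dvd_trans (pow_dvd_pow r ?_) (Nat.ordProj_dvd D r)
          unfold ex at h ⊢
          omega
      have := sep_prime (K := K) hDpos hrp (hodd r hr) (ex_pos D r) hdvd hcase (hrK r hr) _
        (fun t => ((2 : K)⁻¹) ^ t) hih z hz
      rw [filter_filter] at this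
      rw [← this]
      apply sum_congr _ (fun _ _ => rfl)
      apply filter_congr
      intro t _
      rw [forall_mem_insert]
      exact and_comm
  -- the order modulo `W`
  set W := WW D with hW
  set o := orderOf (2 : ZMod W) with ho
  have hWD : W ∣ D := WW_dvd hD0
  have hon : o ∣ n := by
    rw [ho, ← dvd_two_pow_sub_one_iff]
    exact dvd_trans (by exact_mod_cast hWD) hDn
  obtain ⟨g, hg⟩ := hon
  have ho0 : 0 < o := Nat.pos_of_ne_zero (by rintro h; rw [h] at hg; omega)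
  have hg0 : 0 < g := Nat.pos_of_ne_zero (by rintro h; rw [h] at hg; omega)
  have hsum : ∀ z : K, IsPrimitiveRoot z D →
      ∑ s ∈ range g, ((2 : K)⁻¹) ^ (o * s) * z ^ (2 ^ (o * s)) = 0 := by
    intro z hz
    rw [← hsep D.primeFactors (Subset.refl _) z hz]
    have e : (range n).filter (fun t => ∀ r ∈ D.primeFactors,
        ((r ^ ex D r : ℕ) : ℤ) ∣ 2 ^ t - 1) = (range g).image (fun s => o * s) := by
      ext t
      rw [mem_filter, ← WW_dvd_iff, ← hW, dvd_two_pow_sub_one_iff, mem_range, mem_image]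
      constructor
      · rintro ⟨h1, s, hs⟩
        refine ⟨s, ?_, hs.symm⟩
        rw [mem_range]
        rw [hs, hg] at h1
        exact lt_of_mul_lt_mul_left h1 (Nat.zero_le o)
      · rintro ⟨s, hs, rfl⟩
        rw [mem_range] at hs
        refine ⟨?_, dvd_mul_right _ _⟩
        rw [hg]
        exact Nat.mul_lt_mul_of_pos_left hs ho0
    rw [e, sum_image]
    intro a _ b _ hab
    exact Nat.eq_of_mul_eq_mul_left ho0 hab
  -- `κ`
  set κ : ℕ := 2 ^ o - 1 with hκ
  have hκ1 : 1 + κ = 2 ^ o := by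
    have : 1 ≤ 2 ^ o := Nat.one_le_two_pow
    omega
  have hWκ : W ∣ κ := by
    have h1 : (W : ℤ) ∣ 2 ^ o - 1 := (dvd_two_pow_sub_one_iff W o).2 (by rw [ho])
    have h2 : ((κ : ℕ) : ℤ) = 2 ^ o - 1 := by
      have : ((1 + κ : ℕ) : ℤ) = ((2 ^ o : ℕ) : ℤ) := by rw [hκ1]
      push_cast at this
      linarith
    rw [← h2] at h1
    exact_mod_cast h1
  have hκ2 : D ∣ κ ^ 2 := (dvd_WW_sq hD0).trans (pow_dvd_pow_of_dvd hWκ 2)
  have hmod : ∀ s : ℕ, 2 ^ (o * s) ≡ 1 + s * κ [MOD D] := by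
    intro s
    induction s with
    | zero => simp; rfl
    | succ s ih =>
      have h1 : 2 ^ (o * (s + 1)) = 2 ^ (o * s) * (1 + κ) := by
        rw [hκ1, mul_add, mul_one, pow_add]
      rw [h1]
      have h2 := ih.mul_right (1 + κ)
      refine h2.trans ?_
      have h3 : (1 + s * κ) * (1 + κ) = (1 + (s + 1) * κ) + s * κ ^ 2 := by ring
      rw [h3]
      have h4 : s * κ ^ 2 ≡ 0 [MOD D] := (Nat.modEq_zero_iff_dvd).2 (hκ2.mul_left s)
      simpa using (Nat.ModEq.refl (1 + (s + 1) * κ)).add h4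
  have hpow : ∀ (z : K), IsPrimitiveRoot z D → ∀ s : ℕ, z ^ (2 ^ (o * s)) = z * (z ^ κ) ^ s := by
    intro z hz s
    have h1 : z ^ (2 ^ (o * s)) = z ^ (1 + s * κ) := by
      rw [← Nat.div_add_mod (2 ^ (o * s)) D, pow_add, pow_mul, hz.pow_eq_one, one_pow, one_mul,
        hmod s]
      conv_rhs => rw [← Nat.div_add_mod (1 + s * κ) D, pow_add, pow_mul, hz.pow_eq_one, one_pow,
        one_mul]
    rw [h1, pow_add, pow_one, ← pow_mul, mul_comm s κ]
  -- `ξ = y ^ κ` has order `g`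
  have hξ : IsPrimitiveRoot (y ^ κ) g := by
    have hiff : ∀ s : ℕ, (y ^ κ) ^ s = 1 ↔ g ∣ s := by
      intro s
      have h1 : (y ^ κ) ^ s = 1 ↔ D ∣ κ * s := by
        rw [← pow_mul]
        exact hy.pow_eq_one_iff_dvd _
      have h2 : D ∣ κ * s ↔ 2 ^ (o * s) ≡ 1 [MOD D] := by
        constructor
        · intro h
          refine (hmod s).trans ?_
          have h3 : s * κ ≡ 0 [MOD D] := (Nat.modEq_zero_iff_dvd).2 (by rwa [mul_comm])
          simpa using (Nat.ModEq.refl 1).add h3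
        · intro h
          have h3 : 1 + s * κ ≡ 1 + 0 [MOD D] := (hmod s).symm.trans h
          have h4 := Nat.ModEq.add_left_cancel' 1 h3
          rw [mul_comm]
          exact (Nat.modEq_zero_iff_dvd).1 h4
      have h3 : 2 ^ (o * s) ≡ 1 [MOD D] ↔ n ∣ o * s := by
        rw [← hD, orderOf_dvd_iff_pow_eq_one, ← ZMod.natCast_eq_natCast_iff]
        push_cast
        rfl
      rw [h1, h2, h3, hg]
      exact Nat.mul_dvd_mul_iff_left ho0
    exact ⟨(hiff g).2 (dvd_refl g), fun l hl => (hiff l).1 hl⟩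
  have hgD : g ∣ D := by
    have : (y ^ κ) ^ D = 1 := by rw [← pow_mul, mul_comm, pow_mul, hy.pow_eq_one, one_pow]
    exact hξ.dvd_of_pow_eq_one D this
  -- the order of `2 ^ o` in `K`
  have h2K : IsPrimitiveRoot ((2 : K) ^ o) g := by
    have hiff : ∀ s : ℕ, (2 : K) ^ s = 1 ↔ n ∣ s := by
      intro s
      rw [← hqn, orderOf_dvd_iff_pow_eq_one]
      have hinj : Function.Injective (ZMod.castHom (dvd_refl q) K) := RingHom.injective _
      rw [← hinj.eq_iff, map_pow, map_ofNat, map_one]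
    have hiff2 : ∀ s : ℕ, ((2 : K) ^ o) ^ s = 1 ↔ g ∣ s := by
      intro s
      rw [← pow_mul, hiff, hg]
      exact Nat.mul_dvd_mul_iff_left ho0
    exact ⟨(hiff2 g).2 (dvd_refl g), fun l hl => (hiff2 l).1 hl⟩
  -- choose the exponent
  have : NeZero g := ⟨hg0.ne'⟩
  have : NeZero D := ⟨hD0⟩
  obtain ⟨k, _, hkc, hk⟩ := hξ.isPrimitiveRoot_iff.1 h2K
  obtain ⟨u, hu⟩ := ZMod.unitsMap_surjective hgD (ZMod.unitOfCoprime k hkc)
  set k' : ℕ := (u : ZMod D).val with hk'
  have hk'c : k'.Coprime D := ZMod.val_coe_unit_coprime u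
  have hk'k : k' ≡ k [MOD g] := by
    have h1 := congrArg (fun v : (ZMod g)ˣ => (v : ZMod g)) hu
    simp only [ZMod.unitsMap_val, ZMod.coe_unitOfCoprime] at h1
    rw [← ZMod.natCast_eq_natCast_iff, ← h1, hk']
    rw [ZMod.natCast_val]
  have hy' : IsPrimitiveRoot (y ^ k') D := hy.pow_of_coprime _ hk'c
  have hyκ : (y ^ k') ^ κ = (2 : K) ^ o := by
    rw [← hk, ← pow_mul, mul_comm k' κ, pow_mul]
    rw [← Nat.div_add_mod k' g, pow_add, pow_mul, hξ.pow_eq_one, one_pow, one_mul, hk'k]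
    conv_rhs => rw [← Nat.div_add_mod k g, pow_add, pow_mul, hξ.pow_eq_one, one_pow, one_mul]
  have h20 : (2 : K) ≠ 0 := by
    intro h
    have h1 : ((2 : ℕ) : K) = 0 := by exact_mod_cast h
    rw [CharP.cast_eq_zero_iff K q] at h1
    exact prime_ne_two_of_order hn hqn ((Nat.prime_dvd_prime_iff_eq hq Nat.prime_two).1 h1)
  have hs := hsum (y ^ k') hy'
  have hterm : ∀ s ∈ range g, ((2 : K)⁻¹) ^ (o * s) * (y ^ k') ^ (2 ^ (o * s)) = y ^ k' := by
    intro s _
    rw [hpow _ hy' s, hyκ, ← pow_mul, mul_left_comm, ← mul_pow, inv_mul_cancel₀ h20, one_pow,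
      mul_one]
  rw [sum_congr rfl hterm, sum_const, card_range, nsmul_eq_mul] at hs
  rcases mul_eq_zero.1 hs with h | h
  · rw [CharP.cast_eq_zero_iff K q] at h
    -- `q ∣ g ∣ n ∣ q - 1`
    have h1 : n ∣ q - 1 := by
      rw [← hqn, orderOf_dvd_iff_pow_eq_one]
      apply ZMod.pow_card_sub_one_eq_one
      intro h2
      have h3 : ((2 : ℕ) : ZMod q) = 0 := by exact_mod_cast h2
      rw [ZMod.natCast_eq_zero_iff] at h3
      exact prime_ne_two_of_order hn hqn ((Nat.prime_dvd_prime_iff_eq hq Nat.prime_two).1 h3)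
    have h2 : g ∣ n := ⟨o, by rw [hg, mul_comm]⟩
    have h3 := Nat.le_of_dvd (by have := hq.two_le; omega) ((h.trans h2).trans h1)
    have := hq.two_le
    omega
  · exact hy'.ne_zero hD0 h

end Pool.Agent.Lib.MP_416699_nt
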