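import Pool.Agent.Lib.MP_416699_nt.IrrA
import Pool.Agent.Lib.MP_416699_nt.RootSums

/-!
Edges of the graph on `Dn n`.
-/

open Polynomial

namespace Pool.Agent.Lib.MP_416699_nt

/-- `Qs k = (f^k(z) - z) / (f(z) - z)`. -/
noncomputable def Qs : ℕ → ℤ[X][X]
  | 0 => 0
  | k + 1 => Qs k * (itr k + X) + 1

lemma Pd_eq_Qs (k : ℕ) : Pd k = Pd 1 * Qs k := by
  induction k with
  | zero => simp [Qs]
  | succ k ih =>
    have h1 : Pd (k + 1) = Pd k * (itr k + X) + Pd 1 := by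
      simp only [Pd, itr_succ, itr_zero]
      ring
    rw [h1, Qs]
    nth_rewrite 1 [ih]
    ring

/-- The substitution `c = x - x^2`, `z = x` modulo `q`. -/
noncomputable def sub2 (q : ℕ) : ℤ[X][X] →+* (ZMod q)[X] :=
  eval₂RingHom (eval₂RingHom (Int.castRingHom (ZMod q)[X]) (X - X ^ 2)) X

lemma sub2_itr (q k : ℕ) : sub2 q (itr k) = X := by
  induction k with
  | zero => simp [sub2]
  | succ k ih =>
    rw [itr_succ, map_add, map_pow, ih]
    simp [sub2]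

lemma sub2_Qs (q k : ℕ) : sub2 q (Qs k) = ∑ i ∈ Finset.range k, (2 * X) ^ i := by
  induction k with
  | zero => simp [Qs]
  | succ k ih =>
    rw [Qs, map_add, map_mul, map_add, sub2_itr, ih, Finset.sum_range_succ', map_one]
    simp only [sub2, coe_eval₂RingHom, eval₂_X, pow_succ, ← Finset.sum_mul, pow_zero]
    ring

lemma sub2_eval_one (q : ℕ) (p : ℤ[X][X]) :
    (sub2 q p).eval 1 = aeval (1 : ZMod q) (ev0 p) := by
  have h : ((evalRingHom (1 : ZMod q)).comp (sub2 q)) =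
      ((aeval (1 : ZMod q) : ℤ[X] →ₐ[ℤ] ZMod q) : ℤ[X] →+* ZMod q).comp ev0 := by
    apply Polynomial.ringHom_ext'
    · apply Polynomial.ringHom_ext'
      · exact RingHom.ext_int _ _
      · simp [sub2]
    · simp [sub2]
  have := congrArg (fun g => g p) h
  simpa using this

lemma aeval_cyclotomic {K : Type*} [Field K] {p D : ℕ} [Fact p.Prime] [CharP K p]
    (hpD : ¬ p ∣ D) {ζ : K} (hζ : IsPrimitiveRoot ζ D) (i : ℕ) {A : ℤ[X]}
    (h : cyclotomic (p ^ i * D) ℤ ∣ A) : aeval ζ A = 0 := by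
  obtain ⟨B, rfl⟩ := h
  rw [map_mul]
  have hne : NeZero (D : K) := ⟨fun h => hpD ((CharP.cast_eq_zero_iff K p D).1 h)⟩
  have h1 : aeval ζ (cyclotomic (p ^ i * D) ℤ) = 0 := by
    rw [aeval_def, eval₂_eq_eval_map, map_cyclotomic]
    exact isRoot_cyclotomic_prime_pow_mul_iff_of_charP.2 hζ
  rw [h1, zero_mul]

lemma exists_root {p D : ℕ} [Fact p.Prime] (hpD : ¬ p ∣ D) :
    ∃ ζ : AlgebraicClosure (ZMod p), IsPrimitiveRoot ζ D := by
  have hne : NeZero (D : AlgebraicClosure (ZMod p)) :=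
    ⟨fun h => hpD ((CharP.cast_eq_zero_iff _ p D).1 h)⟩
  exact HasEnoughRootsOfUnity.exists_primitiveRoot _ D

lemma edge_core {K : Type*} [Field K] {n p D : ℕ} [Fact p.Prime] [CharP K p] (hn : n ≠ 0)
    (hp : p ∣ 2 ^ n - 1) (hD : D ∣ 2 ^ n - 1) (hpD : ¬ p ∣ D) {i j : ℕ} {A B : ℤ[X][X]}
    (hAB : A * B ∣ Pd n) (hA : cyclotomic (p ^ i * D) ℤ ∣ ev0 A)
    (hB : cyclotomic (p ^ j * D) ℤ ∣ ev0 B) {y : K} (hy : IsPrimitiveRoot y D) :
    ∑ t ∈ Finset.range n, (2⁻¹ : K) ^ t * y ^ (2 ^ t) = 0 := by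
  have hD0 : D ≠ 0 := by rintro rfl; simp at hpD
  have h2n : (2 : K) ^ n = 1 := by
    have h1 : ((2 ^ n - 1 : ℕ) : K) = 0 := (CharP.cast_eq_zero_iff K p _).2 hp
    rw [Nat.cast_sub Nat.one_le_two_pow] at h1
    push_cast at h1
    exact sub_eq_zero.1 h1
  have h2 : (2 : K) ≠ 0 := by
    intro h
    rw [h, zero_pow hn] at h2n
    exact zero_ne_one h2n
  have hy0 : y ≠ 0 := hy.ne_zero hD0
  have hy1 : y⁻¹ ^ (2 ^ n) = y⁻¹ := by
    have h3 : y ^ (2 ^ n - 1) = 1 := (hy.pow_eq_one_iff_dvd _).2 hD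
    rw [inv_pow]
    congr 1
    calc y ^ (2 ^ n) = y ^ (2 ^ n - 1) * y := by
          rw [← pow_succ, Nat.sub_add_cancel Nat.one_le_two_pow]
      _ = y := by rw [h3, one_mul]
  have h4 := tangent (inv_ne_zero hy0) h2 h2n hy1 hAB (aeval_cyclotomic hpD hy.inv i hA)
    (aeval_cyclotomic hpD hy.inv j hB)
  rwa [inv_inv] at h4

/-- First kind of edge. -/
lemma edge1 {n p D q : ℕ} (hn : n ≠ 0) (hpp : p.Prime) (hq : q.Prime)
    (hqn : orderOf (2 : ZMod q) = n)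
    (hp : p ∣ 2 ^ n - 1) (hD : D ∣ 2 ^ n - 1) (hpD : ¬ p ∣ D) (hqD : q ∣ D) {i j : ℕ}
    {A B : ℤ[X][X]} (hAB : A * B ∣ Pd n) (hA : cyclotomic (p ^ i * D) ℤ ∣ ev0 A)
    (hB : cyclotomic (p ^ j * D) ℤ ∣ ev0 B) : False := by
  have := Fact.mk hpp
  obtain ⟨y, hy⟩ := exists_root (p := p) hpD
  obtain ⟨y', hy', h⟩ := sum_ne_zero_of_dvd p n D q (Nat.pos_of_ne_zero hn) hq hqD hqn hD hpD y hy
  exact h (edge_core hn hp hD hpD hAB hA hB hy')

/-- Second kind of edge. -/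
lemma edge2 {n D q : ℕ} (hn : n ≠ 0) (hq : q.Prime) (hqn : orderOf (2 : ZMod q) = n)
    (hD : orderOf (2 : ZMod D) = n) (hqD : ¬ q ∣ D) {i j : ℕ}
    {A B : ℤ[X][X]} (hAB : A * B ∣ Pd n) (hA : cyclotomic (q ^ i * D) ℤ ∣ ev0 A)
    (hB : cyclotomic (q ^ j * D) ℤ ∣ ev0 B) : False := by
  have := Fact.mk hq
  obtain ⟨y, hy⟩ := exists_root (p := q) hqD
  obtain ⟨y', hy', h⟩ := sum_ne_zero_of_char q n D (Nat.pos_of_ne_zero hn) hqn hqD hD y hy
  have h1 : q ∣ 2 ^ n - 1 := by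
    exact two_pow_eq_one_iff.1 (orderOf_dvd_iff_pow_eq_one.1 hqn.dvd)
  have h2 : D ∣ 2 ^ n - 1 := by
    exact two_pow_eq_one_iff.1 (orderOf_dvd_iff_pow_eq_one.1 hD.dvd)
  exact h (edge_core hn h1 h2 hqD hAB hA hB hy')

/-- Third kind of edge. -/
lemma edge3 {n q : ℕ} (hn : n ≠ 0) (hq : q.Prime) (hqn : orderOf (2 : ZMod q) = n) {i j : ℕ}
    {A B : ℤ[X][X]} (hAB : A * B ∣ Qs n) (hA : cyclotomic (q ^ (i + 1)) ℤ ∣ ev0 A)
    (hB : cyclotomic (q ^ (j + 1)) ℤ ∣ ev0 B) : False := by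
  have := Fact.mk hq
  have hroot : ∀ (k : ℕ) (P : ℤ[X][X]), cyclotomic (q ^ (k + 1)) ℤ ∣ ev0 P →
      (X - 1 : (ZMod q)[X]) ∣ sub2 q P := by
    intro k P hP
    have h1 : (sub2 q P).eval 1 = 0 := by
      rw [sub2_eval_one]
      obtain ⟨P', hP'⟩ := hP
      rw [hP', map_mul]
      have h2 : aeval (1 : ZMod q) (cyclotomic (q ^ (k + 1)) ℤ) = 0 := by
        rw [aeval_def, eval₂_eq_eval_map, map_cyclotomic, eval_one_cyclotomic_prime_pow]
        exact ZMod.natCast_self q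
      rw [h2, zero_mul]
    rw [← C_1, dvd_iff_isRoot]
    exact h1
  have h1 : (X - 1 : (ZMod q)[X]) * (X - 1) ∣ sub2 q (Qs n) := by
    refine (mul_dvd_mul (hroot i A hA) (hroot j B hB)).trans ?_
    rw [← map_mul]
    exact map_dvd (sub2 q) hAB
  have h2n : (2 : ZMod q) ^ n = 1 := orderOf_dvd_iff_pow_eq_one.1 hqn.dvd
  have h2 : sub2 q (Qs n) * (2 * X - 1) = X ^ n - 1 := by
    rw [sub2_Qs, geom_sum_mul, mul_pow]
    have : (2 : (ZMod q)[X]) ^ n = 1 := by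
      have := congrArg C h2n
      rwa [C_pow, map_one, map_ofNat] at this
    rw [this, one_mul]
  have h3 : (X - 1 : (ZMod q)[X]) * (X - 1) ∣ X ^ n - 1 := by
    rw [← h2]; exact h1.mul_right _
  obtain ⟨R, hR⟩ := h3
  have h4 := congrArg (fun p => eval 1 (derivative p)) hR
  simp only [derivative_sub, derivative_mul, derivative_X_pow, derivative_X, derivative_one,
    eval_sub, eval_add, eval_mul, eval_one, eval_X, eval_pow, eval_C, sub_self, sub_zero, zero_mul,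
    mul_zero, add_zero, one_pow, mul_one] at h4
  have h5 : q ∣ n := (ZMod.natCast_eq_zero_iff n q).1 h4
  have h2' : (2 : ZMod q) ≠ 0 := by
    intro h
    rw [h, zero_pow hn] at h2n
    exact zero_ne_one h2n
  have h6 : n ∣ q - 1 := by
    rw [← hqn]; exact ZMod.orderOf_dvd_card_sub_one h2'
  have h7 : q ∣ q - 1 := h5.trans h6
  have h8 := Nat.le_of_dvd (by have := hq.two_le; lia) h7
  have := hq.two_le
  lia

end Pool.Agent.Lib.MP_416699_nt
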