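import Pool.Agent.Lib.MP_416699_nt.IrrB

/-!
Irreducibility of `Phi n` when there is a prime `q` such that `2` has order `n` modulo `q`.
-/

open Polynomial

namespace Pool.Agent.Lib.MP_416699_nt

lemma Phi_dvd_Pd {n : ℕ} (hn : n ≠ 0) : Phi n ∣ Pd n := by
  rw [← prod_Phi hn]
  exact Finset.dvd_prod_of_mem _ (Nat.mem_divisors_self n hn)

lemma Phi_one : Phi 1 = Pd 1 := by
  have := prod_Phi (n := 1) one_ne_zero
  simpa using this

lemma Phi_dvd_Qs {n : ℕ} (hn : 2 ≤ n) : Phi n ∣ Qs n := by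
  have hn0 : n ≠ 0 := by lia
  have h1 : Phi 1 * Phi n ∣ Pd n := by
    rw [← prod_Phi hn0]
    have h2 : ({1, n} : Finset ℕ) ⊆ n.divisors := by
      intro k hk
      rw [Finset.mem_insert, Finset.mem_singleton] at hk
      rw [Nat.mem_divisors]
      rcases hk with rfl | rfl
      · exact ⟨one_dvd _, hn0⟩
      · exact ⟨dvd_rfl, hn0⟩
    have h3 := Finset.prod_dvd_prod_of_subset _ _ Phi h2
    rwa [Finset.prod_pair (by lia)] at h3
  rw [Pd_eq_Qs, Phi_one] at h1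
  exact (mul_dvd_mul_iff_left (Pd_monic one_ne_zero).ne_zero).1 h1

lemma Dn_pos {n d : ℕ} (_hn : n ≠ 0) (h : d ∈ Dn n) : 0 < d :=
  Nat.pos_of_mem_divisors (Finset.mem_filter.1 h).1

lemma cyc_prime {d : ℕ} (hd : 0 < d) : Prime (cyclotomic d ℤ) :=
  (cyclotomic.irreducible hd).prime

lemma not_sq {n d : ℕ} (hn : n ≠ 0) (hd : 0 < d)
    (h : cyclotomic d ℤ * cyclotomic d ℤ ∣ X ^ (2 ^ n) - X) : False := by
  obtain ⟨R, hR⟩ := h
  have h1 := congrArg (fun p => derivative (red p)) hR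
  simp only [map_sub, map_mul, map_pow] at h1
  have h2 : red X = X := by simp
  have h3 : red (cyclotomic d ℤ) = cyclotomic d (ZMod 2) := by simp
  have h4 : (((2 ^ n : ℕ) : ZMod 2)) = 0 := by
    rw [Nat.cast_pow, Nat.cast_ofNat]
    rw [show (2 : ZMod 2) = 0 from rfl, zero_pow hn]
  rw [h2, h3, derivative_X_pow, h4, derivative_X, derivative_mul,
    derivative_mul, C_0, zero_mul, zero_sub] at h1
  have h5 : cyclotomic d (ZMod 2) ∣ -1 := by
    rw [h1]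
    exact ⟨derivative (cyclotomic d (ZMod 2)) * red R + derivative (cyclotomic d (ZMod 2)) * red R +
      cyclotomic d (ZMod 2) * derivative (red R), by ring⟩
  have h6 : IsUnit (cyclotomic d (ZMod 2)) := isUnit_of_dvd_unit h5 isUnit_one.neg
  have h7 := natDegree_eq_zero_of_isUnit h6
  rw [natDegree_cyclotomic] at h7
  have := Nat.totient_pos.2 hd
  lia

/-- Both factors divisible by the same cyclotomic polynomial: impossible. -/
lemma not_both {n d : ℕ} (hn : n ≠ 0) (hd : 0 < d) {A B : ℤ[X][X]} (hAB : A * B = Phi n)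
    (hA : cyclotomic d ℤ ∣ ev0 A) (hB : cyclotomic d ℤ ∣ ev0 B) : False := by
  apply not_sq hn hd
  refine (mul_dvd_mul hA hB).trans ?_
  rw [← map_mul, hAB, ← ev0_Pd]
  exact map_dvd ev0 (Phi_dvd_Pd hn)

lemma either {n d : ℕ} (hn : 2 ≤ n) (hd : d ∈ Dn n) {A B : ℤ[X][X]} (hAB : A * B = Phi n) :
    cyclotomic d ℤ ∣ ev0 A ∨ cyclotomic d ℤ ∣ ev0 B := by
  have hn0 : n ≠ 0 := by lia
  apply (cyc_prime (Dn_pos hn0 hd)).dvd_or_dvd
  rw [← map_mul, hAB, ev0_Phi hn]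
  exact Finset.dvd_prod_of_mem _ hd

/-- `d` and `d'` always lie in the same factor. -/
def Lk (n d d' : ℕ) : Prop :=
  ∀ A B : ℤ[X][X], A * B = Phi n → (cyclotomic d ℤ ∣ ev0 A ↔ cyclotomic d' ℤ ∣ ev0 A)

lemma Lk.trans {n d d' d'' : ℕ} (h1 : Lk n d d') (h2 : Lk n d' d'') : Lk n d d'' :=
  fun A B h => (h1 A B h).trans (h2 A B h)

lemma Lk.of_edge {n d d' : ℕ} (hn : 2 ≤ n) (hd : d ∈ Dn n) (hd' : d' ∈ Dn n)
    (h : ∀ A B : ℤ[X][X], A * B = Phi n → cyclotomic d ℤ ∣ ev0 A → cyclotomic d' ℤ ∣ ev0 B →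
      False) : Lk n d d' := by
  intro A B hAB
  constructor
  · intro h1
    rcases either hn hd' hAB with h2 | h2
    · exact h2
    · exact (h A B hAB h1 h2).elim
  · intro h1
    rcases either hn hd hAB with h2 | h2
    · exact h2
    · exact (h B A ((mul_comm _ _).trans hAB) h2 h1).elim

lemma mem_Dn_of_dvd {n d q : ℕ} (hn : n ≠ 0) (hqn : orderOf (2 : ZMod q) = n)
    (hd : d ∣ 2 ^ n - 1) (hqd : q ∣ d) : d ∈ Dn n := by
  rw [mem_Dn hn]
  apply Nat.dvd_antisymm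
  · exact orderOf_dvd_iff_pow_eq_one.2 (two_pow_eq_one_iff.2 hd)
  · rw [← hqn, orderOf_dvd_iff_pow_eq_one, two_pow_eq_one_iff]
    refine hqd.trans ?_
    rw [← two_pow_eq_one_iff]
    exact pow_orderOf_eq_one _

lemma dvd_of_mem_Dn {n d : ℕ} (h : d ∈ Dn n) : d ∣ 2 ^ n - 1 :=
  Nat.dvd_of_mem_divisors (Finset.mem_filter.1 h).1

lemma Lk_of_dvd {n q : ℕ} (hn : 2 ≤ n) (hq : q.Prime) (hqn : orderOf (2 : ZMod q) = n) (d : ℕ)
    (hd : d ∣ 2 ^ n - 1) (hqd : q ∣ d) : Lk n d q := by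
  have hn0 : n ≠ 0 := by lia
  have h20 : 2 ^ n - 1 ≠ 0 := by
    have := Nat.one_lt_two_pow hn0
    lia
  have hq1 : q ∣ 2 ^ n - 1 := two_pow_eq_one_iff.1 (orderOf_dvd_iff_pow_eq_one.1 hqn.dvd)
  induction d using Nat.strong_induction_on with
  | _ d ih =>
  have hd0 : d ≠ 0 := by
    rintro rfl
    exact h20 (zero_dvd_iff.1 hd)
  by_cases h : ∃ r, r.Prime ∧ r ≠ q ∧ r ∣ d
  · obtain ⟨r, hr, hrq, hrd⟩ := h
    obtain ⟨i, d', hrd', hdd⟩ := Nat.exists_eq_pow_mul_and_not_dvd hd0 r hr.ne_one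
    have hi : i ≠ 0 := by
      rintro rfl
      rw [pow_zero, one_mul] at hdd
      exact hrd' (hdd ▸ hrd)
    have hd'0 : d' ≠ 0 := by rintro rfl; simp at hrd'
    have hlt : d' < d := by
      rw [hdd]
      have : 1 < r ^ i := Nat.one_lt_pow hi hr.one_lt
      exact lt_mul_of_one_lt_left (Nat.pos_of_ne_zero hd'0) this
    have hqd' : q ∣ d' := by
      have h1 : q ∣ r ^ i * d' := hdd ▸ hqd
      rcases (Nat.Prime.dvd_mul hq).1 h1 with h2 | h2
      · exact absurd ((Nat.prime_dvd_prime_iff_eq hq hr).1 (hq.dvd_of_dvd_pow h2)) (Ne.symm hrq)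
      · exact h2
    have hd'2 : d' ∣ 2 ^ n - 1 := (Dvd.intro_left _ hdd.symm).trans hd
    have h1 : Lk n d d' := by
      apply Lk.of_edge hn (mem_Dn_of_dvd hn0 hqn hd hqd) (mem_Dn_of_dvd hn0 hqn hd'2 hqd')
      intro A B hAB hA hB
      rw [hdd] at hA
      have hB' : cyclotomic (r ^ 0 * d') ℤ ∣ ev0 B := by rwa [pow_zero, one_mul]
      exact edge1 hn0 hr hq hqn (hrd.trans hd) hd'2 hrd' hqd'
        (hAB ▸ Phi_dvd_Pd hn0) hA hB'
    exact h1.trans (ih d' hlt hd'2 hqd')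
  · push Not at h
    have h1 : d = q ^ d.primeFactorsList.length :=
      Nat.eq_prime_pow_of_unique_prime_dvd hd0 fun {r} hr hrd => by
        by_contra h2
        exact h r hr h2 hrd
    obtain ⟨j, hj⟩ : ∃ j, d = q ^ (j + 1) := by
      rcases hl : d.primeFactorsList.length with _ | j
      · rw [hl, pow_zero] at h1
        rw [h1] at hqd
        exact absurd (Nat.dvd_one.1 hqd) hq.ne_one
      · exact ⟨j, by rw [h1, hl]⟩
    apply Lk.of_edge hn (mem_Dn_of_dvd hn0 hqn hd hqd) (mem_Dn_of_dvd hn0 hqn hq1 dvd_rfl)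
    intro A B hAB hA hB
    rw [hj] at hA
    have hB' : cyclotomic (q ^ (0 + 1)) ℤ ∣ ev0 B := by rwa [zero_add, pow_one]
    exact edge3 hn0 hq hqn (hAB ▸ Phi_dvd_Qs hn) hA hB'

lemma Lk_all {n q : ℕ} (hn : 2 ≤ n) (hq : q.Prime) (hqn : orderOf (2 : ZMod q) = n) (d : ℕ)
    (hd : d ∈ Dn n) : Lk n d q := by
  have hn0 : n ≠ 0 := by lia
  have hq1 : q ∣ 2 ^ n - 1 := two_pow_eq_one_iff.1 (orderOf_dvd_iff_pow_eq_one.1 hqn.dvd)
  by_cases hqd : q ∣ d
  · exact Lk_of_dvd hn hq hqn d (dvd_of_mem_Dn hd) hqd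
  · have h1 : q ^ 1 * d ∣ 2 ^ n - 1 := by
      rw [pow_one]
      exact ((Nat.Prime.coprime_iff_not_dvd hq).2 hqd).mul_dvd_of_dvd_of_dvd hq1
        (dvd_of_mem_Dn hd)
    have h2 : q ∣ q ^ 1 * d := by rw [pow_one]; exact dvd_mul_right _ _
    have h3 : Lk n d (q ^ 1 * d) := by
      apply Lk.of_edge hn hd (mem_Dn_of_dvd hn0 hqn h1 h2)
      intro A B hAB hA hB
      have hA' : cyclotomic (q ^ 0 * d) ℤ ∣ ev0 A := by rwa [pow_zero, one_mul]
      exact edge2 hn0 hq hqn ((mem_Dn hn0).1 hd) hqd (hAB ▸ Phi_dvd_Pd hn0) hA' hB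
    exact h3.trans (Lk_of_dvd hn hq hqn _ h1 h2)

/-- A monic factor of positive degree contains some cyclotomic polynomial. -/
lemma exists_cyc {n : ℕ} (hn : 2 ≤ n) {A B : ℤ[X][X]} (hAB : A * B = Phi n) (hA : A.Monic)
    (hA0 : A.natDegree ≠ 0) : ∃ d ∈ Dn n, cyclotomic d ℤ ∣ ev0 A := by
  have hn0 : n ≠ 0 := by lia
  have h1 : (ev0 A).Monic := hA.map _
  have h2 : (ev0 A).natDegree = A.natDegree := hA.natDegree_map _
  have h3 : ¬ IsUnit (ev0 A) := by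
    intro h
    rw [h1.isUnit_iff.1 h, natDegree_one] at h2
    exact hA0 h2.symm
  obtain ⟨π, hπ, hπA⟩ := WfDvdMonoid.exists_irreducible_factor h3 h1.ne_zero
  have h4 : π ∣ ∏ d ∈ Dn n, cyclotomic d ℤ := by
    rw [← ev0_Phi hn, ← hAB, map_mul]
    exact hπA.mul_right _
  obtain ⟨d, hd, h5⟩ := (Prime.dvd_finsetProd_iff hπ.prime _).1 h4
  refine ⟨d, hd, ?_⟩
  have h6 : Associated π (cyclotomic d ℤ) :=
    hπ.associated_of_dvd (cyclotomic.irreducible (Dn_pos hn0 hd)) h5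
  exact h6.symm.dvd.trans hπA

lemma Phi_ne_one {n : ℕ} (hn : 2 ≤ n) : Phi n ≠ 1 := by
  intro h
  have h1 := ev0_Phi hn
  rw [h, map_one] at h1
  have hn0 : n ≠ 0 := by lia
  have h2 : 2 ^ n - 1 ∈ Dn n := by
    rw [mem_Dn hn0]
    apply Nat.dvd_antisymm
    · exact orderOf_dvd_iff_pow_eq_one.2 (two_pow_eq_one_iff.2 dvd_rfl)
    · set o := orderOf (2 : ZMod (2 ^ n - 1)) with ho
      have h3 : 2 ^ n - 1 ∣ 2 ^ o - 1 := by
        rw [← two_pow_eq_one_iff, ho]; exact pow_orderOf_eq_one _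
      have h4 : o ∣ n := orderOf_dvd_iff_pow_eq_one.2 (two_pow_eq_one_iff.2 dvd_rfl)
      have h5 : o ≤ n := Nat.le_of_dvd (by lia) h4
      have h6 : o ≠ 0 := by
        rintro h6
        rw [h6] at h4
        exact hn0 (zero_dvd_iff.1 h4)
      have h7 : 1 < 2 ^ o := Nat.one_lt_two_pow h6
      have h8 := Nat.le_of_dvd (by lia) h3
      have h9 : 2 ^ n ≤ 2 ^ o := by lia
      have h10 := (Nat.pow_le_pow_iff_right (by norm_num : 1 < 2)).1 h9
      rw [le_antisymm h5 h10]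
  have h3 : cyclotomic (2 ^ n - 1) ℤ ∣ 1 := by
    rw [h1]; exact Finset.dvd_prod_of_mem _ h2
  exact (cyc_prime (Dn_pos hn0 h2)).not_isUnit (isUnit_of_dvd_one h3)

theorem Phi_irreducible_of_prime {n q : ℕ} (hn : 2 ≤ n) (hq : q.Prime)
    (hqn : orderOf (2 : ZMod q) = n) : Irreducible (Phi n) := by
  have hn0 : n ≠ 0 := by lia
  rw [(Phi_monic hn0).irreducible_iff_natDegree]
  refine ⟨Phi_ne_one hn, ?_⟩
  intro A B hA hB hAB
  by_contra hcon
  push Not at hcon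
  obtain ⟨d, hd, h1⟩ := exists_cyc hn hAB hA hcon.1
  obtain ⟨d', hd', h2⟩ := exists_cyc hn ((mul_comm _ _).trans hAB) hB hcon.2
  have h3 := (Lk_all hn hq hqn d hd A B hAB).1 h1
  have h4 := (Lk_all hn hq hqn d' hd' B A ((mul_comm _ _).trans hAB)).1 h2
  exact not_both hn0 hq.pos hAB h3 h4

end Pool.Agent.Lib.MP_416699_nt
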