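import Pool.Agent.Lib.MP_416699_nt.Phi

/-!
Reduction modulo 2 of the dynatomic and Gleason polynomials.
-/

open Polynomial

namespace Pool.Agent.Lib.MP_416699_nt

lemma Phi_monic {n : ℕ} (hn : n ≠ 0) : (Phi n).Monic := (Phi_main n hn).1
lemma prod_Phi {n : ℕ} (hn : n ≠ 0) : ∏ k ∈ n.divisors, Phi k = Pd n := (Phi_main n hn).2

/-- The reduction of `a n` modulo 2. -/
noncomputable def T (n : ℕ) : (ZMod 2)[X] := ∑ i ∈ Finset.range n, X ^ (2 ^ i)

/-- The polynomial `z ^ 2 + z + c` modulo 2. -/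
noncomputable def w : (ZMod 2)[X][X] := X ^ 2 + X + C X

lemma T_succ (n : ℕ) : T (n + 1) = T n ^ 2 + X := by
  have h : (T n) ^ 2 = ∑ i ∈ Finset.range n, X ^ (2 ^ (i + 1)) := by
    rw [T, sum_pow_char 2]
    refine Finset.sum_congr rfl fun i _ => ?_
    rw [← pow_mul, pow_succ]
  rw [h, T, Finset.sum_range_succ']
  simp

lemma red_a (n : ℕ) : red (a n) = T n := by
  induction n with
  | zero => simp [T]
  | succ n ih =>
    rw [a_succ, T_succ, map_add, map_pow, ih]
    simp

lemma map_red_itr (n : ℕ) : (itr n).map red = X + aeval w (T n) := by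
  induction n with
  | zero => simp [T]
  | succ n ih =>
    rw [itr_succ, Polynomial.map_add, Polynomial.map_pow, ih, T_succ, map_add, map_pow, aeval_X,
      add_pow_char]
    have h2 : (X : (ZMod 2)[X][X]) + X = 0 := CharTwo.add_self_eq_zero _
    have h3 : ((C (X : ℤ[X])).map red : (ZMod 2)[X][X]) = C X := by simp
    rw [h3, w]
    linear_combination -h2

lemma map_red_Pd (n : ℕ) : (Pd n).map red = aeval w (T n) := by
  rw [Pd, Polynomial.map_sub, map_red_itr]
  simp

/-- The Gleason polynomial (constant term of `Phi n` in `z`). -/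
noncomputable def Gl (n : ℕ) : ℤ[X] := (Phi n).eval 0

lemma Pd_eval_zero (n : ℕ) : (Pd n).eval 0 = a n := by
  have := itr_eval_a n 0
  rw [a_zero, zero_add] at this
  simp [Pd, this]

lemma prod_Gl {n : ℕ} (hn : n ≠ 0) : ∏ k ∈ n.divisors, Gl k = a n := by
  rw [← Pd_eval_zero, ← prod_Phi hn, eval_prod]
  rfl

lemma a_monic_natDegree (n : ℕ) : (a (n + 1)).Monic ∧ (a (n + 1)).natDegree = 2 ^ n := by
  induction n with
  | zero => simp [monic_X]
  | succ n ih =>
    have h1 : (a (n + 1) ^ 2).Monic := ih.1.pow 2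
    have h2 : (a (n + 1) ^ 2).natDegree = 2 ^ (n + 1) := by
      rw [ih.1.natDegree_pow, ih.2]; ring
    have h3 : (X : ℤ[X]).degree < (a (n + 1) ^ 2).degree := by
      rw [degree_eq_natDegree h1.ne_zero, h2, degree_X]
      exact_mod_cast Nat.one_lt_two_pow (Nat.succ_ne_zero n)
    refine ⟨h1.add_of_left h3, ?_⟩
    rw [a_succ, natDegree_add_eq_left_of_degree_lt h3, h2]

lemma a_monic {n : ℕ} (hn : n ≠ 0) : (a n).Monic := by
  obtain ⟨n, rfl⟩ := Nat.exists_eq_succ_of_ne_zero hn
  exact (a_monic_natDegree n).1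

lemma a_natDegree {n : ℕ} (hn : n ≠ 0) : (a n).natDegree = 2 ^ (n - 1) := by
  obtain ⟨n, rfl⟩ := Nat.exists_eq_succ_of_ne_zero hn
  exact (a_monic_natDegree n).2

lemma properDivisors_facts {n k : ℕ} (hn : n ≠ 0) (hk : k ∈ n.properDivisors) :
    k ≠ 0 ∧ k < n ∧ k ∣ n := by
  have h1 := Nat.mem_properDivisors.1 hk
  refine ⟨?_, h1.2, h1.1⟩
  rintro rfl
  exact hn (zero_dvd_iff.1 h1.1)

lemma Gl_monic {n : ℕ} (hn : n ≠ 0) : (Gl n).Monic := by
  induction n using Nat.strong_induction_on with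
  | _ n ih =>
  have h := prod_Gl hn
  rw [prod_divisors_eq hn] at h
  have h1 : (∏ k ∈ n.properDivisors, Gl k).Monic := by
    apply monic_prod_of_monic
    intro k hk
    obtain ⟨hk0, hkn, -⟩ := properDivisors_facts hn hk
    exact ih k hkn hk0
  have h2 := a_monic hn
  rw [← h] at h2
  exact h1.of_mul_monic_left h2

lemma prod_red_Gl {n : ℕ} (hn : n ≠ 0) : ∏ k ∈ n.divisors, red (Gl k) = T n := by
  rw [← red_a, ← prod_Gl hn, map_prod]

lemma w_natDegree : w.natDegree = 2 := by
  unfold w; compute_degree!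

lemma w_monic : w.Monic := by
  unfold w; monicity!

lemma aeval_w_monic {p : (ZMod 2)[X]} (hp : p.Monic) : (aeval w p).Monic ∧
    (aeval w p).natDegree = 2 * p.natDegree := by
  have h1 : aeval w p = (p.map (C : (ZMod 2) →+* (ZMod 2)[X])).comp w := by
    rw [comp, eval₂_map, aeval_def]
    rfl
  rw [h1]
  constructor
  · exact (hp.map _).comp w_monic (by rw [w_natDegree]; norm_num)
  · rw [natDegree_comp, w_natDegree, hp.natDegree_map, mul_comm]

lemma map_red_Phi {n : ℕ} (hn : n ≠ 0) : (Phi n).map red = aeval w (red (Gl n)) := by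
  induction n using Nat.strong_induction_on with
  | _ n ih =>
  have h1 := congrArg (Polynomial.map red) (prod_Phi hn)
  rw [map_red_Pd, ← prod_red_Gl hn, Polynomial.map_prod, map_prod, prod_divisors_eq hn,
    prod_divisors_eq hn] at h1
  have h2 : ∏ k ∈ n.properDivisors, (Phi k).map red =
      ∏ k ∈ n.properDivisors, aeval w (red (Gl k)) := by
    refine Finset.prod_congr rfl fun k hk => ?_
    obtain ⟨hk0, hkn, -⟩ := properDivisors_facts hn hk
    exact ih k hkn hk0
  have h3 : ∏ k ∈ n.properDivisors, (Phi k).map red ≠ 0 := by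
    apply Monic.ne_zero
    apply monic_prod_of_monic
    intro k hk
    obtain ⟨hk0, hkn, -⟩ := properDivisors_facts hn hk
    exact (Phi_monic hk0).map _
  rw [← h2] at h1
  exact mul_left_cancel₀ h3 h1

lemma derivative_T {n : ℕ} (hn : n ≠ 0) : derivative (T n) = 1 := by
  obtain ⟨n, rfl⟩ := Nat.exists_eq_succ_of_ne_zero hn
  rw [T_succ, derivative_add, derivative_sq, derivative_X]
  have h2 : (2 : ZMod 2) = 0 := rfl
  rw [h2]; simp

lemma squarefree_T {n : ℕ} (hn : n ≠ 0) : Squarefree (T n) := by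
  apply Separable.squarefree
  rw [Separable, derivative_T hn]
  exact isCoprime_one_right

end Pool.Agent.Lib.MP_416699_nt
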