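import Pool.Agent.Lib.MP_416699_nt.GPoly

/-!
Unit relations between values of dynatomic polynomials in a domain in which `2` is not a unit.
-/

open Polynomial

namespace Pool.Agent.Lib.MP_416699_nt

/-- The multiplier polynomial, derivative of `f_c^k(z)` with respect to `z`. -/
noncomputable def lam (k : ℕ) : ℤ[X][X] := derivative (itr k)

lemma lam_zero : lam 0 = 1 := by simp [lam]

lemma lam_succ (k : ℕ) : lam (k + 1) = 2 * itr k * lam k := by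
  rw [lam, itr_succ, derivative_add, derivative_C, add_zero, derivative_sq, lam, map_ofNat C 2]

lemma lam_eq_prod (k : ℕ) : lam k = ∏ i ∈ Finset.range k, (2 * itr i) := by
  induction k with
  | zero => simp [lam_zero]
  | succ k ih => rw [lam_succ, Finset.prod_range_succ, ih]; ring

lemma derivative_Pd (k : ℕ) : derivative (Pd k) = lam k - 1 := by
  rw [Pd, derivative_sub, derivative_X, lam]

lemma two_dvd_lam {k : ℕ} (hk : k ≠ 0) : (2 : ℤ[X][X]) ∣ lam k := by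
  obtain ⟨k, rfl⟩ := Nat.exists_eq_succ_of_ne_zero hk
  rw [Nat.succ_eq_add_one, lam_succ]
  exact ⟨itr k * lam k, by ring⟩

lemma X_dvd_lam {k : ℕ} (hk : k ≠ 0) : (X : ℤ[X][X]) ∣ lam k := by
  obtain ⟨k, rfl⟩ := Nat.exists_eq_succ_of_ne_zero hk
  rw [lam_eq_prod, Finset.prod_range_succ', itr_zero]
  exact (dvd_mul_left X 2).mul_left _

lemma mul_Phi_dvd {g k : ℕ} (hk : k ≠ 0) (hgk : g ∣ k) (hne : g ≠ k) : Pd g * Phi k ∣ Pd k := by
  have hg : g ≠ 0 := by rintro rfl; exact hk (zero_dvd_iff.1 hgk)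
  rw [← prod_Phi hg, ← prod_Phi hk, prod_divisors_eq hk]
  apply mul_dvd_mul_right
  apply Finset.prod_dvd_prod_of_subset
  intro d hd
  rw [Nat.mem_properDivisors]
  have hd' := Nat.dvd_of_mem_divisors hd
  have h1 : d ≤ g := Nat.le_of_dvd (Nat.pos_of_ne_zero hg) hd'
  have h2 : g ≤ k := Nat.le_of_dvd (Nat.pos_of_ne_zero hk) hgk
  exact ⟨hd'.trans hgk, by lia⟩

section

variable {S : Type*} [CommRing S] [IsDomain S] (φ : ℤ[X][X] →+* S) (h2 : ¬ IsUnit (2 : S))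

include h2

omit [IsDomain S] in
lemma lam_pow_ne_one {ℓ : ℕ} (hℓ : ℓ ≠ 0) {j : ℕ} (hj : j ≠ 0) : φ (lam ℓ) ^ j ≠ 1 := by
  intro h
  apply h2
  have h1 : (2 : S) ∣ φ (lam ℓ) := by
    have := map_dvd φ (two_dvd_lam hℓ)
    rwa [map_ofNat] at this
  have h3 : (2 : S) ∣ φ (lam ℓ) ^ j := dvd_pow h1 hj
  rw [h] at h3
  exact isUnit_of_dvd_one h3

omit [IsDomain S] in
lemma Pd_ne_zero {g ℓ : ℕ} (hℓ : ℓ ≠ 0) (hφ : φ (Phi ℓ) = 0) (hgℓ : g ∣ ℓ) (hne : g ≠ ℓ) :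
    φ (Pd g) ≠ 0 := by
  intro h0
  obtain ⟨R, hR⟩ := mul_Phi_dvd hℓ hgℓ hne
  have h1 := congrArg (fun p => φ (derivative p)) hR
  simp only [derivative_mul, map_add, map_mul, derivative_Pd, map_sub, map_one, hφ, h0, mul_zero,
    zero_mul, add_zero] at h1
  exact lam_pow_ne_one φ h2 hℓ one_ne_zero (by rw [pow_one]; exact sub_eq_zero.1 h1)

lemma isUnit_Phi {k ℓ : ℕ} (hk : k ≠ 0) (hℓ : ℓ ≠ 0) (hφ : φ (Phi ℓ) = 0) (h1 : ¬ k ∣ ℓ)
    (h1' : ¬ ℓ ∣ k) : IsUnit (φ (Phi k)) := by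
  have hg1 : Nat.gcd k ℓ ≠ ℓ := fun h => h1' (h ▸ Nat.gcd_dvd_left k ℓ)
  have hg2 : Nat.gcd k ℓ ≠ k := fun h => h1 (h ▸ Nat.gcd_dvd_right k ℓ)
  have h3 := Pd_ne_zero φ h2 hℓ hφ (Nat.gcd_dvd_right k ℓ) hg1
  have h4 : φ (Pd ℓ) = 0 := by
    rw [← prod_Phi hℓ, map_prod]
    exact Finset.prod_eq_zero (Nat.mem_divisors_self ℓ hℓ) hφ
  have h5 := dvd_map_Pd_gcd φ (φ (Pd k)) k ℓ dvd_rfl (h4 ▸ dvd_zero _)
  have h6 := map_dvd φ (mul_Phi_dvd hk (Nat.gcd_dvd_left k ℓ) hg2)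
  rw [map_mul] at h6
  obtain ⟨t, ht⟩ := h6.trans h5
  have h7 : φ (Pd (Nat.gcd k ℓ)) * 1 = φ (Pd (Nat.gcd k ℓ)) * (φ (Phi k) * t) := by
    rw [mul_one, ← mul_assoc, ← ht]
  exact IsUnit.of_mul_eq_one _ (mul_left_cancel₀ h3 h7).symm

end

/-- The product of the `Phi k` with `lcm(k, ℓ) = ℓ j`. -/
noncomputable def HH (ℓ j : ℕ) : ℤ[X][X] :=
  ∏ k ∈ (ℓ * j).divisors.filter (fun k => Nat.lcm k ℓ = ℓ * j), Phi k

lemma prod_HH {ℓ j : ℕ} (hℓ : ℓ ≠ 0) (hj : j ≠ 0) : ∏ i ∈ j.divisors, HH ℓ i = Pd (ℓ * j) := by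
  have hn : ℓ * j ≠ 0 := mul_ne_zero hℓ hj
  have hlcm : ∀ k ∈ (ℓ * j).divisors, Nat.lcm k ℓ / ℓ ∈ j.divisors := by
    intro k hk
    rw [Nat.mem_divisors]
    refine ⟨?_, hj⟩
    rw [Nat.div_dvd_iff_dvd_mul (Nat.dvd_lcm_right k ℓ) (Nat.pos_of_ne_zero hℓ)]
    exact Nat.lcm_dvd (Nat.dvd_of_mem_divisors hk) (dvd_mul_right _ _)
  rw [← prod_Phi hn, ← Finset.prod_fiberwise_of_maps_to hlcm]
  refine Finset.prod_congr rfl fun i hi => ?_
  have hi0 : i ≠ 0 := (Nat.pos_of_mem_divisors hi).ne'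
  rw [HH]
  refine Finset.prod_congr ?_ fun _ _ => rfl
  ext k
  rw [Finset.mem_filter, Finset.mem_filter, Nat.mem_divisors, Nat.mem_divisors]
  constructor
  · rintro ⟨⟨h1, -⟩, h3⟩
    refine ⟨⟨h1.trans (mul_dvd_mul_left ℓ (Nat.dvd_of_mem_divisors hi)), hn⟩, ?_⟩
    rw [h3, Nat.mul_div_cancel_left _ (Nat.pos_of_ne_zero hℓ)]
  · rintro ⟨⟨h1, -⟩, h3⟩
    have h4 : Nat.lcm k ℓ = ℓ * i := by
      rw [← h3, Nat.mul_div_cancel' (Nat.dvd_lcm_right k ℓ)]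
    exact ⟨⟨h4 ▸ Nat.dvd_lcm_left k ℓ, mul_ne_zero hℓ hi0⟩, h4⟩

lemma HH_one {ℓ : ℕ} (hℓ : ℓ ≠ 0) : HH ℓ 1 = Pd ℓ := by
  have := prod_HH hℓ one_ne_zero
  simpa using this

/-- The chain rule at a periodic point. -/
lemma lam_mul {S : Type*} [CommRing S] (φ : ℤ[X][X] →+* S) {ℓ : ℕ} (hφ : φ (Pd ℓ) = 0) (j : ℕ) :
    φ (lam (ℓ * j)) = φ (lam ℓ) ^ j := by
  induction j with
  | zero => simp [lam_zero]
  | succ j ih =>
    have h1 : lam (ℓ * (j + 1)) = (lam ℓ).comp (itr (ℓ * j)) * lam (ℓ * j) := by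
      rw [lam, show ℓ * (j + 1) = ℓ * j + ℓ by ring, itr_add, derivative_comp, lam, lam, mul_comm]
    have h2 : φ ((lam ℓ).comp (itr (ℓ * j))) = φ (lam ℓ) := by
      have h3 := comp_sub_dvd (lam ℓ) (itr (ℓ * j)) X
      rw [comp_X] at h3
      have h4 : Pd ℓ ∣ (lam ℓ).comp (itr (ℓ * j)) - lam ℓ :=
        (Pd_dvd_of_dvd (dvd_mul_right ℓ j)).trans h3
      have h5 := map_dvd φ h4
      rw [hφ, zero_dvd_iff, map_sub] at h5
      exact sub_eq_zero.1 h5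
    rw [h1, map_mul, h2, ih, pow_succ']

section

variable {S : Type*} [CommRing S] [IsDomain S] (φ : ℤ[X][X] →+* S) (h2 : ¬ IsUnit (2 : S))

include h2

lemma map_HH {ℓ q : ℕ} (hℓ : ℓ ≠ 0) (hφ : φ (Pd ℓ) = 0) (hq : 2 ≤ q) :
    φ (HH ℓ q) = eval (φ (lam ℓ)) (cyclotomic q S) := by
  have hq0 : q ≠ 0 := by lia
  set f : ℕ → S := fun i => if i = 1 then φ (lam ℓ) - 1 else φ (HH ℓ i) with hf
  set g : ℕ → S := fun i => φ (lam ℓ) ^ i - 1 with hg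
  have hg0 : ∀ i : ℕ, i ≠ 0 → g i ≠ 0 := fun i hi h =>
    lam_pow_ne_one φ h2 hℓ hi (sub_eq_zero.1 h)
  have h1 : ∀ j ≠ 0, ∏ i ∈ j.divisors, f i = g j := by
    intro j hj
    have e1 : j.divisors = insert 1 (j.divisors.erase 1) :=
      (Finset.insert_erase (Nat.one_mem_divisors.2 hj)).symm
    have e2 := prod_HH hℓ hj
    rw [e1, Finset.prod_insert (Finset.notMem_erase _ _), HH_one hℓ] at e2
    have e3 := congrArg (fun p => φ (derivative p)) e2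
    simp only [derivative_mul, map_add, map_mul, derivative_Pd, map_sub, map_one, hφ,
      zero_mul, add_zero, lam_mul φ hφ] at e3
    rw [e1, Finset.prod_insert (Finset.notMem_erase _ _)]
    have e4 : ∏ i ∈ j.divisors.erase 1, f i = φ (∏ i ∈ j.divisors.erase 1, HH ℓ i) := by
      rw [map_prod]
      refine Finset.prod_congr rfl fun i hi => ?_
      rw [hf]
      exact if_neg (Finset.ne_of_mem_erase hi)
    rw [e4]
    simp only [hf, if_true, hg]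
    exact e3
  have h3 : ∀ j ≠ 0, ∏ i ∈ j.divisors, eval (φ (lam ℓ)) (cyclotomic i S) = g j := by
    intro j hj
    rw [← eval_prod, prod_cyclotomic_eq_X_pow_sub_one (Nat.pos_of_ne_zero hj)]
    simp [hg]
  have h4 := prod_moebius hg0 h1 hq0
  have h5 := prod_moebius hg0 h3 hq0
  have h6 : ∏ k ∈ dv q (-1), g k ≠ 0 := by
    rw [Finset.prod_ne_zero_iff]
    intro k hk
    exact hg0 k (mem_dv hk).1
  have h7 : f q = eval (φ (lam ℓ)) (cyclotomic q S) := mul_right_cancel₀ h6 (h4.trans h5.symm)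
  rw [← h7, hf]
  exact (if_neg (by lia)).symm

/-- If `Phi_{ℓ q}` takes a unit value at a point of exact period `ℓ`, then the `q`-th cyclotomic
polynomial takes a unit value at the multiplier. -/
lemma isUnit_cyclotomic {ℓ q : ℕ} (hℓ : ℓ ≠ 0) (hφ : φ (Phi ℓ) = 0) (hq : 2 ≤ q)
    (hu : IsUnit (φ (Phi (ℓ * q)))) : IsUnit (eval (φ (lam ℓ)) (cyclotomic q S)) := by
  have hφ' : φ (Pd ℓ) = 0 := by
    rw [← prod_Phi hℓ, map_prod]
    exact Finset.prod_eq_zero (Nat.mem_divisors_self ℓ hℓ) hφ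
  rw [← map_HH φ h2 hℓ hφ' hq, HH, map_prod]
  rw [IsUnit.prod_iff]
  intro k hk
  rw [Finset.mem_filter, Nat.mem_divisors] at hk
  obtain ⟨⟨hk1, hk2⟩, hk3⟩ := hk
  have hk0 : k ≠ 0 := by rintro rfl; exact hk2 (zero_dvd_iff.1 hk1)
  by_cases hkn : k = ℓ * q
  · rw [hkn]; exact hu
  · apply isUnit_Phi φ h2 hk0 hℓ hφ
    · intro h
      rw [Nat.lcm_comm, Nat.lcm_eq_left h] at hk3
      have : ℓ * 1 < ℓ * q := Nat.mul_lt_mul_of_pos_left (by lia) (Nat.pos_of_ne_zero hℓ)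
      lia
    · intro h
      rw [Nat.lcm_eq_left h] at hk3
      exact hkn hk3

end

end Pool.Agent.Lib.MP_416699_nt
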