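import Pool.Agent.Lib.MP_416699_nt.NuA

/-!
The unit relation at the roots of `Q m ℓ`.
-/

open Polynomial

namespace Pool.Agent.Lib.MP_416699_nt

/-- Evaluation of a polynomial in `c` and `z` at a point. -/
noncomputable def evS {S : Type*} [CommRing S] (c y : S) : ℤ[X][X] →+* S :=
  eval₂RingHom (aeval c : ℤ[X] →ₐ[ℤ] S).toRingHom y

lemma evS_eval {S : Type*} [CommRing S] (c : S) (u : ℤ[X]) (h : ℤ[X][X]) :
    aeval c (h.eval u) = evS c (aeval c u) h := by
  have := Polynomial.hom_eval₂ h (RingHom.id ℤ[X]) (aeval c : ℤ[X] →ₐ[ℤ] S).toRingHom u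
  rw [evS, coe_eval₂RingHom]
  simpa [eval₂_id] using this

lemma evS_C {S : Type*} [CommRing S] (c y : S) (p : ℤ[X]) : evS c y (C p) = aeval c p := by
  simp [evS]

lemma evS_X {S : Type*} [CommRing S] (c y : S) : evS c y X = y := by simp [evS]

/-- If `a_{i+ℓ}(c) = a_i(c)` for large `i`, then `a_k(c)` divides `a_ℓ(c)`. -/
lemma a_dvd_of_eventually {S : Type*} [CommRing S] {c : S} {m k ℓ : ℕ} (hk : k ≠ 0)
    (hper : ∀ i, m ≤ i → aeval c (a (i + ℓ)) = aeval c (a i)) :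
    aeval c (a k) ∣ aeval c (a ℓ) := by
  have hi : m ≤ k * m := Nat.le_mul_of_pos_left m (Nat.pos_of_ne_zero hk)
  have h1 : aeval c (a k) ∣ aeval c (a (k * m)) := map_dvd _ (a_dvd_a (dvd_mul_right k m))
  have h2 : a (k * m) ∣ a (k * m + ℓ) - a ℓ := by
    have h3 := sub_dvd_eval_sub (a (k * m)) (a 0) (itr ℓ)
    rw [itr_eval_a, itr_eval_a, a_zero, sub_zero, zero_add] at h3
    exact h3
  have h4 := map_dvd (aeval c : ℤ[X] →ₐ[ℤ] S) h2
  rw [map_sub, hper _ hi] at h4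
  have h5 := dvd_sub (dvd_refl (aeval c (a (k * m)))) h4
  rw [sub_sub_cancel] at h5
  exact h1.trans h5

lemma a_mul_Gl_dvd {ℓ n : ℕ} (hn : n ≠ 0) (h : ℓ ∣ n) (hne : ℓ ≠ n) : a ℓ * Gl n ∣ a n := by
  have h1 := map_dvd (evalRingHom (0 : ℤ[X])) (mul_Phi_dvd hn h hne)
  rw [map_mul, coe_evalRingHom, Pd_eval_zero, Pd_eval_zero] at h1
  exact h1

theorem main_unit {S : Type*} [CommRing S] [IsDomain S] (h2 : ¬ IsUnit (2 : S)) {m ℓ q : ℕ}
    (hm : m ≠ 0) (hℓ : ℓ ≠ 0) (hq : 2 ≤ q) {u v : ℤ[X]}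
    (huv : u * G m (ℓ * q) + v * G m ℓ = 1) {c : S} (hc : aeval c (Q m ℓ) = 0) :
    IsUnit (eval (evS c (aeval c (-a (m - 1))) (lam ℓ)) (cyclotomic q S)) := by
  have hn : ℓ * q ≠ 0 := mul_ne_zero hℓ (by lia)
  have hne : ℓ ≠ ℓ * q := by
    have : ℓ * 1 < ℓ * q := Nat.mul_lt_mul_of_pos_left (by lia) (Nat.pos_of_ne_zero hℓ)
    lia
  set φ := evS c (aeval c (-a (m - 1))) with hφdef
  have hφ : φ (Phi ℓ) = 0 := by
    rw [hφdef, ← evS_eval]
    exact hc
  by_cases hy : aeval c (a (m - 1)) = 0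
  · -- the value is `1`
    have h3 : φ (lam ℓ) = 0 := by
      have h4 := map_dvd φ (X_dvd_lam hℓ)
      have h5 : φ X = 0 := by rw [hφdef, evS_X, map_neg, hy, neg_zero]
      rw [h5, zero_dvd_iff] at h4
      exact h4
    rw [h3, ← coeff_zero_eq_eval_zero, cyclotomic_coeff_zero _ (by lia)]
    exact isUnit_one
  · apply isUnit_cyclotomic φ h2 hℓ hφ hq
    have hφ' : φ (Pd ℓ) = 0 := by
      rw [← prod_Phi hℓ, map_prod]
      exact Finset.prod_eq_zero (Nat.mem_divisors_self ℓ hℓ) hφ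
    have hD : aeval c (a (m + ℓ - 1)) = - aeval c (a (m - 1)) := by
      rw [hφdef, ← evS_eval, Pd_eval_neg hm hℓ, D, map_add] at hφ'
      exact eq_neg_of_add_eq_zero_left hφ'
    have hper : ∀ i, m ≤ i → aeval c (a (i + ℓ)) = aeval c (a i) := by
      intro i hi
      induction i, hi using Nat.le_induction with
      | base =>
        rw [show m + ℓ = (m + ℓ - 1) + 1 by lia, a_succ, map_add, map_pow, hD]
        conv_rhs => rw [show m = (m - 1) + 1 by lia, a_succ, map_add, map_pow]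
        ring
      | succ i hi ih =>
        rw [show i + 1 + ℓ = (i + ℓ) + 1 by ring, a_succ, a_succ, map_add, map_add, map_pow,
          map_pow, ih]
    have haℓ : ℓ ∣ m - 1 → aeval c (a ℓ) ≠ 0 := by
      intro h h0
      apply hy
      have h3 := map_dvd (aeval c : ℤ[X] →ₐ[ℤ] S) (a_dvd_a h)
      rw [h0, zero_dvd_iff] at h3
      exact h3
    -- `c` is a root of `G m ℓ`
    have hG : aeval c (G m ℓ) = 0 := by
      have h3 := congrArg (aeval c) (G_mul hm hℓ)
      rw [map_mul, hc] at h3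
      rcases mul_eq_zero.1 h3 with h4 | h4
      · exact h4
      · exfalso
        by_cases hd : ℓ ∣ m - 1
        · rw [if_pos hd] at h4
          apply haℓ hd
          have h5 := map_dvd (aeval c : ℤ[X] →ₐ[ℤ] S) (Gl_dvd_a hℓ)
          rw [h4, zero_dvd_iff] at h5
          exact h5
        · rw [if_neg hd, map_one] at h4
          exact one_ne_zero h4
    have hGu : IsUnit (aeval c (G m (ℓ * q))) := by
      have h3 := congrArg (aeval c) huv
      rw [map_add, map_mul, map_mul, hG, mul_zero, add_zero, map_one] at h3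
      exact IsUnit.of_mul_eq_one_right _ h3
    rw [hφdef, ← evS_eval]
    change IsUnit (aeval c (Q m (ℓ * q)))
    rw [← G_mul hm hn, map_mul]
    apply hGu.mul
    by_cases hd : ℓ * q ∣ m - 1
    · rw [if_pos hd]
      have hd' : ℓ ∣ m - 1 := (dvd_mul_right ℓ q).trans hd
      have h3 := a_dvd_of_eventually (c := c) hn hper
      have h4 := map_dvd (aeval c : ℤ[X] →ₐ[ℤ] S) (a_mul_Gl_dvd hn (dvd_mul_right ℓ q) hne)
      rw [map_mul] at h4
      obtain ⟨t, ht⟩ := h4.trans h3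
      have h7 : aeval c (a ℓ) * 1 = aeval c (a ℓ) * (aeval c (Gl (ℓ * q)) * t) := by
        rw [mul_one, ← mul_assoc, ← ht]
      exact IsUnit.of_mul_eq_one _ (mul_left_cancel₀ (haℓ hd') h7).symm
    · rw [if_neg hd, map_one]
      exact isUnit_one

end Pool.Agent.Lib.MP_416699_nt
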