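import Pool.Agent.Lib.MP_416699_nt.NuB

/-!
The deformation `Phi_ℓ(c, -a_{m-1}(c) - s)` and its resultant.
-/

open Polynomial

namespace Pool.Agent.Lib.MP_416699_nt

/-- The polynomial `Φ_q(λ_ℓ(c, z))`, with `Φ_q` cyclotomic. -/
noncomputable def hP (ℓ q : ℕ) : ℤ[X][X] := (cyclotomic q ℤ[X][X]).eval (lam ℓ)

lemma map_hP {S : Type*} [CommRing S] (φ : ℤ[X][X] →+* S) (ℓ q : ℕ) :
    φ (hP ℓ q) = eval (φ (lam ℓ)) (cyclotomic q S) := by
  rw [hP, ← Polynomial.eval_map_apply φ, map_cyclotomic]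

lemma eval_map_evS (s c : ℂ) (h : ℤ[X][X]) :
    eval c (h.map (aeval s : ℤ[X] →ₐ[ℤ] ℂ).toRingHom) = evS s c h := by
  rw [eval_map]; rfl

/-- The resultant of `F` and `h` specialised at a complex number. -/
lemma aeval_resultant {F h : ℤ[X][X]} (hF : F.Monic) (s : ℂ) :
    aeval s (resultant F h) =
      ((F.map (aeval s : ℤ[X] →ₐ[ℤ] ℂ).toRingHom).roots.map (fun c => evS s c h)).prod := by
  have h1 : aeval s (resultant F h) = (aeval s : ℤ[X] →ₐ[ℤ] ℂ).toRingHom (resultant F h) := rfl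
  rw [h1, ← resultant_map_map, ← hF.natDegree_map (aeval s : ℤ[X] →ₐ[ℤ] ℂ).toRingHom,
    resultant_eq_prod_eval _ _ _ natDegree_map_le (IsAlgClosed.splits _), (hF.map _).leadingCoeff,
    one_pow, one_mul]
  congr 1
  refine Multiset.map_congr rfl fun c _ => ?_
  exact eval_map_evS s c h

/-- The substitution `z = -a_{m-1}(c) - s`; the outer variable of the target is `c`,
the inner one is `s`. -/
noncomputable def shf (m : ℕ) : ℤ[X][X] →+* ℤ[X][X] :=
  eval₂RingHom (mapRingHom C) (-((a (m - 1)).map C + C X))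

lemma evS_shf (m : ℕ) (s c : ℂ) (p : ℤ[X][X]) :
    evS s c (shf m p) = evS c (-(aeval c (a (m - 1)) + s)) p := by
  have h : (evS s c).comp (shf m) = evS c (-(aeval c (a (m - 1)) + s)) := by
    have key : (evS s c).comp (mapRingHom C) = (aeval c : ℤ[X] →ₐ[ℤ] ℂ).toRingHom := by
      apply Polynomial.ringHom_ext'
      · exact RingHom.ext_int _ _
      · simp [evS]
    apply Polynomial.ringHom_ext'
    · apply Polynomial.ringHom_ext'
      · exact RingHom.ext_int _ _
      · simp [shf, evS]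
    · have h1 : evS s c ((a (m - 1)).map C) = aeval c (a (m - 1)) :=
        congrArg (fun g => g (a (m - 1))) key
      rw [RingHom.comp_apply, evS_X, shf, coe_eval₂RingHom, eval₂_X, map_neg, map_add, h1, evS_C,
        aeval_X]
  exact congrArg (fun g => g p) h

lemma shf_X_facts {m : ℕ} (hm : 2 ≤ m) : ((a (m - 1)).map C + C X : ℤ[X][X]).Monic ∧
    ((a (m - 1)).map C + C X : ℤ[X][X]).natDegree = 2 ^ (m - 2) := by
  have h0 : m - 1 ≠ 0 := by lia
  have h1 : ((a (m - 1)).map C : ℤ[X][X]).Monic := (a_monic h0).map _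
  have h2 : ((a (m - 1)).map C : ℤ[X][X]).natDegree = 2 ^ (m - 2) := by
    rw [(a_monic h0).natDegree_map, a_natDegree h0, show m - 1 - 1 = m - 2 by lia]
  have h3 : (C X : ℤ[X][X]).degree < ((a (m - 1)).map C : ℤ[X][X]).degree := by
    rw [degree_eq_natDegree h1.ne_zero, h2]
    refine lt_of_le_of_lt degree_C_le ?_
    exact_mod_cast Nat.pos_of_ne_zero (by positivity)
  exact ⟨h1.add_of_left h3, by rw [natDegree_add_eq_left_of_degree_lt h3, h2]⟩

lemma shf_itr_facts {m : ℕ} (hm : 2 ≤ m) (k : ℕ) : (shf m (itr (k + 1))).Monic ∧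
    (shf m (itr (k + 1))).natDegree = 2 ^ (k + 1) * 2 ^ (m - 2) := by
  have hX : ∀ (B : ℤ[X][X]) (r : ℕ), r ≠ 0 → B.Monic → B.natDegree = r →
      (B ^ 2 + X).Monic ∧ (B ^ 2 + X).natDegree = 2 * r := by
    intro B r hr hB hBr
    have h1 : (B ^ 2).Monic := hB.pow 2
    have h2 : (B ^ 2).natDegree = 2 * r := by rw [hB.natDegree_pow, hBr]
    have h3 : (X : ℤ[X][X]).degree < (B ^ 2).degree := by
      rw [degree_eq_natDegree h1.ne_zero, h2, degree_X]
      exact_mod_cast (by lia : 1 < 2 * r)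
    exact ⟨h1.add_of_left h3, by rw [natDegree_add_eq_left_of_degree_lt h3, h2]⟩
  obtain ⟨h1, h2⟩ := shf_X_facts hm
  induction k with
  | zero =>
    have e : shf m (itr (0 + 1)) = ((a (m - 1)).map C + C X : ℤ[X][X]) ^ 2 + X := by
      rw [itr_succ, itr_zero, map_add, map_pow]
      simp only [shf, coe_eval₂RingHom, eval₂_X, eval₂_C, coe_mapRingHom, Polynomial.map_X]
      ring
    rw [e]
    have := hX _ _ (by positivity) h1 h2
    refine ⟨this.1, ?_⟩
    rw [this.2]; ring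
  | succ k ih =>
    have e : shf m (itr (k + 1 + 1)) = shf m (itr (k + 1)) ^ 2 + X := by
      rw [itr_succ, map_add, map_pow]
      simp [shf]
    rw [e]
    have := hX _ _ (by positivity) ih.1 ih.2
    refine ⟨this.1, ?_⟩
    rw [this.2]; ring

lemma shf_Pd_facts {m k : ℕ} (hm : 2 ≤ m) (hk : k ≠ 0) : (shf m (Pd k)).Monic ∧
    (shf m (Pd k)).natDegree = 2 ^ k * 2 ^ (m - 2) := by
  obtain ⟨k, rfl⟩ := Nat.exists_eq_succ_of_ne_zero hk
  rw [Nat.succ_eq_add_one]
  obtain ⟨h1, h2⟩ := shf_X_facts hm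
  obtain ⟨h3, h4⟩ := shf_itr_facts hm k
  have e : shf m (Pd (k + 1)) = shf m (itr (k + 1)) + ((a (m - 1)).map C + C X : ℤ[X][X]) := by
    rw [Pd, map_sub]
    simp [shf]
    ring
  have h5 : ((a (m - 1)).map C + C X : ℤ[X][X]).degree < (shf m (itr (k + 1))).degree := by
    rw [degree_eq_natDegree h1.ne_zero, degree_eq_natDegree h3.ne_zero, h2, h4]
    have h6 : 1 < 2 ^ (k + 1) := Nat.one_lt_two_pow (by lia)
    have h7 : 0 < 2 ^ (m - 2) := by positivity
    exact_mod_cast (lt_mul_of_one_lt_left h7 h6)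
  rw [e]
  exact ⟨h3.add_of_left h5, by rw [natDegree_add_eq_left_of_degree_lt h5, h4]⟩

lemma shf_Phi_facts {m : ℕ} (hm : 2 ≤ m) {n : ℕ} (hn : n ≠ 0) : (shf m (Phi n)).Monic ∧
    (shf m (Phi n)).natDegree = (Phi n).natDegree * 2 ^ (m - 2) := by
  induction n using Nat.strong_induction_on with
  | _ n ih =>
  have h1 := congrArg (shf m) (prod_Phi hn)
  rw [map_prod, prod_divisors_eq hn] at h1
  obtain ⟨h2, h3⟩ := shf_Pd_facts hm hn
  have hpd : ∀ k ∈ n.properDivisors, (shf m (Phi k)).Monic ∧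
      (shf m (Phi k)).natDegree = (Phi k).natDegree * 2 ^ (m - 2) := by
    intro k hk
    obtain ⟨hk0, hkn, -⟩ := properDivisors_facts hn hk
    exact ih k hkn hk0
  have h4 : (∏ k ∈ n.properDivisors, shf m (Phi k)).Monic :=
    monic_prod_of_monic _ _ fun k hk => (hpd k hk).1
  have h5 : (shf m (Phi n)).Monic := by
    rw [← h1] at h2
    exact h4.of_mul_monic_left h2
  refine ⟨h5, ?_⟩
  have h6 := congrArg natDegree h1
  rw [h4.natDegree_mul h5, natDegree_prod_of_monic _ _ fun k hk => (hpd k hk).1, h3,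
    Finset.sum_congr rfl fun k hk => (hpd k hk).2, ← Finset.sum_mul] at h6
  have h7 := prod_Phi hn
  rw [prod_divisors_eq hn] at h7
  have h8 : (∏ k ∈ n.properDivisors, Phi k).Monic :=
    monic_prod_of_monic _ _ fun k hk => Phi_monic (properDivisors_facts hn hk).1
  have h9 := congrArg natDegree h7
  rw [h8.natDegree_mul (Phi_monic hn), natDegree_prod_of_monic _ _
    fun k hk => Phi_monic (properDivisors_facts hn hk).1, Pd_natDegree hn] at h9
  have h10 : (∑ k ∈ n.properDivisors, (Phi k).natDegree) * 2 ^ (m - 2) +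
      (shf m (Phi n)).natDegree =
      (∑ k ∈ n.properDivisors, (Phi k).natDegree) * 2 ^ (m - 2) +
        (Phi n).natDegree * 2 ^ (m - 2) := by
    rw [h6, ← h9]; ring
  exact Nat.add_left_cancel h10

lemma Phi_natDegree_pos {n : ℕ} (hn : n ≠ 0) : 0 < (Phi n).natDegree := by
  have h7 := prod_Phi hn
  rw [prod_divisors_eq hn] at h7
  have h8 : (∏ k ∈ n.properDivisors, Phi k).Monic :=
    monic_prod_of_monic _ _ fun k hk => Phi_monic (properDivisors_facts hn hk).1
  have h9 := congrArg natDegree h7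
  rw [h8.natDegree_mul (Phi_monic hn), natDegree_prod_of_monic _ _
    fun k hk => Phi_monic (properDivisors_facts hn hk).1, Pd_natDegree hn] at h9
  have h10 : ∑ k ∈ n.properDivisors, (Phi k).natDegree ≤ ∑ k ∈ n.properDivisors, 2 ^ k := by
    refine Finset.sum_le_sum fun k hk => ?_
    have hk0 := (properDivisors_facts hn hk).1
    rw [← Pd_natDegree hk0, ← prod_Phi hk0]
    apply natDegree_le_of_dvd (Finset.dvd_prod_of_mem _ (Nat.mem_divisors_self k hk0))
    rw [prod_Phi hk0]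
    exact (Pd_monic hk0).ne_zero
  have h11 : ∑ k ∈ n.properDivisors, 2 ^ k ≤ ∑ k ∈ Finset.range n, 2 ^ k := by
    apply Finset.sum_le_sum_of_subset
    intro k hk
    exact Finset.mem_range.2 (properDivisors_facts hn hk).2.1
  have h12 : ∑ k ∈ Finset.range n, 2 ^ k < 2 ^ n := Nat.geomSum_lt le_rfl (by simp)
  lia

/-- The deformed resultant, a polynomial in `s`. -/
noncomputable def LL (m ℓ q : ℕ) : ℤ[X] := resultant (shf m (Phi ℓ)) (shf m (hP ℓ q))

lemma aeval_LL {m ℓ : ℕ} (hm : 2 ≤ m) (hℓ : ℓ ≠ 0) (q : ℕ) (s : ℂ) :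
    aeval s (LL m ℓ q) =
      (((shf m (Phi ℓ)).map (aeval s : ℤ[X] →ₐ[ℤ] ℂ).toRingHom).roots.map
        (fun c => eval (evS c (-(aeval c (a (m - 1)) + s)) (lam ℓ)) (cyclotomic q ℂ))).prod := by
  rw [LL, aeval_resultant (shf_Phi_facts hm hℓ).1]
  congr 1
  refine Multiset.map_congr rfl fun c _ => ?_
  rw [evS_shf, map_hP]

end Pool.Agent.Lib.MP_416699_nt
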