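import Pool.Agent.Lib.MP_416699_nt.NuC

/-!
Under the unit relation the deformed resultant has absolute value one at `s = 0`.
-/

open Polynomial

namespace Pool.Agent.Lib.MP_416699_nt

/-- The ring of algebraic integers in `ℂ`. -/
abbrev OO : Type := integralClosure ℤ ℂ

lemma two_not_isUnit : ¬ IsUnit (2 : OO) := by
  intro h
  obtain ⟨u, hu⟩ := h
  have h1 : ((u⁻¹ : OOˣ) : OO) * 2 = 1 := by rw [← hu]; exact Units.inv_mul u
  have h2 : (((u⁻¹ : OOˣ) : OO) : ℂ) * 2 = 1 := by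
    have := congrArg (algebraMap OO ℂ) h1
    rw [map_mul, map_ofNat, map_one] at this
    exact this
  have h3 : (((u⁻¹ : OOˣ) : OO) : ℂ) = algebraMap ℚ ℂ (1 / 2) := by
    rw [map_div₀, map_one, map_ofNat]
    field_simp
    linear_combination h2
  have h4 : IsIntegral ℤ (((u⁻¹ : OOˣ) : OO) : ℂ) := ((u⁻¹ : OOˣ) : OO).2
  rw [h3, isIntegral_algebraMap_iff (algebraMap ℚ ℂ).injective] at h4
  obtain ⟨k, hk⟩ := IsIntegrallyClosed.isIntegral_iff.1 h4
  have h5 : (k : ℚ) = 1 / 2 := hk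
  have h6 : ((2 * k : ℤ) : ℚ) = (1 : ℤ) := by push_cast; rw [h5]; norm_num
  have h7 := Int.cast_injective h6
  lia

lemma evS_map {S S' : Type*} [CommRing S] [CommRing S'] (f : S →+* S') (c y : S) (p : ℤ[X][X]) :
    f (evS c y p) = evS (f c) (f y) p := by
  have h : f.comp (evS c y) = evS (f c) (f y) := by
    apply Polynomial.ringHom_ext'
    · apply Polynomial.ringHom_ext'
      · exact RingHom.ext_int _ _
      · simp [evS]
    · simp [evS]
  exact congrArg (fun g => g p) h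

lemma intCast_unit {N : ℤ} (h : ∃ y : OOˣ, ((y : OO) : ℂ) = (N : ℂ)) : N = 1 ∨ N = -1 := by
  obtain ⟨y, hy⟩ := h
  have h1 : (((y⁻¹ : OOˣ) : OO) : ℂ) * ((y : OO) : ℂ) = 1 := by
    have := congrArg (algebraMap OO ℂ) (Units.inv_mul y)
    rw [map_mul, map_one] at this
    exact this
  have hN : (N : ℂ) ≠ 0 := by
    rw [← hy]; intro h; rw [h, mul_zero] at h1; exact zero_ne_one h1
  have h3 : (((y⁻¹ : OOˣ) : OO) : ℂ) = algebraMap ℚ ℂ (1 / N) := by
    rw [map_div₀, map_one, map_intCast]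
    rw [eq_div_iff hN, ← hy]
    exact h1
  have h4 : IsIntegral ℤ (((y⁻¹ : OOˣ) : OO) : ℂ) := ((y⁻¹ : OOˣ) : OO).2
  rw [h3, isIntegral_algebraMap_iff (algebraMap ℚ ℂ).injective] at h4
  obtain ⟨k, hk⟩ := IsIntegrallyClosed.isIntegral_iff.1 h4
  have h5 : (k : ℚ) = 1 / N := hk
  have hN' : (N : ℚ) ≠ 0 := by
    intro h
    apply hN
    have : N = 0 := by exact_mod_cast h
    rw [this]; simp
  have h6 : ((k * N : ℤ) : ℚ) = (1 : ℤ) := by push_cast; rw [h5]; field_simp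
  have h7 := Int.cast_injective h6
  exact Int.isUnit_iff.1 (IsUnit.of_mul_eq_one_right _ h7)

theorem LL_zero {m ℓ q : ℕ} (hm : 2 ≤ m) (hℓ : ℓ ≠ 0) (hq : 2 ≤ q) {u v : ℤ[X]}
    (huv : u * G m (ℓ * q) + v * G m ℓ = 1) : ‖aeval (0 : ℂ) (LL m ℓ q)‖ = 1 := by
  have hm0 : m ≠ 0 := by lia
  have key : ∃ y : OOˣ, ((y : OO) : ℂ) = aeval (0 : ℂ) (LL m ℓ q) := by
    rw [aeval_LL hm hℓ]
    apply Multiset.prod_induction (fun x : ℂ => ∃ y : OOˣ, ((y : OO) : ℂ) = x)
    · rintro x x' ⟨y, rfl⟩ ⟨y', rfl⟩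
      exact ⟨y * y', by push_cast; rfl⟩
    · exact ⟨1, by simp⟩
    · intro x hx
      obtain ⟨c, hc, rfl⟩ := Multiset.mem_map.1 hx
      have h1 : evS c (-(aeval c (a (m - 1)) + 0)) (Phi ℓ) = 0 := by
        have h2 := (mem_roots'.1 hc).2
        rw [IsRoot.def, eval_map_evS, evS_shf] at h2
        exact h2
      rw [add_zero] at h1 ⊢
      have h2 : aeval c (Q m ℓ) = 0 := by
        rw [Q, evS_eval, map_neg]; exact h1
      have hint : IsIntegral ℤ c := ⟨Q m ℓ, Q_monic hm0 hℓ, h2⟩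
      set c' : OO := ⟨c, hint⟩ with hc'
      have hcc : algebraMap OO ℂ c' = c := rfl
      have h3 : aeval c' (Q m ℓ) = 0 := by
        apply (FaithfulSMul.algebraMap_injective OO ℂ)
        rw [← aeval_algebraMap_apply, hcc, h2, map_zero]
      obtain ⟨w, hw⟩ := main_unit two_not_isUnit hm0 hℓ hq huv h3
      refine ⟨w, ?_⟩
      rw [hw]
      change algebraMap OO ℂ _ = _
      rw [← Polynomial.eval_map_apply, map_cyclotomic, evS_map, hcc, map_neg, map_neg,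
        ← aeval_algebraMap_apply, hcc]
  have h1 : aeval (0 : ℂ) (LL m ℓ q) = ((eval 0 (LL m ℓ q) : ℤ) : ℂ) := by
    have := aeval_algebraMap_apply (A := ℤ) ℂ (0 : ℤ) (LL m ℓ q)
    simpa using this
  rw [h1] at key ⊢
  rcases intCast_unit key with h | h <;> rw [h] <;> simp

end Pool.Agent.Lib.MP_416699_nt
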