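import Pool.Agent.Lib.MP_416699_nt.NuC

/-!
Growth of the multiplier of periodic points for large parameters.
-/

open Polynomial

namespace Pool.Agent.Lib.MP_416699_nt

lemma evS_itr (c y : ℂ) (k : ℕ) : evS c y (itr k) = (fun z : ℂ => z ^ 2 + c)^[k] y := by
  induction k with
  | zero => simp [evS]
  | succ k ih =>
    rw [itr_succ, map_add, map_pow, ih, evS_C, aeval_X, Function.iterate_succ_apply']

lemma periodic_of_Pd {c y : ℂ} {ℓ : ℕ} (h : evS c y (Pd ℓ) = 0) :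
    (fun z : ℂ => z ^ 2 + c)^[ℓ] y = y := by
  rw [Pd, map_sub, evS_itr, evS_X] at h
  exact sub_eq_zero.1 h

lemma evS_Pd_of_Phi {c y : ℂ} {ℓ : ℕ} (hℓ : ℓ ≠ 0) (h : evS c y (Phi ℓ) = 0) :
    evS c y (Pd ℓ) = 0 := by
  rw [← prod_Phi hℓ, map_prod]
  exact Finset.prod_eq_zero (Nat.mem_divisors_self ℓ hℓ) h

lemma norm_step {c z : ℂ} (h : 1 + ‖c‖ < ‖z‖) : ‖z‖ < ‖z ^ 2 + c‖ := by
  have h1 : ‖z‖ ^ 2 - ‖c‖ ≤ ‖z ^ 2 + c‖ := by
    have := norm_sub_le_norm_add (z ^ 2) c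
    rwa [norm_pow] at this
  have h2 := norm_nonneg c
  nlinarith

lemma norm_periodic {c y : ℂ} {ℓ : ℕ} (hℓ : ℓ ≠ 0)
    (h : (fun z : ℂ => z ^ 2 + c)^[ℓ] y = y) : ‖y‖ ≤ 1 + ‖c‖ := by
  by_contra hcon
  rw [not_le] at hcon
  have key : ∀ k : ℕ, ‖y‖ < ‖(fun z : ℂ => z ^ 2 + c)^[k + 1] y‖ := by
    intro k
    induction k with
    | zero =>
      rw [zero_add, Function.iterate_one]
      exact norm_step hcon
    | succ k ih =>
      rw [Function.iterate_succ_apply']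
      exact ih.trans (norm_step (hcon.trans ih))
  obtain ⟨k, rfl⟩ := Nat.exists_eq_succ_of_ne_zero hℓ
  have := key k
  rw [Nat.succ_eq_add_one] at h
  rw [h] at this
  exact lt_irrefl _ this

lemma periodic_iterate {c y : ℂ} {ℓ : ℕ} (h : (fun z : ℂ => z ^ 2 + c)^[ℓ] y = y) (i : ℕ) :
    (fun z : ℂ => z ^ 2 + c)^[ℓ] ((fun z : ℂ => z ^ 2 + c)^[i] y) =
      (fun z : ℂ => z ^ 2 + c)^[i] y := by
  rw [← Function.iterate_add_apply, add_comm, Function.iterate_add_apply, h]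

lemma norm_sq_periodic {c y : ℂ} {ℓ : ℕ} (hℓ : ℓ ≠ 0) (hc : 100 ≤ ‖c‖)
    (h : (fun z : ℂ => z ^ 2 + c)^[ℓ] y = y) : 3 / 4 * ‖c‖ ≤ ‖y‖ ^ 2 ∧ ‖y‖ ^ 2 ≤ 5 / 4 * ‖c‖ := by
  have hub : ∀ z : ℂ, (fun z : ℂ => z ^ 2 + c)^[ℓ] z = z → ‖z‖ ^ 2 ≤ 1 + 2 * ‖c‖ := by
    intro z hz
    have h1 := norm_periodic hℓ (periodic_iterate hz 1)
    rw [Function.iterate_one] at h1
    have h2 : ‖z‖ ^ 2 ≤ ‖z ^ 2 + c‖ + ‖c‖ := by
      have := norm_sub_le (z ^ 2 + c) c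
      rwa [add_sub_cancel_right, norm_pow] at this
    linarith
  have h1 := hub _ (periodic_iterate h 1)
  rw [Function.iterate_one] at h1
  have h2 : ‖y ^ 2 + c‖ ≤ ‖c‖ / 4 := by
    apply le_of_sq_le_sq _ (by positivity)
    refine h1.trans ?_
    nlinarith
  have h3 : ‖y‖ ^ 2 ≤ ‖y ^ 2 + c‖ + ‖c‖ := by
    have := norm_sub_le (y ^ 2 + c) c
    rwa [add_sub_cancel_right, norm_pow] at this
  have h4 : ‖c‖ ≤ ‖y ^ 2 + c‖ + ‖y‖ ^ 2 := by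
    have := norm_sub_le (y ^ 2 + c) (y ^ 2)
    rwa [add_sub_cancel_left, norm_pow] at this
  constructor <;> linarith

lemma norm_sq_lam {c y : ℂ} {ℓ : ℕ} (hℓ : ℓ ≠ 0) (hc : 100 ≤ ‖c‖)
    (h : (fun z : ℂ => z ^ 2 + c)^[ℓ] y = y) :
    (3 * ‖c‖) ^ ℓ ≤ ‖evS c y (lam ℓ)‖ ^ 2 ∧ ‖evS c y (lam ℓ)‖ ^ 2 ≤ (5 * ‖c‖) ^ ℓ := by
  have e : ‖evS c y (lam ℓ)‖ ^ 2 =
      ∏ i ∈ Finset.range ℓ, 4 * ‖(fun z : ℂ => z ^ 2 + c)^[i] y‖ ^ 2 := by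
    rw [lam_eq_prod, map_prod, norm_prod, ← Finset.prod_pow]
    refine Finset.prod_congr rfl fun i _ => ?_
    rw [map_mul, evS_itr, map_ofNat, norm_mul, mul_pow]
    norm_num
  have h1 : ∀ i, 3 * ‖c‖ ≤ 4 * ‖(fun z : ℂ => z ^ 2 + c)^[i] y‖ ^ 2 ∧
      4 * ‖(fun z : ℂ => z ^ 2 + c)^[i] y‖ ^ 2 ≤ 5 * ‖c‖ := by
    intro i
    have := norm_sq_periodic hℓ hc (periodic_iterate h i)
    constructor <;> linarith [this.1, this.2]
  rw [e]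
  constructor
  · calc (3 * ‖c‖) ^ ℓ = ∏ i ∈ Finset.range ℓ, (3 * ‖c‖) := by
          rw [Finset.prod_const, Finset.card_range]
      _ ≤ _ := Finset.prod_le_prod (fun i _ => by positivity) fun i _ => (h1 i).1
  · calc _ ≤ ∏ i ∈ Finset.range ℓ, (5 * ‖c‖) :=
          Finset.prod_le_prod (fun i _ => by positivity) fun i _ => (h1 i).2
      _ = (5 * ‖c‖) ^ ℓ := by rw [Finset.prod_const, Finset.card_range]

lemma norm_cyclotomic {q : ℕ} (hq : q ≠ 0) {x : ℂ} (hx : 1 ≤ ‖x‖) :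
    (‖x‖ - 1) ^ q.totient ≤ ‖eval x (cyclotomic q ℂ)‖ ∧
      ‖eval x (cyclotomic q ℂ)‖ ≤ (‖x‖ + 1) ^ q.totient := by
  rw [cyclotomic_eq_prod_X_sub_primitiveRoots (Complex.isPrimitiveRoot_exp q hq), eval_prod,
    norm_prod, ← (Complex.isPrimitiveRoot_exp q hq).card_primitiveRoots, ← Finset.prod_const,
    ← Finset.prod_const]
  have hμ : ∀ μ ∈ primitiveRoots q ℂ, ‖μ‖ = 1 := by
    intro μ hμ
    exact IsPrimitiveRoot.norm'_eq_one ((mem_primitiveRoots (Nat.pos_of_ne_zero hq)).1 hμ) hq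
  constructor
  · refine Finset.prod_le_prod (fun μ _ => by linarith) fun μ hm => ?_
    rw [eval_sub, eval_X, eval_C]
    have := norm_sub_norm_le x μ
    rwa [hμ μ hm] at this
  · refine Finset.prod_le_prod (fun μ _ => norm_nonneg _) fun μ hm => ?_
    rw [eval_sub, eval_X, eval_C]
    have := norm_sub_le x μ
    rwa [hμ μ hm] at this

/-- Two-sided growth bounds for the value of the cyclotomic polynomial at the multiplier. -/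
lemma growth {ℓ q : ℕ} (hℓ : ℓ ≠ 0) (hq : q ≠ 0) : ∃ K : ℝ, 0 < K ∧ ∀ c y : ℂ, 100 ≤ ‖c‖ →
    evS c y (Pd ℓ) = 0 →
    2 * ‖c‖ ^ (ℓ * q.totient) ≤ ‖eval (evS c y (lam ℓ)) (cyclotomic q ℂ)‖ ^ 2 ∧
    ‖eval (evS c y (lam ℓ)) (cyclotomic q ℂ)‖ ^ 2 ≤ K * ‖c‖ ^ (ℓ * q.totient) := by
  refine ⟨(4 * 5 ^ ℓ) ^ q.totient, by positivity, ?_⟩
  intro c y hc hy
  obtain ⟨h1, h2⟩ := norm_sq_lam hℓ hc (periodic_of_Pd hy)
  set x := evS c y (lam ℓ) with hx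
  have hc1 : 1 ≤ ‖c‖ := by linarith
  have h3 : 300 ≤ ‖x‖ ^ 2 := by
    refine le_trans ?_ h1
    calc (300 : ℝ) ≤ (3 * ‖c‖) ^ 1 := by linarith
      _ ≤ (3 * ‖c‖) ^ ℓ := pow_le_pow_right₀ (by linarith) (Nat.pos_of_ne_zero hℓ)
  have h4 : 6 ≤ ‖x‖ := by
    have := norm_nonneg x
    nlinarith
  obtain ⟨h5, h6⟩ := norm_cyclotomic hq (x := x) (by linarith)
  have h7 : 1 ≤ q.totient := Nat.totient_pos.2 (Nat.pos_of_ne_zero hq)
  constructor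
  · calc 2 * ‖c‖ ^ (ℓ * q.totient) ≤ 2 ^ q.totient * ‖c‖ ^ (ℓ * q.totient) := by
          gcongr
          calc (2 : ℝ) = 2 ^ 1 := by norm_num
            _ ≤ 2 ^ q.totient := pow_le_pow_right₀ (by norm_num) h7
      _ = (2 * ‖c‖ ^ ℓ) ^ q.totient := by rw [mul_pow, ← pow_mul]
      _ ≤ ((‖x‖ - 1) ^ 2) ^ q.totient := by
          apply pow_le_pow_left₀ (by positivity)
          have h8 : 2 * ‖c‖ ^ ℓ ≤ 2 / 3 * (3 * ‖c‖) ^ ℓ := by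
            rw [mul_pow, ← mul_assoc]
            gcongr
            have : (3 : ℝ) ^ 1 ≤ 3 ^ ℓ := pow_le_pow_right₀ (by norm_num) (Nat.pos_of_ne_zero hℓ)
            linarith
          nlinarith
      _ = ((‖x‖ - 1) ^ q.totient) ^ 2 := by rw [← pow_mul, ← pow_mul, mul_comm]
      _ ≤ _ := by
          apply pow_le_pow_left₀ _ h5
          apply pow_nonneg; linarith
  · calc _ ≤ ((‖x‖ + 1) ^ q.totient) ^ 2 := pow_le_pow_left₀ (norm_nonneg _) h6 2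
      _ = ((‖x‖ + 1) ^ 2) ^ q.totient := by rw [← pow_mul, ← pow_mul, mul_comm]
      _ ≤ (4 * (5 * ‖c‖) ^ ℓ) ^ q.totient := by
          apply pow_le_pow_left₀ (by positivity)
          nlinarith
      _ = _ := by
          rw [mul_pow 5, ← mul_assoc, mul_pow _ (‖c‖ ^ ℓ), ← pow_mul ‖c‖]

end Pool.Agent.Lib.MP_416699_nt
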