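import Pool.Agent.Lib.MP_416699_nt.NuE
import Pool.Agent.Lib.MP_416699_nt.IrrA

/-!
Degree and leading coefficient of the deformed resultant.
-/

open Polynomial Filter Topology

namespace Pool.Agent.Lib.MP_416699_nt

lemma norm_prod_map' (s : Multiset ℂ) (f : ℂ → ℂ) :
    ‖(s.map f).prod‖ = (s.map fun x => ‖f x‖).prod := by
  induction s using Multiset.induction_on with
  | empty => simp
  | cons x s ih => rw [Multiset.map_cons, Multiset.prod_cons, norm_mul, ih, Multiset.map_cons,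
      Multiset.prod_cons]

lemma evS_zero (y : ℂ) (p : ℤ[X][X]) : evS 0 y p = aeval y (ev0 p) := by
  have h : evS (0 : ℂ) y = ((aeval y : ℤ[X] →ₐ[ℤ] ℂ) : ℤ[X] →+* ℂ).comp ev0 := by
    apply Polynomial.ringHom_ext'
    · apply Polynomial.ringHom_ext'
      · exact RingHom.ext_int _ _
      · simp [evS]
    · simp [evS]
  exact congrArg (fun g => g p) h

lemma aeval_zero_a (k : ℕ) : aeval (0 : ℂ) (a k) = 0 := by
  induction k with
  | zero => simp
  | succ k ih => rw [a_succ, map_add, map_pow, ih, aeval_X]; simp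

/-- Two-sided bounds for the deformed resultant for large `s`. -/
lemma LL_bounds {m ℓ q : ℕ} (hm : 2 ≤ m) (hℓ : ℓ ≠ 0) (hq : q ≠ 0) :
    ∃ K R : ℝ, 0 < K ∧ ∀ s : ℂ, R < ‖s‖ →
      2 ^ ((Phi ℓ).natDegree * 2 ^ (m - 2)) *
        ‖aeval (-s) (ev0 (Phi ℓ))‖ ^ (ℓ * q.totient) ≤ ‖aeval s (LL m ℓ q)‖ ^ 2 ∧
      ‖aeval s (LL m ℓ q)‖ ^ 2 ≤ K * ‖aeval (-s) (ev0 (Phi ℓ))‖ ^ (ℓ * q.totient) := by
  obtain ⟨K, hK, hgrow⟩ := growth hℓ hq
  obtain ⟨B, hB⟩ := (isCompact_closedBall (0 : ℂ) 100).exists_bound_of_continuousOn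
    (f := fun c : ℂ => aeval c (a (m - 1))) ((a (m - 1)).continuous_aeval.continuousOn)
  set N := (Phi ℓ).natDegree * 2 ^ (m - 2) with hN
  refine ⟨K ^ N, 101 + B, by positivity, ?_⟩
  intro s hs
  set F := (shf m (Phi ℓ)).map (aeval s : ℤ[X] →ₐ[ℤ] ℂ).toRingHom with hF
  have hFm : F.Monic := (shf_Phi_facts hm hℓ).1.map _
  have hFs : F.Splits := IsAlgClosed.splits _
  have hcard : F.roots.card = N := by
    rw [← hFs.natDegree_eq_card_roots, hF, (shf_Phi_facts hm hℓ).1.natDegree_map,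
      (shf_Phi_facts hm hℓ).2]
  have hL := aeval_LL (q := q) hm hℓ s
  have hroots : ∀ c ∈ F.roots, 2 * ‖c‖ ^ (ℓ * q.totient) ≤
      ‖eval (evS c (-(aeval c (a (m - 1)) + s)) (lam ℓ)) (cyclotomic q ℂ)‖ ^ 2 ∧
      ‖eval (evS c (-(aeval c (a (m - 1)) + s)) (lam ℓ)) (cyclotomic q ℂ)‖ ^ 2 ≤
        K * ‖c‖ ^ (ℓ * q.totient) := by
    intro c hc
    have h2 := (mem_roots'.1 hc).2
    rw [IsRoot.def, hF, eval_map_evS, evS_shf] at h2
    have h3 := evS_Pd_of_Phi hℓ h2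
    apply hgrow c _ _ h3
    by_contra hcon
    rw [not_le] at hcon
    have h4 := norm_periodic hℓ (periodic_of_Pd h3)
    have h5 := hB c (by rw [Metric.mem_closedBall, dist_zero_right]; exact hcon.le)
    rw [norm_neg] at h4
    have h6 : ‖s‖ ≤ ‖aeval c (a (m - 1)) + s‖ + ‖aeval c (a (m - 1))‖ := by
      have := norm_sub_le (aeval c (a (m - 1)) + s) (aeval c (a (m - 1)))
      rwa [add_sub_cancel_left] at this
    linarith
  have hprod : ‖aeval (-s) (ev0 (Phi ℓ))‖ = (F.roots.map fun c => ‖c‖).prod := by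
    have h1 : eval 0 F = aeval (-s) (ev0 (Phi ℓ)) := by
      rw [hF, eval_map_evS, evS_shf, evS_zero, aeval_zero_a, zero_add]
    rw [← h1, hFs.eval_eq_prod_roots_of_monic hFm, norm_prod_map']
    congr 1
    refine Multiset.map_congr rfl fun c _ => ?_
    rw [zero_sub, norm_neg]
  have hsq : ‖aeval s (LL m ℓ q)‖ ^ 2 = (F.roots.map fun c =>
      ‖eval (evS c (-(aeval c (a (m - 1)) + s)) (lam ℓ)) (cyclotomic q ℂ)‖ ^ 2).prod := by
    rw [hL, norm_prod_map', Multiset.prod_map_pow]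
  have hconst : ∀ r : ℝ, (F.roots.map fun c => r * ‖c‖ ^ (ℓ * q.totient)).prod =
      r ^ N * ‖aeval (-s) (ev0 (Phi ℓ))‖ ^ (ℓ * q.totient) := by
    intro r
    rw [Multiset.prod_map_mul, Multiset.prod_map_pow, ← hprod, Multiset.map_const',
      Multiset.prod_replicate, hcard]
  rw [← hconst, ← hconst, hsq]
  constructor
  · exact Multiset.prod_map_le_prod_map₀ _ _ (fun c _ => by positivity) fun c hc => (hroots c hc).1
  · exact Multiset.prod_map_le_prod_map₀ _ _ (fun c _ => by positivity) fun c hc => (hroots c hc).2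

/-- Two polynomials with comparable values at infinity. -/
lemma compare {P Q : ℝ[X]} {b K : ℝ} (hb : 0 < b) (hQ : Q ≠ 0) (hQ0 : ∀ᶠ x in atTop, 0 ≤ eval x Q)
    (h1 : ∀ᶠ x in atTop, b * eval x Q ≤ eval x P)
    (h2 : ∀ᶠ x in atTop, eval x P ≤ K * eval x Q) :
    P.natDegree = Q.natDegree ∧ b ≤ P.leadingCoeff / Q.leadingCoeff := by
  have hQ1 : ∀ᶠ x in atTop, 0 < eval x Q := by
    filter_upwards [hQ0, Q.eventually_atTop_not_isRoot hQ] with x hx1 hx2
    exact lt_of_le_of_ne hx1 (Ne.symm hx2)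
  have hlo : ∀ᶠ x in atTop, b ≤ eval x P / eval x Q := by
    filter_upwards [hQ1, h1] with x hx1 hx2
    rwa [le_div_iff₀ hx1]
  have hhi : ∀ᶠ x in atTop, eval x P / eval x Q ≤ K := by
    filter_upwards [hQ1, h2] with x hx1 hx2
    rwa [div_le_iff₀ hx1]
  have hdeg : P.degree = Q.degree := by
    rcases lt_trichotomy P.degree Q.degree with h | h | h
    · exfalso
      have h3 := P.div_tendsto_atTop_zero_of_degree_lt Q h
      have h4 := ge_of_tendsto h3 hlo
      linarith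
    · exact h
    · exfalso
      have h3 := P.abs_div_tendsto_atTop_atTop_of_degree_gt Q h hQ
      have h4 := h3.eventually_gt_atTop K
      obtain ⟨x, hx1, hx2, hx3⟩ := (h4.and (hlo.and hhi)).exists
      rw [abs_of_nonneg (by linarith)] at hx1
      linarith
  refine ⟨natDegree_eq_of_degree_eq hdeg, ?_⟩
  exact ge_of_tendsto (P.div_tendsto_atTop_leadingCoeff_div_of_degree_eq Q hdeg) hlo

lemma norm_aeval_real (p : ℤ[X]) (x : ℝ) :
    ‖aeval (x : ℂ) p‖ = |eval x (p.map (Int.castRingHom ℝ))| := by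
  have h1 : aeval (x : ℂ) p = ((aeval x p : ℝ) : ℂ) := by
    have := aeval_algebraMap_apply (A := ℝ) ℂ x p
    simpa using this
  rw [h1, Complex.norm_real, Real.norm_eq_abs, aeval_def, eval_map]
  rfl

/-- Degree and leading coefficient of `LL`. -/
theorem LL_facts {m ℓ q : ℕ} (hm : 2 ≤ m) (hℓ : ℓ ≠ 0) (hq : q ≠ 0) :
    2 * (LL m ℓ q).natDegree = ℓ * q.totient * (Phi ℓ).natDegree ∧
    (2 : ℝ) ^ ((Phi ℓ).natDegree * 2 ^ (m - 2)) ≤ ((LL m ℓ q).leadingCoeff : ℝ) ^ 2 := by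
  obtain ⟨K, R, hK, hb⟩ := LL_bounds hm hℓ hq
  set N := (Phi ℓ).natDegree * 2 ^ (m - 2) with hN
  set e := ℓ * q.totient with he
  have hinj : Function.Injective (Int.castRingHom ℝ) := Int.cast_injective
  set Lr := (LL m ℓ q).map (Int.castRingHom ℝ) with hLr
  set p0 : ℝ[X] := ((ev0 (Phi ℓ)).comp (-X)).map (Int.castRingHom ℝ) with hp0
  have hmon : (ev0 (Phi ℓ)).Monic := (Phi_monic hℓ).map _
  have hnat : (ev0 (Phi ℓ)).natDegree = (Phi ℓ).natDegree := (Phi_monic hℓ).natDegree_map _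
  have hp0d : p0.natDegree = (Phi ℓ).natDegree := by
    rw [hp0, natDegree_map_eq_of_injective hinj, natDegree_comp, natDegree_neg, natDegree_X,
      mul_one, hnat]
  have hp0l : p0.leadingCoeff ^ 2 = 1 := by
    rw [hp0, leadingCoeff_map_of_injective hinj, leadingCoeff_comp (by simp), hmon.leadingCoeff,
      leadingCoeff_neg, leadingCoeff_X, one_mul, map_pow, ← pow_mul, mul_comm, pow_mul]
    simp
  have hp00 : p0 ≠ 0 := by
    intro h; rw [h, leadingCoeff_zero] at hp0l; norm_num at hp0l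
  have hw : ∀ x : ℝ, ‖aeval (-(x : ℂ)) (ev0 (Phi ℓ))‖ = |eval x p0| := by
    intro x
    have h1 : -(x : ℂ) = ((-x : ℝ) : ℂ) := by push_cast; rfl
    rw [h1, norm_aeval_real, hp0, Polynomial.map_comp, eval_comp]
    simp
  have hlarge : ∀ᶠ x : ℝ in atTop, (2 : ℝ) ^ N * |eval x p0| ^ e ≤ |eval x Lr| ^ 2 ∧
      |eval x Lr| ^ 2 ≤ K * |eval x p0| ^ e := by
    filter_upwards [eventually_gt_atTop (max R 0)] with x hx
    have h1 : R < ‖(x : ℂ)‖ := by
      rw [Complex.norm_real, Real.norm_eq_abs]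
      exact lt_of_lt_of_le (lt_of_le_of_lt (le_max_left _ _) hx) (le_abs_self x)
    have h2 := hb x h1
    rw [hw x, norm_aeval_real] at h2
    exact h2
  have hQ0 : ∀ x : ℝ, eval x (p0 ^ (2 * e)) = (|eval x p0| ^ e) ^ 2 := by
    intro x
    rw [eval_pow, ← pow_mul |eval x p0| e 2, mul_comm e 2, pow_mul (eval x p0) 2 e,
      pow_mul |eval x p0| 2 e, sq_abs]
  have hP0 : ∀ x : ℝ, eval x (Lr ^ 4) = (|eval x Lr| ^ 2) ^ 2 := by
    intro x
    rw [eval_pow, sq_abs, ← pow_mul]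
  obtain ⟨h1, h2⟩ := compare (P := Lr ^ 4) (Q := p0 ^ (2 * e)) (b := (2 ^ N) ^ 2) (K := K ^ 2)
    (by positivity) (pow_ne_zero _ hp00)
    (Eventually.of_forall fun x => by rw [hQ0]; positivity)
    (by
      filter_upwards [hlarge] with x hx
      rw [hQ0, hP0, ← mul_pow]
      exact pow_le_pow_left₀ (by positivity) hx.1 2)
    (by
      filter_upwards [hlarge] with x hx
      rw [hQ0, hP0, ← mul_pow]
      exact pow_le_pow_left₀ (by positivity) hx.2 2)
  have hLd : Lr.natDegree = (LL m ℓ q).natDegree := natDegree_map_eq_of_injective hinj _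
  have hLl : Lr.leadingCoeff = ((LL m ℓ q).leadingCoeff : ℝ) :=
    leadingCoeff_map_of_injective hinj _
  rw [natDegree_pow, natDegree_pow, hLd, hp0d] at h1
  rw [leadingCoeff_pow, leadingCoeff_pow, hLl, pow_mul p0.leadingCoeff, hp0l, one_pow, div_one] at h2
  refine ⟨by nlinarith, ?_⟩
  apply le_of_sq_le_sq _ (by positivity)
  rw [← pow_mul ((LL m ℓ q).leadingCoeff : ℝ)]
  exact h2

end Pool.Agent.Lib.MP_416699_nt
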