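import Pool.Agent.Lib.MP_416699_nt.NuE
import Pool.Agent.Lib.MP_416699_nt.FatouPar

/-!
Parabolic parameters: finiteness and a uniform lower bound.
-/

open Polynomial Filter Topology

namespace Pool.Agent.Lib.MP_416699_nt

/-- Pairs `(c, z)` with `z` in a parabolic cycle: period `ℓ`, multiplier a primitive `q`-th root. -/
def ZZ (ℓ q : ℕ) : Set (ℂ × ℂ) :=
  {p | evS p.1 p.2 (Phi ℓ) = 0 ∧ eval (evS p.1 p.2 (lam ℓ)) (cyclotomic q ℂ) = 0}

lemma finite_fibre {ℓ : ℕ} (hℓ : ℓ ≠ 0) (c : ℂ) : {y : ℂ | evS c y (Phi ℓ) = 0}.Finite := by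
  have h0 : (Phi ℓ).map (aeval c : ℤ[X] →ₐ[ℤ] ℂ).toRingHom ≠ 0 :=
    ((Phi_monic hℓ).map _).ne_zero
  refine (Multiset.finite_toSet ((Phi ℓ).map (aeval c : ℤ[X] →ₐ[ℤ] ℂ).toRingHom).roots).subset ?_
  intro y hy
  rw [Set.mem_ofPred_eq] at hy ⊢
  rw [mem_roots h0, IsRoot.def, eval_map_evS]
  exact hy

lemma ZZ_finite {ℓ q : ℕ} (hℓ : ℓ ≠ 0) (hq : q ≠ 0) : (ZZ ℓ q).Finite := by
  set Nh : ℤ[X] := resultant (Phi ℓ) (hP ℓ q) with hNh
  have hval : ∀ c : ℂ, aeval c Nh =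
      (((Phi ℓ).map (aeval c : ℤ[X] →ₐ[ℤ] ℂ).toRingHom).roots.map
        (fun y => eval (evS c y (lam ℓ)) (cyclotomic q ℂ))).prod := by
    intro c
    rw [hNh, aeval_resultant (Phi_monic hℓ)]
    congr 1
    refine Multiset.map_congr rfl fun y _ => ?_
    rw [map_hP]
  have hroots : ∀ c y : ℂ, y ∈ ((Phi ℓ).map (aeval c : ℤ[X] →ₐ[ℤ] ℂ).toRingHom).roots ↔
      evS c y (Phi ℓ) = 0 := by
    intro c y
    rw [mem_roots ((Phi_monic hℓ).map _).ne_zero, IsRoot.def, eval_map_evS]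
  have hN0 : Nh ≠ 0 := by
    intro h0
    have h1 := hval 100
    rw [h0, map_zero] at h1
    have h2 := Multiset.prod_eq_zero_iff.1 h1.symm
    obtain ⟨y, hy, hy0⟩ := Multiset.mem_map.1 h2
    obtain ⟨K, -, hK⟩ := growth hℓ hq
    have h3 := (hK 100 y (by simp) (evS_Pd_of_Phi hℓ ((hroots 100 y).1 hy))).1
    rw [hy0, norm_zero] at h3
    have h4 : (0 : ℝ) < 2 * 100 ^ (ℓ * q.totient) := by positivity
    norm_num at h3
    exact absurd h3 (not_le.2 h4)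
  have hS : {c : ℂ | aeval c Nh = 0}.Finite := by
    have hm0 : Nh.map (Int.castRingHom ℂ) ≠ 0 :=
      (Polynomial.map_ne_zero_iff Int.cast_injective).2 hN0
    refine (Multiset.finite_toSet (Nh.map (Int.castRingHom ℂ)).roots).subset ?_
    intro c hc
    rw [Set.mem_ofPred_eq] at hc ⊢
    rw [mem_roots hm0, IsRoot.def, eval_map]
    exact hc
  have hsub : ZZ ℓ q ⊆ ⋃ c ∈ {c : ℂ | aeval c Nh = 0},
      (fun y => (c, y)) '' {y : ℂ | evS c y (Phi ℓ) = 0} := by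
    rintro ⟨c, y⟩ ⟨h1, h2⟩
    simp only at h1 h2
    rw [Set.mem_iUnion₂]
    refine ⟨c, ?_, ⟨y, h1, rfl⟩⟩
    rw [Set.mem_ofPred_eq, hval c, Multiset.prod_eq_zero_iff, Multiset.mem_map]
    exact ⟨y, (hroots c y).2 h1, h2⟩
  exact (hS.biUnion fun c _ => (finite_fibre hℓ c).image _).subset hsub

lemma finite_min {ι : Type*} (s : Finset ι) (F : ι → ℕ → ℝ)
    (h : ∀ p ∈ s, ∃ δ > 0, ∀ᶠ i in atTop, δ ≤ F p i) :
    ∃ δ > 0, ∀ᶠ i in atTop, ∀ p ∈ s, δ ≤ F p i := by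
  classical
  induction s using Finset.induction_on with
  | empty => exact ⟨1, one_pos, by simp⟩
  | insert p s _ ih =>
    obtain ⟨δ₁, h1, h2⟩ := ih fun p hp => h p (Finset.mem_insert_of_mem hp)
    obtain ⟨δ₂, h3, h4⟩ := h p (Finset.mem_insert_self p s)
    refine ⟨min δ₁ δ₂, lt_min h1 h3, ?_⟩
    filter_upwards [h2, h4] with i hi1 hi2 p' hp'
    rcases Finset.mem_insert.1 hp' with rfl | hp'
    · exact (min_le_right _ _).trans hi2
    · exact (min_le_left _ _).trans (hi1 p' hp')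

lemma evS_a (c : ℂ) (i : ℕ) : aeval c (a i) = (fun z : ℂ => z ^ 2 + c)^[i] 0 := by
  have h1 : aeval c ((itr i).eval 0) = evS c (aeval c (0 : ℤ[X])) (itr i) := evS_eval c 0 (itr i)
  have h2 := itr_eval_a i 0
  rw [a_zero, zero_add] at h2
  rw [h2, map_zero, evS_itr] at h1
  exact h1

lemma deriv_iterate (c y : ℂ) (k : ℕ) :
    deriv ((fun z : ℂ => z ^ 2 + c)^[k]) y = evS c y (lam k) := by
  have h1 : (fun z : ℂ => z ^ 2 + c)^[k] =
      fun z => eval z ((itr k).map (aeval c : ℤ[X] →ₐ[ℤ] ℂ).toRingHom) := by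
    funext z
    rw [eval_map_evS, evS_itr]
  rw [h1, Polynomial.deriv, derivative_map, eval_map_evS, lam]

/-- For a parabolic point `z` the critical orbit stays away from `-z`. -/
lemma lower_one {ℓ q : ℕ} (hℓ : ℓ ≠ 0) (hq : 2 ≤ q) {p : ℂ × ℂ} (hp : p ∈ ZZ ℓ q) :
    ∃ δ > 0, ∀ᶠ i in atTop, δ ≤ ‖p.2 + aeval p.1 (a i)‖ := by
  obtain ⟨c, y⟩ := p
  obtain ⟨h1, h2⟩ := hp
  simp only at h1 h2 ⊢
  have hq0 : q ≠ 0 := by lia
  have hne : NeZero ((q : ℕ) : ℂ) := ⟨by exact_mod_cast hq0⟩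
  have hprim : IsPrimitiveRoot (evS c y (lam ℓ)) q := isRoot_cyclotomic_iff.1 h2
  have hPd := evS_Pd_of_Phi hℓ h1
  have hN : ℓ * q ≠ 0 := mul_ne_zero hℓ hq0
  set N := ℓ * q with hNdef
  set f : ℂ → ℂ := fun z => z ^ 2 + c with hf
  have hfix : f^[N] y = y := by
    apply periodic_of_Pd
    have h3 := map_dvd (evS c y) (Pd_dvd_of_dvd (dvd_mul_right ℓ q))
    rw [hPd, zero_dvd_iff] at h3
    exact h3
  have hder : deriv (f^[N]) y = 1 := by
    rw [deriv_iterate, hNdef, lam_mul (evS c y) hPd, hprim.pow_eq_one]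
  have hy0 : y ≠ 0 := by
    rintro rfl
    have h3 := map_dvd (evS c 0) (X_dvd_lam hℓ)
    rw [evS_X, zero_dvd_iff] at h3
    exact hprim.ne_zero hq0 h3
  obtain ⟨j, hj⟩ := fatou_parabolic c y N (Nat.pos_of_ne_zero hN) hfix hder
  have hcont : ∀ t, Continuous (f^[t]) := by
    intro t
    apply Continuous.iterate
    rw [hf]; fun_prop
  have hlim : ∀ t, Tendsto (fun k : ℕ => ‖y + f^[t + (j + N * k)] 0‖) atTop
      (𝓝 ‖y + f^[t] y‖) := by
    intro t
    have h3 := ((hcont t).tendsto y).comp hj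
    have h4 : Tendsto (fun k : ℕ => y + f^[t + (j + N * k)] 0) atTop (𝓝 (y + f^[t] y)) := by
      apply Tendsto.add tendsto_const_nhds
      refine h3.congr fun k => ?_
      rw [Function.comp_apply, ← Function.iterate_add_apply]
    exact h4.norm
  have hpos : ∀ t, 0 < ‖y + f^[t] y‖ := by
    intro t
    rw [norm_pos_iff]
    intro h0
    have h3 : f^[t] y = -y := by linear_combination h0
    have h4 : f^[t + 1] y = f y := by
      rw [Function.iterate_succ_apply', h3]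
      simp [hf]
    have h5 : f^[N - 1] (f^[t + 1] y) = f^[N - 1] (f y) := by rw [h4]
    rw [← Function.iterate_add_apply, ← Function.iterate_succ_apply,
      show N - 1 + (t + 1) = t + N by lia, show (N - 1).succ = N by lia,
      Function.iterate_add_apply, hfix, h3] at h5
    apply hy0
    have h6 : (2 : ℂ) * y = 0 := by linear_combination -h5
    exact (mul_eq_zero.1 h6).resolve_left two_ne_zero
  obtain ⟨δ, hδ, hev⟩ := finite_min (Finset.range N)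
    (fun t k => ‖y + f^[t + (j + N * k)] 0‖) (by
      intro t _
      refine ⟨‖y + f^[t] y‖ / 2, by have := hpos t; positivity, ?_⟩
      exact ((hlim t).eventually_const_lt (half_lt_self (hpos t))).mono fun _ h => h.le)
  refine ⟨δ, hδ, ?_⟩
  obtain ⟨k₀, hk₀⟩ := eventually_atTop.1 hev
  rw [eventually_atTop]
  refine ⟨j + N * k₀, fun i hi => ?_⟩
  have hNpos := Nat.pos_of_ne_zero hN
  have h3 : i = (i - j) % N + (j + N * ((i - j) / N)) := by
    have := Nat.mod_add_div (i - j) N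
    have h4 : j ≤ i := by lia
    lia
  have h4 : k₀ ≤ (i - j) / N := by
    rw [Nat.le_div_iff_mul_le hNpos]
    have : N * k₀ = k₀ * N := mul_comm _ _
    lia
  have h5 := hk₀ _ h4 ((i - j) % N) (Finset.mem_range.2 (Nat.mod_lt _ hNpos))
  rw [← h3] at h5
  rw [evS_a]
  exact h5

theorem lower_all {ℓ q : ℕ} (hℓ : ℓ ≠ 0) (hq : 2 ≤ q) :
    ∃ δ > 0, ∀ᶠ i in atTop, ∀ p ∈ ZZ ℓ q, δ ≤ ‖p.2 + aeval p.1 (a i)‖ := by
  obtain ⟨δ, h1, h2⟩ := finite_min (ZZ_finite hℓ (q := q) (by lia)).toFinset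
    (fun p i => ‖p.2 + aeval p.1 (a i)‖)
    (fun p hp => lower_one hℓ hq ((Set.Finite.mem_toFinset _).1 hp))
  refine ⟨δ, h1, ?_⟩
  filter_upwards [h2] with i hi p hp
  exact hi p ((Set.Finite.mem_toFinset _).2 hp)

end Pool.Agent.Lib.MP_416699_nt
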