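import Pool.Agent.Lib.MP_416699_nt.NuD
import Pool.Agent.Lib.MP_416699_nt.NuF
import Pool.Agent.Lib.MP_416699_nt.NuG

/-!
For large `m` the polynomials `G m (ℓ q)` and `G m ℓ` do not generate the unit ideal of `ℤ[c]`.
-/

open Polynomial Filter Topology

namespace Pool.Agent.Lib.MP_416699_nt

lemma norm_root_ge {m ℓ q : ℕ} (hm : 2 ≤ m) (hℓ : ℓ ≠ 0) {δ : ℝ}
    (hδ : ∀ p ∈ ZZ ℓ q, δ ≤ ‖p.2 + aeval p.1 (a (m - 1))‖) {s : ℂ}
    (hs : aeval s (LL m ℓ q) = 0) : δ ≤ ‖s‖ := by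
  rw [aeval_LL hm hℓ, Multiset.prod_eq_zero_iff] at hs
  obtain ⟨c, hc, hc0⟩ := Multiset.mem_map.1 hs
  have h2 := (mem_roots'.1 hc).2
  rw [IsRoot.def, eval_map_evS, evS_shf] at h2
  have h3 := hδ (c, -(aeval c (a (m - 1)) + s)) ⟨h2, hc0⟩
  simp only at h3
  rw [show -(aeval c (a (m - 1)) + s) + aeval c (a (m - 1)) = -s by ring, norm_neg] at h3
  exact h3

/-- Lower bound for the value at `0`. -/
lemma LL_zero_lower {m ℓ q : ℕ} (hm : 2 ≤ m) (hℓ : ℓ ≠ 0) (hq : q ≠ 0) {δ : ℝ} (hδ0 : 0 < δ)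
    (hδ : ∀ p ∈ ZZ ℓ q, δ ≤ ‖p.2 + aeval p.1 (a (m - 1))‖) :
    2 ^ (2 ^ (m - 2)) * δ ^ (ℓ * q.totient * (Phi ℓ).natDegree) ≤
      ‖aeval (0 : ℂ) (LL m ℓ q)‖ ^ 2 := by
  obtain ⟨h1, h2⟩ := LL_facts hm hℓ hq
  set P := (LL m ℓ q).map (Int.castRingHom ℂ) with hP
  have hinj : Function.Injective (Int.castRingHom ℂ) := Int.cast_injective
  have hev : ∀ s : ℂ, eval s P = aeval s (LL m ℓ q) := by
    intro s; rw [hP, eval_map]; rfl
  have hsp : P.Splits := IsAlgClosed.splits _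
  have hcard : P.roots.card = (LL m ℓ q).natDegree := by
    rw [← hsp.natDegree_eq_card_roots, hP, natDegree_map_eq_of_injective hinj]
  have hlead : ‖P.leadingCoeff‖ = |((LL m ℓ q).leadingCoeff : ℝ)| := by
    rw [hP, leadingCoeff_map_of_injective hinj]
    simp
  have h3 : ‖aeval (0 : ℂ) (LL m ℓ q)‖ =
      |((LL m ℓ q).leadingCoeff : ℝ)| * (P.roots.map fun s => ‖s‖).prod := by
    rw [← hev, hsp.eval_eq_prod_roots, norm_mul, hlead, norm_prod_map']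
    congr 2
    refine Multiset.map_congr rfl fun s _ => ?_
    rw [zero_sub, norm_neg]
  have h4 : δ ^ (LL m ℓ q).natDegree ≤ (P.roots.map fun s => ‖s‖).prod := by
    have h5 : (P.roots.map fun _ => δ).prod = δ ^ (LL m ℓ q).natDegree := by
      rw [Multiset.map_const', Multiset.prod_replicate, hcard]
    rw [← h5]
    refine Multiset.prod_map_le_prod_map₀ _ _ (fun _ _ => hδ0.le) fun s hs => ?_
    apply norm_root_ge hm hℓ hδ
    rw [← hev]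
    exact (mem_roots'.1 hs).2
  rw [h3, mul_pow, sq_abs]
  have h6 : (2 : ℝ) ^ (2 ^ (m - 2)) ≤ ((LL m ℓ q).leadingCoeff : ℝ) ^ 2 := by
    refine le_trans ?_ h2
    apply pow_le_pow_right₀ (by norm_num)
    exact Nat.le_mul_of_pos_left _ (Phi_natDegree_pos hℓ)
  have h7 : δ ^ (ℓ * q.totient * (Phi ℓ).natDegree) ≤ ((P.roots.map fun s => ‖s‖).prod) ^ 2 := by
    rw [← h1, mul_comm 2, pow_mul]
    exact pow_le_pow_left₀ (by positivity) h4 2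
  exact mul_le_mul h6 h7 (by positivity) (by positivity)

theorem no_bezout {ℓ q : ℕ} (hℓ : ℓ ≠ 0) (hq : 2 ≤ q) :
    ∃ M, ∀ m, M ≤ m → ∀ u v : ℤ[X], u * G m (ℓ * q) + v * G m ℓ ≠ 1 := by
  obtain ⟨δ, hδ0, hev⟩ := lower_all hℓ hq
  obtain ⟨M₀, hM₀⟩ := eventually_atTop.1 hev
  set E := ℓ * q.totient * (Phi ℓ).natDegree with hE
  obtain ⟨M₁, hM₁⟩ : ∃ M₁ : ℕ, ∀ m, M₁ ≤ m → 1 < (2 : ℝ) ^ (2 ^ (m - 2)) * δ ^ E := by
    have hpos : 0 < δ ^ E := by positivity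
    obtain ⟨k, hk⟩ := pow_unbounded_of_one_lt (δ ^ E)⁻¹ (one_lt_two (α := ℝ))
    refine ⟨k + 2, fun m hm => ?_⟩
    have h1 : k ≤ 2 ^ (m - 2) := by
      have : k ≤ m - 2 := by lia
      exact this.trans (Nat.lt_two_pow_self).le
    have h2 : (2 : ℝ) ^ k ≤ 2 ^ (2 ^ (m - 2)) := pow_le_pow_right₀ (by norm_num) h1
    have h3 : (δ ^ E)⁻¹ * δ ^ E = 1 := inv_mul_cancel₀ hpos.ne'
    calc (1 : ℝ) = (δ ^ E)⁻¹ * δ ^ E := h3.symm
      _ < 2 ^ (2 ^ (m - 2)) * δ ^ E := mul_lt_mul_of_pos_right (hk.trans_le h2) hpos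
  refine ⟨max 2 (max (M₀ + 1) M₁), fun m hm u v huv => ?_⟩
  have hm2 : 2 ≤ m := le_trans (le_max_left _ _) hm
  have hm0 : M₀ ≤ m - 1 := by
    have := le_trans (le_trans (le_max_left _ _) (le_max_right _ _)) hm
    lia
  have hm1 : M₁ ≤ m := le_trans (le_trans (le_max_right _ _) (le_max_right _ _)) hm
  have h1 := LL_zero hm2 hℓ hq huv
  have h2 := LL_zero_lower hm2 hℓ (q := q) (by lia) hδ0 (hM₀ _ hm0)
  rw [h1, one_pow] at h2
  exact absurd (hM₁ m hm1) (not_lt.2 h2)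

end Pool.Agent.Lib.MP_416699_nt
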