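import Pool.Agent.Lib.MP_416699_nt.Dyn

/-!
The dynatomic polynomials `Phi n`.
-/

open Polynomial

namespace Pool.Agent.Lib.MP_416699_nt

/-- The dynatomic polynomial `Φ*_n(c, z)`. -/
noncomputable def Phi (n : ℕ) : ℤ[X][X] :=
  Pd n /ₘ ∏ k ∈ n.properDivisors.attach, Phi k.1
termination_by n
decreasing_by exact (Nat.mem_properDivisors.1 k.2).2

lemma Phi_eq (n : ℕ) : Phi n = Pd n /ₘ ∏ k ∈ n.properDivisors, Phi k := by
  rw [Phi, Finset.prod_attach (f := fun k => Phi k)]

lemma prod_divisors_eq {M : Type*} [CommMonoid M] {n : ℕ} (hn : n ≠ 0) (f : ℕ → M) :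
    ∏ k ∈ n.divisors, f k = (∏ k ∈ n.properDivisors, f k) * f n := by
  rw [← Nat.insert_self_properDivisors hn, Finset.prod_insert Nat.self_notMem_properDivisors,
    mul_comm]

/-- Mapping to the fraction field. -/
noncomputable abbrev toK : ℤ[X][X] →+* K[X] := mapRingHom (algebraMap ℤ[X] K)

lemma toK_injective : Function.Injective toK := by
  have : Function.Injective (algebraMap ℤ[X] K) := FaithfulSMul.algebraMap_injective ℤ[X] K
  exact Polynomial.map_injective _ this

/-- Divisibility by a monic polynomial can be tested over the fraction field. -/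
lemma dvd_of_toK_dvd {p q : ℤ[X][X]} (hp : p.Monic) (h : toK p ∣ toK q) : p ∣ q := by
  rw [← modByMonic_eq_zero_iff_dvd hp]
  apply toK_injective
  change Polynomial.map _ _ = _
  rw [map_modByMonic _ hp, map_zero, modByMonic_eq_zero_iff_dvd (hp.map _)]
  exact h

lemma squarefree_Pd (n : ℕ) (hn : n ≠ 0) : Squarefree (toK (Pd n)) :=
  (separable_Pd n hn).squarefree

lemma Phi_main (n : ℕ) (hn : n ≠ 0) :
    (Phi n).Monic ∧ ∏ k ∈ n.divisors, Phi k = Pd n := by
  induction n using Nat.strong_induction_on with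
  | _ n ih =>
  have hpd : ∀ k ∈ n.properDivisors, k ≠ 0 ∧ k < n ∧ k ∣ n := by
    intro k hk
    have h1 := Nat.mem_properDivisors.1 hk
    refine ⟨?_, h1.2, h1.1⟩
    rintro rfl
    exact hn (zero_dvd_iff.1 h1.1)
  have key : ∀ i ∈ n.properDivisors, ∀ g, g ∣ i → g ≠ i → ∀ π : K[X], Irreducible π →
      π ∣ toK (Phi i) → π ∣ toK (Pd g) → False := by
    intro i hi g hgi hgne π hπ h1 h2
    obtain ⟨hi0, hin, -⟩ := hpd i hi
    have hg0 : g ≠ 0 := by rintro rfl; exact hi0 (zero_dvd_iff.1 hgi)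
    have hglt : g < i := lt_of_le_of_ne (Nat.le_of_dvd (Nat.pos_of_ne_zero hi0) hgi) hgne
    have e1 := (ih i hin hi0).2
    have e2 := (ih g (hglt.trans hin) hg0).2
    have e3 : Pd g ∣ ∏ k ∈ i.properDivisors, Phi k := by
      rw [← e2]
      apply Finset.prod_dvd_prod_of_subset
      intro d hd
      rw [Nat.mem_properDivisors]
      have hd' := Nat.dvd_of_mem_divisors hd
      exact ⟨hd'.trans hgi, lt_of_le_of_lt (Nat.le_of_dvd (Nat.pos_of_ne_zero hg0) hd') hglt⟩
    have e4 : π * π ∣ toK (Pd i) := by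
      rw [← e1, prod_divisors_eq hi0, map_mul]
      exact mul_dvd_mul (h2.trans (map_dvd toK e3)) h1
    exact hπ.not_isUnit (squarefree_Pd i hi0 π e4)
  have hcop : ∀ i ∈ n.properDivisors, ∀ j ∈ n.properDivisors, i ≠ j →
      IsCoprime (toK (Phi i)) (toK (Phi j)) := by
    intro i hi j hj hij
    obtain ⟨hi0, hin, -⟩ := hpd i hi
    obtain ⟨hj0, hjn, -⟩ := hpd j hj
    apply isCoprime_of_irreducible_dvd
    · rintro ⟨h, -⟩
      have := (ih i hin hi0).1.map (algebraMap ℤ[X] K)
      exact this.ne_zero h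
    · intro π hπ h1 h2
      have d1 : π ∣ toK (Pd i) := by
        refine h1.trans (map_dvd toK ?_)
        rw [← (ih i hin hi0).2]
        exact Finset.dvd_prod_of_mem _ (Nat.mem_divisors_self i hi0)
      have d2 : π ∣ toK (Pd j) := by
        refine h2.trans (map_dvd toK ?_)
        rw [← (ih j hjn hj0).2]
        exact Finset.dvd_prod_of_mem _ (Nat.mem_divisors_self j hj0)
      have d3 := dvd_map_Pd_gcd toK π i j d1 d2
      by_cases hg : Nat.gcd i j = i
      · have hg' : Nat.gcd i j ≠ j := by rw [hg]; exact hij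
        exact key j hj _ (Nat.gcd_dvd_right i j) hg' π hπ h2 d3
      · exact key i hi _ (Nat.gcd_dvd_left i j) hg π hπ h1 d3
  have hmon : (∏ k ∈ n.properDivisors, Phi k).Monic := by
    apply monic_prod_of_monic
    intro k hk
    obtain ⟨hk0, hkn, -⟩ := hpd k hk
    exact (ih k hkn hk0).1
  have hdvd : (∏ k ∈ n.properDivisors, Phi k) ∣ Pd n := by
    apply dvd_of_toK_dvd hmon
    rw [map_prod]
    apply Finset.prod_dvd_of_coprime
    · intro i hi j hj hij
      exact hcop i hi j hj hij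
    · intro k hk
      obtain ⟨hk0, hkn, hk1⟩ := hpd k hk
      refine map_dvd toK (Dvd.dvd.trans ?_ (Pd_dvd_of_dvd hk1))
      rw [← (ih k hkn hk0).2]
      exact Finset.dvd_prod_of_mem _ (Nat.mem_divisors_self k hk0)
  have hprod : (∏ k ∈ n.properDivisors, Phi k) * Phi n = Pd n := by
    obtain ⟨q, hq⟩ := hdvd
    rw [Phi_eq n, hq, mul_divByMonic_cancel_left _ hmon]
  constructor
  · have h1 := Pd_monic hn
    rw [← hprod] at h1
    exact hmon.of_mul_monic_left h1
  · rw [prod_divisors_eq hn, hprod]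

end Pool.Agent.Lib.MP_416699_nt
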