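import Pool.Agent.Lib.MP_416699_nt.GPoly

/-!
A Schönemann type argument: in a factorisation of `G m n` the two factors are coprime modulo 2.
-/

open Polynomial

namespace Pool.Agent.Lib.MP_416699_nt

lemma red_surj (p : (ZMod 2)[X]) : ∃ P : ℤ[X], red P = p := by
  obtain ⟨P, hP⟩ := Polynomial.map_surjective (Int.castRingHom (ZMod 2))
    (ZMod.ringHom_surjective (Int.castRingHom (ZMod 2))) p
  exact ⟨P, hP⟩

lemma red_eq_zero {x : ℤ[X]} (h : red x = 0) : ∃ y, x = 2 * y := by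
  have h1 : (C (2 : ℤ)) ∣ x := by
    rw [C_dvd_iff_dvd_coeff]
    intro i
    have h2 := congrArg (fun q => coeff q i) h
    simp only [coe_mapRingHom, coeff_map, coeff_zero] at h2
    exact (ZMod.intCast_zmod_eq_zero_iff_dvd _ 2).1 h2
  obtain ⟨y, hy⟩ := h1
  exact ⟨y, by simpa using hy⟩

lemma of_dvd_red {P x : ℤ[X]} (h : red P ∣ red x) : ∃ y z, x = P * y + 2 * z := by
  obtain ⟨q, hq⟩ := h
  obtain ⟨y, hy⟩ := red_surj q
  have h1 : red (x - P * y) = 0 := by rw [map_sub, map_mul, hy, hq, sub_self]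
  obtain ⟨z, hz⟩ := red_eq_zero h1
  exact ⟨y, z, by linear_combination hz⟩

/-- Membership in the square of the ideal `(2, P)`. -/
def M2 (P x : ℤ[X]) : Prop := ∃ A B C : ℤ[X], x = P ^ 2 * A + 2 * P * B + 4 * C

lemma M2.add {P x y : ℤ[X]} (hx : M2 P x) (hy : M2 P y) : M2 P (x + y) := by
  obtain ⟨A, B, C, rfl⟩ := hx
  obtain ⟨A', B', C', rfl⟩ := hy
  exact ⟨A + A', B + B', C + C', by ring⟩

lemma M2.mul_left {P x : ℤ[X]} (y : ℤ[X]) (hx : M2 P x) : M2 P (y * x) := by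
  obtain ⟨A, B, C, rfl⟩ := hx
  exact ⟨y * A, y * B, y * C, by ring⟩

lemma M2.mul {P x y : ℤ[X]} (hx : red P ∣ red x) (hy : red P ∣ red y) : M2 P (x * y) := by
  obtain ⟨x1, x2, rfl⟩ := of_dvd_red hx
  obtain ⟨y1, y2, rfl⟩ := of_dvd_red hy
  exact ⟨x1 * y1, x1 * y2 + x2 * y1, x2 * y2, by ring⟩

lemma M2.dvd {P u : ℤ[X]} (hP : red P ≠ 0) (h : M2 P (2 * u)) : red P ∣ red u := by
  obtain ⟨A, B, C, h⟩ := h
  have h2 : red (2 : ℤ[X]) = 0 := by
    rw [map_ofNat]; exact CharTwo.two_eq_zero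
  have h4 : red (4 : ℤ[X]) = 0 := by
    rw [show (4 : ℤ[X]) = 2 * 2 by norm_num, map_mul, h2, zero_mul]
  have h1 := congrArg red h
  simp only [map_mul, map_add, map_pow, h2, h4, zero_mul, add_zero] at h1
  have h3 : red A = 0 := by
    rcases mul_eq_zero.1 h1.symm with h5 | h5
    · exact absurd (pow_eq_zero_iff two_ne_zero |>.1 h5) hP
    · exact h5
  obtain ⟨A', rfl⟩ := red_eq_zero h3
  have h5 : u = P * (P * A' + B) + 2 * C := by
    have : (2 : ℤ[X]) ≠ 0 := two_ne_zero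
    apply mul_left_cancel₀ this
    rw [h]; ring
  rw [h5, map_add, map_mul, map_mul, h2, zero_mul, add_zero]
  exact dvd_mul_right _ _

/-- `f^j(u) - f^j(0)` is divisible by `u^2` for `j ≥ 1`. -/
lemma sq_dvd_sub {j : ℕ} (hj : j ≠ 0) (u : ℤ[X]) :
    u ^ 2 ∣ (itr j).eval u - (itr j).eval 0 := by
  obtain ⟨j, rfl⟩ := Nat.exists_eq_succ_of_ne_zero hj
  have h : itr (j + 1) = (itr j).comp (X ^ 2 + C X) := by
    rw [add_comm, itr_add]; simp [itr_succ]
  rw [Nat.succ_eq_add_one, h, eval_comp, eval_comp]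
  have := sub_dvd_eval_sub (eval u (X ^ 2 + C X)) (eval 0 (X ^ 2 + C X : ℤ[X][X])) (itr j)
  refine Dvd.dvd.trans ?_ this
  simp

lemma sq_dvd_a_sub {j : ℕ} (hj : j ≠ 0) (n : ℕ) : a n ^ 2 ∣ a (n + j) - a j := by
  have h := sq_dvd_sub hj (a n)
  rw [itr_eval_a] at h
  have h0 := itr_eval_a j 0
  rw [a_zero, zero_add] at h0
  rwa [h0] at h

lemma sq_dvd_a_mul_sub {n t : ℕ} (hn : n ≠ 0) (ht : t ≠ 0) : a n ^ 2 ∣ a (n * t) - a n := by
  obtain ⟨t, rfl⟩ := Nat.exists_eq_succ_of_ne_zero ht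
  have h1 := sq_dvd_a_sub hn (n * t)
  have h2 : a n ^ 2 ∣ a (n * t) ^ 2 := pow_dvd_pow_of_dvd (a_dvd_a (dvd_mul_right n t)) 2
  exact h2.trans h1

lemma dvd_T_gcd {p : (ZMod 2)[X]} {i j : ℕ} (hi : p ∣ T i) (hj : p ∣ T j) :
    p ∣ T (Nat.gcd i j) := by
  have h := dvd_map_Pd_gcd (red.comp (evalRingHom (0 : ℤ[X]))) p i j
  simp only [RingHom.comp_apply, coe_evalRingHom, Pd_eval_zero, red_a] at h
  exact h hi hj

lemma red_Gl_dvd_T {n : ℕ} (hn : n ≠ 0) : red (Gl n) ∣ T n := by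
  rw [← red_a]
  exact map_dvd red (Gl_dvd_a hn)

/-- The exact period property of the roots of the Gleason polynomial modulo 2. -/
lemma dvd_of_dvd_T {p : (ZMod 2)[X]} (hp : Irreducible p) {n j : ℕ} (hn : n ≠ 0)
    (h1 : p ∣ red (Gl n)) (h2 : p ∣ T j) : n ∣ j := by
  have h3 := dvd_T_gcd (h1.trans (red_Gl_dvd_T hn)) h2
  by_contra hcon
  have hg : Nat.gcd n j ≠ n := fun h => hcon (h ▸ Nat.gcd_dvd_right n j)
  have hgn : Nat.gcd n j ∣ n := Nat.gcd_dvd_left n j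
  have hg0 : Nat.gcd n j ≠ 0 := by
    intro h
    rw [Nat.gcd_eq_zero_iff] at h
    exact hn h.1
  have hlt : Nat.gcd n j < n := lt_of_le_of_ne (Nat.le_of_dvd (Nat.pos_of_ne_zero hn) hgn) hg
  have h4 : T (Nat.gcd n j) ∣ ∏ k ∈ n.properDivisors, red (Gl k) := by
    rw [← prod_red_Gl hg0]
    apply Finset.prod_dvd_prod_of_subset
    intro d hd
    have hd' := Nat.dvd_of_mem_divisors hd
    rw [Nat.mem_properDivisors]
    exact ⟨hd'.trans hgn, lt_of_le_of_lt (Nat.le_of_dvd (Nat.pos_of_ne_zero hg0) hd') hlt⟩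
  have h5 : p * p ∣ T n := by
    rw [← prod_red_Gl hn, prod_divisors_eq hn]
    exact mul_dvd_mul (h3.trans h4) h1
  exact hp.not_isUnit (squarefree_T hn p h5)

/-- In a factorisation of `G m n` the two factors are coprime modulo 2. -/
theorem coprime_of_mul_eq_G {m n : ℕ} (hm : 2 ≤ m) (hn : 2 ≤ n) {g h : ℤ[X]}
    (hgh : g * h = G m n) : IsCoprime (red g) (red h) := by
  have hm0 : m ≠ 0 := by lia
  have hn0 : n ≠ 0 := by lia
  have hG := G_mul hm0 hn0
  have hGne : red (G m n) ≠ 0 := ((G_monic hm0 hn0).map _).ne_zero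
  apply isCoprime_of_irreducible_dvd
  · rintro ⟨h1, -⟩
    apply hGne
    rw [← hgh, map_mul, h1, zero_mul]
  intro p hp hpg hph
  obtain ⟨P, rfl⟩ := red_surj p
  have hpGl : red P ∣ red (Gl n) := by
    have h1 : red P ∣ red (G m n) := by
      rw [← hgh, map_mul]; exact hpg.mul_right _
    have h2 : red P ∣ red (Q m n) := by
      rw [← hG, map_mul]; exact h1.mul_right _
    rw [red_Q hn0] at h2
    exact hp.prime.dvd_of_dvd_pow h2
  have hpa : red P ∣ red (a n) := hpGl.trans (map_dvd red (Gl_dvd_a hn0))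
  have hD := prod_Q hm0 hn0
  rw [prod_divisors_eq hn0, ← hG, ← hgh] at hD
  set R := ∏ k ∈ n.properDivisors, Q m k with hR
  have hm1 : m - 1 ≠ 0 := by lia
  have hDm : D m n = a (n + (m - 1)) + a (m - 1) := by
    rw [D, show m + n - 1 = n + (m - 1) by lia]
  obtain ⟨t, ht⟩ := sq_dvd_a_sub hm1 n
  have h2dvd : red P ∣ red (2 : ℤ[X]) := by
    rw [map_ofNat, show (2 : (ZMod 2)[X]) = 0 from CharTwo.two_eq_zero]
    exact dvd_zero _
  by_cases hd : n ∣ m - 1
  · rw [if_pos hd] at hD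
    obtain ⟨s, hs⟩ := hd
    have hs0 : s ≠ 0 := by rintro rfl; simp at hs; lia
    obtain ⟨κ, hκ⟩ := sq_dvd_a_mul_sub hn0 hs0
    rw [← hs] at hκ
    have hm2 : m - 1 - 1 ≠ 0 := by
      have : n ≤ m - 1 := by rw [hs]; exact Nat.le_mul_of_pos_right n (Nat.pos_of_ne_zero hs0)
      lia
    obtain ⟨μ', hμ'⟩ := sq_dvd_a_sub hm2 n
    -- `a (n + (m-1)) - a (m-1) = (a n)^2 * μ' * (a (n+(m-2)) + a (m-2))`
    set μ := μ' * (a (n + (m - 1 - 1)) + a (m - 1 - 1)) with hμ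
    have e1 : a (n + (m - 1)) - a (m - 1) = a n ^ 2 * μ := by
      have s1 : a (n + (m - 1)) = a (n + (m - 1 - 1)) ^ 2 + X := by
        rw [← a_succ, show n + (m - 1 - 1) + 1 = n + (m - 1) by lia]
      have s2 : a (m - 1) = a (m - 1 - 1) ^ 2 + X := by
        rw [← a_succ, show m - 1 - 1 + 1 = m - 1 by lia]
      rw [s1, s2, hμ]
      linear_combination (a (n + (m - 1 - 1)) + a (m - 1 - 1)) * hμ'
    have hμI : red P ∣ red μ := by
      rw [hμ, map_mul]
      apply Dvd.dvd.mul_left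
      have : a (n + (m - 1 - 1)) + a (m - 1 - 1) = a n * (a n * μ') + 2 * a (m - 1 - 1) := by
        linear_combination hμ'
      rw [this, map_add, map_mul, map_mul (f := red) 2]
      exact dvd_add (hpa.mul_right _) (h2dvd.mul_right _)
    set H := ∏ k ∈ n.properDivisors, Gl k with hH
    have hGlH : H * Gl n = a n := by rw [← prod_Gl hn0, prod_divisors_eq hn0]
    have hGl0 : Gl n ≠ 0 := (Gl_monic hn0).ne_zero
    have e2 : 2 * H = R * (g * h) + (-(2 * H * κ)) * a n * 1 + (-H) * (a n * μ) := by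
      apply mul_right_cancel₀ hGl0
      have e3 : R * (g * h * Gl n) = 2 * a n + 2 * a n ^ 2 * κ + a n ^ 2 * μ := by
        rw [hD, hDm]
        linear_combination e1 + 2 * hκ
      have e4 : R * (g * h) * Gl n = 2 * a n + 2 * a n ^ 2 * κ + a n ^ 2 * μ := by
        rw [← e3]; ring
      rw [add_mul, add_mul, e4, ← hGlH]
      ring
    have hM : M2 P (2 * H) := by
      rw [e2]
      have m1 : M2 P (R * (g * h)) := (M2.mul hpg hph).mul_left _
      have m2 : M2 P (-(2 * H * κ) * a n * 1) := by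
        have : -(2 * H * κ) * a n * 1 = (-(H * κ)) * (2 * a n) := by ring
        rw [this]
        exact (M2.mul h2dvd hpa).mul_left _
      have m3 : M2 P (-H * (a n * μ)) := (M2.mul hpa hμI).mul_left _
      exact (m1.add m2).add m3
    have hdvd := hM.dvd hp.ne_zero
    rw [hH, map_prod, hp.prime.dvd_finsetProd_iff] at hdvd
    obtain ⟨k, hk, hpk⟩ := hdvd
    obtain ⟨hk0, hkn, -⟩ := properDivisors_facts hn0 hk
    have := dvd_of_dvd_T hp hn0 hpGl (hpk.trans (red_Gl_dvd_T hk0))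
    exact absurd (Nat.le_of_dvd (Nat.pos_of_ne_zero hk0) this) (by lia)
  · rw [if_neg hd, mul_one] at hD
    have e2 : 2 * a (m - 1) = R * (g * h) + (-t) * (a n * a n) := by
      rw [hD, hDm]
      linear_combination -ht
    have hM : M2 P (2 * a (m - 1)) := by
      rw [e2]
      exact ((M2.mul hpg hph).mul_left _).add ((M2.mul hpa hpa).mul_left _)
    have hdvd := hM.dvd hp.ne_zero
    rw [red_a] at hdvd
    exact hd (dvd_of_dvd_T hp hn0 hpGl hdvd)

end Pool.Agent.Lib.MP_416699_nt
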