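import Pool.Agent.Lib.MP_416699_nt.Final

/-!
Sums of values of an integer polynomial over the roots of a monic integer polynomial, and their
parity.
-/

open Polynomial

namespace Pool.Agent.Lib.MP_416699_nt

/-- The complex roots with multiplicity. -/
noncomputable def rt (Q : ℤ[X]) : Multiset ℂ := (Q.map (Int.castRingHom ℂ)).roots

/-- The polynomial `∏ (1 + g(c) x)` over the roots `c` of `Q`. -/
noncomputable def LR (Q g : ℤ[X]) : ℤ[X] := resultant (Q.map C) (1 + C X * g.map C)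

lemma evS_map_C (s c : ℂ) (g : ℤ[X]) : evS s c (g.map C) = aeval c g := by
  have key : (evS s c).comp (mapRingHom C) = (aeval c : ℤ[X] →ₐ[ℤ] ℂ).toRingHom := by
    apply Polynomial.ringHom_ext'
    · exact RingHom.ext_int _ _
    · simp [evS]
  exact congrArg (fun f => f g) key

lemma aeval_LR {Q : ℤ[X]} (hQ : Q.Monic) (g : ℤ[X]) (s : ℂ) :
    aeval s (LR Q g) = ((rt Q).map (fun c => 1 + aeval c g * s)).prod := by
  rw [LR, aeval_resultant (hQ.map C)]
  have h1 : (Q.map (C : ℤ →+* ℤ[X])).map (aeval s : ℤ[X] →ₐ[ℤ] ℂ).toRingHom =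
      Q.map (Int.castRingHom ℂ) := by
    rw [Polynomial.map_map]
    congr 1
    exact RingHom.ext_int _ _
  rw [h1, rt]
  congr 1
  refine Multiset.map_congr rfl fun c _ => ?_
  rw [map_add, map_one, map_mul, evS_C, aeval_X, evS_map_C, mul_comm]

/-- The product of the `1 + α x`. -/
noncomputable def PP (R : Multiset ℂ) : ℂ[X] := (R.map (fun α => 1 + C α * X)).prod

lemma PP_zero : PP 0 = 1 := by simp [PP]

lemma PP_cons (α : ℂ) (R : Multiset ℂ) : PP (α ::ₘ R) = (1 + C α * X) * PP R := by simp [PP]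

lemma PP_coeff_cons (α : ℂ) (R : Multiset ℂ) (n : ℕ) :
    (PP (α ::ₘ R)).coeff (n + 1) = (PP R).coeff (n + 1) + α * (PP R).coeff n := by
  rw [PP_cons, add_mul, one_mul, coeff_add, mul_assoc, coeff_C_mul, coeff_X_mul]

lemma PP_coeff_zero (R : Multiset ℂ) : (PP R).coeff 0 = 1 := by
  induction R using Multiset.induction_on with
  | empty => simp [PP_zero]
  | cons α R ih => rw [PP_cons, mul_coeff_zero, ih]; simp

lemma PP_coeff_one (R : Multiset ℂ) : (PP R).coeff 1 = R.sum := by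
  induction R using Multiset.induction_on with
  | empty => simp [PP_zero, coeff_one]
  | cons α R ih => rw [PP_coeff_cons, PP_coeff_zero, Multiset.sum_cons]; rw [zero_add, ih]; ring

lemma PP_coeff_two (R : Multiset ℂ) :
    2 * (PP R).coeff 2 = R.sum ^ 2 - (R.map (fun α => α ^ 2)).sum := by
  induction R using Multiset.induction_on with
  | empty => simp [PP_zero, coeff_one]
  | cons α R ih =>
    rw [PP_coeff_cons, Multiset.sum_cons, Multiset.map_cons, Multiset.sum_cons, mul_add, ih,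
      PP_coeff_one]
    ring

lemma LR_map {Q : ℤ[X]} (hQ : Q.Monic) (g : ℤ[X]) :
    (LR Q g).map (Int.castRingHom ℂ) = PP ((rt Q).map (fun c => aeval c g)) := by
  apply Polynomial.funext
  intro s
  have h1 : eval s ((LR Q g).map (Int.castRingHom ℂ)) = aeval s (LR Q g) := by
    rw [eval_map]; rfl
  rw [h1, aeval_LR hQ, PP, eval_multiset_prod, Multiset.map_map, Multiset.map_map]
  congr 1
  refine Multiset.map_congr rfl fun c _ => ?_
  simp

/-- The sum of the values of `g` at the roots of `Q`, an integer. -/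
noncomputable def trc (Q g : ℤ[X]) : ℤ := (LR Q g).coeff 1

lemma LR_coeff {Q : ℤ[X]} (hQ : Q.Monic) (g : ℤ[X]) (n : ℕ) :
    (((LR Q g).coeff n : ℤ) : ℂ) = (PP ((rt Q).map (fun c => aeval c g))).coeff n := by
  rw [← LR_map hQ, coeff_map]; rfl

lemma LR_coeff_zero {Q : ℤ[X]} (hQ : Q.Monic) (g : ℤ[X]) : (LR Q g).coeff 0 = 1 := by
  have h := LR_coeff hQ g 0
  rw [PP_coeff_zero] at h
  exact_mod_cast h

lemma trc_eq {Q : ℤ[X]} (hQ : Q.Monic) (g : ℤ[X]) :
    ((trc Q g : ℤ) : ℂ) = ((rt Q).map (fun c => aeval c g)).sum := by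
  rw [trc, LR_coeff hQ, PP_coeff_one]

lemma trc_sq {Q : ℤ[X]} (hQ : Q.Monic) (g : ℤ[X]) :
    trc Q (g ^ 2) = trc Q g ^ 2 - 2 * (LR Q g).coeff 2 := by
  have h : ((trc Q (g ^ 2) : ℤ) : ℂ) = ((trc Q g ^ 2 - 2 * (LR Q g).coeff 2 : ℤ) : ℂ) := by
    push_cast
    rw [trc_eq hQ, trc_eq hQ, LR_coeff hQ, PP_coeff_two, Multiset.map_map]
    simp only [map_pow, Function.comp_def]
    ring
  exact_mod_cast h

/-- A prime ideal of the algebraic integers above `2`. -/
lemma exists_PI : ∃ P : Ideal OO, P.IsMaximal ∧ (2 : OO) ∈ P :=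
  exists_max_ideal_of_mem_nonunits two_not_isUnit

lemma even_of_mem {P : Ideal OO} (hP : P.IsMaximal) (h2 : (2 : OO) ∈ P) {n : ℤ}
    (h : ((n : ℤ) : OO) ∈ P) : 2 ∣ n := by
  by_contra hn
  have h1 : n = 2 * (n / 2) + 1 := by lia
  apply hP.ne_top
  rw [Ideal.eq_top_iff_one]
  have h3 : ((n : ℤ) : OO) - 2 * ((n / 2 : ℤ) : OO) = 1 := by
    conv_lhs => rw [h1]
    push_cast
    rw [show (2 * (n / 2) + 1) / 2 = n / 2 by lia]
    ring
  rw [← h3]
  exact P.sub_mem h (P.mul_mem_right _ h2)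

lemma PP_coeff_mem {P : Ideal OO} (R : Multiset ℂ)
    (hR : ∀ α ∈ R, ∃ y ∈ P, ((y : OO) : ℂ) = α) :
    ∀ n, ∃ y : OO, (y : ℂ) = (PP R).coeff n ∧ (n ≠ 0 → y ∈ P) := by
  induction R using Multiset.induction_on with
  | empty =>
    intro n
    rw [PP_zero, coeff_one]
    split_ifs with h
    · exact ⟨1, by simp, fun h' => absurd h h'⟩
    · exact ⟨0, by simp, fun _ => P.zero_mem⟩
  | cons α R ih =>
    intro n
    have ih' := ih fun β hβ => hR β (Multiset.mem_cons_of_mem hβ)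
    cases n with
    | zero =>
      refine ⟨1, ?_, fun h => absurd rfl h⟩
      rw [PP_coeff_zero]; simp
    | succ n =>
      obtain ⟨y, hy, hyα⟩ := hR α (Multiset.mem_cons_self α R)
      obtain ⟨z, hz, hzP⟩ := ih' (n + 1)
      obtain ⟨w, hw, -⟩ := ih' n
      refine ⟨z + y * w, ?_, fun _ => P.add_mem (hzP (Nat.succ_ne_zero n)) (P.mul_mem_right _ hy)⟩
      rw [PP_coeff_cons, ← hz, ← hw, ← hyα]
      push_cast
      ring

lemma exists_OO {Q : ℤ[X]} (hQ : Q.Monic) {c : ℂ} (hc : c ∈ rt Q) :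
    ∃ c' : OO, algebraMap OO ℂ c' = c ∧ aeval c' Q = 0 := by
  have h2 : aeval c Q = 0 := by
    have h3 := (mem_roots'.1 hc).2
    rw [IsRoot.def, eval_map] at h3
    exact h3
  refine ⟨⟨c, ⟨Q, hQ, h2⟩⟩, rfl, ?_⟩
  apply (FaithfulSMul.algebraMap_injective OO ℂ)
  rw [← aeval_algebraMap_apply, map_zero]
  exact h2

lemma LR_coeff_even {P : Ideal OO} (hP : P.IsMaximal) (h2 : (2 : OO) ∈ P) {Q : ℤ[X]}
    (hQ : Q.Monic) {g : ℤ[X]} (hg : ∀ c : OO, aeval c Q = 0 → aeval c g ∈ P) {n : ℕ} (hn : n ≠ 0) :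
    2 ∣ (LR Q g).coeff n := by
  obtain ⟨y, hy, hyP⟩ := PP_coeff_mem (P := P) ((rt Q).map (fun c => aeval c g)) (by
    intro α hα
    obtain ⟨c, hc, rfl⟩ := Multiset.mem_map.1 hα
    obtain ⟨c', hc', h0⟩ := exists_OO hQ hc
    refine ⟨aeval c' g, hg c' h0, ?_⟩
    rw [← hc']
    exact (aeval_algebraMap_apply ℂ c' g).symm) n
  apply even_of_mem hP h2
  have h3 : ((((LR Q g).coeff n : ℤ) : OO)) = y := by
    apply (FaithfulSMul.algebraMap_injective OO ℂ)
    change _ = (y : ℂ)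
    rw [hy, ← LR_coeff hQ, map_intCast]
  rw [h3]
  exact hyP hn

lemma four_dvd_trc_sq {P : Ideal OO} (hP : P.IsMaximal) (h2 : (2 : OO) ∈ P) {Q : ℤ[X]}
    (hQ : Q.Monic) {g : ℤ[X]} (hg : ∀ c : OO, aeval c Q = 0 → aeval c g ∈ P) :
    4 ∣ trc Q (g ^ 2) := by
  rw [trc_sq hQ]
  obtain ⟨x, hx⟩ := LR_coeff_even hP h2 hQ hg one_ne_zero
  obtain ⟨y, hy⟩ := LR_coeff_even hP h2 hQ hg two_ne_zero
  rw [trc, hx, hy]
  exact ⟨x ^ 2 - y, by ring⟩

/-- Additivity over a product. -/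
lemma sum_rt_prod {ι : Type*} (s : Finset ι) (f : ι → ℤ[X]) (hf : ∀ i ∈ s, (f i).Monic)
    (g : ℂ → ℂ) : ((rt (∏ i ∈ s, f i)).map g).sum = ∑ i ∈ s, ((rt (f i)).map g).sum := by
  classical
  induction s using Finset.induction_on with
  | empty => simp [rt]
  | insert i s hi ih =>
    rw [Finset.prod_insert hi, Finset.sum_insert hi, ← ih fun j hj => hf j (Finset.mem_insert_of_mem hj)]
    have h1 : (f i).Monic := hf i (Finset.mem_insert_self i s)
    have h2 : (∏ i ∈ s, f i).Monic :=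
      monic_prod_of_monic _ _ fun j hj => hf j (Finset.mem_insert_of_mem hj)
    have h3 : rt (f i * ∏ i ∈ s, f i) = rt (f i) + rt (∏ i ∈ s, f i) := by
      rw [rt, Polynomial.map_mul, roots_mul (mul_ne_zero (h1.map _).ne_zero (h2.map _).ne_zero)]
      rfl
    rw [h3, Multiset.map_add, Multiset.sum_add]

end Pool.Agent.Lib.MP_416699_nt
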