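import Pool.Agent.Lib.MP_416699_nt.TrA

/-!
Euler's formula for the sum of the values of a polynomial at the roots of another, and the sum
over the roots of `D m n` of the product of the `a i` along the cycle.
-/

open Polynomial

namespace Pool.Agent.Lib.MP_416699_nt

/-- Euler's formula. -/
lemma euler {F g S ρ : ℂ[X]} (hF : F.Monic) (h : g * derivative F = F * S + ρ)
    (hρ : ρ.degree < F.degree) :
    (F.roots.map (fun c => eval c g)).sum = ρ.coeff (F.natDegree - 1) := by
  classical
  have hsp : F.Splits := IsAlgClosed.splits F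
  have hprod : (F.roots.map (fun c => X - C c)).prod = F := by
    have := hsp.eq_prod_roots
    rw [hF.leadingCoeff, C_1, one_mul] at this
    exact this.symm
  have hcard : F.roots.card = F.natDegree := hsp.natDegree_eq_card_roots.symm
  set E : ℂ → ℂ[X] := fun c => ((F.roots.erase c).map (fun c => X - C c)).prod with hE
  have hE1 : ∀ c ∈ F.roots, (X - C c) * E c = F := by
    intro c hc
    have h0 := Multiset.prod_map_erase (f := fun c : ℂ => X - C c) hc
    rw [hprod] at h0
    exact h0
  have hEm : ∀ c, (E c).Monic := fun c => monic_multiset_prod_of_monic _ _ fun d _ => monic_X_sub_C d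
  have hEd : ∀ c ∈ F.roots, (E c).natDegree = F.natDegree - 1 := by
    intro c hc
    have h1 := hE1 c hc
    have h2 := (monic_X_sub_C c).natDegree_mul (hEm c)
    rw [h1, natDegree_X_sub_C] at h2
    lia
  have hder : derivative F = (F.roots.map E).sum := by
    conv_lhs => rw [← hprod]
    rw [derivative_prod]
    congr 1
    refine Multiset.map_congr rfl fun c _ => ?_
    rw [derivative_X_sub_C, mul_one]
  set ρ0 : ℂ[X] := (F.roots.map (fun c => C (eval c g) * E c)).sum with hρ0
  have hdvd : F ∣ g * derivative F - ρ0 := by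
    have h1 : g * derivative F - ρ0 = (F.roots.map (fun c => (g - C (eval c g)) * E c)).sum := by
      rw [hder, hρ0, ← Multiset.sum_map_mul_left, ← Multiset.sum_map_sub]
      congr 1
      refine Multiset.map_congr rfl fun c _ => ?_
      ring
    rw [h1]
    apply Multiset.dvd_sum
    intro x hx
    obtain ⟨c, hc, rfl⟩ := Multiset.mem_map.1 hx
    obtain ⟨t, ht⟩ := X_sub_C_dvd_sub_C_eval (a := c) (p := g)
    refine ⟨t, ?_⟩
    rw [ht, ← hE1 c hc]
    ring
  by_cases hN : F.natDegree = 0
  · have h1 : F = 1 := hF.natDegree_eq_zero.1 hN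
    rw [h1, degree_one, Nat.WithBot.lt_zero_iff, degree_eq_bot] at hρ
    rw [h1, hρ]
    simp
  have hFd : F.degree = F.natDegree := degree_eq_natDegree hF.ne_zero
  have hρ0d : ρ0.degree < F.degree := by
    rw [hFd, ← mem_degreeLT, hρ0]
    apply multiset_sum_mem
    intro x hx
    obtain ⟨c, hc, rfl⟩ := Multiset.mem_map.1 hx
    rw [mem_degreeLT]
    refine lt_of_le_of_lt ((degree_mul_le _ _).trans (add_le_add degree_C_le le_rfl)) ?_
    rw [zero_add]
    rw [degree_eq_natDegree (hEm c).ne_zero, hEd c hc]
    exact_mod_cast Nat.sub_lt (Nat.pos_of_ne_zero hN) one_pos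
  have heq : ρ = ρ0 := by
    rw [← sub_eq_zero]
    apply eq_zero_of_dvd_of_degree_lt (p := F)
    · have h1 : ρ - ρ0 = (g * derivative F - ρ0) - F * S := by rw [h]; ring
      rw [h1]
      exact dvd_sub hdvd (dvd_mul_right _ _)
    · exact lt_of_le_of_lt (degree_sub_le _ _) (max_lt hρ hρ0d)
  rw [heq, hρ0]
  have h3 : ∀ R : Multiset ℂ, R ≤ F.roots →
      ((R.map (fun c => C (eval c g) * E c)).sum).coeff (F.natDegree - 1) =
        (R.map (fun c => eval c g)).sum := by
    intro R
    induction R using Multiset.induction_on with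
    | empty => simp
    | cons c R ih =>
      intro hR
      have hc : c ∈ F.roots := Multiset.mem_of_le hR (Multiset.mem_cons_self c R)
      rw [Multiset.map_cons, Multiset.sum_cons, coeff_add, ih ((Multiset.le_cons_self R c).trans hR),
        Multiset.map_cons, Multiset.sum_cons, coeff_C_mul]
      congr 1
      have h4 := (hEm c).coeff_natDegree
      rw [hEd c hc] at h4
      rw [h4, mul_one]
  exact (h3 F.roots le_rfl).symm

/-- The product `a_{m-1} ⋯ a_{m+n-2}`. -/
noncomputable def A (m n : ℕ) : ℤ[X] := ∏ i ∈ Finset.range n, a (m - 1 + i)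

lemma A_facts (p n : ℕ) : (A (p + 2) n).Monic ∧ (A (p + 2) n).natDegree + 2 ^ p = 2 ^ (p + n) := by
  induction n with
  | zero => simp [A, monic_one]
  | succ n ih =>
    have h1 : A (p + 2) (n + 1) = A (p + 2) n * a (p + 1 + n) := by
      rw [A, Finset.prod_range_succ]; rfl
    have h2 : (a (p + 1 + n)).Monic := a_monic (by lia)
    have h3 : (a (p + 1 + n)).natDegree = 2 ^ (p + n) := by
      rw [a_natDegree (by lia)]
      congr 1
      lia
    rw [h1]
    refine ⟨ih.1.mul h2, ?_⟩
    rw [ih.1.natDegree_mul h2, h3]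
    have : 2 ^ (p + (n + 1)) = 2 ^ (p + n) + 2 ^ (p + n) := by ring
    lia

/-- The remainder in Euler's formula. -/
noncomputable def rho (p n : ℕ) : ℤ[X] :=
  2 * (A (p + 2) (n + 1) * (1 + a p * derivative (a p))) -
    2 * ((a p ^ 2 + 2 * X) * (A (p + 2) n * derivative (a (p + 1 + n))))

lemma rho_eq (p n : ℕ) : A (p + 2) (n + 1) * derivative (D (p + 2) (n + 1)) =
    D (p + 2) (n + 1) * (2 * (A (p + 2) n * derivative (a (p + 1 + n)))) + rho p n := by
  have h1 : A (p + 2) (n + 1) = A (p + 2) n * a (p + 1 + n) := by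
    rw [A, Finset.prod_range_succ]; rfl
  have h2 : D (p + 2) (n + 1) = a (p + 1 + n) ^ 2 + a p ^ 2 + 2 * X := by
    rw [D, show p + 2 + (n + 1) - 1 = (p + 1 + n) + 1 by lia, show p + 2 - 1 = p + 1 by lia,
      a_succ, a_succ]
    ring
  have h3 : derivative (D (p + 2) (n + 1)) = 2 * (a (p + 1 + n) * derivative (a (p + 1 + n))) +
      2 * (a p * derivative (a p)) + 2 := by
    rw [h2]
    simp only [derivative_add, derivative_sq, derivative_mul, derivative_X, derivative_ofNat,
      map_ofNat]
    ring
  rw [h3, h2, rho, h1]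
  ring

end Pool.Agent.Lib.MP_416699_nt
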