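import Pool.Agent.Lib.MP_416699_nt.TrB

/-!
The sum of the values of `A m n` over the roots of `D m n`, modulo a power of two.
-/

open Polynomial

namespace Pool.Agent.Lib.MP_416699_nt

lemma da_facts (k : ℕ) : (derivative (a (k + 1))).natDegree ≤ 2 ^ k - 1 ∧
    (derivative (a (k + 1))).coeff (2 ^ k - 1) = 2 ^ k := by
  have h1 : (a (k + 1)).natDegree = 2 ^ k := a_natDegree (Nat.succ_ne_zero k)
  have h2 : 2 ^ k - 1 + 1 = 2 ^ k := Nat.sub_add_cancel Nat.one_le_two_pow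
  refine ⟨?_, ?_⟩
  · rw [← h1]; exact natDegree_derivative_le _
  · rw [coeff_derivative, h2]
    have h3 := (a_monic (Nat.succ_ne_zero k)).coeff_natDegree
    rw [Nat.succ_eq_add_one, h1] at h3
    rw [h3, one_mul]
    have : (((2 ^ k - 1 : ℕ) : ℤ)) + 1 = ((2 ^ k - 1 + 1 : ℕ) : ℤ) := by push_cast; ring
    rw [this, h2]
    push_cast
    ring

lemma rho_zero (n : ℕ) : (rho 0 n).natDegree ≤ 2 ^ (n + 1) - 1 ∧
    ∃ t : ℤ, (rho 0 n).coeff (2 ^ (n + 1) - 1) = 2 + 4 * t := by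
  obtain ⟨hA1, hA2⟩ := A_facts 0 (n + 1)
  obtain ⟨hB1, hB2⟩ := A_facts 0 n
  obtain ⟨hd1, -⟩ := da_facts n
  rw [pow_zero, zero_add] at hA2 hB2
  have hA3 : (A (0 + 2) (n + 1)).natDegree = 2 ^ (n + 1) - 1 := by lia
  have hB3 : (A (0 + 2) n).natDegree = 2 ^ n - 1 := by lia
  have e : rho 0 n = C 2 * A (0 + 2) (n + 1) -
      C 4 * (X * (A (0 + 2) n * derivative (a (n + 1)))) := by
    rw [rho, a_zero, show 0 + 1 + n = n + 1 by ring]
    simp only [map_ofNat]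
    ring
  have hN : 2 ^ (n + 1) - 1 = 1 + ((2 ^ n - 1) + (2 ^ n - 1)) := by
    have h1 : 1 ≤ 2 ^ n := Nat.one_le_two_pow
    have h2 : 2 ^ (n + 1) = 2 ^ n + 2 ^ n := by ring
    lia
  have hY : (X * (A (0 + 2) n * derivative (a (n + 1))) : ℤ[X]).natDegree ≤ 2 ^ (n + 1) - 1 := by
    rw [hN]
    refine natDegree_mul_le.trans (add_le_add natDegree_X_le ?_)
    exact natDegree_mul_le.trans (add_le_add hB3.le hd1)
  refine ⟨?_, -(X * (A (0 + 2) n * derivative (a (n + 1)))).coeff (2 ^ (n + 1) - 1), ?_⟩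
  · rw [e]
    refine (natDegree_sub_le _ _).trans (max_le ?_ ?_)
    · exact (natDegree_C_mul_le _ _).trans hA3.le
    · exact (natDegree_C_mul_le _ _).trans hY
  · rw [e, coeff_sub, coeff_C_mul, coeff_C_mul]
    have h3 := hA1.coeff_natDegree
    rw [hA3] at h3
    rw [h3]
    ring

lemma rho_succ (r n : ℕ) : (rho (r + 1) n).natDegree ≤ 2 ^ (r + 1 + n + 1) - 1 ∧
    ∃ t : ℤ, (rho (r + 1) n).coeff (2 ^ (r + 1 + n + 1) - 1) = 2 ^ (r + 1) + 2 ^ (r + 2) * t := by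
  obtain ⟨hA1, hA2⟩ := A_facts (r + 1) (n + 1)
  obtain ⟨hB1, hB2⟩ := A_facts (r + 1) n
  obtain ⟨hd1, hd2⟩ := da_facts (r + 1 + n)
  obtain ⟨hc1, hc2⟩ := da_facts r
  have ha1 : (a (r + 1)).Monic := a_monic (Nat.succ_ne_zero r)
  have ha2 : (a (r + 1)).natDegree = 2 ^ r := a_natDegree (Nat.succ_ne_zero r)
  have hr : 1 ≤ 2 ^ r := Nat.one_le_two_pow
  have hr1 : 2 ^ (r + 1) = 2 ^ r + 2 ^ r := by ring
  have hn1 : 1 ≤ 2 ^ (r + 1 + n) := Nat.one_le_two_pow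
  have hn2 : 2 ^ (r + 1 + n + 1) = 2 ^ (r + 1 + n) + 2 ^ (r + 1 + n) := by ring
  set Y1 : ℤ[X] := 1 + a (r + 1) * derivative (a (r + 1)) with hY1
  set Y2 : ℤ[X] := a (r + 1) ^ 2 + 2 * X with hY2
  set Y3 : ℤ[X] := derivative (a (r + 1 + 1 + n)) with hY3
  rw [show r + 1 + n + 1 = r + 1 + 1 + n by ring] at hd1 hd2
  rw [← hY3] at hd1 hd2
  have hY1d : Y1.natDegree ≤ 2 ^ (r + 1) - 1 := by
    rw [hY1]
    refine (natDegree_add_le _ _).trans (max_le ?_ ?_)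
    · rw [natDegree_one]; exact Nat.zero_le _
    · refine natDegree_mul_le.trans ?_
      lia
  have hY1c : Y1.coeff (2 ^ (r + 1) - 1) = 2 ^ r := by
    rw [hY1, coeff_add, coeff_one, if_neg (by lia), zero_add,
      show 2 ^ (r + 1) - 1 = 2 ^ r + (2 ^ r - 1) by lia,
      coeff_mul_add_eq_of_natDegree_le ha2.le hc1, hc2]
    have h3 := ha1.coeff_natDegree
    rw [ha2] at h3
    rw [h3, one_mul]
  have hY2d : Y2.natDegree ≤ 2 ^ (r + 1) := by
    rw [hY2]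
    refine (natDegree_add_le _ _).trans (max_le ?_ ?_)
    · refine (natDegree_pow_le).trans ?_
      lia
    · have : (2 * X : ℤ[X]) = C 2 * X := by simp
      rw [this]
      refine (natDegree_C_mul_le _ _).trans (natDegree_X_le.trans ?_)
      lia
  set N := 2 ^ (r + 1 + n + 1) - 1 with hN
  have hA3 : (A (r + 1 + 2) (n + 1)).natDegree ≤ 2 ^ (r + 1 + n + 1) - 2 ^ (r + 1) := by
    rw [show r + 1 + n + 1 = r + 1 + (n + 1) by ring]; lia
  have hA3' : (A (r + 1 + 2) (n + 1)).natDegree = 2 ^ (r + 1 + n + 1) - 2 ^ (r + 1) := by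
    rw [show r + 1 + n + 1 = r + 1 + (n + 1) by ring]; lia
  have hle : 2 ^ (r + 1) ≤ 2 ^ (r + 1 + n) := Nat.pow_le_pow_right (by norm_num) (by lia)
  have hB3 : (A (r + 1 + 2) n).natDegree = 2 ^ (r + 1 + n) - 2 ^ (r + 1) := by lia
  have hN1 : N = (2 ^ (r + 1 + n + 1) - 2 ^ (r + 1)) + (2 ^ (r + 1) - 1) := by lia
  have hN2 : N = 2 ^ (r + 1) + ((2 ^ (r + 1 + n) - 2 ^ (r + 1)) + (2 ^ (r + 1 + n) - 1)) := by lia
  have e : rho (r + 1) n = C 2 * (A (r + 1 + 2) (n + 1) * Y1) -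
      C 2 * (Y2 * (A (r + 1 + 2) n * Y3)) := by
    rw [rho]
    simp only [map_ofNat]
    rfl
  have hW : (A (r + 1 + 2) n * Y3).natDegree ≤
      (2 ^ (r + 1 + n) - 2 ^ (r + 1)) + (2 ^ (r + 1 + n) - 1) :=
    natDegree_mul_le.trans (add_le_add hB3.le hd1)
  refine ⟨?_, -(2 ^ n * Y2.coeff (2 ^ (r + 1))), ?_⟩
  · rw [e]
    refine (natDegree_sub_le _ _).trans (max_le ?_ ?_)
    · refine (natDegree_C_mul_le _ _).trans ?_
      rw [hN1]
      exact natDegree_mul_le.trans (add_le_add hA3 hY1d)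
    · refine (natDegree_C_mul_le _ _).trans ?_
      rw [hN2]
      exact natDegree_mul_le.trans (add_le_add hY2d hW)
  · rw [e, coeff_sub, coeff_C_mul, coeff_C_mul]
    have h1 : (A (r + 1 + 2) (n + 1) * Y1).coeff N = 2 ^ r := by
      rw [hN1, coeff_mul_add_eq_of_natDegree_le hA3 hY1d, hY1c, ← hA3', hA1.coeff_natDegree, one_mul]
    have h2 : (Y2 * (A (r + 1 + 2) n * Y3)).coeff N = Y2.coeff (2 ^ (r + 1)) * 2 ^ (r + 1 + n) := by
      rw [hN2, coeff_mul_add_eq_of_natDegree_le hY2d hW,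
        coeff_mul_add_eq_of_natDegree_le hB3.le hd1, hd2, ← hB3, hB1.coeff_natDegree, one_mul]
    rw [h1, h2]
    ring

/-- The valuation of the sum over the roots of `D`. -/
def vv (m : ℕ) : ℕ := max 1 (m - 2)

lemma trc_D {m n : ℕ} (hm : 2 ≤ m) (hn : n ≠ 0) :
    ∃ t : ℤ, trc (D m n) (A m n) = 2 ^ vv m + 2 ^ (vv m + 1) * t := by
  obtain ⟨p, rfl⟩ := Nat.exists_eq_add_of_le' hm
  obtain ⟨n, rfl⟩ := Nat.exists_eq_succ_of_ne_zero hn
  rw [Nat.succ_eq_add_one]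
  have hDm : (D (p + 2) (n + 1)).Monic := D_monic (by lia) (by lia)
  have key : (rho p n).natDegree ≤ 2 ^ (p + n + 1) - 1 ∧
      ∃ t : ℤ, (rho p n).coeff (2 ^ (p + n + 1) - 1) = 2 ^ vv (p + 2) + 2 ^ (vv (p + 2) + 1) * t := by
    cases p with
    | zero =>
      have h := rho_zero n
      rw [zero_add]
      exact h
    | succ r =>
      have h := rho_succ r n
      have h1 : vv (r + 1 + 2) = r + 1 := by
        rw [vv]; lia
      rw [h1]
      exact h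
  obtain ⟨h1, t, ht⟩ := key
  refine ⟨t, ?_⟩
  have hDd : (D (p + 2) (n + 1)).natDegree = 2 ^ (p + n + 1) := by
    rw [D, show p + 2 + (n + 1) - 1 = (p + n + 1) + 1 by lia, show p + 2 - 1 = p + 1 by lia]
    rw [natDegree_add_eq_left_of_natDegree_lt, a_natDegree (Nat.succ_ne_zero _)]
    · rfl
    · rw [a_natDegree (Nat.succ_ne_zero _), a_natDegree (Nat.succ_ne_zero _)]
      exact Nat.pow_lt_pow_right (by norm_num) (by lia)
  set ι : ℤ →+* ℂ := Int.castRingHom ℂ with hι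
  have hFm : ((D (p + 2) (n + 1)).map ι).Monic := hDm.map ι
  have hpos : 1 ≤ 2 ^ (p + n + 1) := Nat.one_le_two_pow
  have h2 := euler (F := (D (p + 2) (n + 1)).map ι) (g := (A (p + 2) (n + 1)).map ι)
    (S := (2 * (A (p + 2) n * derivative (a (p + 1 + n)))).map ι) (ρ := (rho p n).map ι) hFm (by
      rw [derivative_map, ← Polynomial.map_mul, ← Polynomial.map_mul, ← Polynomial.map_add, rho_eq])
    (by
      rw [degree_eq_natDegree hFm.ne_zero, hDm.natDegree_map, hDd]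
      refine lt_of_le_of_lt (degree_le_natDegree) ?_
      have h3 : ((rho p n).map ι).natDegree ≤ 2 ^ (p + n + 1) - 1 := natDegree_map_le.trans h1
      exact_mod_cast lt_of_le_of_lt h3 (by lia))
  rw [hDm.natDegree_map, hDd, coeff_map, ht] at h2
  have h4 := trc_eq hDm (A (p + 2) (n + 1))
  rw [rt] at h4
  have h5 : (((D (p + 2) (n + 1)).map ι).roots.map (fun c => aeval c (A (p + 2) (n + 1)))).sum =
      (((D (p + 2) (n + 1)).map ι).roots.map (fun c => eval c ((A (p + 2) (n + 1)).map ι))).sum := by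
    congr 1
    refine Multiset.map_congr rfl fun c _ => ?_
    rw [eval_map]; rfl
  rw [← hι, h5, h2] at h4
  have h6 : ι (2 ^ vv (p + 2) + 2 ^ (vv (p + 2) + 1) * t) =
      ((2 ^ vv (p + 2) + 2 ^ (vv (p + 2) + 1) * t : ℤ) : ℂ) := rfl
  rw [h6] at h4
  exact_mod_cast h4

end Pool.Agent.Lib.MP_416699_nt
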