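import Pool.Agent.Lib.MP_416699_nt.TrC

/-!
The sum of the values of `A m ℓ` over the roots of `Q m ℓ`, modulo a power of two.
-/

open Polynomial

namespace Pool.Agent.Lib.MP_416699_nt

lemma lam_eval {m n : ℕ} (hn : n ≠ 0) : (lam n).eval (-a (m - 1)) = -(2 ^ n * A m n) := by
  obtain ⟨n, rfl⟩ := Nat.exists_eq_succ_of_ne_zero hn
  rw [Nat.succ_eq_add_one, lam_eq_prod, eval_prod, A, Finset.prod_range_succ',
    Finset.prod_range_succ']
  have h1 : ∀ i ∈ Finset.range n, ((2 * itr (i + 1) : ℤ[X][X])).eval (-a (m - 1)) =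
      2 * a (m - 1 + (i + 1)) := by
    intro i _
    rw [eval_mul, itr_eval_neg (Nat.succ_ne_zero i), itr_eval_a, eval_ofNat]
  rw [Finset.prod_congr rfl h1, Finset.prod_mul_distrib, Finset.prod_const, Finset.card_range,
    itr_zero, eval_mul, eval_X, eval_ofNat, add_zero]
  ring

lemma A_mul {m k : ℕ} (hm : m ≠ 0) (hk : k ≠ 0) {c : ℂ} (hc : aeval c (Q m k) = 0) {j : ℕ}
    (hj : j ≠ 0) : aeval c (A m (k * j)) = -(-1) ^ j * (aeval c (A m k)) ^ j := by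
  set φ := evS c (aeval c (-a (m - 1))) with hφ
  have hφ1 : φ (Pd k) = 0 := by
    rw [hφ, ← evS_eval, Pd_eval_neg hm hk, ← prod_Q hm hk, map_prod]
    exact Finset.prod_eq_zero (Nat.mem_divisors_self k hk) hc
  have h1 := lam_mul φ hφ1 j
  rw [hφ, ← evS_eval, ← evS_eval, lam_eval hk, lam_eval (mul_ne_zero hk hj)] at h1
  simp only [map_neg, map_mul, map_pow, map_ofNat] at h1
  have h2 : (2 : ℂ) ^ (k * j) ≠ 0 := pow_ne_zero _ two_ne_zero
  apply mul_left_cancel₀ h2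
  rw [neg_pow, mul_pow, ← pow_mul] at h1
  linear_combination -h1

lemma Gl_dvd_A {m k : ℕ} (hk : k ≠ 0) : Gl k ∣ A m k := by
  -- an index divisible by `k`
  obtain ⟨i, hi, hdvd⟩ : ∃ i ∈ Finset.range k, k ∣ m - 1 + i := by
    refine ⟨(k - (m - 1) % k) % k, ?_, ?_⟩
    · rw [Finset.mem_range]; exact Nat.mod_lt _ (Nat.pos_of_ne_zero hk)
    · rw [Nat.dvd_iff_mod_eq_zero, Nat.add_mod_mod, ← Nat.mod_add_mod]
      have h1 : (m - 1) % k < k := Nat.mod_lt _ (Nat.pos_of_ne_zero hk)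
      rw [Nat.add_sub_cancel' h1.le, Nat.mod_self]
  refine (Gl_dvd_a hk).trans ((a_dvd_a hdvd).trans ?_)
  exact Finset.dvd_prod_of_mem (fun i => a (m - 1 + i)) hi

lemma A_pow_eq {m k : ℕ} (hk : k ≠ 0) :
    ∃ B S : ℤ[X], A m k ^ (2 ^ (m - 1)) = 2 * B + Q m k * S := by
  obtain ⟨w, hw⟩ := pow_dvd_pow_of_dvd (map_dvd red (Gl_dvd_A (m := m) hk)) (2 ^ (m - 1))
  have hsurj : Function.Surjective red :=
    Polynomial.map_surjective (Int.castRingHom (ZMod 2)) (ZMod.ringHom_surjective _)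
  obtain ⟨S, hS⟩ := hsurj w
  have h1 : red (A m k ^ (2 ^ (m - 1)) - Q m k * S) = 0 := by
    rw [map_sub, map_mul, map_pow, red_Q hk, hS, hw, sub_self]
  have h2 : (C 2 : ℤ[X]) ∣ A m k ^ (2 ^ (m - 1)) - Q m k * S := by
    rw [C_dvd_iff_dvd_coeff]
    intro i
    have h3 := congrArg (fun p => p.coeff i) h1
    have h4 : ((Polynomial.map (Int.castRingHom (ZMod 2))
        (A m k ^ (2 ^ (m - 1)) - Q m k * S)).coeff i) = 0 := h3
    rw [coeff_map] at h4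
    exact (ZMod.intCast_zmod_eq_zero_iff_dvd _ 2).1 h4
  obtain ⟨B, hB⟩ := h2
  refine ⟨B, S, ?_⟩
  rw [map_ofNat] at hB
  linear_combination hB

lemma A_mem {P : Ideal OO} (hP : P.IsMaximal) (h2 : (2 : OO) ∈ P) {m k : ℕ} (hk : k ≠ 0) {c : OO}
    (hc : aeval c (Q m k) = 0) : aeval c (A m k) ∈ P := by
  obtain ⟨B, S, h⟩ := A_pow_eq (m := m) hk
  have h1 := congrArg (aeval c) h
  rw [map_pow, map_add, map_mul, map_mul, hc, zero_mul, add_zero, map_ofNat] at h1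
  apply hP.isPrime.mem_of_pow_mem (2 ^ (m - 1))
  rw [h1]
  exact P.mul_mem_right _ h2

lemma trc_pow {P : Ideal OO} (hP : P.IsMaximal) (h2 : (2 : OO) ∈ P) {m k : ℕ} (hm : m ≠ 0)
    (hk : k ≠ 0) {v j : ℕ} (hj : v * 2 ^ (m - 1) < j) :
    (2 : ℤ) ^ (v + 1) ∣ trc (Q m k) (A m k ^ j) := by
  obtain ⟨B, S, h⟩ := A_pow_eq (m := m) hk
  have hQ := Q_monic hm hk
  set i := j - v * 2 ^ (m - 1) with hi
  have hji : j = 2 ^ (m - 1) * v + i := by rw [mul_comm]; lia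
  have h3 : trc (Q m k) (A m k ^ j) = 2 ^ v * trc (Q m k) (B ^ v * A m k ^ i) := by
    have h4 : ((trc (Q m k) (A m k ^ j) : ℤ) : ℂ) =
        ((2 ^ v * trc (Q m k) (B ^ v * A m k ^ i) : ℤ) : ℂ) := by
      push_cast
      rw [trc_eq hQ, trc_eq hQ, ← Multiset.sum_map_mul_left]
      congr 1
      refine Multiset.map_congr rfl fun c hc => ?_
      obtain ⟨c', hc', h0⟩ := exists_OO hQ hc
      have h5 : aeval c (Q m k) = 0 := by
        rw [← hc', aeval_algebraMap_apply, h0, map_zero]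
      have h1 := congrArg (aeval c) h
      rw [map_pow, map_add, map_mul, map_mul, h5, zero_mul, add_zero, map_ofNat] at h1
      rw [hji, pow_add, pow_mul]
      simp only [map_mul, map_pow]
      rw [h1, mul_pow]
      ring
    exact_mod_cast h4
  rw [h3, pow_succ]
  apply mul_dvd_mul_left
  refine LR_coeff_even hP h2 hQ (fun c hc => ?_) one_ne_zero
  rw [map_mul, map_pow, map_pow]
  apply P.mul_mem_left
  exact Ideal.pow_mem_of_mem P (A_mem hP h2 hk hc) i (by lia)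

lemma trc_even {P : Ideal OO} (hP : P.IsMaximal) (h2 : (2 : OO) ∈ P) {m k : ℕ} (hm : m ≠ 0)
    (hk : k ≠ 0) {j : ℕ} (hj : Even j) (hj0 : j ≠ 0) : 4 ∣ trc (Q m k) (A m k ^ j) := by
  obtain ⟨i, hi⟩ := hj
  have h1 : A m k ^ j = (A m k ^ i) ^ 2 := by rw [← pow_mul]; congr 1; lia
  rw [h1]
  refine four_dvd_trc_sq hP h2 (Q_monic hm hk) fun c hc => ?_
  rw [map_pow]
  exact Ideal.pow_mem_of_mem P (A_mem hP h2 hk hc) i (by lia)

/-- The condition on `ℓ`. -/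
def Good (m ℓ : ℕ) : Prop :=
  ∀ j, j ∣ ℓ → 2 ≤ j → vv m * 2 ^ (m - 1) < j ∨ (vv m = 1 ∧ Even j)

theorem trc_Q {m ℓ : ℕ} (hm : 2 ≤ m) (hℓ : ℓ ≠ 0) (hg : Good m ℓ) :
    ∃ t : ℤ, trc (Q m ℓ) (A m ℓ) = 2 ^ vv m + 2 ^ (vv m + 1) * t := by
  obtain ⟨P, hP, h2⟩ := exists_PI
  have hm0 : m ≠ 0 := by lia
  obtain ⟨t, ht⟩ := trc_D hm hℓ
  have h1 : trc (D m ℓ) (A m ℓ) = trc (Q m ℓ) (A m ℓ) +
      ∑ k ∈ ℓ.properDivisors, -(-1) ^ (ℓ / k) * trc (Q m k) (A m k ^ (ℓ / k)) := by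
    have h3 : ((trc (D m ℓ) (A m ℓ) : ℤ) : ℂ) = ((trc (Q m ℓ) (A m ℓ) +
        ∑ k ∈ ℓ.properDivisors, -(-1) ^ (ℓ / k) * trc (Q m k) (A m k ^ (ℓ / k)) : ℤ) : ℂ) := by
      push_cast
      rw [trc_eq (D_monic hm0 hℓ), ← prod_Q hm0 hℓ, sum_rt_prod _ _ fun k hk =>
        Q_monic hm0 (Nat.pos_of_mem_divisors hk).ne', ← Nat.insert_self_properDivisors hℓ,
        Finset.sum_insert Nat.self_notMem_properDivisors, trc_eq (Q_monic hm0 hℓ)]
      congr 1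
      refine Finset.sum_congr rfl fun k hk => ?_
      obtain ⟨h4, h5⟩ := Nat.mem_properDivisors.1 hk
      obtain ⟨j, rfl⟩ := h4
      have hk0 : k ≠ 0 := by rintro rfl; simp at hℓ
      have hj0 : j ≠ 0 := by rintro rfl; simp at hℓ
      rw [Nat.mul_div_cancel_left _ (Nat.pos_of_ne_zero hk0), trc_eq (Q_monic hm0 hk0),
        ← Multiset.sum_map_mul_left]
      congr 1
      refine Multiset.map_congr rfl fun c hc => ?_
      obtain ⟨c', hc', h0⟩ := exists_OO (Q_monic hm0 hk0) hc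
      have h6 : aeval c (Q m k) = 0 := by
        rw [← hc', aeval_algebraMap_apply, h0, map_zero]
      rw [A_mul hm0 hk0 h6 hj0, map_pow]
    exact_mod_cast h3
  have h3 : (2 : ℤ) ^ (vv m + 1) ∣
      ∑ k ∈ ℓ.properDivisors, -(-1) ^ (ℓ / k) * trc (Q m k) (A m k ^ (ℓ / k)) := by
    apply Finset.dvd_sum
    intro k hk
    apply Dvd.dvd.mul_left
    obtain ⟨h4, h5⟩ := Nat.mem_properDivisors.1 hk
    obtain ⟨j, rfl⟩ := h4
    have hk0 : k ≠ 0 := by rintro rfl; simp at hℓ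
    have hj0 : j ≠ 0 := by rintro rfl; simp at hℓ
    have hj2 : 2 ≤ j := by
      by_contra hcon
      have : j = 1 := by lia
      rw [this, mul_one] at h5
      exact lt_irrefl _ h5
    rw [Nat.mul_div_cancel_left _ (Nat.pos_of_ne_zero hk0)]
    rcases hg j (dvd_mul_left j k) hj2 with h | ⟨h, h'⟩
    · exact trc_pow hP h2 hm0 hk0 h
    · rw [h]
      exact trc_even hP h2 hm0 hk0 h' hj0
  obtain ⟨s, hs⟩ := h3
  refine ⟨t - s, ?_⟩
  rw [ht, hs] at h1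
  linear_combination -h1

end Pool.Agent.Lib.MP_416699_nt
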