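import Pool.Agent.Lib.MP_416699_nt.TrE

/-!
If the cyclotomic polynomial takes unit values in the mean, the linear coefficient is divisible by
a power of two.
-/

open Polynomial ComplexConjugate

namespace Pool.Agent.Lib.MP_416699_nt

lemma aeval_conj_int (p : ℤ[X]) (z : ℂ) : aeval (conj z) p = conj (aeval z p) :=
  Polynomial.aeval_algHom_apply ((starRingEnd ℂ).toIntAlgHom) z p

lemma dvd_of_OO_dvd {x y : ℤ} (hx : x ≠ 0) (h : ((x : ℤ) : OO) ∣ ((y : ℤ) : OO)) : x ∣ y := by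
  obtain ⟨t, ht⟩ := h
  have hxC : (x : ℂ) ≠ 0 := by exact_mod_cast hx
  have hxQ : (x : ℚ) ≠ 0 := by exact_mod_cast hx
  have h1 : (y : ℂ) = x * (t : ℂ) := by
    have := congrArg (algebraMap OO ℂ) ht
    rw [map_mul, map_intCast, map_intCast] at this
    exact this
  have h3 : (t : ℂ) = algebraMap ℚ ℂ (y / x) := by
    rw [map_div₀, map_intCast, map_intCast, eq_div_iff hxC, h1, mul_comm]
  have h4 : IsIntegral ℤ (t : ℂ) := t.2
  rw [h3, isIntegral_algebraMap_iff (algebraMap ℚ ℂ).injective] at h4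
  obtain ⟨k, hk⟩ := IsIntegrallyClosed.isIntegral_iff.1 h4
  have h5 : (k : ℚ) = y / x := hk
  refine ⟨k, ?_⟩
  have h6 : (y : ℚ) = x * k := by rw [h5]; field_simp
  exact_mod_cast h6

/-- The product of the values of `g` at the roots of `Q` is an integer. -/
lemma exists_prod {Q : ℤ[X]} (hQ : Q.Monic) (g : ℤ[X]) :
    ∃ N : ℤ, (N : ℂ) = ((rt Q).map (fun c => aeval c g)).prod := by
  refine ⟨eval 0 (resultant (Q.map C) (g.map C)), ?_⟩
  have h0 : aeval (0 : ℂ) (resultant (Q.map C) (g.map C)) =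
      ((eval 0 (resultant (Q.map C) (g.map C)) : ℤ) : ℂ) := by
    have := aeval_algebraMap_apply (A := ℤ) ℂ (0 : ℤ) (resultant (Q.map C) (g.map C))
    simp only [map_zero] at this
    rw [this]; simp
  rw [← h0, aeval_resultant (hQ.map C)]
  have h1 : (Q.map (C : ℤ →+* ℤ[X])).map (aeval (0 : ℂ) : ℤ[X] →ₐ[ℤ] ℂ).toRingHom =
      Q.map (Int.castRingHom ℂ) := by
    rw [Polynomial.map_map]
    congr 1
    exact RingHom.ext_int _ _
  rw [h1, rt]
  congr 1
  refine Multiset.map_congr rfl fun c _ => ?_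
  rw [evS_map_C]

lemma swap_prod {q : ℕ} (hq : q ≠ 0) (x : ℂ) (R : Multiset ℂ) :
    ∏ μ ∈ primitiveRoots q ℂ, (R.map (fun α => ‖1 + α * (x * conj μ)‖)).prod =
      (R.map (fun α => ‖eval (-(x * α)) (cyclotomic q ℂ)‖)).prod := by
  induction R using Multiset.induction_on with
  | empty => simp
  | cons α R ih =>
    simp only [Multiset.map_cons, Multiset.prod_cons]
    rw [Finset.prod_mul_distrib, ih]
    congr 1
    rw [cyclotomic_eq_prod_X_sub_primitiveRoots (Complex.isPrimitiveRoot_exp q hq), eval_prod,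
      norm_prod]
    refine Finset.prod_congr rfl fun μ hμ => ?_
    have h1 : IsPrimitiveRoot μ q := (mem_primitiveRoots (Nat.pos_of_ne_zero hq)).1 hμ
    have h2 : ‖μ‖ = 1 := h1.norm'_eq_one hq
    have h3 : μ * conj μ = 1 := by
      rw [Complex.mul_conj, Complex.normSq_eq_norm_sq, h2]; simp
    rw [eval_sub, eval_X, eval_C]
    have h4 : -(x * α) - μ = -(μ * (1 + α * (x * conj μ))) := by
      linear_combination (x * α) * h3
    rw [h4, norm_neg, norm_mul, h2, one_mul]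

/-- The integer polynomial written to second order. -/
lemma second_order {L : ℤ[X]} (h0 : L.coeff 0 = 1) (he : ∀ n, n ≠ 0 → 2 ∣ L.coeff n) :
    ∃ M : ℤ[X], ∀ u : ℤ[X], L.comp u = 1 + C (L.coeff 1) * u + 2 * (u ^ 2 * M.comp u) := by
  have h1 := divX_mul_X_add L
  have h2 := divX_mul_X_add L.divX
  rw [h0] at h1
  rw [coeff_divX] at h2
  have h3 : (C 2 : ℤ[X]) ∣ L.divX.divX := by
    rw [C_dvd_iff_dvd_coeff]
    intro i
    rw [coeff_divX, coeff_divX]
    exact he _ (Nat.succ_ne_zero _)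
  obtain ⟨M, hM⟩ := h3
  refine ⟨M, fun u => ?_⟩
  rw [hM] at h2
  conv_lhs => rw [← h1, ← h2]
  simp only [add_comp, mul_comp, X_comp, C_comp, zero_add, map_one, one_comp, map_ofNat]
  rw [show (2 : ℤ[X]).comp u = 2 from by rw [← C_ofNat]; simp]
  ring

lemma F_diff {L : ℤ[X]} (h0 : L.coeff 0 = 1) (he : ∀ n, n ≠ 0 → 2 ∣ L.coeff n) (u v : ℤ[X]) :
    ∃ H2 : ℤ[X], L.comp u - L.comp v = 2 * ((u - v) * H2) := by
  obtain ⟨M, hM⟩ := second_order h0 he
  obtain ⟨e, he1⟩ := he 1 one_ne_zero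
  obtain ⟨w, hw⟩ := comp_sub_dvd (X ^ 2 * M) u v
  simp only [mul_comp, pow_comp, X_comp] at hw
  refine ⟨C e + w, ?_⟩
  rw [hM u, hM v, he1]
  simp only [map_mul, map_ofNat]
  linear_combination 2 * hw

/-- The values of `F` on the primitive roots of unity. -/
lemma prod_F {Q g : ℤ[X]} (hQ : Q.Monic) {s q : ℕ} (hq0 : q ≠ 0)
    (h : ((rt Q).map (fun c => ‖eval (-(2 ^ s * aeval c g)) (cyclotomic q ℂ)‖)).prod = 1) :
    ∏ μ ∈ primitiveRoots q ℂ, ‖aeval μ ((LR Q g).comp (C (2 ^ s) * X))‖ = 1 := by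
  set F := (LR Q g).comp (C (2 ^ s) * X) with hF
  have hFz : ∀ z : ℂ, aeval z F = ((rt Q).map (fun c => 1 + aeval c g * (2 ^ s * z))).prod := by
    intro z
    rw [hF, aeval_comp, aeval_LR hQ]
    have h1 : aeval z (C (2 ^ s) * X : ℤ[X]) = 2 ^ s * z := by
      simp only [map_mul, aeval_X, map_pow, map_ofNat]
    rw [h1]
  rw [← h]
  have h1 := swap_prod hq0 (2 ^ s) ((rt Q).map (fun c => aeval c g))
  rw [Multiset.map_map] at h1
  simp only [Function.comp_def] at h1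
  rw [← h1]
  refine Finset.prod_congr rfl fun μ _ => ?_
  rw [Multiset.map_map, ← Complex.norm_conj (aeval μ F), ← aeval_conj_int, hFz, norm_prod_map']
  rfl

lemma prim_facts {q : ℕ} (hq : 3 ≤ q) {μ : ℂ} (hμ : μ ∈ primitiveRoots q ℂ) :
    ‖μ‖ = 1 ∧ μ ^ (q - 1) = conj μ ∧ μ ≠ conj μ := by
  have hq0 : q ≠ 0 := by lia
  have h1 : IsPrimitiveRoot μ q := (mem_primitiveRoots (Nat.pos_of_ne_zero hq0)).1 hμ
  have h2 : ‖μ‖ = 1 := h1.norm'_eq_one hq0
  have h3 : μ * conj μ = 1 := by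
    rw [Complex.mul_conj, Complex.normSq_eq_norm_sq, h2]; simp
  have hμ0 : μ ≠ 0 := by rintro rfl; simp at h2
  refine ⟨h2, ?_, ?_⟩
  · apply mul_left_cancel₀ hμ0
    rw [h3, ← pow_succ', Nat.sub_add_cancel (by lia), h1.pow_eq_one]
  · intro h4
    rw [← h4, ← pow_two] at h3
    have h5 := Nat.le_of_dvd two_pos (h1.dvd_of_pow_eq_one 2 h3)
    lia

/-- The value of `F` at some primitive root of unity is real. -/
theorem exists_real {Q g : ℤ[X]} (hQ : Q.Monic) (he : ∀ n, n ≠ 0 → 2 ∣ (LR Q g).coeff n)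
    {s q : ℕ} (hs : 1 ≤ s) (hq : 3 ≤ q)
    (h : ((rt Q).map (fun c => ‖eval (-(2 ^ s * aeval c g)) (cyclotomic q ℂ)‖)).prod = 1) :
    ∃ μ ∈ primitiveRoots q ℂ, aeval μ ((LR Q g).comp (C (2 ^ s) * X)) =
      aeval (conj μ) ((LR Q g).comp (C (2 ^ s) * X)) := by
  have hq0 : q ≠ 0 := by lia
  set L := LR Q g with hL
  have hL0 : L.coeff 0 = 1 := LR_coeff_zero hQ g
  have hprod := prod_F hQ hq0 h
  rw [← hL] at hprod
  obtain ⟨H2, hH2⟩ := F_diff hL0 he (C (2 ^ s) * X) (C (2 ^ s) * X ^ (q - 1))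
  set F := L.comp (C (2 ^ s) * X) with hF
  set H : ℤ[X] := (X - X ^ (q - 1)) * H2 with hH
  have hHz : ∀ μ ∈ primitiveRoots q ℂ, 2 * 2 ^ s * aeval μ H = aeval μ F - conj (aeval μ F) := by
    intro μ hμ
    obtain ⟨-, h2, -⟩ := prim_facts hq hμ
    have h1 := congrArg (aeval μ) hH2
    have h3 : aeval μ (L.comp (C (2 ^ s) * X ^ (q - 1))) = aeval (conj μ) F := by
      rw [hF, aeval_comp, aeval_comp]
      simp only [map_mul, aeval_X, map_pow, map_ofNat]
      rw [h2]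
    rw [map_sub, h3, aeval_conj_int] at h1
    rw [h1, hH]
    simp only [map_mul, map_sub, aeval_X, map_pow, map_ofNat]
    ring
  have hHn : ∀ μ ∈ primitiveRoots q ℂ, ‖aeval μ H‖ ≤ (1 / 2) * ‖aeval μ F‖ := by
    intro μ hμ
    have h1 := congrArg norm (hHz μ hμ)
    rw [norm_mul, norm_mul, norm_pow, Complex.norm_ofNat] at h1
    have h2 : ‖aeval μ F - conj (aeval μ F)‖ ≤ 2 * ‖aeval μ F‖ := by
      refine (norm_sub_le _ _).trans ?_
      rw [Complex.norm_conj]; linarith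
    have h3 : (2 : ℝ) ≤ 2 ^ s := by
      calc (2 : ℝ) = 2 ^ 1 := by norm_num
        _ ≤ 2 ^ s := pow_le_pow_right₀ (by norm_num) hs
    have h4 : 2 * ‖aeval μ H‖ ≤ 2 ^ s * ‖aeval μ H‖ :=
      mul_le_mul_of_nonneg_right h3 (norm_nonneg _)
    linarith
  have hcard : (primitiveRoots q ℂ).card ≠ 0 := by
    rw [(Complex.isPrimitiveRoot_exp q hq0).card_primitiveRoots]
    exact (Nat.totient_pos.2 (by lia)).ne'
  have hlt : ∏ μ ∈ primitiveRoots q ℂ, ‖aeval μ H‖ < 1 := by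
    refine lt_of_le_of_lt (Finset.prod_le_prod (fun _ _ => norm_nonneg _) hHn) ?_
    rw [Finset.prod_mul_distrib, hprod, mul_one, Finset.prod_const]
    exact pow_lt_one₀ (by norm_num) (by norm_num) hcard
  obtain ⟨N, hN⟩ := exists_prod (cyclotomic.monic q ℤ) H
  have hrt : rt (cyclotomic q ℤ) = (primitiveRoots q ℂ).val := by
    have : NeZero ((q : ℕ) : ℂ) := ⟨by exact_mod_cast hq0⟩
    rw [rt, map_cyclotomic, cyclotomic.roots_eq_primitiveRoots_val]
  rw [hrt] at hN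
  have hN' : (N : ℂ) = ∏ μ ∈ primitiveRoots q ℂ, aeval μ H := hN
  have hN0 : N = 0 := by
    have h1 := congrArg norm hN'
    rw [norm_prod] at h1
    rw [← h1, Complex.norm_intCast] at hlt
    have h2 : |N| < 1 := by exact_mod_cast hlt
    exact Int.abs_lt_one_iff.1 h2
  rw [hN0, Int.cast_zero] at hN'
  obtain ⟨μ, hμ, hμ0⟩ := Finset.prod_eq_zero_iff.1 hN'.symm
  refine ⟨μ, hμ, ?_⟩
  have h4 := hHz μ hμ
  rw [hμ0, mul_zero, ← aeval_conj_int] at h4
  exact sub_eq_zero.1 h4.symm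

theorem conj_main {Q g : ℤ[X]} (hQ : Q.Monic) (he : ∀ n, n ≠ 0 → 2 ∣ (LR Q g).coeff n)
    {s q : ℕ} (hs : 1 ≤ s) (hq : 2 ≤ q)
    (h : ((rt Q).map (fun c => ‖eval (-(2 ^ s * aeval c g)) (cyclotomic q ℂ)‖)).prod = 1) :
    (2 : ℤ) ^ (s + 1) ∣ trc Q g := by
  have hq0 : q ≠ 0 := by lia
  have hL0 : (LR Q g).coeff 0 = 1 := LR_coeff_zero hQ g
  obtain ⟨M, hM⟩ := second_order hL0 he
  obtain ⟨e, he1⟩ := he 1 one_ne_zero
  have hso := hM (C (2 ^ s) * X)
  have hprod := prod_F hQ hq0 h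
  rw [trc, he1]
  rw [he1] at hso
  by_cases hq2 : q = 2
  · subst hq2
    set F := (LR Q g).comp (C (2 ^ s) * X) with hF
    have hset : primitiveRoots 2 ℂ = {-1} := by
      ext μ
      rw [mem_primitiveRoots two_pos, Finset.mem_singleton]
      constructor
      · intro h1; exact h1.eq_neg_one_of_two_right
      · rintro rfl; exact IsPrimitiveRoot.neg_one 0 (by norm_num)
    rw [hset, Finset.prod_singleton] at hprod
    have h1 : aeval (-1 : ℂ) F = ((eval (-1) F : ℤ) : ℂ) := by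
      have h2 := aeval_algebraMap_apply (A := ℤ) ℂ (-1 : ℤ) F
      simp only [map_neg, map_one] at h2
      rw [h2]; simp
    rw [h1, Complex.norm_intCast] at hprod
    have h3 : |eval (-1) F| = 1 := by exact_mod_cast hprod
    set z := eval (-1) (M.comp (C (2 ^ s) * X)) with hz
    have h4 : eval (-1) F = 1 - 2 * 2 ^ s * (e - 2 ^ s * z) := by
      rw [hso]
      simp only [eval_add, eval_mul, eval_one, eval_C, eval_X, eval_pow, eval_ofNat]
      rw [← hz]
      ring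
    have h5 : (4 : ℤ) ∣ 2 * 2 ^ s := by
      have := pow_dvd_pow (2 : ℤ) (show 2 ≤ s + 1 by lia)
      rw [← pow_succ']
      norm_num at this
      exact this
    obtain ⟨w, hw⟩ := h5
    have h6 : (2 * 2 ^ s : ℤ) * (e - 2 ^ s * z) = 0 := by
      rcases (abs_eq (by norm_num : (0 : ℤ) ≤ 1)).1 h3 with h7 | h7
      · linarith
      · exfalso
        rw [h7, hw] at h4
        generalize (e - 2 ^ s * z) = x at h4
        have h8 : 4 * (w * x) = 2 := by linarith
        lia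
    rcases mul_eq_zero.1 h6 with h7 | h7
    · exact absurd h7 (by positivity)
    · refine ⟨z, ?_⟩
      rw [show e = 2 ^ s * z by linarith]
      ring
  · obtain ⟨μ, hμ, hμF⟩ := exists_real hQ he hs (show 3 ≤ q by lia) h
    obtain ⟨-, h2, h3⟩ := prim_facts (show 3 ≤ q by lia) hμ
    have hμi : IsIntegral ℤ μ :=
      ((mem_primitiveRoots (Nat.pos_of_ne_zero hq0)).1 hμ).isIntegral (Nat.pos_of_ne_zero hq0)
    have hμc : IsIntegral ℤ (conj μ) := by
      rw [← h2]; exact hμi.pow _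
    set F := (LR Q g).comp (C (2 ^ s) * X) with hF
    set x : OO := ⟨μ, hμi⟩ with hx
    set y : OO := ⟨conj μ, hμc⟩ with hy
    have hxy : x ≠ y := fun h5 => h3 (congrArg (fun x : OO => (x : ℂ)) h5)
    have hxF : aeval x F = aeval y F := by
      apply (FaithfulSMul.algebraMap_injective OO ℂ)
      rw [← aeval_algebraMap_apply, ← aeval_algebraMap_apply]
      exact hμF
    set G2 : ℤ[X] := X ^ 2 * M.comp (C (2 ^ s) * X) with hG2
    have h1 : x - y ∣ aeval x G2 - aeval y G2 := by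
      have h2 := sub_dvd_eval_sub x y (G2.map (algebraMap ℤ OO))
      rwa [eval_map_algebraMap, eval_map_algebraMap] at h2
    obtain ⟨t, ht⟩ := h1
    have hso' : F = 1 + C (2 * e) * (C (2 ^ s) * X) + 2 * (C (2 ^ s) ^ 2 * G2) := by
      rw [hso, hG2]; ring
    rw [hso'] at hxF
    simp only [map_add, map_mul, map_one, map_pow, aeval_X, eq_intCast, map_ofNat,
      map_intCast] at hxF
    have h20 : (2 : OO) ≠ 0 := by
      intro h0
      have := congrArg (algebraMap OO ℂ) h0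
      rw [map_ofNat, map_zero] at this
      exact two_ne_zero this
    have h3 : 2 * (2 : OO) ^ s * (x - y) * ((e : ℤ) + 2 ^ s * t) = 0 := by
      linear_combination hxF - 2 * (2 : OO) ^ s * 2 ^ s * ht
    have h5 : ((e : ℤ) : OO) = 2 ^ s * (-t) := by
      rcases mul_eq_zero.1 h3 with h4 | h4
      · exfalso
        rcases mul_eq_zero.1 h4 with h5 | h5
        · exact mul_ne_zero h20 (pow_ne_zero _ h20) h5
        · exact hxy (sub_eq_zero.1 h5)
      · linear_combination h4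
    have h6 : (2 : ℤ) ^ s ∣ e := by
      apply dvd_of_OO_dvd (pow_ne_zero _ two_ne_zero)
      refine ⟨-t, ?_⟩
      rw [h5]; push_cast; ring
    rw [pow_succ']
    exact mul_dvd_mul_left 2 h6

end Pool.Agent.Lib.MP_416699_nt
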