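import Pool.Agent.Lib.MP_416699_nt.TrF

/-!
`G m (ℓ q)` and `G m ℓ` do not generate the unit ideal when the sum of the multipliers is not
divisible by a high power of two.
-/

open Polynomial

namespace Pool.Agent.Lib.MP_416699_nt

/-- Under a Bezout relation the product of the values of the cyclotomic polynomial at the
multipliers has absolute value one. -/
lemma prod_cyc {m ℓ q : ℕ} (hm : 2 ≤ m) (hℓ : ℓ ≠ 0) (hq : 2 ≤ q) {u v : ℤ[X]}
    (huv : u * G m (ℓ * q) + v * G m ℓ = 1) :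
    ((rt (Q m ℓ)).map (fun c => ‖eval (-(2 ^ ℓ * aeval c (A m ℓ))) (cyclotomic q ℂ)‖)).prod = 1 := by
  have hm0 : m ≠ 0 := by lia
  have hQ := Q_monic hm0 hℓ
  set g : ℤ[X] := (cyclotomic q ℤ).comp (-(2 ^ ℓ * A m ℓ)) with hg
  have hgc : ∀ c : ℂ, aeval c g = eval (-(2 ^ ℓ * aeval c (A m ℓ))) (cyclotomic q ℂ) := by
    intro c
    rw [hg, aeval_comp, ← map_cyclotomic q (Int.castRingHom ℂ), eval_map]
    simp only [map_neg, map_mul, map_pow, map_ofNat]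
    rfl
  have key : ∃ y : OOˣ, ((y : OO) : ℂ) = ((rt (Q m ℓ)).map (fun c => aeval c g)).prod := by
    apply Multiset.prod_induction (fun x : ℂ => ∃ y : OOˣ, ((y : OO) : ℂ) = x)
    · rintro x x' ⟨y, rfl⟩ ⟨y', rfl⟩
      exact ⟨y * y', by push_cast; rfl⟩
    · exact ⟨1, by simp⟩
    · intro x hx
      obtain ⟨c, hc, rfl⟩ := Multiset.mem_map.1 hx
      obtain ⟨c', hcc, h3⟩ := exists_OO hQ hc
      obtain ⟨w, hw⟩ := main_unit two_not_isUnit hm0 hℓ hq huv h3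
      refine ⟨w, ?_⟩
      rw [hw]
      change algebraMap OO ℂ _ = _
      rw [← Polynomial.eval_map_apply, map_cyclotomic, evS_map, hcc, ← aeval_algebraMap_apply, hcc,
        ← evS_eval, lam_eval hℓ, hgc]
      simp only [map_neg, map_mul, map_pow, map_ofNat]
  obtain ⟨N, hN⟩ := exists_prod hQ g
  rw [← hN] at key
  have h1 : ‖((N : ℤ) : ℂ)‖ = 1 := by
    rcases intCast_unit key with h | h <;> rw [h] <;> simp
  rw [hN, norm_prod_map'] at h1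
  rw [← h1]
  congr 1
  refine Multiset.map_congr rfl fun c _ => ?_
  rw [hgc]

lemma LR_even {m ℓ : ℕ} (hm : m ≠ 0) (hℓ : ℓ ≠ 0) :
    ∀ n, n ≠ 0 → 2 ∣ (LR (Q m ℓ) (A m ℓ)).coeff n := by
  obtain ⟨P, hP, h2⟩ := exists_PI
  intro n hn
  exact LR_coeff_even hP h2 (Q_monic hm hℓ) (fun c hc => A_mem hP h2 hℓ hc) hn

theorem not_comax {m ℓ q : ℕ} (hm : 2 ≤ m) (hℓ : ℓ ≠ 0) (hg : Good m ℓ) (hv : vv m ≤ ℓ)
    (hq : 2 ≤ q) (u v : ℤ[X]) : u * G m (ℓ * q) + v * G m ℓ ≠ 1 := by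
  intro huv
  have hm0 : m ≠ 0 := by lia
  have h1 := conj_main (Q_monic hm0 hℓ) (LR_even hm0 hℓ) (Nat.one_le_iff_ne_zero.2 hℓ) hq
    (prod_cyc hm hℓ hq huv)
  obtain ⟨t, ht⟩ := trc_Q hm hℓ hg
  rw [ht] at h1
  have h2 : (2 : ℤ) ^ (vv m + 1) ∣ 2 ^ vv m + 2 ^ (vv m + 1) * t :=
    (pow_dvd_pow 2 (by lia)).trans h1
  have h3 : (2 : ℤ) ^ (vv m + 1) ∣ 2 ^ vv m := (dvd_add_left (dvd_mul_right _ _)).1 h2
  rw [pow_succ] at h3
  have h4 : (2 : ℤ) ^ vv m * 2 ∣ 2 ^ vv m * 1 := by rwa [mul_one]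
  have h5 := (mul_dvd_mul_iff_left (pow_ne_zero (vv m) (two_ne_zero (α := ℤ)))).1 h4
  norm_num at h5

/-- The cases of the theorem. -/
def Cases (m ℓ : ℕ) : Prop :=
  m = 2 ∨ (m = 3 ∧ ¬ 3 ∣ ℓ) ∨
    (4 ≤ m ∧ 2 ≤ ℓ ∧ ∀ p : ℕ, p.Prime → p ∣ ℓ → (m - 2) * 2 ^ (m - 1) < p)

lemma good_of_cases {m ℓ : ℕ} (hℓ : ℓ ≠ 0) (h : Cases m ℓ) : 2 ≤ m ∧ Good m ℓ ∧ vv m ≤ ℓ := by
  rcases h with rfl | ⟨rfl, h3⟩ | ⟨h4, hl, hp⟩
  · refine ⟨le_rfl, fun j _ hj => ?_, ?_⟩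
    · have h1 : vv 2 = 1 := rfl
      rw [h1]
      by_cases h : j = 2
      · exact Or.inr ⟨rfl, by rw [h]; exact even_two⟩
      · left; norm_num; lia
    · have h1 : vv 2 = 1 := rfl
      rw [h1]; lia
  · refine ⟨by norm_num, fun j hjd hj => ?_, ?_⟩
    · have h1 : vv 3 = 1 := rfl
      rw [h1]
      have hne : j ≠ 3 := by rintro rfl; exact h3 hjd
      by_cases h : j = 2
      · exact Or.inr ⟨rfl, by rw [h]; exact even_two⟩
      · by_cases h' : j = 4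
        · exact Or.inr ⟨rfl, by rw [h']; exact ⟨2, rfl⟩⟩
        · left; norm_num; lia
    · have h1 : vv 3 = 1 := rfl
      rw [h1]; lia
  · have h1 : vv m = m - 2 := by rw [vv]; lia
    have hlt : ∀ j, j ∣ ℓ → 2 ≤ j → (m - 2) * 2 ^ (m - 1) < j := by
      intro j hjd hj
      obtain ⟨p, hp1, hp2⟩ := Nat.exists_prime_and_dvd (show j ≠ 1 by lia)
      exact (hp p hp1 (hp2.trans hjd)).trans_le (Nat.le_of_dvd (by lia) hp2)
    refine ⟨by lia, fun j hjd hj => Or.inl ?_, ?_⟩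
    · rw [h1]; exact hlt j hjd hj
    · rw [h1]
      have h2 := hlt ℓ dvd_rfl hl
      have h3 : (m - 2) * 1 ≤ (m - 2) * 2 ^ (m - 1) := Nat.mul_le_mul_left _ Nat.one_le_two_pow
      lia

/-- If all values at the roots are units, there is a Bezout relation. -/
lemma coprime_of_units {g h : ℤ[X]} (hg : g.Monic)
    (H : ∀ c : ℂ, aeval c g = 0 → ∃ y, IsIntegral ℤ y ∧ aeval c h * y = 1) : IsCoprime g h := by
  obtain ⟨f, hf, hfg⟩ := WfDvdMonoid.exists_factors g hg.ne_zero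
  refine IsCoprime.of_isCoprime_of_dvd_left ?_ hfg.dvd'
  have hdvd : ∀ b ∈ f, b ∣ g := fun b hb => (Multiset.dvd_prod hb).trans hfg.dvd
  apply Multiset.prod_induction (fun x => IsCoprime x h)
  · intro x y hx hy; exact hx.mul_left hy
  · exact isCoprime_one_left
  · intro b hb
    obtain ⟨w, hw⟩ := hdvd b hb
    have hlc : b.leadingCoeff * w.leadingCoeff = 1 := by
      rw [← leadingCoeff_mul, ← hw]; exact hg
    have hbu : IsUnit b.leadingCoeff := IsUnit.of_mul_eq_one _ hlc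
    -- a monic associate
    obtain ⟨b', hb'm, hb'a⟩ : ∃ b' : ℤ[X], b'.Monic ∧ Associated b' b := by
      rcases Int.isUnit_iff.1 hbu with h1 | h1
      · exact ⟨b, h1, Associated.refl b⟩
      · refine ⟨-b, ?_, (Associated.refl b).neg_left⟩
        rw [Monic, leadingCoeff_neg, h1]; norm_num
    have hirr : Irreducible b' := hb'a.symm.irreducible (hf b hb)
    have hdeg : b'.degree ≠ 0 := by
      intro h0
      have h1 : b' = 1 := hb'm.natDegree_eq_zero.1 (natDegree_eq_of_degree_eq_some h0)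
      exact hirr.not_isUnit (h1 ▸ isUnit_one)
    obtain ⟨c, hc⟩ := IsAlgClosed.exists_aeval_eq_zero ℂ (b'.map (algebraMap ℤ ℚ)) (by
      rw [hb'm.degree_map]; exact hdeg)
    rw [aeval_map_algebraMap] at hc
    have hcg : aeval c g = 0 := by
      obtain ⟨z, hz⟩ := hb'a.dvd.trans (hdvd b hb)
      rw [hz, map_mul, hc, zero_mul]
    obtain ⟨y, hy, hhy⟩ := H c hcg
    obtain ⟨u, v, huv⟩ := bezout_of_unit hb'm hirr hc hy hhy
    have h2 : IsCoprime b' h := ⟨u, v, huv⟩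
    exact IsCoprime.of_isCoprime_of_dvd_left h2 hb'a.symm.dvd

/-- The consequences of non-comaximality. -/
theorem root_of_not_comax {m ℓ q : ℕ} (hm : m ≠ 0) (hℓ : ℓ ≠ 0) (hq : q ≠ 0)
    (h : ∀ u v : ℤ[X], u * G m (ℓ * q) + v * G m ℓ ≠ 1) :
    (∃ c : ℂ, aeval c (G m (ℓ * q)) = 0 ∧
      ¬ ∃ y : ℂ, IsIntegral ℤ y ∧ aeval c (G m ℓ) * y = 1) ∧
    (Irreducible ((G m (ℓ * q)).map (Int.castRingHom ℚ)) → ∀ c : ℂ, aeval c (G m (ℓ * q)) = 0 →
      ¬ ∃ y : ℂ, IsIntegral ℤ y ∧ aeval c (G m ℓ) * y = 1) := by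
  have hG := G_monic hm (mul_ne_zero hℓ hq)
  refine ⟨?_, ?_⟩
  · by_contra hcon
    push Not at hcon
    obtain ⟨u, v, huv⟩ := coprime_of_units (h := G m ℓ) hG hcon
    exact h u v huv
  · intro hirr c hc hy
    obtain ⟨y, hy, hhy⟩ := hy
    have hirr' : Irreducible (G m (ℓ * q)) :=
      (hG.irreducible_iff_irreducible_map_fraction_map (K := ℚ)).2 hirr
    obtain ⟨u, v, huv⟩ := bezout_of_unit hG hirr' hc hy hhy
    exact h u v huv

end Pool.Agent.Lib.MP_416699_nt
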