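import Pool.Agent.Lib.MP_416699_nt.TrG

/-!
Some multiplier is nonzero, and the conclusion when `φ(q)` exceeds twice the degree of `G m ℓ`.
-/

open Polynomial ComplexConjugate

namespace Pool.Agent.Lib.MP_416699_nt

lemma Gl_deg_pos {n : ℕ} (hn : n ≠ 0) : 0 < (Gl n).natDegree := by
  have h1 := Phi_natDegree_pos hn
  have h2 := congrArg natDegree (map_red_Phi hn)
  have h3 : (red (Gl n)).Monic := (Gl_monic hn).map _
  have h5 : (red (Gl n)).natDegree = (Gl n).natDegree := (Gl_monic hn).natDegree_map _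
  rw [(Phi_monic hn).natDegree_map, (aeval_w_monic h3).2, h5] at h2
  lia

lemma Q_deg {m n : ℕ} (hm : m ≠ 0) (hn : n ≠ 0) :
    (Q m n).natDegree = 2 ^ (m - 1) * (Gl n).natDegree := by
  have h2 := congrArg natDegree (red_Q (m := m) hn)
  have h3 : (red (Gl n)).Monic := (Gl_monic hn).map _
  rw [h3.natDegree_pow] at h2
  have h4 : (red (Q m n)).natDegree = (Q m n).natDegree := (Q_monic hm hn).natDegree_map _
  have h5 : (red (Gl n)).natDegree = (Gl n).natDegree := (Gl_monic hn).natDegree_map _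
  rw [h4, h5] at h2
  exact h2

/-- Consequences of `Q m ℓ (c) = 0` and `A m ℓ (c) = 0`. -/
lemma zero_mult {m ℓ : ℕ} (hm : 2 ≤ m) (hℓ : ℓ ≠ 0) {S : Type*} [CommRing S] [IsDomain S]
    (h20 : (2 : S) ≠ 0) {c : S} (hc : aeval c (Q m ℓ) = 0) (hA : aeval c (A m ℓ) = 0) :
    (∀ j, aeval c (a (j + ℓ)) = aeval c (a j)) ∧ aeval c (Gl ℓ) = 0 := by
  have hm0 : m ≠ 0 := by lia
  have hD0 : aeval c (D m ℓ) = 0 := by
    rw [← prod_Q hm0 hℓ, map_prod]
    exact Finset.prod_eq_zero (Nat.mem_divisors_self ℓ hℓ) hc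
  have hD : aeval c (a (m + ℓ - 1)) = - aeval c (a (m - 1)) := by
    rw [D, map_add] at hD0
    exact eq_neg_of_add_eq_zero_left hD0
  have hper : ∀ i, m ≤ i → aeval c (a (i + ℓ)) = aeval c (a i) := by
    intro i hi
    induction i, hi using Nat.le_induction with
    | base =>
      rw [show m + ℓ = (m + ℓ - 1) + 1 by lia, a_succ, map_add, map_pow, hD]
      conv_rhs => rw [show m = (m - 1) + 1 by lia, a_succ, map_add, map_pow]
      ring
    | succ i hi ih =>
      rw [show i + 1 + ℓ = (i + ℓ) + 1 by ring, a_succ, a_succ, map_add, map_add, map_pow,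
        map_pow, ih]
  rw [A, map_prod, Finset.prod_eq_zero_iff] at hA
  obtain ⟨i, -, hi⟩ := hA
  have haℓ : aeval c (a ℓ) = 0 := by
    have h1 := a_dvd_of_eventually (c := c) (k := m - 1 + i) (by lia) hper
    rw [hi, zero_dvd_iff] at h1
    exact h1
  have hper' : ∀ j, aeval c (a (j + ℓ)) = aeval c (a j) := by
    intro j
    induction j with
    | zero => rw [zero_add, haℓ, a_zero, map_zero]
    | succ j ih =>
      rw [show j + 1 + ℓ = (j + ℓ) + 1 by ring, a_succ, a_succ, map_add, map_add, map_pow,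
        map_pow, ih]
  refine ⟨hper', ?_⟩
  have h2 := hper' (m - 1)
  rw [show m - 1 + ℓ = m + ℓ - 1 by lia, hD] at h2
  have h3 : aeval c (a (m - 1)) = 0 := by
    have h4 : (2 : S) * aeval c (a (m - 1)) = 0 := by linear_combination -h2
    exact (mul_eq_zero.1 h4).resolve_left h20
  have h4 : aeval c (Gl ℓ) = evS c 0 (Phi ℓ) := by
    rw [Gl, evS_eval, map_zero]
  have h5 : aeval c (Q m ℓ) = evS c 0 (Phi ℓ) := by
    rw [Q, evS_eval, map_neg, h3, neg_zero]
  rw [h4, ← h5, hc]

/-- Such a root is simple. -/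
lemma zero_mult_simple {m ℓ : ℕ} (hm : 2 ≤ m) (hℓ : ℓ ≠ 0) {c : OO}
    (hc : aeval c (Q m ℓ) = 0) (hA : aeval c (A m ℓ) = 0) :
    aeval c (derivative (Q m ℓ)) ≠ 0 := by
  intro hd
  have hm0 : m ≠ 0 := by lia
  have h20 : (2 : OO) ≠ 0 := by
    intro h0
    have := congrArg (algebraMap OO ℂ) h0
    rw [map_ofNat, map_zero] at this
    exact two_ne_zero this
  obtain ⟨hper, -⟩ := zero_mult hm hℓ h20 hc hA
  have hdD : aeval c (derivative (D m ℓ)) = 0 := by
    have h1 : Q m ℓ ∣ D m ℓ := by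
      rw [← prod_Q hm0 hℓ]
      exact Finset.dvd_prod_of_mem _ (Nat.mem_divisors_self ℓ hℓ)
    obtain ⟨R, hR⟩ := h1
    rw [hR, derivative_mul, map_add, map_mul, map_mul, hd, hc, zero_mul, zero_mul, add_zero]
  obtain ⟨p, rfl⟩ := Nat.exists_eq_add_of_le' hm
  obtain ⟨n, rfl⟩ := Nat.exists_eq_succ_of_ne_zero hℓ
  rw [Nat.succ_eq_add_one] at *
  have h2 : D (p + 2) (n + 1) = a (p + 1 + n) ^ 2 + a p ^ 2 + 2 * X := by
    rw [D, show p + 2 + (n + 1) - 1 = (p + 1 + n) + 1 by lia, show p + 2 - 1 = p + 1 by lia,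
      a_succ, a_succ]
    ring
  have h3 : derivative (D (p + 2) (n + 1)) = 2 * (a (p + 1 + n) * derivative (a (p + 1 + n)) +
      a p * derivative (a p) + 1) := by
    rw [h2]
    simp only [derivative_add, derivative_sq, derivative_mul, derivative_X, derivative_ofNat,
      map_ofNat]
    ring
  have hda : ∀ k, derivative (a (k + 1)) = 1 + 2 * (a k * derivative (a k)) := by
    intro k
    rw [a_succ, derivative_add, derivative_sq, derivative_X, map_ofNat]
    ring
  have h4 : aeval c (a (p + 1 + n)) = aeval c (a p) := by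
    have := hper p
    rwa [show p + (n + 1) = p + 1 + n by ring] at this
  have h5 : ∃ y : OO, aeval c (a (p + 1 + n) * derivative (a (p + 1 + n)) +
      a p * derivative (a p) + 1) = 1 + 2 * y := by
    cases p with
    | zero =>
      refine ⟨0, ?_⟩
      rw [map_add, map_add, map_mul, map_mul, h4, a_zero, map_zero, map_one]
      ring
    | succ r =>
      refine ⟨aeval c (a (r + 1)) * (1 + aeval c (a (r + 1 + n)) *
        aeval c (derivative (a (r + 1 + n))) + aeval c (a r) * aeval c (derivative (a r))), ?_⟩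
      rw [map_add, map_add, map_mul, map_mul, h4, show r + 1 + 1 + n = r + 1 + n + 1 by ring,
        hda, hda]
      simp only [map_add, map_mul, map_one, map_ofNat]
      ring
  obtain ⟨y, hy⟩ := h5
  rw [h3, map_mul, hy, map_ofNat] at hdD
  have h6 := (mul_eq_zero.1 hdD).resolve_left h20
  apply two_not_isUnit
  exact IsUnit.of_mul_eq_one (-y) (by linear_combination -h6)

lemma exists_ne_zero {m ℓ : ℕ} (hm : 2 ≤ m) (hℓ : ℓ ≠ 0) :
    ∃ c ∈ rt (Q m ℓ), aeval c (A m ℓ) ≠ 0 := by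
  classical
  by_contra hcon
  push Not at hcon
  have hm0 : m ≠ 0 := by lia
  have hQ := Q_monic hm0 hℓ
  have hQ0 : (Q m ℓ).map (Int.castRingHom ℂ) ≠ 0 := (hQ.map _).ne_zero
  have hG := Gl_monic hℓ
  have hG0 : (Gl ℓ).map (Int.castRingHom ℂ) ≠ 0 := (hG.map _).ne_zero
  have hroot : ∀ c ∈ rt (Q m ℓ), aeval c (Q m ℓ) = 0 := by
    intro c hc
    obtain ⟨c', hc', h0⟩ := exists_OO hQ hc
    rw [← hc', aeval_algebraMap_apply, h0, map_zero]
  have hsub : rt (Q m ℓ) ⊆ rt (Gl ℓ) := by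
    intro c hc
    have h1 := (zero_mult hm hℓ two_ne_zero (hroot c hc) (hcon c hc)).2
    rw [rt, mem_roots hG0, IsRoot.def, eval_map]
    exact h1
  have hnd : (rt (Q m ℓ)).Nodup := by
    rw [Multiset.nodup_iff_count_le_one]
    intro c
    rw [rt, count_roots]
    by_contra h1
    push Not at h1
    have h2 := (one_lt_rootMultiplicity_iff_isRoot hQ0).1 h1
    have hc : c ∈ rt (Q m ℓ) := by rw [rt, mem_roots hQ0]; exact h2.1
    obtain ⟨c', hc', h0⟩ := exists_OO hQ hc
    have hinj : Function.Injective (algebraMap OO ℂ) := FaithfulSMul.algebraMap_injective OO ℂ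
    apply zero_mult_simple hm hℓ h0
    · apply hinj
      rw [map_zero, ← aeval_algebraMap_apply, hc']
      exact hcon c hc
    · apply hinj
      rw [map_zero, ← aeval_algebraMap_apply, hc']
      have h3 := h2.2
      rw [IsRoot.def, derivative_map, eval_map] at h3
      exact h3
  have h1 := Multiset.card_le_card ((Multiset.le_iff_subset hnd).2 hsub)
  have h2 : (rt (Q m ℓ)).card = (Q m ℓ).natDegree := by
    rw [rt, ← (IsAlgClosed.splits _).natDegree_eq_card_roots, hQ.natDegree_map]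
  have h3 : (rt (Gl ℓ)).card = (Gl ℓ).natDegree := by
    rw [rt, ← (IsAlgClosed.splits _).natDegree_eq_card_roots, hG.natDegree_map]
  rw [h2, h3, Q_deg hm0 hℓ] at h1
  have h4 := Gl_deg_pos hℓ
  have h5 : 2 ^ 1 ≤ 2 ^ (m - 1) := Nat.pow_le_pow_right (by norm_num) (by lia)
  have h6 := Nat.mul_le_mul_right (Gl ℓ).natDegree h5
  lia

lemma PP_add (R R' : Multiset ℂ) : PP (R + R') = PP R * PP R' := by
  simp [PP, Multiset.map_add, Multiset.prod_add]

lemma PP_natDegree_le (R : Multiset ℂ) : (PP R).natDegree ≤ R.card := by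
  induction R using Multiset.induction_on with
  | empty => simp [PP_zero]
  | cons α R ih =>
    rw [PP_cons, Multiset.card_cons]
    refine natDegree_mul_le.trans ?_
    have h1 : (1 + C α * X : ℂ[X]).natDegree ≤ 1 := by
      refine (natDegree_add_le _ _).trans (max_le ?_ ?_)
      · rw [natDegree_one]; exact Nat.zero_le _
      · exact (natDegree_C_mul_le _ _).trans natDegree_X_le
    lia

lemma PP_of_zero {R : Multiset ℂ} (h : ∀ α ∈ R, α = 0) : PP R = 1 := by
  induction R using Multiset.induction_on with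
  | empty => exact PP_zero
  | cons α R ih =>
    rw [PP_cons, ih fun β hβ => h β (Multiset.mem_cons_of_mem hβ), h α (Multiset.mem_cons_self α R)]
    simp

lemma LR_natDegree_map {Q : ℤ[X]} (hQ : Q.Monic) (g : ℤ[X]) :
    (LR Q g).natDegree = (PP ((rt Q).map (fun c => aeval c g))).natDegree := by
  rw [← LR_map hQ, natDegree_map_eq_of_injective Int.cast_injective]

lemma LR_natDegree_pos {m ℓ : ℕ} (hm : 2 ≤ m) (hℓ : ℓ ≠ 0) :
    1 ≤ (LR (Q m ℓ) (A m ℓ)).natDegree := by
  have hm0 : m ≠ 0 := by lia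
  have hQ := Q_monic hm0 hℓ
  obtain ⟨c, hc, hc0⟩ := exists_ne_zero hm hℓ
  by_contra h
  have h0 : (LR (Q m ℓ) (A m ℓ)).natDegree = 0 := by lia
  have h1 : LR (Q m ℓ) (A m ℓ) = 1 := by
    rw [eq_C_of_natDegree_eq_zero h0, LR_coeff_zero hQ]; simp
  have h2 := aeval_LR hQ (A m ℓ) (-(aeval c (A m ℓ))⁻¹)
  have h3 : ((rt (Q m ℓ)).map
      (fun d => 1 + aeval d (A m ℓ) * (-(aeval c (A m ℓ))⁻¹))).prod = 0 := by
    rw [Multiset.prod_eq_zero_iff, Multiset.mem_map]
    refine ⟨c, hc, ?_⟩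
    field_simp
    ring
  rw [h1, map_one, h3] at h2
  exact one_ne_zero h2

end Pool.Agent.Lib.MP_416699_nt
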