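import Pool.Agent.Lib.MP_416699_nt.TrH

/-!
The conclusion when `φ(q)` exceeds twice the degree of `G m ℓ`.
-/

open Polynomial ComplexConjugate

namespace Pool.Agent.Lib.MP_416699_nt

lemma rt_card {Q : ℤ[X]} (hQ : Q.Monic) : (rt Q).card = Q.natDegree := by
  rw [rt, ← (IsAlgClosed.splits _).natDegree_eq_card_roots, hQ.natDegree_map]

lemma rt_mul {P Q : ℤ[X]} (hP : P.Monic) (hQ : Q.Monic) : rt (P * Q) = rt P + rt Q := by
  rw [rt, Polynomial.map_mul, roots_mul (mul_ne_zero (hP.map _).ne_zero (hQ.map _).ne_zero)]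
  rfl

lemma LR_natDegree_le {m ℓ : ℕ} (hm : m ≠ 0) (hℓ : ℓ ≠ 0) :
    (LR (Q m ℓ) (A m ℓ)).natDegree ≤ (G m ℓ).natDegree := by
  have hG := G_monic hm hℓ
  have h := G_mul hm hℓ
  rw [LR_natDegree_map (Q_monic hm hℓ), ← h]
  have hR : ((if ℓ ∣ m - 1 then Gl ℓ else 1) : ℤ[X]).Monic := by
    split_ifs
    · exact Gl_monic hℓ
    · exact monic_one
  rw [rt_mul hG hR, Multiset.map_add, PP_add]
  have h0 : PP ((rt (if ℓ ∣ m - 1 then Gl ℓ else 1)).map (fun c => aeval c (A m ℓ))) = 1 := by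
    apply PP_of_zero
    intro α hα
    obtain ⟨c, hc, rfl⟩ := Multiset.mem_map.1 hα
    obtain ⟨c', hc', h0⟩ := exists_OO hR hc
    have h1 : aeval c (if ℓ ∣ m - 1 then Gl ℓ else 1 : ℤ[X]) = 0 := by
      rw [← hc', aeval_algebraMap_apply, h0, map_zero]
    split_ifs at h1 with hd
    · obtain ⟨t, ht⟩ := Gl_dvd_A (m := m) hℓ
      rw [ht, map_mul, h1, zero_mul]
    · rw [map_one] at h1
      exact absurd h1 one_ne_zero
  rw [h0, mul_one]
  refine (PP_natDegree_le _).trans ?_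
  rw [Multiset.card_map, rt_card hG]

/-- If the value of an integer polynomial at a primitive root of unity is real, then the totient
is at most twice the degree. -/
lemma totient_le {F : ℤ[X]} {q : ℕ} (hq : 3 ≤ q) (hF : 1 ≤ F.natDegree) {μ : ℂ}
    (hμ : μ ∈ primitiveRoots q ℂ) (h : aeval μ F = aeval (conj μ) F) :
    q.totient ≤ 2 * F.natDegree := by
  have hq0 : 0 < q := by lia
  have h1 : IsPrimitiveRoot μ q := (mem_primitiveRoots hq0).1 hμ
  have h2 : ‖μ‖ = 1 := h1.norm'_eq_one hq0.ne'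
  have h3 : μ * conj μ = 1 := by
    rw [Complex.mul_conj, Complex.normSq_eq_norm_sq, h2]; simp
  have hμ0 : μ ≠ 0 := by rintro rfl; simp at h2
  set d := F.natDegree with hd
  set W : ℤ[X] := X ^ d * F - F.reverse with hW
  have hinv : μ⁻¹ = conj μ := by
    rw [inv_eq_iff_eq_inv]; exact eq_inv_of_mul_eq_one_left h3
  have hrev : aeval μ F.reverse = aeval (conj μ) F * μ ^ d := by
    have : Invertible (conj μ) := ⟨μ, h3, by rw [mul_comm]; exact h3⟩
    have h4 := eval₂_reverse_mul_pow (algebraMap ℤ ℂ) (conj μ) F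
    have h5 : ⅟(conj μ) = μ := by
      rw [invOf_eq_inv, ← hinv, inv_inv]
    rw [h5] at h4
    have h6 : aeval μ F.reverse * (conj μ) ^ d = aeval (conj μ) F := h4
    have h7 : (conj μ) ^ d * μ ^ d = 1 := by
      rw [← mul_pow, mul_comm, h3, one_pow]
    rw [← h6, mul_assoc, h7, mul_one]
  have hWμ : aeval μ W = 0 := by
    rw [hW, map_sub, map_mul, map_pow, aeval_X, hrev, h]
    ring
  have hWd : W.coeff (d + d) = F.leadingCoeff := by
    have h4 : F.reverse.natDegree ≤ d := reverse_natDegree_le F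
    have h5 : F.reverse.coeff (d + d) = 0 := coeff_eq_zero_of_natDegree_lt (by lia)
    rw [hW, coeff_sub, coeff_X_pow_mul, h5, sub_zero]
    rfl
  have hF0 : F ≠ 0 := by
    rintro h0
    rw [h0, natDegree_zero] at hd
    lia
  have hW0 : W ≠ 0 := by
    intro h0
    rw [h0, coeff_zero] at hWd
    exact hF0 (leadingCoeff_eq_zero.1 hWd.symm)
  have hdvd : cyclotomic q ℤ ∣ W := by
    rw [cyclotomic_eq_minpoly h1 hq0]
    exact minpoly.isIntegrallyClosed_dvd (h1.isIntegral hq0) hWμ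
  have h5 := natDegree_le_of_dvd hdvd hW0
  rw [natDegree_cyclotomic] at h5
  refine h5.trans ?_
  rw [hW]
  refine (natDegree_sub_le _ _).trans (max_le ?_ ?_)
  · refine natDegree_mul_le.trans ?_
    rw [natDegree_X_pow]
    lia
  · exact (reverse_natDegree_le F).trans (by lia)

theorem not_comax_totient {m ℓ q : ℕ} (hm : 2 ≤ m) (hℓ : ℓ ≠ 0)
    (hq : 2 * (G m ℓ).natDegree < q.totient) (u v : ℤ[X]) :
    u * G m (ℓ * q) + v * G m ℓ ≠ 1 := by
  intro huv
  have hm0 : m ≠ 0 := by lia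
  have hpos := LR_natDegree_pos hm hℓ
  have hle := LR_natDegree_le hm0 hℓ
  have hq3 : 3 ≤ q := by
    by_contra hcon
    have : q.totient ≤ q := Nat.totient_le q
    lia
  obtain ⟨μ, hμ, hμF⟩ := exists_real (Q_monic hm0 hℓ) (LR_even hm0 hℓ)
    (Nat.one_le_iff_ne_zero.2 hℓ) hq3 (prod_cyc hm hℓ (by lia) huv)
  have hdeg : ((LR (Q m ℓ) (A m ℓ)).comp (C (2 ^ ℓ) * X)).natDegree =
      (LR (Q m ℓ) (A m ℓ)).natDegree := by
    rw [natDegree_comp, natDegree_C_mul (pow_ne_zero _ two_ne_zero), natDegree_X, mul_one]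
  have h1 := totient_le hq3 (by rw [hdeg]; exact hpos) hμ hμF
  rw [hdeg] at h1
  lia

end Pool.Agent.Lib.MP_416699_nt
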