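import Pool.Agent.Lib.MP_416699_nt.Mod2

/-!
Digits in base `T n` over `ZMod 2`.
-/

open Polynomial

namespace Pool.Agent.Lib.MP_416699_nt

/-- The top coefficient of the digit of index `i` of `h` in base `T n`. -/
noncomputable def lm (n i : ℕ) (h : (ZMod 2)[X]) : ZMod 2 :=
  (h %ₘ (T n) ^ (i + 1)).coeff ((i + 1) * 2 ^ (n - 1) - 1)

/-- The coefficient that has to be evaluated. -/
noncomputable def kap (n s : ℕ) : (ZMod 2)[X] :=
  (T (n - 1 - s) + T (n - 1)) *
      (∏ i ∈ (Finset.range n).erase (n - 1 - s), (T (n - 1 - s) + T i)) ^ (2 ^ s) +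
    ∑ j ∈ (Finset.range n).erase (n - 1 - s), (T (n - 1 - s) + T j) *
      (∏ i ∈ ((Finset.range n).erase (n - 1 - s)).erase j, (T (n - 1 - s) + T i)) ^ (2 ^ s)

end Pool.Agent.Lib.MP_416699_nt
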