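import Pool.Agent.Lib.MP_416699_nt.TrJ

/-!
The value of the last coefficient.
-/

open Polynomial Finset

namespace Pool.Agent.Lib.MP_416699_nt

/-! ### Basic facts about `T` -/

lemma trk_monic {l : ℕ} (hl : l ≠ 0) : (T l).Monic := by
  rw [← red_a]
  exact (a_monic hl).map _

lemma trk_natDegree {l : ℕ} (hl : l ≠ 0) : (T l).natDegree = 2 ^ (l - 1) := by
  rw [← red_a, ← a_natDegree hl]
  exact (a_monic hl).natDegree_map _

lemma trk_T_zero : T 0 = 0 := by simp [T]

lemma trk_pow (a m : ℕ) : T a ^ (2 ^ m) = T (a + m) + T m := by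
  induction m with
  | zero => simp [trk_T_zero]
  | succ m ih =>
    rw [pow_succ, pow_mul, ih, add_pow_char, ← add_assoc, T_succ (a + m), T_succ m]
    linear_combination -(CharTwo.add_self_eq_zero (X : (ZMod 2)[X]))

lemma trk_sq (a : ℕ) : T a ^ 2 = T (a + 1) + X := by
  rw [T_succ]
  linear_combination -(CharTwo.add_self_eq_zero (X : (ZMod 2)[X]))

/-! ### The functional -/

lemma trk_lm (n : ℕ) (h : (ZMod 2)[X]) : lm n 0 h = (h %ₘ T n).coeff (2 ^ (n - 1) - 1) := by
  simp [lm]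

lemma trk_add (n : ℕ) (h g : (ZMod 2)[X]) : lm n 0 (h + g) = lm n 0 h + lm n 0 g := by
  rw [trk_lm, trk_lm, trk_lm, add_modByMonic, coeff_add]

lemma trk_zero (n : ℕ) : lm n 0 0 = 0 := by
  rw [trk_lm, zero_modByMonic, coeff_zero]

lemma trk_sum {ι : Type*} (n : ℕ) (s : Finset ι) (f : ι → (ZMod 2)[X]) :
    lm n 0 (∑ i ∈ s, f i) = ∑ i ∈ s, lm n 0 (f i) := by
  classical
  induction s using Finset.induction_on with
  | empty => rw [sum_empty, sum_empty, trk_zero]
  | insert a s ha ih => rw [sum_insert ha, sum_insert ha, trk_add, ih]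

lemma trk_congr {n : ℕ} (hn : n ≠ 0) {h g : (ZMod 2)[X]} (hd : T n ∣ h - g) :
    lm n 0 h = lm n 0 g := by
  rw [trk_lm, trk_lm, modByMonic_eq_of_dvd_sub (trk_monic hn) hd]

lemma trk_of_dvd {n : ℕ} (hn : n ≠ 0) {h : (ZMod 2)[X]} (hd : T n ∣ h) : lm n 0 h = 0 := by
  rw [trk_congr hn (g := 0) (by rwa [sub_zero]), trk_zero]

lemma trk_small {n : ℕ} (hn : n ≠ 0) {h : (ZMod 2)[X]} (hd : h.natDegree < 2 ^ (n - 1)) :
    lm n 0 h = h.coeff (2 ^ (n - 1) - 1) := by
  rw [trk_lm, (modByMonic_eq_self_iff (trk_monic hn)).2]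
  rw [degree_eq_natDegree (trk_monic hn).ne_zero, trk_natDegree hn]
  exact lt_of_le_of_lt degree_le_natDegree (by exact_mod_cast hd)

lemma trk_lt {n : ℕ} (hn : n ≠ 0) {h : (ZMod 2)[X]} (hd : h.natDegree + 1 < 2 ^ (n - 1)) :
    lm n 0 h = 0 := by
  rw [trk_small hn (by omega)]
  exact coeff_eq_zero_of_natDegree_lt (by omega)

/-! ### Frobenius invariance -/

lemma trk_monomial {n : ℕ} (hn : 2 ≤ n) : ∀ k : ℕ, k < 2 ^ (n - 1) →
    lm n 0 (X ^ (2 * k)) = if k = 2 ^ (n - 1) - 1 then 1 else 0 := by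
  intro k
  induction k using Nat.strong_induction_on with
  | _ k ih =>
  intro hk
  have hn0 : n ≠ 0 := by omega
  obtain ⟨m, rfl⟩ : ∃ m, n = m + 2 := ⟨n - 2, by omega⟩
  have e1 : m + 2 - 1 = m + 1 := by omega
  simp only [e1] at ih hk ⊢
  have hH : 2 ^ (m + 1) = 2 * 2 ^ m := by ring
  have hHm : 1 ≤ 2 ^ m := Nat.one_le_two_pow
  by_cases hlt : 2 * k < 2 ^ (m + 1)
  · rw [trk_small hn0 (by rw [natDegree_X_pow, e1]; exact hlt), coeff_X_pow, e1]
    have h1 : ¬ (2 ^ (m + 1) - 1 = 2 * k) := by omega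
    have h2 : ¬ (k = 2 ^ (m + 1) - 1) := by omega
    rw [if_neg h1, if_neg h2]
  · push Not at hlt
    obtain ⟨k', hk'⟩ : ∃ k', k = 2 ^ m + k' := ⟨k - 2 ^ m, by omega⟩
    have h1 : lm (m + 2) 0 (X ^ (2 * k)) = lm (m + 2) 0 (T (m + 1) * X ^ (2 * k')) := by
      apply trk_congr hn0
      have h2 : X ^ (2 * k) = (X : (ZMod 2)[X]) ^ (2 ^ (m + 1)) * X ^ (2 * k') := by
        rw [← pow_add]
        congr 1
        omega
      have h3 : T (m + 2) = T (m + 1) + X ^ (2 ^ (m + 1)) :=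
        Finset.sum_range_succ (fun i => (X : (ZMod 2)[X]) ^ (2 ^ i)) (m + 1)
      refine ⟨X ^ (2 * k'), ?_⟩
      rw [h2, h3]
      linear_combination -(X ^ (2 * k')) * (CharTwo.add_self_eq_zero (T (m + 1)))
    have h4 : T (m + 1) * X ^ (2 * k') =
        ∑ i ∈ range m, X ^ (2 * (2 ^ i + k')) + (X : (ZMod 2)[X]) ^ (1 + 2 * k') := by
      rw [T, Finset.sum_range_succ', add_mul, Finset.sum_mul]
      congr 1
      · refine Finset.sum_congr rfl fun i _ => ?_
        rw [← pow_add]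
        congr 1
        ring
      · rw [← pow_add]
        simp
    rw [h1, h4, trk_add, trk_sum]
    have h5 : ∑ i ∈ range m, lm (m + 2) 0 (X ^ (2 * (2 ^ i + k'))) = 0 := by
      apply Finset.sum_eq_zero
      intro i hi
      have hi' : 2 ^ i < 2 ^ m := Nat.pow_lt_pow_right (by norm_num) (mem_range.1 hi)
      rw [ih (2 ^ i + k') (by omega) (by omega), if_neg (by omega)]
    rw [h5, zero_add, trk_small hn0 (by rw [natDegree_X_pow, e1]; omega), coeff_X_pow, e1]
    by_cases h6 : k = 2 ^ (m + 1) - 1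
    · have h7 : 2 ^ (m + 1) - 1 = 1 + 2 * k' := by omega
      rw [if_pos h6, if_pos h7]
    · have h7 : ¬ (2 ^ (m + 1) - 1 = 1 + 2 * k') := by omega
      rw [if_neg h6, if_neg h7]

lemma trk_frob {n : ℕ} (hn : 2 ≤ n) (h : (ZMod 2)[X]) : lm n 0 (h ^ 2) = lm n 0 h := by
  have hn0 : n ≠ 0 := by omega
  set ρ := h %ₘ T n with hρ
  have hdeg : ρ.natDegree < 2 ^ (n - 1) := by
    have h1 := natDegree_modByMonic_lt h (trk_monic hn0) (by
      intro h2
      have h3 := trk_natDegree hn0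
      rw [h2, natDegree_one] at h3
      have : 0 < 2 ^ (n - 1) := by positivity
      omega)
    rwa [trk_natDegree hn0] at h1
  have hd : T n ∣ h - ρ := by
    refine ⟨h /ₘ T n, ?_⟩
    have := modByMonic_add_div h (T n)
    linear_combination -this
  have h1 : lm n 0 h = ρ.coeff (2 ^ (n - 1) - 1) := by rw [trk_lm]
  have h2 : lm n 0 (h ^ 2) = lm n 0 (ρ ^ 2) := by
    apply trk_congr hn0
    have : h ^ 2 - ρ ^ 2 = (h - ρ) * (h + ρ) := by ring
    rw [this]
    exact dvd_mul_of_dvd_left hd _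
  have h3 : ρ ^ 2 = ∑ k ∈ range (2 ^ (n - 1)), C (ρ.coeff k) * X ^ (2 * k) := by
    conv_lhs => rw [ρ.as_sum_range' (2 ^ (n - 1)) hdeg]
    rw [sum_pow_char 2]
    refine Finset.sum_congr rfl fun k _ => ?_
    rw [← C_mul_X_pow_eq_monomial, mul_pow, ← pow_mul, ← C_pow, mul_comm k 2]
    congr 2
    have : ∀ z : ZMod 2, z ^ 2 = z := by decide
    exact this _
  have h4 : ∀ (z : ZMod 2) (g : (ZMod 2)[X]), lm n 0 (C z * g) = z * lm n 0 g := by
    intro z g
    have hz : z = 0 ∨ z = 1 := by revert z; decide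
    rcases hz with rfl | rfl
    · rw [C_0, zero_mul, zero_mul, trk_zero]
    · rw [C_1, one_mul, one_mul]
  rw [h1, h2, h3, trk_sum]
  have h5 : ∀ k ∈ range (2 ^ (n - 1)), lm n 0 (C (ρ.coeff k) * X ^ (2 * k)) =
      if k = 2 ^ (n - 1) - 1 then ρ.coeff k else 0 := by
    intro k hk
    rw [h4, trk_monomial hn k (mem_range.1 hk)]
    split_ifs <;> simp
  rw [Finset.sum_congr rfl h5, Finset.sum_ite_eq']
  have : 0 < 2 ^ (n - 1) := by positivity
  rw [if_pos (mem_range.2 (by omega))]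

/-! ### Products -/

lemma trk_sum_pow {n : ℕ} (hn : n ≠ 0) : ∑ l ∈ (range n).erase 0, 2 ^ (l - 1) + 1 = 2 ^ (n - 1) := by
  obtain ⟨m, rfl⟩ := Nat.exists_eq_succ_of_ne_zero hn
  induction m with
  | zero => simp
  | succ m ih =>
    have h1 : (range (m + 1 + 1)).erase 0 = insert (m + 1) ((range (m + 1)).erase 0) := by
      ext x
      simp only [mem_erase, mem_range, mem_insert]
      omega
    have h2 : m + 1 ∉ (range (m + 1)).erase 0 := by simp
    have h3 := ih (Nat.succ_ne_zero m)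
    simp only [Nat.succ_eq_add_one] at h3 ⊢
    rw [h1, sum_insert h2, add_assoc, h3]
    have h4 : m + 1 + 1 - 1 = m + 1 := by omega
    have h5 : m + 1 - 1 = m := by omega
    rw [h4, h5]
    ring

lemma trk_prod {n : ℕ} {S : Finset ℕ} (hS : S ⊆ (range n).erase 0) :
    (∏ l ∈ S, T l).Monic ∧ (∏ l ∈ S, T l).natDegree = ∑ l ∈ S, 2 ^ (l - 1) := by
  have h0 : ∀ l ∈ S, l ≠ 0 := fun l hl => (mem_erase.1 (hS hl)).1
  refine ⟨monic_prod_of_monic _ _ fun l hl => trk_monic (h0 l hl), ?_⟩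
  rw [natDegree_prod_of_monic _ _ fun l hl => trk_monic (h0 l hl)]
  exact Finset.sum_congr rfl fun l hl => trk_natDegree (h0 l hl)

/-- Lemma Z -/
lemma trk_Z {n : ℕ} (hn : 2 ≤ n) (d : ℕ) : ∀ (i : ℕ) (S : Finset ℕ), n = i + d → 1 ≤ i →
    S ⊆ (range n).erase 0 → (∃ j ∈ (range n).erase 0, j ∉ S ∧ j ≠ i) →
    lm n 0 (T i * ∏ l ∈ S, T l) = 0 := by
  have hn0 : n ≠ 0 := by omega
  induction d with
  | zero =>
    intro i S hi _ _ _
    have : i = n := by omega
    rw [this]
    exact trk_of_dvd hn0 (dvd_mul_right _ _)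
  | succ d ih =>
    intro i S hi hi1 hS hj
    obtain ⟨j, hj, hjS, hji⟩ := hj
    have hin : i ∈ (range n).erase 0 := mem_erase.2 ⟨by omega, mem_range.2 (by omega)⟩
    have hjpos : 1 ≤ 2 ^ (j - 1) := Nat.one_le_two_pow
    have hipos : 1 ≤ 2 ^ (i - 1) := Nat.one_le_two_pow
    have htot := trk_sum_pow hn0
    by_cases hiS : i ∈ S
    · have hS' : S.erase i ⊆ (range n).erase 0 := (erase_subset _ _).trans hS
      have h1 : T i * ∏ l ∈ S, T l = T (i + 1) * ∏ l ∈ S.erase i, T l +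
          X * ∏ l ∈ S.erase i, T l := by
        rw [← mul_prod_erase S _ hiS, ← mul_assoc, ← sq, trk_sq]
        ring
      rw [h1, trk_add, ih (i + 1) (S.erase i) (by omega) (by omega) hS'
        ⟨i, hin, notMem_erase _ _, by omega⟩, zero_add]
      apply trk_lt hn0
      obtain ⟨hm, hdeg⟩ := trk_prod hS'
      have h2 : (X * ∏ l ∈ S.erase i, T l).natDegree ≤ 1 + ∑ l ∈ S.erase i, 2 ^ (l - 1) := by
        rw [← hdeg]
        exact natDegree_mul_le.trans (by rw [natDegree_X])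
      have h3 : insert j S ⊆ (range n).erase 0 := insert_subset hj hS
      have h4 := Finset.sum_le_sum_of_subset (f := fun l => 2 ^ (l - 1)) h3
      rw [sum_insert hjS, ← add_sum_erase S _ hiS] at h4
      have h5 : 3 ≤ 2 ^ (j - 1) + 2 ^ (i - 1) := by
        have hj0 : j ≠ 0 := (mem_erase.1 hj).1
        rcases Nat.lt_or_gt_of_ne hji with h | h
        · have : 2 ^ 1 ≤ 2 ^ (i - 1) := Nat.pow_le_pow_right (by norm_num) (by omega)
          omega
        · have : 2 ^ 1 ≤ 2 ^ (j - 1) := Nat.pow_le_pow_right (by norm_num) (by omega)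
          omega
      omega
    · have h1 : T i * ∏ l ∈ S, T l = ∏ l ∈ insert i S, T l := (prod_insert hiS).symm
      rw [h1]
      apply trk_lt hn0
      obtain ⟨hm, hdeg⟩ := trk_prod (insert_subset hin hS)
      rw [hdeg, sum_insert hiS]
      have h3 : insert j (insert i S) ⊆ (range n).erase 0 := insert_subset hj (insert_subset hin hS)
      have h4 := Finset.sum_le_sum_of_subset (f := fun l => 2 ^ (l - 1)) h3
      rw [sum_insert (by simp [hji, hjS]), sum_insert hiS] at h4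
      omega

/-- the product of all `T l`, `1 ≤ l < n` -/
lemma trk_alpha {n : ℕ} (hn : n ≠ 0) : lm n 0 (∏ l ∈ (range n).erase 0, T l) = 1 := by
  obtain ⟨hm, hdeg⟩ := trk_prod (Finset.Subset.refl ((range n).erase 0))
  have htot := trk_sum_pow hn
  rw [trk_small hn (by rw [hdeg]; omega)]
  have h1 : 2 ^ (n - 1) - 1 = (∏ l ∈ (range n).erase 0, T l).natDegree := by
    rw [hdeg]; omega
  rw [h1]
  exact hm

lemma trk_C1 {n k : ℕ} (hn : 2 ≤ n) (hk : k ∈ (range n).erase 0) :
    lm n 0 (T k * ∏ l ∈ ((range n).erase 0).erase k, T l) = 1 := by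
  rw [mul_prod_erase _ _ hk, trk_alpha (by omega)]

lemma trk_C2 {n i k : ℕ} (hn : 2 ≤ n) (hk : k ∈ (range n).erase 0) (hi1 : 1 ≤ i) (hin : i ≤ n)
    (hik : i ≠ k) : lm n 0 (T i * ∏ l ∈ ((range n).erase 0).erase k, T l) = 0 :=
  trk_Z hn (n - i) i _ (by omega) hi1 (erase_subset _ _) ⟨k, hk, notMem_erase _ _, hik.symm⟩

lemma trk_C3 {n i : ℕ} (hi2 : 2 ≤ i) (hin : i < n) :
    lm n 0 (T i * ∏ l ∈ (range n).erase 0, T l) = 0 := by
  have hn : 2 ≤ n := by omega
  have hn0 : n ≠ 0 := by omega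
  have hi : i ∈ (range n).erase 0 := mem_erase.2 ⟨by omega, mem_range.2 hin⟩
  have h1 : T i * ∏ l ∈ (range n).erase 0, T l =
      T (i + 1) * ∏ l ∈ ((range n).erase 0).erase i, T l +
        X * ∏ l ∈ ((range n).erase 0).erase i, T l := by
    rw [← mul_prod_erase _ _ hi, ← mul_assoc, ← sq, trk_sq]
    ring
  rw [h1, trk_add, trk_C2 hn hi (by omega) (by omega) (by omega), zero_add]
  apply trk_lt hn0
  obtain ⟨hm, hdeg⟩ := trk_prod (erase_subset i ((range n).erase 0))
  have h2 : (X * ∏ l ∈ ((range n).erase 0).erase i, T l).natDegree ≤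
      1 + ∑ l ∈ ((range n).erase 0).erase i, 2 ^ (l - 1) := by
    rw [← hdeg]
    exact natDegree_mul_le.trans (by rw [natDegree_X])
  have htot := trk_sum_pow hn0
  rw [← add_sum_erase _ _ hi] at htot
  have h5 : 2 ^ 1 ≤ 2 ^ (i - 1) := Nat.pow_le_pow_right (by norm_num) (by omega)
  omega

/-! ### The square of `kap` -/

/-- index shift -/
lemma trk_shift {n s : ℕ} (hn : s + 2 ≤ n) {i : ℕ} (hi : i < n) :
    T n ∣ (T (n - 1 - s) + T i) ^ (2 ^ (s + 1)) - T ((i + s + 1) % n) := by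
  rw [add_pow_char_pow, trk_pow, trk_pow]
  have e1 : n - 1 - s + (s + 1) = n := by omega
  rw [e1]
  by_cases h : i + s + 1 < n
  · rw [Nat.mod_eq_of_lt h]
    refine ⟨1, ?_⟩
    rw [← add_assoc]
    linear_combination CharTwo.add_self_eq_zero (T (s + 1))
  · have h2 : (i + s + 1) % n = i + s + 1 - n := by
      rw [Nat.mod_eq_sub_mod (by omega), Nat.mod_eq_of_lt (by omega)]
    rw [h2]
    have h3 := trk_pow n (i + s + 1 - n)
    have h4 : n + (i + s + 1 - n) = i + (s + 1) := by omega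
    rw [h4] at h3
    have h5 : 2 ^ (i + s + 1 - n) ≠ 0 := by positivity
    refine Dvd.dvd.trans (b := T n + T n ^ (2 ^ (i + s + 1 - n))) ?_ ?_
    · exact dvd_add dvd_rfl (dvd_pow_self _ h5)
    · refine ⟨1, ?_⟩
      rw [h3]
      linear_combination CharTwo.add_self_eq_zero (T (s + 1)) -
        CharTwo.add_self_eq_zero (T (i + s + 1 - n))

/-- the index shift -/
def trk_sg (n s i : ℕ) : ℕ := if i + s + 1 < n then i + s + 1 else i + s + 1 - n

/-- the inverse of the index shift -/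
def trk_sgi (n s k : ℕ) : ℕ := if k < s + 1 then k + n - s - 1 else k - s - 1

lemma trk_shift' {n s : ℕ} (hn : s + 2 ≤ n) {i : ℕ} (hi : i < n) :
    T n ∣ (T (n - 1 - s) + T i) ^ (2 ^ (s + 1)) - T (trk_sg n s i) := by
  have h : (i + s + 1) % n = trk_sg n s i := by
    unfold trk_sg
    split_ifs with h1
    · exact Nat.mod_eq_of_lt h1
    · rw [Nat.mod_eq_sub_mod (by omega), Nat.mod_eq_of_lt (by omega)]
  rw [← h]
  exact trk_shift hn hi

lemma trk_prod_congr {n : ℕ} (E : Finset ℕ) (f g : ℕ → (ZMod 2)[X])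
    (h : ∀ i ∈ E, T n ∣ f i - g i) : T n ∣ ∏ i ∈ E, f i - ∏ i ∈ E, g i := by
  induction E using Finset.induction_on with
  | empty => simp
  | insert a E ha ih =>
    rw [prod_insert ha, prod_insert ha]
    have h1 := ih fun i hi => h i (mem_insert_of_mem hi)
    have h2 := h a (mem_insert_self _ _)
    have h3 : f a * ∏ i ∈ E, f i - g a * ∏ i ∈ E, g i =
        f a * (∏ i ∈ E, f i - ∏ i ∈ E, g i) + (f a - g a) * ∏ i ∈ E, g i := by ring
    rw [h3]
    exact dvd_add (dvd_mul_of_dvd_right h1 _) (dvd_mul_of_dvd_left h2 _)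

lemma trk_reindex {n s : ℕ} (hn : s + 2 ≤ n) :
    ∏ i ∈ (range n).erase (n - 1 - s), T (trk_sg n s i) = ∏ l ∈ (range n).erase 0, T l := by
  refine Finset.prod_nbij' (trk_sg n s) (trk_sgi n s) ?_ ?_ ?_ ?_ ?_
  · intro i hi
    simp only [mem_erase, mem_range, trk_sg] at hi ⊢
    split_ifs <;> omega
  · intro i hi
    simp only [mem_erase, mem_range, trk_sgi] at hi ⊢
    split_ifs <;> omega
  · intro i hi
    simp only [mem_erase, mem_range, trk_sg, trk_sgi] at hi ⊢
    split_ifs <;> omega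
  · intro i hi
    simp only [mem_erase, mem_range, trk_sg, trk_sgi] at hi ⊢
    split_ifs <;> omega
  · intro i _
    rfl

lemma trk_reindex_erase {n s : ℕ} (hn : s + 2 ≤ n) {j : ℕ} (hj : j ∈ (range n).erase (n - 1 - s)) :
    ∏ i ∈ ((range n).erase (n - 1 - s)).erase j, T (trk_sg n s i) =
      ∏ l ∈ ((range n).erase 0).erase (trk_sg n s j), T l := by
  refine Finset.prod_nbij' (trk_sg n s) (trk_sgi n s) ?_ ?_ ?_ ?_ ?_
  · intro i hi
    simp only [mem_erase, mem_range, trk_sg] at hi hj ⊢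
    split_ifs <;> omega
  · intro i hi
    simp only [mem_erase, mem_range, trk_sg, trk_sgi] at hi hj ⊢
    split_ifs at hi ⊢ <;> omega
  · intro i hi
    simp only [mem_erase, mem_range, trk_sg, trk_sgi] at hi ⊢
    split_ifs <;> omega
  · intro i hi
    simp only [mem_erase, mem_range, trk_sg, trk_sgi] at hi ⊢
    split_ifs <;> omega
  · intro i _
    rfl

lemma trk_count {n s : ℕ} (hs : 1 ≤ s) (hn : s + 2 ≤ n) :
    ∑ j ∈ (range n).erase (n - 1 - s), (if n - s = trk_sg n s j then (1 : ZMod 2) else 0) = 1 := by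
  have h1 : ∑ j ∈ (range n).erase (n - 1 - s),
      (if n - s = trk_sg n s j then (1 : ZMod 2) else 0) =
      ∑ k ∈ (range n).erase 0, (if n - s = k then (1 : ZMod 2) else 0) := by
    refine Finset.sum_nbij' (trk_sg n s) (trk_sgi n s) ?_ ?_ ?_ ?_ ?_
    · intro i hi
      simp only [mem_erase, mem_range, trk_sg] at hi ⊢
      split_ifs <;> omega
    · intro i hi
      simp only [mem_erase, mem_range, trk_sgi] at hi ⊢
      split_ifs <;> omega
    · intro i hi
      simp only [mem_erase, mem_range, trk_sg, trk_sgi] at hi ⊢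
      split_ifs <;> omega
    · intro i hi
      simp only [mem_erase, mem_range, trk_sg, trk_sgi] at hi ⊢
      split_ifs <;> omega
    · intro i _
      rfl
  rw [h1, Finset.sum_ite_eq, if_pos]
  simp only [mem_erase, mem_range]
  omega

lemma trk_D_sq (a j : ℕ) : (T a + T j) ^ 2 = T (a + 1) + T (j + 1) := by
  rw [add_pow_char, trk_sq, trk_sq]
  linear_combination CharTwo.add_self_eq_zero (X : (ZMod 2)[X])

/-- The coefficient is one. -/
theorem kap_eval {n s : ℕ} (hs : 1 ≤ s) (hn : s + 2 ≤ n) : lm n 0 (kap n s) = 1 := by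
  have hn2 : 2 ≤ n := by omega
  have hn0 : n ≠ 0 := by omega
  set i0 := n - 1 - s with hi0
  have hi01 : i0 + 1 = n - s := by omega
  have hE : ∀ i ∈ (range n).erase i0, i < n := fun i hi => mem_range.1 (mem_erase.1 hi).2
  have hsq : kap n s ^ 2 =
      (T (n - s) + T n) * ∏ i ∈ (range n).erase i0, (T i0 + T i) ^ (2 ^ (s + 1)) +
      ∑ j ∈ (range n).erase i0, (T (n - s) + T (j + 1)) *
        ∏ i ∈ ((range n).erase i0).erase j, (T i0 + T i) ^ (2 ^ (s + 1)) := by
    have e1 : n - 1 + 1 = n := by omega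
    rw [kap, ← hi0, add_pow_char, sum_pow_char 2, mul_pow, trk_D_sq, hi01, e1, ← pow_mul,
      ← pow_succ, ← Finset.prod_pow]
    congr 1
    refine Finset.sum_congr rfl fun j _ => ?_
    rw [mul_pow, trk_D_sq, hi01, ← pow_mul, ← pow_succ, ← Finset.prod_pow]
  rw [← trk_frob hn2, hsq, trk_add, trk_sum]
  have h1 : lm n 0 ((T (n - s) + T n) *
      ∏ i ∈ (range n).erase i0, (T i0 + T i) ^ (2 ^ (s + 1))) = 0 := by
    have h2 : lm n 0 ((T (n - s) + T n) *
        ∏ i ∈ (range n).erase i0, (T i0 + T i) ^ (2 ^ (s + 1))) =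
        lm n 0 (T (n - s) * ∏ l ∈ (range n).erase 0, T l) := by
      apply trk_congr hn0
      have h3 := trk_prod_congr ((range n).erase i0)
        (fun i => (T i0 + T i) ^ (2 ^ (s + 1))) (fun i => T (trk_sg n s i))
        (fun i hi => trk_shift' hn (hE i hi))
      rw [trk_reindex hn] at h3
      have h4 : (T (n - s) + T n) * ∏ i ∈ (range n).erase i0, (T i0 + T i) ^ (2 ^ (s + 1)) -
          T (n - s) * ∏ l ∈ (range n).erase 0, T l =
          T (n - s) * (∏ i ∈ (range n).erase i0, (T i0 + T i) ^ (2 ^ (s + 1)) -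
            ∏ l ∈ (range n).erase 0, T l) +
          T n * ∏ i ∈ (range n).erase i0, (T i0 + T i) ^ (2 ^ (s + 1)) := by ring
      rw [h4]
      exact dvd_add (dvd_mul_of_dvd_right h3 _) (dvd_mul_right _ _)
    rw [h2]
    exact trk_C3 (by omega) (by omega)
  have h5 : ∀ j ∈ (range n).erase i0, lm n 0 ((T (n - s) + T (j + 1)) *
      ∏ i ∈ ((range n).erase i0).erase j, (T i0 + T i) ^ (2 ^ (s + 1))) =
      if n - s = trk_sg n s j then 1 else 0 := by
    intro j hj
    have hjn := hE j hj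
    have hσ : trk_sg n s j ∈ (range n).erase 0 := by
      have hj2 := hj
      simp only [mem_erase, mem_range, trk_sg] at hj2 ⊢
      split_ifs <;> omega
    have h2 : lm n 0 ((T (n - s) + T (j + 1)) *
        ∏ i ∈ ((range n).erase i0).erase j, (T i0 + T i) ^ (2 ^ (s + 1))) =
        lm n 0 (T (n - s) * ∏ l ∈ ((range n).erase 0).erase (trk_sg n s j), T l +
          T (j + 1) * ∏ l ∈ ((range n).erase 0).erase (trk_sg n s j), T l) := by
      apply trk_congr hn0
      have h3 := trk_prod_congr (((range n).erase i0).erase j)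
        (fun i => (T i0 + T i) ^ (2 ^ (s + 1))) (fun i => T (trk_sg n s i))
        (fun i hi => trk_shift' hn (hE i (mem_of_mem_erase hi)))
      rw [trk_reindex_erase hn hj] at h3
      have h4 : (T (n - s) + T (j + 1)) *
          ∏ i ∈ ((range n).erase i0).erase j, (T i0 + T i) ^ (2 ^ (s + 1)) -
          (T (n - s) * ∏ l ∈ ((range n).erase 0).erase (trk_sg n s j), T l +
            T (j + 1) * ∏ l ∈ ((range n).erase 0).erase (trk_sg n s j), T l) =
          (T (n - s) + T (j + 1)) *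
            (∏ i ∈ ((range n).erase i0).erase j, (T i0 + T i) ^ (2 ^ (s + 1)) -
              ∏ l ∈ ((range n).erase 0).erase (trk_sg n s j), T l) := by ring
      rw [h4]
      exact dvd_mul_of_dvd_right h3 _
    rw [h2, trk_add]
    have h6 : lm n 0 (T (j + 1) * ∏ l ∈ ((range n).erase 0).erase (trk_sg n s j), T l) = 0 := by
      refine trk_C2 hn2 hσ (by omega) (by omega) ?_
      unfold trk_sg
      split_ifs <;> omega
    rw [h6, add_zero]
    by_cases h7 : n - s = trk_sg n s j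
    · rw [if_pos h7, h7]
      exact trk_C1 hn2 hσ
    · rw [if_neg h7]
      exact trk_C2 hn2 hσ (by omega) (by omega) h7
  rw [h1, zero_add, Finset.sum_congr rfl h5]
  exact trk_count hs hn

end Pool.Agent.Lib.MP_416699_nt
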