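import Pool.Agent.Lib.MP_416699_nt.TrJ

/-!
Digit calculus in base `T n` over `ZMod 2`.
-/

open Polynomial

namespace Pool.Agent.Lib.MP_416699_nt

lemma T_monic_deg (n : ℕ) : (T (n + 1)).Monic ∧ (T (n + 1)).natDegree = 2 ^ n := by
  rw [← red_a]
  have h := a_monic_natDegree n
  exact ⟨h.1.map _, (h.1.natDegree_map _).trans h.2⟩

lemma T_monic {n : ℕ} (hn : n ≠ 0) : (T n).Monic := by
  obtain ⟨n, rfl⟩ := Nat.exists_eq_succ_of_ne_zero hn
  exact (T_monic_deg n).1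

lemma T_deg {n : ℕ} (hn : n ≠ 0) : (T n).natDegree = 2 ^ (n - 1) := by
  obtain ⟨n, rfl⟩ := Nat.exists_eq_succ_of_ne_zero hn
  exact (T_monic_deg n).2

lemma lm_add (n i : ℕ) (f g : (ZMod 2)[X]) : lm n i (f + g) = lm n i f + lm n i g := by
  rw [lm, lm, lm, add_modByMonic, coeff_add]

lemma lm_zero (n i : ℕ) : lm n i 0 = 0 := by simp [lm]

lemma lm_sum {ι : Type*} (n i : ℕ) (s : Finset ι) (f : ι → (ZMod 2)[X]) :
    lm n i (∑ j ∈ s, f j) = ∑ j ∈ s, lm n i (f j) := by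
  classical
  induction s using Finset.induction_on with
  | empty => simp [lm_zero]
  | insert a s ha ih => rw [Finset.sum_insert ha, Finset.sum_insert ha, lm_add, ih]

lemma lm_mul_pow {n : ℕ} (hn : n ≠ 0) (i j : ℕ) (f : (ZMod 2)[X]) (h : i < j) :
    lm n i (f * T n ^ j) = 0 := by
  have h1 : T n ^ (i + 1) ∣ f * T n ^ j := (pow_dvd_pow _ h).mul_left f
  rw [lm, (modByMonic_eq_zero_iff_dvd ((T_monic hn).pow _)).2 h1, coeff_zero]

/-- Congruent polynomials have the same digit. -/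
lemma lm_congr {n : ℕ} (hn : n ≠ 0) {i : ℕ} {f g : (ZMod 2)[X]} (h : T n ^ (i + 1) ∣ f - g) :
    lm n i f = lm n i g := by
  obtain ⟨w, hw⟩ := h
  have h1 : f = g + w * T n ^ (i + 1) := by linear_combination hw
  rw [h1, lm_add, lm_mul_pow hn _ _ _ (Nat.lt_succ_self i), add_zero]

/-- A reduced polynomial. -/
lemma lm_of_lt {n : ℕ} (hn : n ≠ 0) {i : ℕ} {f : (ZMod 2)[X]}
    (h : f.natDegree < (i + 1) * 2 ^ (n - 1)) :
    lm n i f = f.coeff ((i + 1) * 2 ^ (n - 1) - 1) := by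
  rw [lm, (modByMonic_eq_self_iff ((T_monic hn).pow _)).2]
  have h2 : ((T n) ^ (i + 1)).natDegree = (i + 1) * 2 ^ (n - 1) := by
    rw [(T_monic hn).natDegree_pow, T_deg hn]
  rw [degree_eq_natDegree ((T_monic hn).pow _).ne_zero, h2]
  exact lt_of_le_of_lt degree_le_natDegree (by exact_mod_cast h)

lemma exists_rep {n : ℕ} (hn : n ≠ 0) (i : ℕ) (f : (ZMod 2)[X]) :
    ∃ ρ g : (ZMod 2)[X], f = ρ + T n ^ (i + 1) * g ∧ ρ.natDegree < (i + 1) * 2 ^ (n - 1) := by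
  have hmon := (T_monic hn).pow (i + 1)
  have h2 : ((T n) ^ (i + 1)).natDegree = (i + 1) * 2 ^ (n - 1) := by
    rw [(T_monic hn).natDegree_pow, T_deg hn]
  refine ⟨f %ₘ T n ^ (i + 1), f /ₘ T n ^ (i + 1), (modByMonic_add_div f _).symm, ?_⟩
  rw [← h2]
  apply natDegree_modByMonic_lt _ hmon
  intro h
  rw [h, natDegree_one] at h2
  have : 0 < (i + 1) * 2 ^ (n - 1) := by positivity
  lia

lemma coeff_sq (ρ : (ZMod 2)[X]) (k : ℕ) : (ρ ^ 2).coeff (2 * k) = ρ.coeff k ∧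
    (ρ ^ 2).coeff (2 * k + 1) = 0 := by
  have h : ρ ^ 2 = expand (ZMod 2) 2 ρ := by
    have := ZMod.expand_card (p := 2) ρ
    rw [this]
  rw [h]
  constructor
  · rw [mul_comm, coeff_expand_mul two_pos]
  · rw [coeff_expand two_pos, if_neg (by lia)]

lemma lm_sq {n : ℕ} (hn : n ≠ 0) (j : ℕ) (f : (ZMod 2)[X]) :
    lm n (2 * j + 1) (f ^ 2) = 0 ∧ lm n (2 * j + 1) (f ^ 2 * X) = lm n j f := by
  obtain ⟨ρ, g, hf, hρ⟩ := exists_rep hn j f
  have hH : 1 ≤ 2 ^ (n - 1) := Nat.one_le_two_pow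
  set H := 2 ^ (n - 1) with hHdef
  have hHj : 1 ≤ (j + 1) * H := Nat.mul_pos (Nat.succ_pos j) hH
  have h2 : f ^ 2 = ρ ^ 2 + g ^ 2 * T n ^ (2 * j + 1 + 1) := by
    have h3 : (ρ + T n ^ (j + 1) * g) ^ 2 = ρ ^ 2 + (T n ^ (j + 1) * g) ^ 2 :=
      CharTwo.add_sq ρ (T n ^ (j + 1) * g)
    rw [hf, h3]
    ring
  have hd : (ρ ^ 2).natDegree ≤ 2 * ((j + 1) * H - 1) := by
    refine natDegree_pow_le.trans ?_
    lia
  have e1 : (2 * j + 1 + 1) * H = 2 * ((j + 1) * H) := by ring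
  constructor
  · rw [h2, lm_add, lm_mul_pow hn _ _ _ (Nat.lt_succ_self _), add_zero, lm_of_lt hn, ← hHdef, e1,
      show 2 * ((j + 1) * H) - 1 = 2 * ((j + 1) * H - 1) + 1 by lia]
    · exact (coeff_sq ρ _).2
    · rw [← hHdef, e1]; lia
  · have h3 : f ^ 2 * X = ρ ^ 2 * X + (g ^ 2 * X) * T n ^ (2 * j + 1 + 1) := by rw [h2]; ring
    rw [h3, lm_add, lm_mul_pow hn _ _ _ (Nat.lt_succ_self _), add_zero, lm_of_lt hn, ← hHdef, e1,
      show 2 * ((j + 1) * H) - 1 = 2 * ((j + 1) * H - 1) + 1 by lia, coeff_mul_X,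
      (coeff_sq ρ _).1, hf, lm_add, mul_comm (T n ^ (j + 1)) g,
      lm_mul_pow hn _ _ _ (Nat.lt_succ_self _), add_zero, lm_of_lt hn hρ]
    refine lt_of_le_of_lt natDegree_mul_le ?_
    rw [← hHdef, e1]
    have := natDegree_X_le (R := ZMod 2)
    lia

lemma lm_sq_T {n : ℕ} (hn : n ≠ 0) (j : ℕ) (f : (ZMod 2)[X]) :
    lm n (2 * j + 1) (f ^ 2 * T n) = lm n j f := by
  obtain ⟨n, rfl⟩ := Nat.exists_eq_succ_of_ne_zero hn
  have h : f ^ 2 * T (n + 1) = (f * T n) ^ 2 + f ^ 2 * X := by rw [T_succ]; ring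
  rw [Nat.succ_eq_add_one, h, lm_add, (lm_sq hn j _).1, (lm_sq hn j f).2, zero_add]

/-- Digits of a high power. -/
lemma lm_pow {n : ℕ} (hn : n ≠ 0) (b : ℕ) : ∀ (k : (ZMod 2)[X]) (i : ℕ),
    lm n (2 ^ b - 1) (k ^ (2 ^ b) * T n ^ i) = if i = 2 ^ b - 1 then lm n 0 k else 0 := by
  induction b with
  | zero =>
    intro k i
    rw [pow_zero, pow_one, Nat.sub_self]
    split_ifs with h
    · rw [h, pow_zero, mul_one]
    · exact lm_mul_pow hn _ _ _ (Nat.pos_of_ne_zero h)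
  | succ b ih =>
    intro k i
    have hb : 1 ≤ 2 ^ b := Nat.one_le_two_pow
    have e : 2 ^ (b + 1) - 1 = 2 * (2 ^ b - 1) + 1 := by
      have : 2 ^ (b + 1) = 2 * 2 ^ b := by ring
      lia
    rw [e]
    rcases Nat.even_or_odd' i with ⟨i', rfl | rfl⟩
    · have h1 : k ^ 2 ^ (b + 1) * T n ^ (2 * i') = (k ^ 2 ^ b * T n ^ i') ^ 2 := by ring
      rw [h1, (lm_sq hn _ _).1, if_neg (by lia)]
    · have h1 : k ^ 2 ^ (b + 1) * T n ^ (2 * i' + 1) = (k ^ 2 ^ b * T n ^ i') ^ 2 * T n := by ring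
      rw [h1, lm_sq_T hn, ih]
      have : (i' = 2 ^ b - 1) ↔ (2 * i' + 1 = 2 * (2 ^ b - 1) + 1) := by lia
      simp only [this]

/-- The coefficientwise power map. -/
noncomputable def frob (b : ℕ) : (ZMod 2)[X] →+* (ZMod 2)[X] := iterateFrobenius (ZMod 2)[X] 2 b

lemma frob_apply (b : ℕ) (x : (ZMod 2)[X]) : frob b x = x ^ (2 ^ b) := iterateFrobenius_def _ _ _

lemma lm_eval {n : ℕ} (hn : n ≠ 0) (b : ℕ) (p : (ZMod 2)[X][X]) :
    lm n (2 ^ b - 1) ((p.map (frob b)).eval (T n)) = lm n 0 (p.coeff (2 ^ b - 1)) := by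
  rw [eval_map, eval₂_eq_sum_range, lm_sum]
  have h1 : ∀ i ∈ Finset.range (p.natDegree + 1), lm n (2 ^ b - 1) (frob b (p.coeff i) * T n ^ i) =
      if i = 2 ^ b - 1 then lm n 0 (p.coeff i) else 0 := by
    intro i _
    rw [frob_apply, lm_pow hn]
  rw [Finset.sum_congr rfl h1, Finset.sum_ite_eq']
  split_ifs with h
  · rfl
  · rw [coeff_eq_zero_of_natDegree_lt, lm_zero]
    rw [Finset.mem_range] at h
    lia

end Pool.Agent.Lib.MP_416699_nt
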