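import Pool.Agent.Lib.MP_416699_nt.TrL

/-!
The digit of `R̄ Ā ^ (r-1) Ā'`.
-/

open Polynomial

namespace Pool.Agent.Lib.MP_416699_nt

lemma trm_pow_char {R : Type*} [CommRing R] [CharP R 2] (P : R[X]) (s : ℕ) :
    P ^ 2 ^ s = X ^ 2 ^ s * P.divX ^ 2 ^ s + C (P.coeff 0 ^ 2 ^ s) := by
  conv_lhs => rw [← divX_mul_X_add P]
  rw [add_pow_char_pow, mul_pow, C_pow, mul_comm]

lemma trm_identity {R ι : Type*} [CommRing R] [DecidableEq ι] (J : Finset ι) (d : ι → R)
    (P : R[X]) {r : ℕ} (hr : 1 ≤ r) :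
    P * (X * ∏ j ∈ J, (X + C (d j))) ^ (r - 1) * derivative (X * ∏ j ∈ J, (X + C (d j))) =
      (P * ((∏ j ∈ J, (X + C (d j))) ^ r +
        X * ∑ j ∈ J, (∏ i ∈ J.erase j, (X + C (d i))) ^ r * (X + C (d j)) ^ (r - 1))) *
        X ^ (r - 1) := by
  obtain ⟨q, rfl⟩ : ∃ q, r = q + 1 := ⟨r - 1, by omega⟩
  rw [Nat.add_sub_cancel]
  have h1 : derivative (∏ j ∈ J, (X + C (d j))) = ∑ j ∈ J, ∏ i ∈ J.erase j, (X + C (d i)) := by
    rw [derivative_prod_finset]
    refine Finset.sum_congr rfl fun j _ => ?_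
    simp
  have h2 : ∀ j ∈ J, (∏ i ∈ J.erase j, (X + C (d i))) ^ (q + 1) * (X + C (d j)) ^ q =
      (∏ i ∈ J, (X + C (d i))) ^ q * ∏ i ∈ J.erase j, (X + C (d i)) := by
    intro j hj
    rw [← Finset.mul_prod_erase J (fun i => (X + C (d i))) hj, mul_pow]
    ring
  rw [derivative_mul, derivative_X, h1, Finset.sum_congr rfl h2, ← Finset.mul_sum]
  ring

lemma coeff_key {R ι : Type*} [CommRing R] [CharP R 2] [DecidableEq ι] (J : Finset ι) (d : ι → R)
    (v w : R) {s : ℕ} (hs : 1 ≤ s) :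
    (((X + C v) + (X + C w) * X ^ 2 ^ s + X ^ (2 * 2 ^ s)) *
        (X * ∏ j ∈ J, (X + C (d j))) ^ (2 ^ s - 1) *
        derivative (X * ∏ j ∈ J, (X + C (d j)))).coeff (2 * 2 ^ s - 1) =
      w * (∏ j ∈ J, d j) ^ 2 ^ s + ∑ j ∈ J, d j * (∏ i ∈ J.erase j, d i) ^ 2 ^ s := by
  have hr2 : 2 ≤ 2 ^ s := by
    calc 2 = 2 ^ 1 := (pow_one 2).symm
      _ ≤ 2 ^ s := Nat.pow_le_pow_right (by norm_num) hs
  rw [trm_identity J d _ (r := 2 ^ s) (by omega)]
  have e0 : 2 * 2 ^ s - 1 = 2 ^ s + (2 ^ s - 1) := by omega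
  rw [e0, coeff_mul_X_pow]
  set B : R[X] := ∏ j ∈ J, (X + C (d j)) with hB
  have hB0 : B.coeff 0 = ∏ j ∈ J, d j := by
    rw [hB, coeff_zero_eq_eval_zero, eval_prod]
    refine Finset.prod_congr rfl fun j _ => ?_
    simp
  have hE0 : ∀ j, (∏ i ∈ J.erase j, (X + C (d i)) : R[X]).coeff 0 = ∏ i ∈ J.erase j, d i := by
    intro j
    rw [coeff_zero_eq_eval_zero, eval_prod]
    refine Finset.prod_congr rfl fun i _ => ?_
    simp
  have hB1 : B.coeff 1 = ∑ j ∈ J, ∏ i ∈ J.erase j, d i := by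
    have h1 : derivative B = ∑ j ∈ J, ∏ i ∈ J.erase j, (X + C (d i)) := by
      rw [hB, derivative_prod_finset]
      refine Finset.sum_congr rfl fun j _ => ?_
      simp
    have h2 := coeff_derivative B 0
    rw [h1, finsetSum_coeff] at h2
    simp only [hE0] at h2
    rw [h2]
    simp
  -- the first part
  have hA : (((X + C v) + (X + C w) * X ^ 2 ^ s + X ^ (2 * 2 ^ s)) * B ^ 2 ^ s).coeff (2 ^ s) =
      v * B.coeff 1 ^ 2 ^ s + w * B.coeff 0 ^ 2 ^ s := by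
    rw [trm_pow_char B s]
    obtain ⟨q, hq⟩ : ∃ q, 2 ^ s = q + 1 := ⟨2 ^ s - 1, by omega⟩
    have hq1 : 1 ≤ q := by omega
    have h1 : ((X + C v) + (X + C w) * X ^ 2 ^ s + X ^ (2 * 2 ^ s)) *
        (X ^ 2 ^ s * B.divX ^ 2 ^ s + C (B.coeff 0 ^ 2 ^ s)) =
        ((X + C v) * B.divX ^ 2 ^ s + (X + C w) * C (B.coeff 0 ^ 2 ^ s)) * X ^ 2 ^ s +
        (((X + C w) * B.divX ^ 2 ^ s + C (B.coeff 0 ^ 2 ^ s) + X ^ 2 ^ s * B.divX ^ 2 ^ s) *
          X ^ 2 ^ s) * X ^ 2 ^ s + (X + C v) * C (B.coeff 0 ^ 2 ^ s) := by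
      rw [two_mul, pow_add]
      ring
    rw [h1, coeff_add, coeff_add]
    have h2 : (((X + C v) * B.divX ^ 2 ^ s + (X + C w) * C (B.coeff 0 ^ 2 ^ s)) *
        X ^ 2 ^ s).coeff (2 ^ s) = v * B.coeff 1 ^ 2 ^ s + w * B.coeff 0 ^ 2 ^ s := by
      have := coeff_mul_X_pow ((X + C v) * B.divX ^ 2 ^ s + (X + C w) * C (B.coeff 0 ^ 2 ^ s))
        (2 ^ s) 0
      rw [zero_add] at this
      rw [this, coeff_zero_eq_eval_zero]
      have h3 : B.divX.eval 0 = B.coeff 1 := by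
        rw [← coeff_zero_eq_eval_zero, coeff_divX]
      simp [h3]
    have h4 : ((((X + C w) * B.divX ^ 2 ^ s + C (B.coeff 0 ^ 2 ^ s) + X ^ 2 ^ s * B.divX ^ 2 ^ s) *
          X ^ 2 ^ s) * X ^ 2 ^ s).coeff (2 ^ s) = 0 := by
      have := coeff_mul_X_pow (((X + C w) * B.divX ^ 2 ^ s + C (B.coeff 0 ^ 2 ^ s) +
        X ^ 2 ^ s * B.divX ^ 2 ^ s) * X ^ 2 ^ s) (2 ^ s) 0
      rw [zero_add] at this
      rw [this, coeff_mul_X_pow', if_neg (by omega)]
    have h5 : ((X + C v) * C (B.coeff 0 ^ 2 ^ s)).coeff (2 ^ s) = 0 := by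
      rw [coeff_mul_C, coeff_add, coeff_X, coeff_C, if_neg (by omega), if_neg (by omega)]
      simp
    rw [h2, h4, h5, add_zero, add_zero]
  -- the second part
  have hBj : ∀ j ∈ J, (((X + C v) + (X + C w) * X ^ 2 ^ s + X ^ (2 * 2 ^ s)) *
      (X * ((∏ i ∈ J.erase j, (X + C (d i))) ^ 2 ^ s * (X + C (d j)) ^ (2 ^ s - 1)))).coeff (2 ^ s) =
      (∏ i ∈ J.erase j, d i) ^ 2 ^ s * (d j + v) := by
    intro j _
    rw [trm_pow_char (∏ i ∈ J.erase j, (X + C (d i))) s, hE0]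
    set E : R[X] := (∏ i ∈ J.erase j, (X + C (d i))).divX with hE
    set e : R := (∏ i ∈ J.erase j, d i) ^ 2 ^ s with he
    obtain ⟨q, hq⟩ : ∃ q, 2 ^ s = q + 2 := ⟨2 ^ s - 2, by omega⟩
    have hodd : ((q + 1 : ℕ) : R) = 1 := by
      have h1 : ((q + 2 : ℕ) : R) = 0 := by
        rw [← hq]
        push_cast
        have h2 : (2 : R) = 0 := CharTwo.two_eq_zero
        rw [h2, zero_pow (by omega)]
      push_cast at h1 ⊢
      have h2 : (2 : R) = 0 := CharTwo.two_eq_zero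
      have h3 : (q : R) = 0 := by
        rw [h2, add_zero] at h1
        exact h1
      rw [h3, zero_add]
    have e1 : 2 ^ s - 1 = q + 1 := by omega
    have h1 : ((X + C v) + (X + C w) * X ^ 2 ^ s + X ^ (2 * 2 ^ s)) *
        (X * ((X ^ 2 ^ s * E ^ 2 ^ s + C e) * (X + C (d j)) ^ (2 ^ s - 1))) =
        (C e * ((X + C v) * (X + C (d j)) ^ (q + 1))) * X +
        (((X + C v) * E ^ 2 ^ s + ((X + C w) + X ^ 2 ^ s) * (X ^ 2 ^ s * E ^ 2 ^ s + C e)) *
          (X + C (d j)) ^ (q + 1) * X) * X ^ 2 ^ s := by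
      rw [e1, two_mul, pow_add]
      ring
    rw [h1, coeff_add]
    have h2 : ((((X + C v) * E ^ 2 ^ s + ((X + C w) + X ^ 2 ^ s) * (X ^ 2 ^ s * E ^ 2 ^ s + C e)) *
          (X + C (d j)) ^ (q + 1) * X) * X ^ 2 ^ s).coeff (2 ^ s) = 0 := by
      have := coeff_mul_X_pow (((X + C v) * E ^ 2 ^ s +
        ((X + C w) + X ^ 2 ^ s) * (X ^ 2 ^ s * E ^ 2 ^ s + C e)) *
          (X + C (d j)) ^ (q + 1) * X) (2 ^ s) 0
      rw [zero_add] at this
      rw [this, mul_coeff_zero, coeff_X_zero, mul_zero]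
    have h3 : ((C e * ((X + C v) * (X + C (d j)) ^ (q + 1))) * X).coeff (2 ^ s) =
        e * (d j + v) := by
      rw [hq, show q + 2 = (q + 1) + 1 from rfl, coeff_mul_X, coeff_C_mul, add_mul, coeff_add,
        mul_comm X, coeff_mul_X, coeff_C_mul, coeff_X_add_C_pow, coeff_X_add_C_pow,
        Nat.choose_self, Nat.sub_self, Nat.add_sub_cancel_left, Nat.choose_succ_self_right, hodd]
      simp
    rw [h2, h3, add_zero]
  rw [mul_add, coeff_add, hA, Finset.mul_sum, Finset.mul_sum, finsetSum_coeff,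
    Finset.sum_congr rfl hBj, hB0, hB1, sum_pow_char_pow 2]
  have h9 : ∑ j ∈ J, (∏ i ∈ J.erase j, d i) ^ 2 ^ s * (d j + v) =
      ∑ j ∈ J, d j * (∏ i ∈ J.erase j, d i) ^ 2 ^ s +
        v * ∑ j ∈ J, (∏ i ∈ J.erase j, d i) ^ 2 ^ s := by
    rw [Finset.mul_sum, ← Finset.sum_add_distrib]
    refine Finset.sum_congr rfl fun j _ => ?_
    ring
  rw [h9]
  linear_combination CharTwo.add_self_eq_zero (v * ∑ j ∈ J, (∏ i ∈ J.erase j, d i) ^ 2 ^ s)

lemma trm_T_pow (a m : ℕ) : T a ^ (2 ^ m) = T (a + m) + T m := by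
  induction m with
  | zero => simp [T]
  | succ m ih =>
    rw [pow_succ, pow_mul, ih, add_pow_char, ← add_assoc, T_succ (a + m), T_succ m]
    linear_combination -(CharTwo.add_self_eq_zero (X : (ZMod 2)[X]))

lemma lm_RA {n s : ℕ} (hs : 1 ≤ s) (hn : s + 2 ≤ n) :
    lm n (2 * 2 ^ s - 1) ((T (s + 1) + T s * T n ^ 2 ^ s) *
        (∏ i ∈ Finset.range n, T (s + 1 + i)) ^ (2 ^ s - 1) *
        derivative (∏ i ∈ Finset.range n, T (s + 1 + i))) =
      lm n 0 (kap n s) := by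
  have hn0 : n ≠ 0 := by omega
  set i0 := n - 1 - s with hi0
  have hi0n : i0 ∈ Finset.range n := Finset.mem_range.2 (by omega)
  set J := (Finset.range n).erase i0 with hJ
  set d : ℕ → (ZMod 2)[X] := fun j => T i0 + T j with hd
  set p : (ZMod 2)[X][X] := ((X + C (T i0)) + (X + C (T i0 + T (n - 1))) * X ^ 2 ^ s +
      X ^ (2 * 2 ^ s)) * (X * ∏ j ∈ J, (X + C (d j))) ^ (2 ^ s - 1) *
      derivative (X * ∏ j ∈ J, (X + C (d j))) with hp
  have hkey : p.coeff (2 * 2 ^ s - 1) = kap n s := by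
    rw [hp, coeff_key J d (T i0) (T i0 + T (n - 1)) hs, kap]
  have e2 : 2 ^ (s + 1) = 2 * 2 ^ s := by ring
  have h1 := lm_eval hn0 (s + 1) p
  rw [e2, hkey] at h1
  rw [← h1]
  congr 1
  -- evaluation
  have hdp : ∀ j, frob (s + 1) (d j) = T n + T (s + 1 + j) := by
    intro j
    rw [frob_apply, hd]
    simp only
    rw [add_pow_char_pow, trm_T_pow, trm_T_pow]
    have e3 : i0 + (s + 1) = n := by omega
    rw [e3, add_comm j (s + 1)]
    linear_combination CharTwo.add_self_eq_zero (T (s + 1))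
  have hXB : (X * ∏ j ∈ J, (X + C (d j))).map (frob (s + 1)) =
      ∏ j ∈ Finset.range n, (X + C (T n + T (s + 1 + j))) := by
    rw [← Finset.mul_prod_erase (Finset.range n) (fun j => (X + C (T n + T (s + 1 + j)))) hi0n]
    have e3 : s + 1 + i0 = n := by omega
    rw [Polynomial.map_mul, Polynomial.map_prod, map_X, e3, CharTwo.add_self_eq_zero, C_0, add_zero]
    congr 1
    refine Finset.prod_congr rfl fun j _ => ?_
    rw [Polynomial.map_add, map_X, map_C, hdp]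
  have hev : ∀ j, (X + C (T n + T (s + 1 + j)) : (ZMod 2)[X][X]).eval (T n) = T (s + 1 + j) := by
    intro j
    rw [eval_add, eval_X, eval_C]
    linear_combination CharTwo.add_self_eq_zero (T n)
  have hprod : (∏ j ∈ Finset.range n, (X + C (T n + T (s + 1 + j))) : (ZMod 2)[X][X]).eval (T n) =
      ∏ i ∈ Finset.range n, T (s + 1 + i) := by
    rw [eval_prod]
    exact Finset.prod_congr rfl fun j _ => hev j
  have hder : (derivative (∏ j ∈ Finset.range n, (X + C (T n + T (s + 1 + j))) :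
      (ZMod 2)[X][X])).eval (T n) = derivative (∏ i ∈ Finset.range n, T (s + 1 + i)) := by
    rw [derivative_prod_finset, derivative_prod_finset, eval_finset_sum]
    refine Finset.sum_congr rfl fun j _ => ?_
    have h5 : derivative (T (s + 1 + j)) = 1 := derivative_T (by omega)
    rw [eval_mul, eval_prod, h5, Finset.prod_congr rfl fun i _ => hev i]
    simp
  have hR : (((X + C (T i0)) + (X + C (T i0 + T (n - 1))) * X ^ 2 ^ s +
      X ^ (2 * 2 ^ s)).map (frob (s + 1))).eval (T n) = T (s + 1) + T s * T n ^ 2 ^ s := by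
    have h5 : frob (s + 1) (T i0) = T n + T (s + 1) := by
      rw [frob_apply, trm_T_pow]
      have e3 : i0 + (s + 1) = n := by omega
      rw [e3]
    have h6 : frob (s + 1) (T i0 + T (n - 1)) = T n + T (n + s) := by
      have := hdp (n - 1)
      have e3 : s + 1 + (n - 1) = n + s := by omega
      rw [e3] at this
      exact this
    have h7 := trm_T_pow n s
    simp only [Polynomial.map_add, Polynomial.map_mul, Polynomial.map_pow, map_X, map_C, h5, h6,
      eval_add, eval_mul, eval_pow, eval_X, eval_C]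
    rw [two_mul, pow_add, h7]
    linear_combination CharTwo.add_self_eq_zero (T n) + (T (n + s) + T s) *
      (CharTwo.add_self_eq_zero (T n) + CharTwo.add_self_eq_zero (T (n + s)))
  rw [hp, Polynomial.map_mul, Polynomial.map_mul, Polynomial.map_pow, ← derivative_map, hXB,
    eval_mul, eval_mul, eval_pow, hR, hprod, hder]

end Pool.Agent.Lib.MP_416699_nt
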