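import Pool.Agent.Lib.MP_416699_nt.TrI


open Polynomial

namespace Pool.Agent.Lib.MP_416699_nt

lemma coe_two : ((2 : OO) : ℂ) = 2 := map_ofNat (algebraMap OO ℂ) 2

lemma castC_injective : Function.Injective (Polynomial.map (Int.castRingHom ℂ)) :=
  Polynomial.map_injective _ Int.cast_injective

/-- `LR` is multiplicative. -/
lemma LR_prod {ι : Type*} (s : Finset ι) (f : ι → ℤ[X]) (hf : ∀ i ∈ s, (f i).Monic) (g : ℤ[X]) :
    LR (∏ i ∈ s, f i) g = ∏ i ∈ s, LR (f i) g := by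
  classical
  induction s using Finset.induction_on with
  | empty =>
    apply castC_injective
    rw [Finset.prod_empty, Finset.prod_empty, LR_map monic_one, Polynomial.map_one]
    simp [rt, PP_zero]
  | insert i s hi ih =>
    have hf' : ∀ j ∈ s, (f j).Monic := fun j hj => hf j (Finset.mem_insert_of_mem hj)
    have h1 : (f i).Monic := hf i (Finset.mem_insert_self i s)
    have h2 : (∏ i ∈ s, f i).Monic := monic_prod_of_monic _ _ hf'
    rw [Finset.prod_insert hi, Finset.prod_insert hi, ← ih hf']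
    apply castC_injective
    have h3 : rt (f i * ∏ i ∈ s, f i) = rt (f i) + rt (∏ i ∈ s, f i) := by
      rw [rt, Polynomial.map_mul, roots_mul (mul_ne_zero (h1.map _).ne_zero (h2.map _).ne_zero)]
      rfl
    rw [LR_map (h1.mul h2), Polynomial.map_mul, LR_map h1, LR_map h2, h3, Multiset.map_add,
      PP_add]

/-- a product of polynomials `1 + 2 u` modulo `4` -/
lemma prod_one_add {ι : Type*} (s : Finset ι) (u : ι → ℤ[X]) :
    ∃ w : ℤ[X], ∏ i ∈ s, (1 + 2 * u i) = 1 + 2 * ∑ i ∈ s, u i + 4 * w := by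
  classical
  induction s using Finset.induction_on with
  | empty => exact ⟨0, by simp⟩
  | insert i s hi ih =>
    obtain ⟨w, hw⟩ := ih
    rw [Finset.prod_insert hi, Finset.sum_insert hi, hw]
    exact ⟨w + u i * ∑ i ∈ s, u i + 2 * u i * w, by ring⟩

lemma exists_half {L : ℤ[X]} (h0 : L.coeff 0 = 1) (h : ∀ n, n ≠ 0 → 2 ∣ L.coeff n) :
    ∃ u : ℤ[X], L = 1 + 2 * u := by
  have h1 : (C 2 : ℤ[X]) ∣ L - 1 := by
    rw [C_dvd_iff_dvd_coeff]
    intro n
    rw [coeff_sub, coeff_one]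
    by_cases hn : n = 0
    · subst hn
      rw [h0, if_pos rfl, sub_self]
      exact dvd_zero _
    · rw [if_neg hn, sub_zero]
      exact h n hn
  obtain ⟨u, hu⟩ := h1
  refine ⟨u, ?_⟩
  have h2 : (C 2 : ℤ[X]) = 2 := by simp
  rw [h2] at hu
  rw [← hu]
  ring

/-- the even case -/
lemma four_dvd_coeff_sq {P : Ideal OO} (hP : P.IsMaximal) (h2 : (2 : OO) ∈ P) {Q g g' : ℤ[X]}
    (hQ : Q.Monic) (hg : ∀ c : OO, aeval c Q = 0 → aeval c g ∈ P)
    (hg' : ∀ c ∈ rt Q, aeval c g' = -(aeval c g) ^ 2) {k : ℕ} (hk : k ≠ 0) :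
    4 ∣ (LR Q g').coeff k := by
  have h1 : (LR Q g').comp (X ^ 2) = LR Q g * (LR Q g).comp (-X) := by
    apply castC_injective
    have e1 : ((LR Q g').comp (X ^ 2)).map (Int.castRingHom ℂ) =
        (PP ((rt Q).map (fun c => aeval c g'))).comp (X ^ 2) := by
      rw [Polynomial.map_comp, LR_map hQ, Polynomial.map_pow, map_X]
    have e2 : (LR Q g * (LR Q g).comp (-X)).map (Int.castRingHom ℂ) =
        PP ((rt Q).map (fun c => aeval c g)) * (PP ((rt Q).map (fun c => aeval c g))).comp (-X) := by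
      rw [Polynomial.map_mul, Polynomial.map_comp, LR_map hQ, Polynomial.map_neg, map_X]
    rw [e1, e2]
    apply Polynomial.funext
    intro s
    rw [eval_mul, eval_comp, eval_comp, PP, PP, eval_multiset_prod, eval_multiset_prod,
      eval_multiset_prod]
    simp only [Multiset.map_map, Function.comp_def]
    rw [← Multiset.prod_map_mul]
    congr 1
    refine Multiset.map_congr rfl fun c hc => ?_
    simp only [eval_add, eval_one, eval_mul, eval_C, eval_X, eval_pow, eval_neg]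
    rw [hg' c hc]
    ring
  obtain ⟨M, hM⟩ := exists_half (LR_coeff_zero hQ g) (fun n hn => LR_coeff_even hP h2 hQ hg hn)
  have h3 : (LR Q g').coeff k = ((LR Q g').comp (X ^ 2)).coeff (2 * k) := by
    have : (LR Q g').comp (X ^ 2) = expand ℤ 2 (LR Q g') := by
      rw [expand_eq_comp_X_pow]
    rw [this, mul_comm 2 k, coeff_expand_mul two_pos]
  rw [h3, h1, hM]
  have h4 : (1 + 2 * M) * (1 + 2 * M).comp (-X) =
      1 + 2 * (M + M.comp (-X)) + 4 * (M * M.comp (-X)) := by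
    rw [add_comp, mul_comp, one_comp, ofNat_comp]
    ring
  have h5 : (M.comp (-X)).coeff (2 * k) = M.coeff (2 * k) := by
    rw [show (-X : ℤ[X]) = C (-1) * X by simp, comp_C_mul_X_coeff, pow_mul]
    simp
  have h6 : ∀ (n : ℕ) (p : ℤ[X]), ((2 : ℤ[X]) * p).coeff n = 2 * p.coeff n := by
    intro n p
    rw [show (2 : ℤ[X]) = C 2 by simp, coeff_C_mul]
  have h7 : ∀ (n : ℕ) (p : ℤ[X]), ((4 : ℤ[X]) * p).coeff n = 4 * p.coeff n := by
    intro n p
    rw [show (4 : ℤ[X]) = C 4 by simp, coeff_C_mul]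
  rw [h4, coeff_add, coeff_add, coeff_one, if_neg (by lia), h6, h7, coeff_add, h5]
  exact ⟨M.coeff (2 * k) + (M * M.comp (-X)).coeff (2 * k), by ring⟩

/-- The elements with `2 ^ (j n) ∣ y ^ e`. -/
def Yset (j e n : ℕ) : AddSubgroup OO := AddSubgroup.closure {y : OO | (2 : OO) ^ (j * n) ∣ y ^ e}

lemma Yset_mul {j e n : ℕ} {α y : OO} (hα : (2 : OO) ^ j ∣ α ^ e) (hy : y ∈ Yset j e n) :
    α * y ∈ Yset j e (n + 1) := by
  unfold Yset at hy
  induction hy using AddSubgroup.closure_induction with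
  | mem y hy =>
    apply AddSubgroup.subset_closure
    change (2 : OO) ^ (j * (n + 1)) ∣ (α * y) ^ e
    rw [mul_pow, mul_add, mul_one, pow_add, mul_comm]
    exact mul_dvd_mul hα hy
  | zero => rw [mul_zero]; exact AddSubgroup.zero_mem _
  | add y z _ _ hy hz => rw [mul_add]; exact AddSubgroup.add_mem _ hy hz
  | neg y _ hy => rw [mul_neg]; exact AddSubgroup.neg_mem _ hy

lemma PP_coeff_Yset {j e : ℕ} (R : Multiset ℂ)
    (hR : ∀ α ∈ R, ∃ y : OO, (y : ℂ) = α ∧ (2 : OO) ^ j ∣ y ^ e) :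
    ∀ n, ∃ y : OO, (y : ℂ) = (PP R).coeff n ∧ y ∈ Yset j e n := by
  induction R using Multiset.induction_on with
  | empty =>
    intro n
    rw [PP_zero, coeff_one]
    split_ifs with h
    · subst h
      refine ⟨1, by simp, AddSubgroup.subset_closure ?_⟩
      change (2 : OO) ^ (j * 0) ∣ 1 ^ e
      simp
    · exact ⟨0, by simp, AddSubgroup.zero_mem _⟩
  | cons α R ih =>
    intro n
    have ih' := ih fun β hβ => hR β (Multiset.mem_cons_of_mem hβ)
    cases n with
    | zero =>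
      refine ⟨1, ?_, AddSubgroup.subset_closure ?_⟩
      · rw [PP_coeff_zero]; simp
      · change (2 : OO) ^ (j * 0) ∣ 1 ^ e
        simp
    | succ n =>
      obtain ⟨y, hy, hyα⟩ := hR α (Multiset.mem_cons_self α R)
      obtain ⟨z, hz, hzP⟩ := ih' (n + 1)
      obtain ⟨w, hw, hwP⟩ := ih' n
      refine ⟨z + y * w, ?_, AddSubgroup.add_mem _ hzP (Yset_mul hyα hwP)⟩
      rw [PP_coeff_cons, ← hz, ← hw, ← hy]
      push_cast
      ring

lemma Yset_two {P : Ideal OO} (hP : P.IsMaximal) (h2 : (2 : OO) ∈ P) {j e n : ℕ} (he : e ≠ 0)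
    (hn : e < j * n) {y : OO} (hy : y ∈ Yset j e n) : ∃ z ∈ P, y = 2 * z := by
  unfold Yset at hy
  induction hy using AddSubgroup.closure_induction with
  | mem y hy =>
    obtain ⟨t, ht⟩ : (2 : OO) ^ (e + 1) ∣ y ^ e :=
      dvd_trans (pow_dvd_pow _ (by lia)) (show (2 : OO) ^ (j * n) ∣ y ^ e from hy)
    have h3 : ((y : ℂ) / 2) ^ e = ((2 * t : OO) : ℂ) := by
      have h4 : ((y : ℂ)) ^ e = 2 ^ (e + 1) * (t : ℂ) := by
        have := congrArg (fun z : OO => (z : ℂ)) ht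
        push_cast at this
        exact this
      rw [div_pow, h4]
      push_cast
      rw [coe_two, pow_succ]
      field_simp
    have h5 : IsIntegral ℤ ((y : ℂ) / 2) := by
      apply IsIntegral.of_pow (Nat.pos_of_ne_zero he)
      rw [h3]
      exact (2 * t : OO).2
    refine ⟨⟨(y : ℂ) / 2, h5⟩, ?_, ?_⟩
    · apply hP.isPrime.mem_of_pow_mem e
      have h6 : (⟨(y : ℂ) / 2, h5⟩ : OO) ^ e = 2 * t := by
        apply Subtype.ext
        rw [← h3]
        rfl
      rw [h6]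
      exact P.mul_mem_right _ h2
    · apply Subtype.ext
      push_cast
      rw [coe_two]
      ring
  | zero => exact ⟨0, P.zero_mem, by simp⟩
  | add y z _ _ hy hz =>
    obtain ⟨a, ha, rfl⟩ := hy
    obtain ⟨b, hb, rfl⟩ := hz
    exact ⟨a + b, P.add_mem ha hb, by ring⟩
  | neg y _ hy =>
    obtain ⟨a, ha, rfl⟩ := hy
    exact ⟨-a, P.neg_mem ha, by ring⟩

/-- the case of large exponents -/
lemma four_dvd_coeff_pow {P : Ideal OO} (hP : P.IsMaximal) (h2 : (2 : OO) ∈ P) {Q g : ℤ[X]}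
    (hQ : Q.Monic) {j e k : ℕ} (he : e ≠ 0)
    (hg : ∀ c : OO, aeval c Q = 0 → (2 : OO) ^ j ∣ (aeval c g) ^ e) (hk : e < j * k) :
    4 ∣ (LR Q g).coeff k := by
  obtain ⟨y, hy, hyY⟩ := PP_coeff_Yset (j := j) (e := e) ((rt Q).map (fun c => aeval c g)) (by
    intro α hα
    obtain ⟨c, hc, rfl⟩ := Multiset.mem_map.1 hα
    obtain ⟨c', hc', h0⟩ := exists_OO hQ hc
    refine ⟨aeval c' g, ?_, hg c' h0⟩
    rw [← hc']
    exact (aeval_algebraMap_apply ℂ c' g).symm) k
  obtain ⟨z, hz, hyz⟩ := Yset_two hP h2 he hk hyY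
  have h3 : ((((LR Q g).coeff k : ℤ) : OO)) = 2 * z := by
    rw [← hyz]
    apply (FaithfulSMul.algebraMap_injective OO ℂ)
    change _ = (y : ℂ)
    rw [hy, ← LR_coeff hQ, map_intCast]
  have h4 : 2 ∣ (LR Q g).coeff k := by
    apply even_of_mem hP h2
    rw [h3]
    exact P.mul_mem_right _ h2
  obtain ⟨n, hn⟩ := h4
  have h5 : 2 ∣ n := by
    apply even_of_mem hP h2
    have h6 : ((n : ℤ) : OO) = z := by
      rw [hn] at h3
      push_cast at h3
      have h7 : (2 : OO) ≠ 0 := by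
        intro h8
        have := congrArg (fun z : OO => (z : ℂ)) h8
        push_cast at this
        exact two_ne_zero this
      exact mul_left_cancel₀ h7 h3
    rw [h6]
    exact hz
  obtain ⟨r, hr⟩ := h5
  exact ⟨r, by rw [hn, hr]; ring⟩

/-- S3. Only the roots of exact period `ℓ` contribute modulo `4`. -/
theorem coeff_D_Q {m ℓ k : ℕ} (hm : 2 ≤ m) (hℓ : ℓ ≠ 0) (hk : 2 ^ (m - 1) < 3 * k) :
    4 ∣ (LR (D m ℓ) (A m ℓ)).coeff k - (LR (Q m ℓ) (A m ℓ)).coeff k := by
  classical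
  obtain ⟨P, hP, h2⟩ := exists_PI
  have hm0 : m ≠ 0 := by lia
  have hk0 : k ≠ 0 := by
    rintro rfl
    simp at hk
  -- the values at the roots of the divisors
  have hA : ∀ i ∈ ℓ.divisors, ∀ c : OO, aeval c (Q m i) = 0 →
      aeval c (A m ℓ) = -(-1) ^ (ℓ / i) * (aeval c (A m i)) ^ (ℓ / i) := by
    intro i hi c hc
    obtain ⟨j, hj⟩ := Nat.dvd_of_mem_divisors hi
    have hi0 : i ≠ 0 := (Nat.pos_of_mem_divisors hi).ne'
    have hj0 : j ≠ 0 := by
      rintro rfl
      exact hℓ (by rw [hj, mul_zero])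
    have hji : ℓ / i = j := by rw [hj, Nat.mul_div_cancel_left _ (Nat.pos_of_ne_zero hi0)]
    rw [hji]
    apply (FaithfulSMul.algebraMap_injective OO ℂ)
    rw [← aeval_algebraMap_apply, hj, A_mul hm0 hi0 (c := algebraMap OO ℂ c) ?_ hj0,
      aeval_algebraMap_apply]
    · push_cast
      simp
    · rw [aeval_algebraMap_apply, hc, map_zero]
  have hmem : ∀ i ∈ ℓ.divisors, ∀ c : OO, aeval c (Q m i) = 0 → aeval c (A m ℓ) ∈ P := by
    intro i hi c hc
    rw [hA i hi c hc]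
    apply P.mul_mem_left
    have hi0 : i ≠ 0 := (Nat.pos_of_mem_divisors hi).ne'
    have h3 : 0 < ℓ / i := Nat.div_pos (Nat.le_of_dvd (Nat.pos_of_ne_zero hℓ)
      (Nat.dvd_of_mem_divisors hi)) (Nat.pos_of_ne_zero hi0)
    exact Ideal.pow_mem_of_mem P (A_mem hP h2 hi0 hc) _ h3
  have hmon : ∀ i ∈ ℓ.divisors, (Q m i).Monic := fun i hi =>
    Q_monic hm0 (Nat.pos_of_mem_divisors hi).ne'
  have hhalf : ∀ i ∈ ℓ.divisors, ∃ u : ℤ[X], LR (Q m i) (A m ℓ) = 1 + 2 * u := by
    intro i hi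
    exact exists_half (LR_coeff_zero (hmon i hi) _)
      (fun n hn => LR_coeff_even hP h2 (hmon i hi) (hmem i hi) hn)
  choose! u hu using hhalf
  have h3 : LR (D m ℓ) (A m ℓ) = ∏ i ∈ ℓ.divisors, (1 + 2 * u i) := by
    rw [← prod_Q hm0 hℓ, LR_prod _ _ hmon]
    exact Finset.prod_congr rfl hu
  obtain ⟨w, hw⟩ := prod_one_add ℓ.divisors u
  have h6 : ∀ (n : ℕ) (p : ℤ[X]), ((2 : ℤ[X]) * p).coeff n = 2 * p.coeff n := by
    intro n p
    rw [show (2 : ℤ[X]) = C 2 by simp, coeff_C_mul]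
  have h7 : ∀ (n : ℕ) (p : ℤ[X]), ((4 : ℤ[X]) * p).coeff n = 4 * p.coeff n := by
    intro n p
    rw [show (4 : ℤ[X]) = C 4 by simp, coeff_C_mul]
  have hc : ∀ i ∈ ℓ.divisors, (LR (Q m i) (A m ℓ)).coeff k = 2 * (u i).coeff k := by
    intro i hi
    rw [hu i hi, coeff_add, coeff_one, if_neg hk0, h6, zero_add]
  have h8 : (LR (D m ℓ) (A m ℓ)).coeff k =
      ∑ i ∈ ℓ.divisors, (LR (Q m i) (A m ℓ)).coeff k + 4 * w.coeff k := by
    rw [h3, hw, coeff_add, coeff_add, coeff_one, if_neg hk0, h6, h7, zero_add,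
      finsetSum_coeff, Finset.mul_sum]
    congr 1
    exact Finset.sum_congr rfl fun i hi => (hc i hi).symm
  rw [h8, ← Nat.insert_self_properDivisors hℓ, Finset.sum_insert Nat.self_notMem_properDivisors]
  have h9 : (4 : ℤ) ∣ ∑ i ∈ ℓ.properDivisors, (LR (Q m i) (A m ℓ)).coeff k := by
    apply Finset.dvd_sum
    intro i hi
    obtain ⟨hd, hlt⟩ := Nat.mem_properDivisors.1 hi
    have hi' : i ∈ ℓ.divisors := Nat.mem_divisors.2 ⟨hd, hℓ⟩
    have hi0 : i ≠ 0 := (Nat.pos_of_mem_divisors hi').ne'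
    obtain ⟨j, hj⟩ := hd
    have hji : ℓ / i = j := by rw [hj, Nat.mul_div_cancel_left _ (Nat.pos_of_ne_zero hi0)]
    have hj2 : 2 ≤ j := by
      by_contra hcon
      have : j = 0 ∨ j = 1 := by lia
      rcases this with rfl | rfl
      · exact hℓ (by rw [hj, mul_zero])
      · rw [mul_one] at hj
        lia
    rcases Nat.lt_or_ge 2 j with hj3 | hj3
    · -- large exponent
      refine four_dvd_coeff_pow hP h2 (hmon i hi') (j := j) (e := 2 ^ (m - 1)) (by positivity)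
        ?_ ?_
      · intro c hc
        obtain ⟨B, S, h⟩ := A_pow_eq (m := m) hi0
        have h1 := congrArg (aeval c) h
        rw [map_pow, map_add, map_mul, map_mul, hc, zero_mul, add_zero, map_ofNat] at h1
        rw [hA i hi' c hc, hji, mul_pow, ← pow_mul, mul_comm j, pow_mul, h1, mul_pow]
        exact Dvd.dvd.mul_left (dvd_mul_right _ _) _
      · nlinarith
    · -- exponent two
      have hj' : j = 2 := by lia
      subst hj'
      refine four_dvd_coeff_sq hP h2 (hmon i hi') (g := A m i) (fun c hc => A_mem hP h2 hi0 hc)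
        ?_ hk0
      intro c hc
      obtain ⟨c', hc', h0⟩ := exists_OO (hmon i hi') hc
      have h5 : aeval c (Q m i) = 0 := by
        rw [← hc', aeval_algebraMap_apply, h0, map_zero]
      rw [hj, A_mul hm0 hi0 h5 two_ne_zero]
      ring
  obtain ⟨r, hr⟩ := h9
  rw [hr]
  exact ⟨r + w.coeff k, by ring⟩

end Pool.Agent.Lib.MP_416699_nt
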