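import Pool.Agent.Lib.MP_416699_nt.TrI

/-!
The boundary case of the bound on the totient.
-/

open Polynomial ComplexConjugate

namespace Pool.Agent.Lib.MP_416699_nt

/-- If the value of an integer polynomial at a primitive root of unity is real, and if the
coefficients of index larger than `k`, but not twice the one of index `k`, are divisible by `N`, then
the totient is less than `2 k`. -/
lemma totient_lt_of_coeff {F : ℤ[X]} {q k N : ℕ} (hq : 3 ≤ q) (hk : k ≠ 0) (hN : 2 ≤ N)
    (hF : ∀ i, k < i → (N : ℤ) ∣ F.coeff i) (hFk : ¬ (N : ℤ) ∣ 2 * F.coeff k) {μ : ℂ}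
    (hμ : μ ∈ primitiveRoots q ℂ) (h : aeval μ F = aeval (conj μ) F) :
    q.totient < 2 * k := by
  by_contra hcon
  push Not at hcon
  have hq0 : 0 < q := by lia
  have h1 : IsPrimitiveRoot μ q := (mem_primitiveRoots hq0).1 hμ
  obtain ⟨h2, hpow, -⟩ := prim_facts hq hμ
  have h3 : μ * conj μ = 1 := by
    rw [Complex.mul_conj, Complex.normSq_eq_norm_sq, h2]; simp
  set F0 : ℤ[X] := ∑ i ∈ Finset.range (k + 1), C (F.coeff i) * X ^ i with hF0
  set R : ℤ[X] := ∑ i ∈ Finset.range (k + 1), C (F.coeff i) * X ^ (k - i) with hR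
  have hc0 : ∀ n, F0.coeff n = if n < k + 1 then F.coeff n else 0 := by
    intro n
    rw [hF0, finsetSum_coeff]
    simp only [coeff_C_mul, coeff_X_pow, mul_ite, mul_one, mul_zero]
    rw [Finset.sum_ite_eq]
    simp only [Finset.mem_range]
  have hdvd0 : (C (N : ℤ) : ℤ[X]) ∣ F - F0 := by
    rw [C_dvd_iff_dvd_coeff]
    intro n
    rw [coeff_sub, hc0]
    split_ifs with hn
    · rw [sub_self]
      exact dvd_zero _
    · rw [sub_zero]
      exact hF n (by lia)
  obtain ⟨F1, hF1⟩ := hdvd0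
  have hFeq : F = F0 + C (N : ℤ) * F1 := by rw [← hF1]; ring
  have hRμ : aeval μ R = μ ^ k * aeval (conj μ) F0 := by
    rw [hR, hF0, map_sum, map_sum, Finset.mul_sum]
    refine Finset.sum_congr rfl fun i hi => ?_
    rw [Finset.mem_range] at hi
    rw [map_mul, map_mul, map_pow, map_pow, aeval_X, aeval_X, aeval_C, aeval_C]
    have h4 : μ ^ k * (conj μ) ^ i = μ ^ (k - i) := by
      have h5 : μ ^ k = μ ^ (k - i) * μ ^ i := by rw [← pow_add, Nat.sub_add_cancel (by lia)]
      rw [h5, mul_assoc, ← mul_pow, h3, one_pow, mul_one]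
    rw [← h4]
    ring
  set Z : ℤ[X] := (X ^ k * F0 - R) + C (N : ℤ) * (X ^ k * (F1 - F1.comp (X ^ (q - 1)))) with hZ
  have hZμ : aeval μ Z = 0 := by
    have h4 : aeval μ (F1.comp (X ^ (q - 1))) = aeval (conj μ) F1 := by
      rw [aeval_comp, map_pow, aeval_X, hpow]
    have h5 : aeval μ F0 + (N : ℂ) * aeval μ F1 = aeval (conj μ) F0 + (N : ℂ) * aeval (conj μ) F1 := by
      have h6 := h
      rw [hFeq] at h6
      simpa using h6
    rw [hZ, map_add, map_sub, map_mul, map_mul, map_mul, map_pow, aeval_X, hRμ, map_sub, h4]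
    have h7 : aeval μ (C (N : ℤ) : ℤ[X]) = (N : ℂ) := by simp
    rw [h7]
    linear_combination μ ^ k * h5
  have hdvd : cyclotomic q ℤ ∣ Z := by
    rw [cyclotomic_eq_minpoly h1 hq0]
    exact minpoly.isIntegrallyClosed_dvd (h1.isIntegral hq0) hZμ
  have : Fact (1 < N) := ⟨by lia⟩
  have hmap := Polynomial.map_dvd (Int.castRingHom (ZMod N)) hdvd
  have hZmap : Z.map (Int.castRingHom (ZMod N)) =
      (X ^ k * F0 - R).map (Int.castRingHom (ZMod N)) := by
    rw [hZ, Polynomial.map_add, Polynomial.map_mul (p := C (N : ℤ)), map_C]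
    have : (Int.castRingHom (ZMod N)) (N : ℤ) = 0 := by simp
    rw [this, C_0, zero_mul, add_zero]
  rw [hZmap, map_cyclotomic] at hmap
  have hdeg : ((X ^ k * F0 - R).map (Int.castRingHom (ZMod N))).natDegree ≤ 2 * k := by
    refine natDegree_map_le.trans ?_
    refine (natDegree_sub_le _ _).trans (max_le ?_ ?_)
    · refine natDegree_mul_le.trans ?_
      have h8 : F0.natDegree ≤ k := by
        rw [hF0]
        refine natDegree_sum_le_of_forall_le _ _ fun i hi => ?_
        rw [Finset.mem_range] at hi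
        exact (natDegree_C_mul_X_pow_le _ _).trans (by lia)
      rw [natDegree_X_pow]
      lia
    · rw [hR]
      refine natDegree_sum_le_of_forall_le _ _ fun i hi => ?_
      exact (natDegree_C_mul_X_pow_le _ _).trans (by lia)
  have h9 : (X ^ k * F0 - R).coeff (2 * k) = F.coeff k := by
    have h10 : R.coeff (2 * k) = 0 := by
      apply coeff_eq_zero_of_natDegree_lt
      have : R.natDegree ≤ k := by
        rw [hR]
        refine natDegree_sum_le_of_forall_le _ _ fun i hi => ?_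
        exact (natDegree_C_mul_X_pow_le _ _).trans (by lia)
      lia
    rw [coeff_sub, two_mul, coeff_X_pow_mul, hc0, if_pos (by lia), ← two_mul, h10, sub_zero]
  have h11 : (X ^ k * F0 - R).coeff 0 = -F.coeff k := by
    have h12 : R.coeff 0 = F.coeff k := by
      rw [hR, finsetSum_coeff, Finset.sum_eq_single k]
      · rw [coeff_C_mul, Nat.sub_self, pow_zero, coeff_one_zero, mul_one]
      · intro i hi hik
        rw [Finset.mem_range] at hi
        rw [coeff_C_mul, coeff_X_pow, if_neg (by lia), mul_zero]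
      · intro hi
        rw [Finset.mem_range] at hi
        lia
    rw [coeff_sub, mul_coeff_zero, coeff_X_pow, if_neg (by lia), zero_mul, h12, zero_sub]
  obtain ⟨U, hU⟩ := hmap
  have hU0 : ∃ c : ZMod N, U = C c := by
    by_cases hUz : U = 0
    · exact ⟨0, by rw [hUz, C_0]⟩
    · have h13 := (cyclotomic.monic q (ZMod N)).natDegree_mul' hUz
      rw [← hU, natDegree_cyclotomic] at h13
      exact ⟨U.coeff 0, eq_C_of_natDegree_eq_zero (by lia)⟩
  obtain ⟨c, rfl⟩ := hU0
  have hc2k := congrArg (fun p => p.coeff (2 * k)) hU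
  have hc00 := congrArg (fun p => p.coeff 0) hU
  simp only [coeff_map, coeff_mul_C, h9, h11, cyclotomic_coeff_zero _ (show 1 < q by lia)] at hc2k hc00
  have hc2k' : ((F.coeff k : ℤ) : ZMod N) = (cyclotomic q (ZMod N)).coeff (2 * k) * c := hc2k
  have hc00' : ((-F.coeff k : ℤ) : ZMod N) = 1 * c := hc00
  apply hFk
  rw [← ZMod.intCast_zmod_eq_zero_iff_dvd]
  rcases hcon.lt_or_eq with hlt | heq
  · have h14 : (cyclotomic q (ZMod N)).coeff (2 * k) * c = 0 := by
      have h15 : c = 0 := by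
        by_contra hcz
        have h16 := (cyclotomic.monic q (ZMod N)).natDegree_mul' (C_ne_zero.2 hcz)
        rw [← hU, natDegree_cyclotomic, natDegree_C] at h16
        lia
      rw [h15, mul_zero]
    push_cast
    rw [hc2k', h14, mul_zero]
  · have h14 : (cyclotomic q (ZMod N)).coeff (2 * k) = 1 := by
      have h15 := (cyclotomic.monic q (ZMod N)).coeff_natDegree
      rwa [natDegree_cyclotomic, ← heq] at h15
    rw [h14, one_mul] at hc2k'
    rw [one_mul, ← hc2k'] at hc00'
    push_cast at hc00' ⊢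
    linear_combination -hc00'

/-- If some coefficient of index `k` is not divisible by `4` and `2 ≤ ℓ`, comaximality forces
`φ(q) < 2 k`. -/
theorem not_comax_of_coeff' {m ℓ q k : ℕ} (hm : 2 ≤ m) (hℓ2 : 2 ≤ ℓ) (hk : k ≠ 0)
    (h4 : ¬ 4 ∣ (LR (Q m ℓ) (A m ℓ)).coeff k) (hq : 2 * k ≤ q.totient) (hq3 : 3 ≤ q) (u v : ℤ[X]) :
    u * G m (ℓ * q) + v * G m ℓ ≠ 1 := by
  intro huv
  have hm0 : m ≠ 0 := by lia
  have hℓ : ℓ ≠ 0 := by lia
  obtain ⟨μ, hμ, hμF⟩ := exists_real (Q_monic hm0 hℓ) (LR_even hm0 hℓ)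
    (Nat.one_le_iff_ne_zero.2 hℓ) hq3 (prod_cyc hm hℓ (by lia) huv)
  set L := LR (Q m ℓ) (A m ℓ) with hL
  have hcoef : ∀ i, (L.comp (C (2 ^ ℓ) * X)).coeff i = 2 ^ (ℓ * i) * L.coeff i := by
    intro i
    rw [comp_C_mul_X_coeff, ← pow_mul, mul_comm]
  have h1 : q.totient < 2 * k := by
    refine totient_lt_of_coeff (N := 2 ^ (ℓ * k + 3)) hq3 hk ?_ ?_ ?_ hμ hμF
    · calc 2 = 2 ^ 1 := by norm_num
        _ ≤ 2 ^ (ℓ * k + 3) := Nat.pow_le_pow_right two_pos (by lia)
    · intro i hi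
      rw [hcoef]
      obtain ⟨t, ht⟩ := LR_even hm0 hℓ i (by lia)
      rw [← hL] at ht
      rw [ht, ← mul_assoc, ← pow_succ]
      push_cast
      apply Dvd.dvd.mul_right
      apply pow_dvd_pow
      have : ℓ * (k + 1) ≤ ℓ * i := Nat.mul_le_mul_left _ hi
      rw [mul_add, mul_one] at this
      lia
    · rw [hcoef]
      push_cast
      rw [pow_add]
      intro h6
      apply h4
      have h8 : (2 : ℤ) ^ (ℓ * k) * 2 ^ 3 ∣ 2 ^ (ℓ * k) * (2 * L.coeff k) := by
        have e : (2 : ℤ) ^ (ℓ * k) * (2 * L.coeff k) = 2 * (2 ^ (ℓ * k) * L.coeff k) := by ring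
        rw [e]; exact h6
      have h7 := (mul_dvd_mul_iff_left (pow_ne_zero (ℓ * k) (two_ne_zero' ℤ))).1 h8
      obtain ⟨w, hw⟩ := h7
      exact ⟨w, by lia⟩
  lia

end Pool.Agent.Lib.MP_416699_nt
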