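import Pool.Agent.Lib.MP_416699_nt.TrG

/-!
Splitting over the algebraic integers; residue fields are infinite.
-/

open Polynomial

namespace Pool.Agent.Lib.MP_416699_nt

private lemma OO_root {V : OO[X]} (hV : V.Monic) (hd : V.natDegree ≠ 0) :
    ∃ b : OO, V.eval b = 0 := by
  have hinj : Function.Injective (algebraMap OO ℂ) := FaithfulSMul.algebraMap_injective OO ℂ
  have hdeg : (V.map (algebraMap OO ℂ)).degree ≠ 0 := by
    rw [degree_map_eq_of_injective hinj]
    intro h
    exact hd (natDegree_eq_of_degree_eq_some h)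
  obtain ⟨z, hz⟩ := IsAlgClosed.exists_root _ hdeg
  have hz' : eval₂ (algebraMap OO ℂ) z V = 0 := by
    rw [IsRoot.def, eval_map] at hz
    exact hz
  have h1 : IsIntegral OO z := ⟨V, hV, hz'⟩
  have h2 : IsIntegral ℤ z := isIntegral_trans z h1
  refine ⟨⟨z, h2⟩, ?_⟩
  apply hinj
  rw [map_zero, ← eval₂_at_apply]
  exact hz'

lemma OO_split {V : OO[X]} (hV : V.Monic) :
    ∃ S : Multiset OO, (S.map (fun β => X - C β)).prod = V := by
  obtain ⟨n, hn⟩ : ∃ n, V.natDegree = n := ⟨_, rfl⟩
  induction n generalizing V with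
  | zero =>
    refine ⟨0, ?_⟩
    rw [Multiset.map_zero, Multiset.prod_zero]
    exact (hV.natDegree_eq_zero.mp hn).symm
  | succ n ih =>
    obtain ⟨b, hb⟩ := OO_root hV (by omega)
    obtain ⟨W, hW⟩ := dvd_iff_isRoot.mpr hb
    have hWm : W.Monic := by
      rw [hW] at hV
      exact (monic_X_sub_C b).of_mul_monic_left hV
    have hWd : W.natDegree = n := by
      have h1 := (monic_X_sub_C b).natDegree_mul hWm
      rw [← hW, hn, natDegree_X_sub_C] at h1
      omega
    obtain ⟨S, hS⟩ := ih hWm hWd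
    refine ⟨b ::ₘ S, ?_⟩
    rw [Multiset.map_cons, Multiset.prod_cons, hS, ← hW]

lemma residue_infinite {P : Ideal OO} (hP : P.IsMaximal) : Infinite (OO ⧸ P) := by
  by_contra hcon
  rw [not_infinite_iff_finite] at hcon
  have : Fintype (OO ⧸ P) := Fintype.ofFinite _
  have hnt : Nontrivial (OO ⧸ P) := Ideal.Quotient.nontrivial_iff.mpr hP.ne_top
  let r : OO ⧸ P → OO := fun c => (Ideal.Quotient.mk_surjective c).choose
  have hr : ∀ c, Ideal.Quotient.mk P (r c) = c := fun c =>
    (Ideal.Quotient.mk_surjective c).choose_spec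
  set F : OO[X] := ∏ c : OO ⧸ P, (X - C (r c)) with hF
  have hFm : F.Monic := monic_prod_of_monic _ _ (fun c _ => monic_X_sub_C _)
  have hFd : F.natDegree = Fintype.card (OO ⧸ P) := by
    rw [hF, natDegree_prod_of_monic _ _ (fun c _ => monic_X_sub_C _)]
    simp
  have hcard : 0 < Fintype.card (OO ⧸ P) := Fintype.card_pos
  have hdegF : (1 : OO[X]).degree < F.degree := by
    rw [degree_one, degree_eq_natDegree hFm.ne_zero, hFd]
    exact_mod_cast hcard
  have hGm : (F + 1).Monic := hFm.add_of_left hdegF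
  have hGd : (F + 1).natDegree ≠ 0 := by
    have h1 : (F + 1).degree = F.degree := degree_add_eq_left_of_degree_lt hdegF
    rw [natDegree_eq_natDegree h1, hFd]
    omega
  obtain ⟨b, hb⟩ := OO_root hGm hGd
  have h1 := congrArg (Ideal.Quotient.mk P) hb
  rw [eval_add, eval_one, hF, eval_prod, map_add, map_prod, map_one, map_zero,
    Finset.prod_eq_zero (Finset.mem_univ (Ideal.Quotient.mk P b)), zero_add] at h1
  · exact one_ne_zero h1
  · rw [eval_sub, eval_X, eval_C, map_sub, hr, sub_self]

end Pool.Agent.Lib.MP_416699_nt
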