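import Mathlib

/-!
The residue at infinity and digits.
-/

open Polynomial

namespace Pool.Agent.Lib.MP_416699_nt

/-- The residue of `h / M` at infinity, up to sign. -/
noncomputable def res {k : Type*} [Field k] (h M : k[X]) : k := (h %ₘ M).coeff (M.natDegree - 1)

lemma res_mul {k : Type*} [Field k] {h M K : k[X]} (hM : M.Monic) (hK : K.Monic)
    (hd : M.natDegree ≠ 0) : res (h * K) (M * K) = res h M := by
  have hMK : (M * K).Monic := hM.mul hK
  have hdeg : (h %ₘ M).degree < M.degree := degree_modByMonic_lt h hM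
  have hdeg2 : ((h %ₘ M) * K).degree < (M * K).degree := by
    rw [degree_mul, degree_mul]
    have hK0 : K.degree ≠ ⊥ := by
      rw [Ne, degree_eq_bot]; exact hK.ne_zero
    exact WithBot.add_lt_add_right hK0 hdeg
  have h1 : (h * K) %ₘ (M * K) = (h %ₘ M) * K := by
    refine (div_modByMonic_unique (h /ₘ M) ((h %ₘ M) * K) hMK ⟨?_, hdeg2⟩).2
    have := modByMonic_add_div h M
    calc (h %ₘ M) * K + (M * K) * (h /ₘ M) = (h %ₘ M + M * (h /ₘ M)) * K := by ring
      _ = h * K := by rw [this]
  unfold res
  rw [h1, hM.natDegree_mul hK]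
  have h2 : M.natDegree + K.natDegree - 1 = (M.natDegree - 1) + K.natDegree := by omega
  have h3 : (h %ₘ M).natDegree ≤ M.natDegree - 1 := by
    have := natDegree_modByMonic_lt h hM (by rintro rfl; simp at hd)
    omega
  rw [h2, coeff_mul_add_eq_of_natDegree_le h3 le_rfl, hK.coeff_natDegree, mul_one]

lemma res_of_lt {k : Type*} [Field k] {h M : k[X]} (hM : M.Monic)
    (h1 : h.natDegree < M.natDegree) : res h M = h.coeff (M.natDegree - 1) := by
  unfold res
  rw [(modByMonic_eq_self_iff hM).2 (degree_lt_degree h1)]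

lemma res_add {k : Type*} [Field k] (h h' M : k[X]) : res (h + h') M = res h M + res h' M := by
  unfold res
  rw [add_modByMonic, coeff_add]

lemma exists_tau {k : Type*} [Field k] {A : k[X]} (hA : A.Monic) (hd : A.natDegree ≠ 0) (h : k[X]) :
    ∃ τ : k[X], (∀ i, τ.coeff i = res h (A ^ (i + 1))) ∧
      ∀ (K : Type) [Field K] (ι : k →+* K) (z : K), ∃ Q ρ : K[X],
        h.map ι = (A.map ι - C z) * Q + ρ ∧ ρ.natDegree < A.natDegree ∧
          ρ.coeff (A.natDegree - 1) = eval z (τ.map ι) := by
  have hpow : ∀ i, (A ^ (i + 1)).natDegree = (i + 1) * A.natDegree := fun i => hA.natDegree_pow _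
  have hpowM : ∀ i, (A ^ (i + 1)).Monic := fun i => hA.pow _
  have hsmall : ∀ f : k[X], f.natDegree < A.natDegree → ∀ i, res f (A ^ (i + 1 + 1)) = 0 := by
    intro f hf i
    have h0 : 0 < A.natDegree := Nat.pos_of_ne_zero hd
    have h2 : 2 * A.natDegree ≤ (A ^ (i + 1 + 1)).natDegree := by
      rw [hpow]
      exact Nat.mul_le_mul_right _ (by omega)
    rw [res_of_lt (hpowM _) (by omega)]
    exact coeff_eq_zero_of_natDegree_lt (by omega)
  generalize hn : h.natDegree = n
  induction n using Nat.strong_induction_on generalizing h with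
  | _ n ih =>
    rcases lt_or_ge h.natDegree A.natDegree with hlt | hge
    · refine ⟨C (h.coeff (A.natDegree - 1)), ?_, ?_⟩
      · intro i
        rcases i with _ | i
        · rw [zero_add, pow_one, res_of_lt hA hlt, coeff_C_zero]
        · rw [hsmall h hlt i, coeff_C_succ]
      · intro K _ ι z
        refine ⟨0, h.map ι, by ring, lt_of_le_of_lt natDegree_map_le hlt, ?_⟩
        rw [coeff_map, map_C, eval_C]
    · have h0 : 0 < A.natDegree := Nat.pos_of_ne_zero hd
      have hlt : (h /ₘ A).natDegree < n := by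
        rw [natDegree_divByMonic h hA]
        omega
      obtain ⟨τ, hτ, hτ'⟩ := ih _ hlt (h /ₘ A) rfl
      have hf : (h %ₘ A).natDegree < A.natDegree :=
        natDegree_modByMonic_lt h hA (by rintro rfl; simp at hd)
      have hh : h = h %ₘ A + (h /ₘ A) * A := by
        have := modByMonic_add_div h A
        rw [mul_comm]
        exact this.symm
      refine ⟨C ((h %ₘ A).coeff (A.natDegree - 1)) + X * τ, ?_, ?_⟩
      · intro i
        rcases i with _ | i
        · rw [zero_add, pow_one, coeff_add, coeff_C_zero, mul_comm, coeff_mul_X_zero, add_zero]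
          rfl
        · rw [coeff_add, coeff_C_succ, coeff_X_mul, zero_add, hτ i]
          conv_rhs => rw [hh]
          rw [res_add, hsmall _ hf i, zero_add, pow_succ A (i + 1),
            res_mul (hpowM i) hA (by rw [hpow]; positivity)]
      · intro K _ ι z
        obtain ⟨Q, ρ, e1, e2, e3⟩ := hτ' K ι z
        refine ⟨(h /ₘ A).map ι + C z * Q, (h %ₘ A).map ι + C z * ρ, ?_, ?_, ?_⟩
        · conv_lhs => rw [hh]
          rw [Polynomial.map_add, Polynomial.map_mul]
          linear_combination (C z) * e1
        · refine lt_of_le_of_lt (natDegree_add_le _ _) (max_lt ?_ ?_)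
          · exact lt_of_le_of_lt natDegree_map_le hf
          · exact lt_of_le_of_lt (natDegree_C_mul_le _ _) e2
        · rw [coeff_add, coeff_map, coeff_C_mul, e3, Polynomial.map_add, map_C, eval_add, eval_C,
            Polynomial.map_mul, map_X, eval_mul, eval_X]

end Pool.Agent.Lib.MP_416699_nt
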