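import Pool.Agent.Lib.MP_416699_nt.TrI

/-!
Euler's formula over a field, and the product of `f + 2 g` modulo four.
-/

open Polynomial

namespace Pool.Agent.Lib.MP_416699_nt

lemma euler_split {K : Type*} [Field K] (S : Multiset K) {F g Q ρ : K[X]}
    (hF : (S.map (fun c => X - C c)).prod = F) (h : g * derivative F = F * Q + ρ)
    (hρ : ρ.degree < S.card) :
    (S.map (fun c => eval c g)).sum = ρ.coeff (S.card - 1) := by
  classical
  have hFm : F.Monic := hF ▸ monic_multiset_prod_of_monic _ _ fun d _ => monic_X_sub_C d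
  have hFd : F.natDegree = S.card := by rw [← hF]; exact natDegree_multiset_prod_X_sub_C_eq_card S
  set E : K → K[X] := fun c => ((S.erase c).map (fun c => X - C c)).prod with hE
  have hE1 : ∀ c ∈ S, (X - C c) * E c = F := by
    intro c hc
    have h0 := Multiset.prod_map_erase (f := fun c : K => X - C c) hc
    rw [hF] at h0
    exact h0
  have hEm : ∀ c, (E c).Monic := fun c => monic_multiset_prod_of_monic _ _ fun d _ => monic_X_sub_C d
  have hEd : ∀ c ∈ S, (E c).natDegree = S.card - 1 := by
    intro c hc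
    have h1 : (E c).natDegree = (S.erase c).card := natDegree_multiset_prod_X_sub_C_eq_card _
    rw [h1, Multiset.card_erase_of_mem hc]
    rfl
  have hder : derivative F = (S.map E).sum := by
    conv_lhs => rw [← hF]
    rw [derivative_prod]
    congr 1
    refine Multiset.map_congr rfl fun c _ => ?_
    rw [derivative_X_sub_C, mul_one]
  set ρ0 : K[X] := (S.map (fun c => C (eval c g) * E c)).sum with hρ0
  have hdvd : F ∣ g * derivative F - ρ0 := by
    have h1 : g * derivative F - ρ0 = (S.map (fun c => (g - C (eval c g)) * E c)).sum := by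
      rw [hder, hρ0, ← Multiset.sum_map_mul_left, ← Multiset.sum_map_sub]
      congr 1
      refine Multiset.map_congr rfl fun c _ => ?_
      ring
    rw [h1]
    apply Multiset.dvd_sum
    intro x hx
    obtain ⟨c, hc, rfl⟩ := Multiset.mem_map.1 hx
    obtain ⟨t, ht⟩ := X_sub_C_dvd_sub_C_eval (a := c) (p := g)
    refine ⟨t, ?_⟩
    rw [ht, ← hE1 c hc]
    ring
  by_cases hN : S.card = 0
  · have h1 : S = 0 := Multiset.card_eq_zero.1 hN
    rw [hN, Nat.cast_zero, Nat.WithBot.lt_zero_iff, degree_eq_bot] at hρ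
    rw [h1, hρ]
    simp
  have hρ0d : ρ0.degree < S.card := by
    rw [← mem_degreeLT, hρ0]
    apply multiset_sum_mem
    intro x hx
    obtain ⟨c, hc, rfl⟩ := Multiset.mem_map.1 hx
    rw [mem_degreeLT]
    refine lt_of_le_of_lt ((degree_mul_le _ _).trans (add_le_add degree_C_le le_rfl)) ?_
    rw [zero_add]
    rw [degree_eq_natDegree (hEm c).ne_zero, hEd c hc]
    exact_mod_cast Nat.sub_lt (Nat.pos_of_ne_zero hN) one_pos
  have heq : ρ = ρ0 := by
    rw [← sub_eq_zero]
    apply eq_zero_of_dvd_of_degree_lt (p := F)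
    · have h1 : ρ - ρ0 = (g * derivative F - ρ0) - F * Q := by rw [h]; ring
      rw [h1]
      exact dvd_sub hdvd (dvd_mul_right _ _)
    · rw [degree_eq_natDegree hFm.ne_zero, hFd]
      exact lt_of_le_of_lt (degree_sub_le _ _) (max_lt hρ hρ0d)
  rw [heq, hρ0]
  have h3 : ∀ R : Multiset K, R ≤ S →
      ((R.map (fun c => C (eval c g) * E c)).sum).coeff (S.card - 1) =
        (R.map (fun c => eval c g)).sum := by
    intro R
    induction R using Multiset.induction_on with
    | empty => simp
    | cons c R ih =>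
      intro hR
      have hc : c ∈ S := Multiset.mem_of_le hR (Multiset.mem_cons_self c R)
      rw [Multiset.map_cons, Multiset.sum_cons, coeff_add, ih ((Multiset.le_cons_self R c).trans hR),
        Multiset.map_cons, Multiset.sum_cons, coeff_C_mul]
      congr 1
      have h4 := (hEm c).coeff_natDegree
      rw [hEd c hc] at h4
      rw [h4, mul_one]
  exact (h3 S le_rfl).symm

lemma mod_four {ι R K : Type*} [CommRing R] [Field K] (φ : R →+* K) (S : Multiset ι)
    (f g : ι → R) : (∀ β ∈ S, φ (f β) ≠ 0) →
    ∃ E w : R, (S.map (fun β => f β + 2 * g β)).prod = (S.map f).prod + 2 * E + 4 * w ∧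
      φ E = φ (S.map f).prod * (S.map (fun β => φ (g β) / φ (f β))).sum := by
  induction S using Multiset.induction_on with
  | empty => intro _; exact ⟨0, 0, by simp, by simp⟩
  | cons β S ih =>
    intro h
    obtain ⟨E, w, h1, h2⟩ := ih fun γ hγ => h γ (Multiset.mem_cons_of_mem hγ)
    have h3 := h β (Multiset.mem_cons_self β S)
    refine ⟨f β * E + g β * (S.map f).prod, f β * w + g β * E + 2 * (g β * w), ?_, ?_⟩
    · rw [Multiset.map_cons, Multiset.prod_cons, Multiset.map_cons, Multiset.prod_cons, h1]
      ring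
    · rw [Multiset.map_cons, Multiset.prod_cons, Multiset.map_cons, Multiset.sum_cons, map_add,
        map_mul, map_mul, map_mul, h2]
      field_simp
      ring

/-- The values `z + g(c)`. -/
lemma Lstar {Q : ℤ[X]} (hQ : Q.Monic) (g : ℤ[X]) {z : ℂ} (hz : z ≠ 0) :
    ∑ k ∈ Finset.range (Q.natDegree + 1), ((LR Q g).coeff k : ℂ) * z ^ (Q.natDegree - k) =
      ((rt Q).map (fun c => z + aeval c g)).prod := by
  have hd : (LR Q g).natDegree < Q.natDegree + 1 := by
    have h1 := PP_natDegree_le ((rt Q).map (fun c => aeval c g))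
    rw [← LR_natDegree_map hQ, Multiset.card_map, rt_card hQ] at h1
    lia
  have h2 := aeval_LR hQ g z⁻¹
  rw [aeval_eq_sum_range' hd] at h2
  have h3 : ((rt Q).map (fun c => z + aeval c g)).prod =
      z ^ Q.natDegree * ((rt Q).map (fun c => 1 + aeval c g * z⁻¹)).prod := by
    have h4 : z ^ Q.natDegree = ((rt Q).map (fun _ => z)).prod := by
      rw [Multiset.map_const', Multiset.prod_replicate, rt_card hQ]
    rw [h4, ← Multiset.prod_map_mul]
    congr 1
    refine Multiset.map_congr rfl fun c _ => ?_
    field_simp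
  rw [h3, ← h2, Finset.mul_sum]
  refine Finset.sum_congr rfl fun k hk => ?_
  have hk' : k ≤ Q.natDegree := by rw [Finset.mem_range] at hk; lia
  have h5 : z ^ Q.natDegree = z ^ (Q.natDegree - k) * z ^ k := by
    rw [← pow_add]; congr 1; lia
  rw [h5, zsmul_eq_mul, inv_pow]
  field_simp

end Pool.Agent.Lib.MP_416699_nt
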