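import Pool.Agent.Lib.MP_416699_nt.TrW
import Pool.Agent.Lib.MP_416699_nt.TrU
import Pool.Agent.Lib.MP_416699_nt.TrV

/-!
The coefficients of `LR D A` modulo four when `D = P ^ 2 + 2 R`.
-/

open Polynomial

namespace Pool.Agent.Lib.MP_416699_nt

lemma aeval_eq_prod_rt {Q : ℤ[X]} (hQ : Q.Monic) (x : ℂ) :
    aeval x Q = ((rt Q).map (fun c => x - c)).prod := by
  have h1 : aeval x Q = eval x (Q.map (Int.castRingHom ℂ)) := by rw [eval_map]; rfl
  have hm : (Q.map (Int.castRingHom ℂ)).Monic := hQ.map _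
  have h2 := (IsAlgClosed.splits (Q.map (Int.castRingHom ℂ))).eq_prod_roots
  rw [hm.leadingCoeff, C_1, one_mul] at h2
  rw [h1]
  conv_lhs => rw [h2]
  rw [eval_multiset_prod, Multiset.map_map, rt]
  congr 1
  refine Multiset.map_congr rfl fun c _ => ?_
  simp

lemma swap_eval {Q : ℤ[X]} (hQ : Q.Monic) (he : Even Q.natDegree) {A : ℤ[X]} {z : OO}
    {S : Multiset OO}
    (hS : (S.map (fun β => X - C β)).prod = C z + A.map (Int.castRingHom OO)) :
    ((rt Q).map (fun c => algebraMap OO ℂ z + aeval c A)).prod =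
      algebraMap OO ℂ ((S.map (fun β => aeval β Q)).prod) := by
  have h1 : ∀ c : ℂ, algebraMap OO ℂ z + aeval c A = (S.map (fun β => c - algebraMap OO ℂ β)).prod := by
    intro c
    have h2 := congrArg (eval₂RingHom (algebraMap OO ℂ) c) hS
    rw [map_multiset_prod, Multiset.map_map, map_add] at h2
    have h3 : eval₂RingHom (algebraMap OO ℂ) c (C z) = algebraMap OO ℂ z := by simp
    have h4 : eval₂RingHom (algebraMap OO ℂ) c (A.map (Int.castRingHom OO)) = aeval c A := by
      rw [coe_eval₂RingHom, eval₂_map, aeval_def]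
      congr 1
    rw [h3, h4] at h2
    rw [← h2]
    congr 1
    refine Multiset.map_congr rfl fun β _ => ?_
    simp
  have h5 : ((rt Q).map (fun c => algebraMap OO ℂ z + aeval c A)).prod =
      ((rt Q).map (fun c => (S.map (fun β => c - algebraMap OO ℂ β)).prod)).prod := by
    congr 1
    exact Multiset.map_congr rfl fun c _ => h1 c
  rw [h5, Multiset.prod_map_prod_map, map_multiset_prod, Multiset.map_map]
  congr 1
  refine Multiset.map_congr rfl fun β _ => ?_
  rw [Function.comp_apply, ← aeval_algebraMap_apply, aeval_eq_prod_rt hQ]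
  have h6 : (rt Q).map (fun c => c - algebraMap OO ℂ β) =
      ((rt Q).map (fun c => algebraMap OO ℂ β - c)).map Neg.neg := by
    rw [Multiset.map_map]
    refine Multiset.map_congr rfl fun c _ => ?_
    simp
  rw [h6, Multiset.prod_map_neg, Multiset.card_map, rt_card hQ, he.neg_one_pow, one_mul]

/-- Half of the tail, in the variable `z`. -/
noncomputable def LH (Q A : ℤ[X]) : ℤ[X] :=
  ∑ k ∈ Finset.range Q.natDegree, C ((LR Q A).coeff (k + 1) / 2) * X ^ (Q.natDegree - 1 - k)

lemma LH_coeff (Q A : ℤ[X]) {r : ℕ} (hr : r ≠ 0) (hrN : r ≤ Q.natDegree) :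
    (LH Q A).coeff (Q.natDegree - r) = (LR Q A).coeff r / 2 := by
  rw [LH, finsetSum_coeff, Finset.sum_eq_single (r - 1)]
  · rw [coeff_C_mul, coeff_X_pow, if_pos (by lia), mul_one, show r - 1 + 1 = r by lia]
  · intro k hk hkr
    rw [Finset.mem_range] at hk
    rw [coeff_C_mul, coeff_X_pow, if_neg (by lia), mul_zero]
  · intro h
    rw [Finset.mem_range] at h
    lia

lemma Lstar_even {Q : ℤ[X]} (hQ : Q.Monic) (he : Even Q.natDegree) {A : ℤ[X]}
    (h2 : ∀ n, n ≠ 0 → 2 ∣ (LR Q A).coeff n) {z : OO} (hz : z ≠ 0) {S : Multiset OO}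
    (hS : (S.map (fun β => X - C β)).prod = C z + A.map (Int.castRingHom OO)) :
    (S.map (fun β => aeval β Q)).prod = z ^ Q.natDegree + 2 * aeval z (LH Q A) := by
  apply FaithfulSMul.algebraMap_injective OO ℂ
  have hz' : algebraMap OO ℂ z ≠ 0 := by
    intro h
    exact hz ((FaithfulSMul.algebraMap_injective OO ℂ) (by rw [h, map_zero]))
  rw [← swap_eval hQ he hS, ← Lstar hQ A hz', Finset.sum_range_succ', LR_coeff_zero hQ, map_add,
    map_mul, map_pow, add_comm]
  congr 1
  · simp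
  · rw [← aeval_algebraMap_apply, LH, map_sum, map_ofNat, Finset.mul_sum]
    refine Finset.sum_congr rfl fun k _ => ?_
    obtain ⟨w, hw⟩ := h2 (k + 1) (Nat.succ_ne_zero k)
    rw [hw, Int.mul_ediv_cancel_left _ two_ne_zero, map_mul, map_pow, aeval_X, aeval_C]
    push_cast
    rw [show Q.natDegree - (k + 1) = Q.natDegree - 1 - k by lia]
    simp only [algebraMap_int_eq, eq_intCast]
    ring

lemma mem_of_red {P : Ideal OO} (hP : P.IsMaximal) (h2 : (2 : OO) ∈ P) {Q A : ℤ[X]} {j : ℕ}
    (h : red Q ∣ red A ^ j) {c : OO} (hc : aeval c Q = 0) : aeval c A ∈ P := by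
  rw [← map_pow] at h
  obtain ⟨y, w, hyw⟩ := of_dvd_red h
  have h1 := congrArg (aeval c) hyw
  rw [map_pow, map_add, map_mul, map_mul, hc, zero_mul, zero_add, map_ofNat] at h1
  apply hP.isPrime.mem_of_pow_mem j
  rw [h1]
  exact P.mul_mem_right _ h2

end Pool.Agent.Lib.MP_416699_nt
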