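import Pool.Agent.Lib.MP_416699_nt.TrX

/-!
The coefficients of `LR D A` modulo four when `D = P ^ 2 + 2 R`.
-/

open Polynomial

namespace Pool.Agent.Lib.MP_416699_nt

lemma two_eq_zero_X : (2 : (ZMod 2)[X]) = 0 := CharTwo.two_eq_zero

lemma key_point {κ : Type} [Field κ] [CharP κ 2] (φ : OO →+* κ)
    (ι : ZMod 2 →+* κ) {D P R A : ℤ[X]} (hD : D.Monic) (hP : P.Monic) (hA : A.Monic)
    (hAd : A.natDegree ≠ 0) (hPe : Even P.natDegree) (hDPR : D = P ^ 2 + 2 * R)
    (hND : D.natDegree = 2 * P.natDegree)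
    (hPeven : ∀ n, n ≠ 0 → 2 ∣ (LR P A).coeff n) (hDeven : ∀ n, n ≠ 0 → 2 ∣ (LR D A).coeff n)
    {r : ℕ} {t K0 : (ZMod 2)[X]}
    (hPt : red P = t ^ r) (hAt : red A = t * K0) {τ : (ZMod 2)[X]} {z : OO} (hz : φ z ≠ 0)
    (hτ : ∃ Q ρ : κ[X], (red R * K0 ^ (2 * r) * derivative (red A)).map ι =
      ((red A).map ι - C (φ z)) * Q + ρ ∧ ρ.natDegree < (red A).natDegree ∧
        ρ.coeff ((red A).natDegree - 1) = eval (φ z) (τ.map ι)) :
    φ z ^ (2 * r) * φ (aeval z (LH D A)) = φ z ^ D.natDegree * eval (φ z) (τ.map ι) := by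
  have hz0 : z ≠ 0 := by rintro rfl; exact hz (map_zero φ)
  have hφ2 : φ 2 = 0 := by rw [map_ofNat]; exact CharTwo.two_eq_zero
  have hdA : (A.map (Int.castRingHom OO)).natDegree = A.natDegree := hA.natDegree_map _
  have hVm : (C z + A.map (Int.castRingHom OO)).Monic := by
    apply Monic.add_of_right (hA.map _)
    refine lt_of_le_of_lt degree_C_le ?_
    rw [degree_eq_natDegree (hA.map _).ne_zero, hdA]
    exact_mod_cast Nat.pos_of_ne_zero hAd
  obtain ⟨S, hS⟩ := OO_split hVm
  have hcard : S.card = A.natDegree := by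
    have h1 := natDegree_multiset_prod_X_sub_C_eq_card S
    rw [hS] at h1
    rw [← h1, natDegree_C_add, hdA]
  have hrd : (red A).natDegree = A.natDegree := hA.natDegree_map _
  have hDe : Even D.natDegree := by rw [hND]; exact even_two_mul _
  have hSP := Lstar_even hP hPe hPeven hz0 hS
  have hSD := Lstar_even hD hDe hDeven hz0 hS
  have hφ : ∀ (F : ℤ[X]) (β : OO), φ (aeval β F) = eval (φ β) ((red F).map ι) := by
    intro F β
    have h1 : (red F).map ι = F.map (ι.comp (Int.castRingHom (ZMod 2))) := Polynomial.map_map _ _ _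
    rw [h1, eval_map, aeval_def, hom_eval₂]
    congr 1
    exact RingHom.ext_int _ _
  have hroot : ∀ β ∈ S, aeval β A = -z := by
    intro β hβ
    have h1 : eval β (C z + A.map (Int.castRingHom OO)) = 0 := by
      rw [← hS, eval_multiset_prod]
      apply Multiset.prod_eq_zero
      rw [Multiset.map_map, Multiset.mem_map]
      exact ⟨β, hβ, by simp⟩
    rw [eval_add, eval_C, eval_map] at h1
    have h2 : aeval β A = eval₂ (Int.castRingHom OO) β A := rfl
    rw [h2]
    linear_combination h1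
  have htK : ∀ β ∈ S, eval (φ β) (t.map ι) * eval (φ β) (K0.map ι) = φ z := by
    intro β hβ
    rw [← eval_mul, ← Polynomial.map_mul, ← hAt, ← hφ, hroot β hβ, map_neg, CharTwo.neg_eq]
  have hPK : ∀ β ∈ S, φ (aeval β P ^ 2) * eval (φ β) (K0.map ι) ^ (2 * r) = φ z ^ (2 * r) := by
    intro β hβ
    rw [map_pow, hφ, hPt, Polynomial.map_pow, eval_pow, ← pow_mul, mul_comm r 2, ← mul_pow,
      htK β hβ]
  have hne : ∀ β ∈ S, φ (aeval β P ^ 2) ≠ 0 := by
    intro β hβ h
    have h1 := hPK β hβ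
    rw [h, zero_mul] at h1
    exact pow_ne_zero _ hz h1.symm
  obtain ⟨E, w, hE1, hE2⟩ := mod_four φ S (fun β => aeval β P ^ 2) (fun β => aeval β R) hne
  have h3 : (S.map (fun β => aeval β D)).prod =
      (S.map (fun β => aeval β P ^ 2 + 2 * aeval β R)).prod := by
    congr 1
    refine Multiset.map_congr rfl fun β _ => ?_
    rw [hDPR, map_add, map_mul, map_pow, map_ofNat]
  have h4 : (S.map (fun β => aeval β P ^ 2)).prod = ((S.map (fun β => aeval β P)).prod) ^ 2 :=
    Multiset.prod_map_pow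
  have h5 : aeval z (LH D A) = E + 2 * (w + aeval z (LH P A) * z ^ P.natDegree +
      aeval z (LH P A) ^ 2) := by
    have h6 : (2 : OO) * aeval z (LH D A) = 2 * (E + 2 * (w + aeval z (LH P A) * z ^ P.natDegree +
      aeval z (LH P A) ^ 2)) := by
      have h7 := hE1
      rw [← h3, h4, hSP, hSD, hND, mul_comm 2 P.natDegree, pow_mul] at h7
      linear_combination h7
    exact mul_left_cancel₀ two_ne_zero h6
  have h8 : φ (aeval z (LH D A)) = φ E := by
    rw [h5, map_add, map_mul, hφ2, zero_mul, add_zero]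
  have h9 : φ (S.map (fun β => aeval β P ^ 2)).prod = φ z ^ D.natDegree := by
    rw [h4, hSP, map_pow, map_add, map_mul, hφ2, zero_mul, add_zero, map_pow, hND, mul_comm,
      pow_mul]
  obtain ⟨Q, ρ, hh, hρ, hρc⟩ := hτ
  have hF : ((S.map φ).map (fun c => X - C c)).prod = (red A).map ι - C (φ z) := by
    have h10 := congrArg (Polynomial.map φ) hS
    rw [Polynomial.map_multiset_prod, Multiset.map_map] at h10
    rw [Multiset.map_map]
    have h11 : (C z + A.map (Int.castRingHom OO)).map φ = (red A).map ι - C (φ z) := by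
      have h12 : (red A).map ι = A.map (ι.comp (Int.castRingHom (ZMod 2))) :=
        Polynomial.map_map _ _ _
      have h13 : (A.map (Int.castRingHom OO)).map φ = A.map (φ.comp (Int.castRingHom OO)) :=
        Polynomial.map_map _ _ _
      have h14 : φ.comp (Int.castRingHom OO) = ι.comp (Int.castRingHom (ZMod 2)) :=
        RingHom.ext_int _ _
      have h16 : C (φ z) = -C (φ z) := by rw [← C_neg, CharTwo.neg_eq]
      rw [Polynomial.map_add, map_C, h12, h13, h14]
      linear_combination h16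
    rw [← h11, ← h10]
    congr 1
    refine Multiset.map_congr rfl fun β _ => ?_
    simp
  have hder : (red R * K0 ^ (2 * r)).map ι * derivative ((red A).map ι - C (φ z)) =
      ((red A).map ι - C (φ z)) * Q + ρ := by
    rw [derivative_sub, derivative_C, sub_zero, derivative_map, ← Polynomial.map_mul, hh]
  have hcard' : (S.map φ).card = (red A).natDegree := by rw [Multiset.card_map, hcard, hrd]
  have hρd : ρ.degree < (S.map φ).card := by
    rw [hcard']
    exact lt_of_le_of_lt degree_le_natDegree (by exact_mod_cast hρ)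
  have heu := euler_split (S.map φ) hF hder hρd
  rw [hcard', hρc, Multiset.map_map] at heu
  have h15 : (S.map (fun β => φ (aeval β R) / φ (aeval β P ^ 2))).sum * φ z ^ (2 * r) =
      eval (φ z) (τ.map ι) := by
    rw [← heu, ← Multiset.sum_map_mul_right]
    congr 1
    refine Multiset.map_congr rfl fun β hβ => ?_
    rw [Function.comp_apply, Polynomial.map_mul, Polynomial.map_pow, eval_mul, eval_pow, ← hφ,
      ← hPK β hβ]
    have := hne β hβ
    field_simp
  rw [h8, hE2, h9, ← h15]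
  ring

theorem eps_formula {D P R A : ℤ[X]} (hD : D.Monic) (hP : P.Monic) (hA : A.Monic)
    (hAd : A.natDegree ≠ 0) (hPe : Even P.natDegree) (hDPR : D = P ^ 2 + 2 * R)
    {r : ℕ} (hr : r ≠ 0) {t K0 : (ZMod 2)[X]} (ht : t.Monic) (htd : t.natDegree ≠ 0)
    (hK : K0.Monic) (hPt : red P = t ^ r) (hAt : red A = t * K0) (hrN : r ≤ D.natDegree) :
    2 ∣ (LR D A).coeff r ∧ (((LR D A).coeff r / 2 : ℤ) : ZMod 2) =
      res (red R * red A ^ (r - 1) * derivative (red A)) (t ^ (2 * r)) := by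
  obtain ⟨𝔓, h𝔓, h2⟩ := exists_PI
  haveI := h𝔓
  letI : Field (OO ⧸ 𝔓) := Ideal.Quotient.field 𝔓
  haveI : Infinite (OO ⧸ 𝔓) := residue_infinite h𝔓
  have h20 : (2 : OO ⧸ 𝔓) = 0 := by
    have h := Ideal.Quotient.eq_zero_iff_mem.2 h2
    rwa [map_ofNat] at h
  haveI : CharP (OO ⧸ 𝔓) 2 := CharTwo.of_one_ne_zero_of_two_eq_zero one_ne_zero h20
  set φ : OO →+* OO ⧸ 𝔓 := Ideal.Quotient.mk 𝔓 with hφdef
  set ι : ZMod 2 →+* OO ⧸ 𝔓 := ZMod.castHom (dvd_refl 2) _ with hι
  have hredD : red D = red P ^ 2 := by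
    rw [hDPR, map_add, map_mul, map_pow, map_ofNat, two_eq_zero_X, zero_mul, add_zero]
  have hND : D.natDegree = 2 * P.natDegree := by
    have h1 : (red D).natDegree = D.natDegree := hD.natDegree_map _
    have h3 : (red P).natDegree = P.natDegree := hP.natDegree_map _
    rw [← h1, hredD, natDegree_pow, h3]
  have hPeven : ∀ n, n ≠ 0 → 2 ∣ (LR P A).coeff n := fun n hn =>
    LR_coeff_even h𝔓 h2 hP (fun c hc => mem_of_red h𝔓 h2 (j := r)
      ⟨K0 ^ r, by rw [hPt, hAt, mul_pow]⟩ hc) hn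
  have hDeven : ∀ n, n ≠ 0 → 2 ∣ (LR D A).coeff n := fun n hn =>
    LR_coeff_even h𝔓 h2 hD (fun c hc => mem_of_red h𝔓 h2 (j := r * 2)
      ⟨K0 ^ (r * 2), by rw [hredD, hPt, hAt, mul_pow, ← pow_mul]⟩ hc) hn
  have hrA : (red A).Monic := hA.map _
  have hrd : (red A).natDegree ≠ 0 := by
    have h1 : (red A).natDegree = A.natDegree := hA.natDegree_map _
    rwa [h1]
  obtain ⟨τ, hτ1, hτ2⟩ := exists_tau hrA hrd (red R * K0 ^ (2 * r) * derivative (red A))
  have hpoly : X ^ (2 * r) * (LH D A).map (Int.castRingHom (OO ⧸ 𝔓)) =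
      X ^ D.natDegree * τ.map ι := by
    apply Polynomial.funext
    intro x
    by_cases hx : x = 0
    · rw [hx, eval_mul, eval_mul, eval_pow, eval_pow, eval_X, zero_pow (by lia),
        zero_pow (by lia), zero_mul, zero_mul]
    · obtain ⟨z, rfl⟩ := Ideal.Quotient.mk_surjective x
      have h1 := key_point φ ι hD hP hA hAd hPe hDPR hND hPeven hDeven hPt hAt (τ := τ)
        (z := z) hx (hτ2 _ ι (φ z))
      rw [eval_mul, eval_mul, eval_pow, eval_pow, eval_X]
      rw [← h1]
      congr 1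
      rw [eval_map, aeval_def, hom_eval₂]
      congr 1
  have hc := congrArg (fun p => p.coeff (D.natDegree - r + 2 * r)) hpoly
  rw [coeff_X_pow_mul, show D.natDegree - r + 2 * r = r + D.natDegree by lia, coeff_X_pow_mul,
    coeff_map, coeff_map, LH_coeff D A hr hrN, hτ1] at hc
  refine ⟨hDeven r hr, ?_⟩
  have hinj : Function.Injective ι := ι.injective
  have h3 : (((LR D A).coeff r / 2 : ℤ) : ZMod 2) =
      res (red R * K0 ^ (2 * r) * derivative (red A)) (red A ^ (r + 1)) := by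
    apply hinj
    rw [← hc, map_intCast]
    rfl
  have ht1 : (t ^ (r + 1)).Monic := ht.pow _
  have htd1 : (t ^ (r + 1)).natDegree ≠ 0 := by
    rw [ht.natDegree_pow]; exact mul_ne_zero (by lia) htd
  rw [h3]
  have h4 : red R * K0 ^ (2 * r) * derivative (red A) =
      (red R * K0 ^ (r - 1) * derivative (red A)) * K0 ^ (r + 1) := by
    rw [show 2 * r = (r - 1) + (r + 1) by lia, pow_add]; ring
  have h5 : red A ^ (r + 1) = t ^ (r + 1) * K0 ^ (r + 1) := by rw [hAt, mul_pow]
  have h6 : red R * red A ^ (r - 1) * derivative (red A) =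
      (red R * K0 ^ (r - 1) * derivative (red A)) * t ^ (r - 1) := by
    rw [show red A ^ (r - 1) = t ^ (r - 1) * K0 ^ (r - 1) by rw [hAt, mul_pow]]
    ring
  have h7 : t ^ (2 * r) = t ^ (r + 1) * t ^ (r - 1) := by rw [← pow_add]; congr 1; lia
  rw [h4, h5, res_mul ht1 (hK.pow _) htd1, h6, h7, res_mul ht1 (ht.pow _) htd1]

end Pool.Agent.Lib.MP_416699_nt
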