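import Pool.Agent.Lib.MP_416699_nt.TrY
import Pool.Agent.Lib.MP_416699_nt.TrM
import Pool.Agent.Lib.MP_416699_nt.TrK
import Pool.Agent.Lib.MP_416699_nt.TrS3
import Pool.Agent.Lib.MP_416699_nt.TrT

/-!
The coefficient of index `2 ^ (m - 2)` of `LR (D m ℓ) (A m ℓ)` is `2` modulo `4` for `3 ≤ m ≤ ℓ`.
-/

open Polynomial

namespace Pool.Agent.Lib.MP_416699_nt

lemma trz_T_add (s n : ℕ) : T (s + n) = T s + T n ^ 2 ^ s := by
  induction s with
  | zero =>
    have h0 : T 0 = 0 := by rw [← red_a, a_zero, map_zero]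
    rw [zero_add, h0, pow_zero, pow_one, zero_add]
  | succ s ih =>
    have h1 : T n ^ 2 ^ (s + 1) = (T n ^ 2 ^ s) ^ 2 := by rw [← pow_mul, ← pow_succ]
    rw [show s + 1 + n = (s + n) + 1 by ring, T_succ, T_succ, ih, CharTwo.add_sq, h1]
    ring

theorem eps_odd {s n : ℕ} (hs : 1 ≤ s) (hn : s + 2 ≤ n) :
    ¬ 4 ∣ (LR (D (s + 2) n) (A (s + 2) n)).coeff (2 ^ s) := by
  have hn0 : n ≠ 0 := by lia
  have hs0 : s ≠ 0 := by lia
  have hpos : 1 ≤ 2 ^ s := Nat.one_le_two_pow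
  obtain ⟨n', rfl⟩ : ∃ n', n = n' + 1 := ⟨n - 1, by lia⟩
  have hD := D_monic (m := s + 2) (k := n' + 1) (by lia) (by lia)
  have hdeg1 : (a (s + (n' + 1))).natDegree = 2 ^ (s + n') := by
    rw [a_natDegree (by lia)]; congr 1
  have hdeg2 : (a s).natDegree = 2 ^ (s - 1) := a_natDegree hs0
  have hlt : (a s).natDegree < (a (s + (n' + 1))).natDegree := by
    rw [hdeg1, hdeg2]
    exact Nat.pow_lt_pow_right (by norm_num) (by lia)
  have hP : (a (s + (n' + 1)) + a s).Monic :=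
    (a_monic (by lia)).add_of_left (degree_lt_degree hlt)
  have hPd : (a (s + (n' + 1)) + a s).natDegree = 2 ^ (s + n') := by
    rw [natDegree_add_eq_left_of_natDegree_lt hlt, hdeg1]
  have hPe : Even (a (s + (n' + 1)) + a s).natDegree := by
    rw [hPd]
    exact (Nat.even_pow.2 ⟨even_two, by lia⟩)
  obtain ⟨hA1, hA2⟩ := A_facts s (n' + 1)
  have hAd : (A (s + 2) (n' + 1)).natDegree ≠ 0 := by
    have : 2 ^ s < 2 ^ (s + (n' + 1)) := Nat.pow_lt_pow_right (by norm_num) (by lia)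
    lia
  have hDPR : D (s + 2) (n' + 1) = (a (s + (n' + 1)) + a s) ^ 2 +
      2 * (X - a s * a (s + (n' + 1))) := by
    rw [D, show s + 2 + (n' + 1) - 1 = (s + (n' + 1)) + 1 by lia, show s + 2 - 1 = s + 1 by lia,
      a_succ, a_succ]
    ring
  have hrN : 2 ^ s ≤ (D (s + 2) (n' + 1)).natDegree := by
    have h1 : (red (D (s + 2) (n' + 1))).natDegree = (D (s + 2) (n' + 1)).natDegree :=
      hD.natDegree_map _
    have h2 : (red (a (s + (n' + 1)) + a s)).natDegree = (a (s + (n' + 1)) + a s).natDegree :=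
      hP.natDegree_map _
    rw [← h1, hDPR, map_add, map_mul, map_pow, map_ofNat, two_eq_zero_X, zero_mul, add_zero,
      natDegree_pow, h2, hPd]
    have : 2 ^ s ≤ 2 ^ (s + n') := Nat.pow_le_pow_right (by norm_num) (by lia)
    lia
  have hPt : red (a (s + (n' + 1)) + a s) = T (n' + 1) ^ 2 ^ s := by
    rw [map_add, red_a, red_a, trz_T_add]
    linear_combination T s * two_eq_zero_X
  have hredA : red (A (s + 2) (n' + 1)) = ∏ i ∈ Finset.range (n' + 1), T (s + 1 + i) := by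
    rw [A, map_prod]
    exact Finset.prod_congr rfl fun i _ => red_a _
  have hi0 : n' - s ∈ Finset.range (n' + 1) := by rw [Finset.mem_range]; lia
  have hAt : red (A (s + 2) (n' + 1)) =
      T (n' + 1) * ∏ i ∈ (Finset.range (n' + 1)).erase (n' - s), T (s + 1 + i) := by
    rw [hredA, ← Finset.mul_prod_erase _ _ hi0, show s + 1 + (n' - s) = n' + 1 by lia]
  have hK : (∏ i ∈ (Finset.range (n' + 1)).erase (n' - s), T (s + 1 + i)).Monic :=
    monic_prod_of_monic _ _ fun i _ => T_monic (by lia)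
  have htd : (T (n' + 1)).natDegree ≠ 0 := by
    rw [T_deg (Nat.succ_ne_zero n')]; positivity
  have hmain := eps_formula hD hP hA1 hAd hPe hDPR (r := 2 ^ s) (by positivity)
    (T_monic (Nat.succ_ne_zero n')) htd hK hPt hAt hrN
  have hredR : red (X - a s * a (s + (n' + 1))) = T (s + 1) + T s * T (n' + 1) ^ 2 ^ s := by
    have hX : red X = X := by simp [red]
    rw [map_sub, map_mul, red_a, red_a, trz_T_add, hX, T_succ s]
    linear_combination (-(T s) ^ 2 - T s * T (n' + 1) ^ 2 ^ s) * two_eq_zero_X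
  have hlm : ∀ h : (ZMod 2)[X], res h (T (n' + 1) ^ (2 * 2 ^ s)) =
      lm (n' + 1) (2 * 2 ^ s - 1) h := by
    intro h
    rw [res, lm, (T_monic (Nat.succ_ne_zero n')).natDegree_pow, T_deg (Nat.succ_ne_zero n'),
      show 2 * 2 ^ s - 1 + 1 = 2 * 2 ^ s by lia]
  rw [hredR, hlm, hredA, lm_RA hs hn, kap_eval hs hn] at hmain
  obtain ⟨⟨w, hw⟩, hmain⟩ := hmain
  rintro ⟨v, hv⟩
  have h1 : (LR (D (s + 2) (n' + 1)) (A (s + 2) (n' + 1))).coeff (2 ^ s) / 2 = 2 * v := by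
    rw [hv]; lia
  rw [h1, (ZMod.intCast_zmod_eq_zero_iff_dvd (2 * v) 2).2 (dvd_mul_right _ _)] at hmain
  exact zero_ne_one hmain

/-- The uniform theorem. -/
theorem not_comax_uniform {m ℓ q : ℕ} (hm : 3 ≤ m) (hℓ : m ≤ ℓ) (hq : 2 ^ (m - 1) ≤ q.totient)
    (u v : ℤ[X]) : u * G m (ℓ * q) + v * G m ℓ ≠ 1 := by
  obtain ⟨s, rfl⟩ : ∃ s, m = s + 2 := ⟨m - 2, by lia⟩
  have h1 : 2 ^ (s + 2 - 1) = 2 * 2 ^ s := by
    rw [show s + 2 - 1 = s + 1 by lia, pow_succ]; ring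
  have hpos : 2 ^ 1 ≤ 2 ^ s := Nat.pow_le_pow_right (by norm_num) (by lia)
  have h2 := eps_odd (s := s) (n := ℓ) (by lia) hℓ
  have h3 := coeff_D_Q (m := s + 2) (ℓ := ℓ) (k := 2 ^ s) (by lia) (by lia) (by rw [h1]; lia)
  rw [h1] at hq
  have hq3 : 3 ≤ q := by
    have : q.totient ≤ q := Nat.totient_le q
    lia
  refine not_comax_of_coeff' (k := 2 ^ s) (by lia) (by lia) (by positivity) (fun h4 => h2 ?_)
    hq hq3 u v
  exact (dvd_sub_left h4).1 h3

end Pool.Agent.Lib.MP_416699_nt
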